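import Mathlib
import Pool.Agent.GrC.Diff

/-!
Signed Koszul differential on functions of finite sets.
-/

set_option autoImplicit false

namespace Pool.Agent.GrP

open Finset Pool.Agent.GrC

/-- `(-1)^(number of elements of T below j)`. -/
def sg (k : Type*) [Ring k] {ι : Type*} [LinearOrder ι] (j : ι) (T : Finset ι) : k :=
  (-1) ^ (T.filter (· < j)).card

/-- The Koszul differential in the directions of `J`. -/
def dS {F : Type*} [Field F] {ι : Type*} [LinearOrder ι] (J : Finset ι) (e : ι → F)
    (z : Finset ι → F) (T : Finset ι) : F :=
  ∑ j ∈ J \ T, sg F j T * (e j * z (insert j T))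

end Pool.Agent.GrP
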