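import Mathlib
import Pool.Agent.GrC.Stmt
import Pool.Agent.GrC.Link
import Pool.Agent.GrP.Sgn

/-!
The Koszul differential in coordinates, any characteristic (`GrC/Link.lean` is the case of
characteristic two; `CF b i M` are the coordinates of `⋀^i V ⊗ M` as functions of finite sets).

Proof as in `GrC/Link.lean`: on the basis element `b_S ⊗ m`, `S = {s_0 < ... < s_i}`, the differential is
`∑ (-1)^j b_(S - s_j) ⊗ μ(b_(s_j), m)`, and `j` is the number of elements of `S - s_j` below `s_j`; removing
`s_j` from the sorted tuple of `S` gives the sorted tuple of `S - s_j` (`Finset.orderEmbOfFin_unique`).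
-/

set_option autoImplicit false

namespace Pool.Agent.GrP

open Finset Module TensorProduct Pool.Agent.GrC

variable {k V M N : Type*} [Field k] [AddCommGroup V] [Module k V] [AddCommGroup M] [Module k M]
  [AddCommGroup N] [Module k N] {n : ℕ}

private theorem slink_old (μ : V →ₗ[k] M →ₗ[k] N) (i : ℕ) : GrS.kos μ i = GrC.kos μ i :=
  (GrS.existsUnique_kos μ i).unique (GrS.existsUnique_kos μ i).choose_spec.1 (GrS.isKos_old μ i)

/-- the number of elements of `S - g j` below `g j` -/
private theorem slink_cnt {i : ℕ} (S : Finset (Fin n)) (hS : S.card = i + 1) (j : Fin (i + 1)) :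
    ((S.erase (S.orderEmbOfFin hS j)).filter (· < S.orderEmbOfFin hS j)).card = j := by
  classical
  set g := S.orderEmbOfFin hS with hg
  have h1 : (S.erase (g j)).filter (· < g j) = (Finset.Iio j).map g.toEmbedding := by
    ext x
    simp only [mem_filter, mem_erase, mem_map, mem_Iio]
    constructor
    · rintro ⟨⟨_, hxS⟩, hx⟩
      have hx' : x ∈ Set.range g := by
        rw [hg, Finset.range_orderEmbOfFin]; exact hxS
      obtain ⟨a, rfl⟩ := hx'
      exact ⟨a, g.lt_iff_lt.1 hx, rfl⟩
    · rintro ⟨a, ha, rfl⟩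
      have h2 : g a < g j := g.lt_iff_lt.2 ha
      exact ⟨⟨h2.ne, Finset.orderEmbOfFin_mem _ _ _⟩, h2⟩
  rw [h1, card_map, Fin.card_Iio]

private theorem slink_tmul (b : Basis (Fin n) k V) (μ : V →ₗ[k] M →ₗ[k] N) (i : ℕ)
    (S : Set.powersetCard (Fin n) (i + 1)) (m : M) (T : Finset (Fin n)) :
    CF b i N (GrC.kos μ i (bE b (i + 1) S ⊗ₜ m)) T
      = ∑ l ∈ S.1, if S.1.erase l = T then sg k l T • μ (b l) m else 0 := by
  classical
  set g := S.1.orderEmbOfFin S.2 with hg
  have hgS : ∀ j, g j ∈ S.1 := fun j => Finset.orderEmbOfFin_mem _ _ _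
  have hcard : ∀ j, (S.1.erase (g j)).card = i := by
    intro j
    rw [card_erase_of_mem (hgS j), S.2]; rfl
  have h1 : GrC.kos μ i (bE b (i + 1) S ⊗ₜ m)
      = ∑ j : Fin (i + 1), ((-1 : k) ^ (j : ℕ)) •
        (bE b i ⟨S.1.erase (g j), hcard j⟩ ⊗ₜ[k] μ (b (g j)) m) := by
    rw [bE_apply, kos_apply]
    refine sum_congr rfl (fun j _ => ?_)
    have h2 : wedge k V i (j.removeNth (b ∘ g)) = bE b i ⟨S.1.erase (g j), hcard j⟩ := by
      have h3 : j.removeNth (b ∘ g) = b ∘ (g ∘ j.succAbove) := by
        funext a; rfl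
      rw [h3, bE_apply]
      have h4 : (g ∘ j.succAbove) = (S.1.erase (g j)).orderEmbOfFin (hcard j) := by
        refine Finset.orderEmbOfFin_unique (hcard j) ?_ ?_
        · intro a
          rw [mem_erase]
          exact ⟨fun h => Fin.succAbove_ne j a (g.injective h), hgS _⟩
        · exact g.strictMono.comp (Fin.strictMono_succAbove j)
      rw [h4]
    rw [h2]
    rcases neg_one_pow_eq_or ℤ (j : ℕ) with h | h
    · have h' : (-1 : k) ^ (j : ℕ) = 1 := by
        have := congrArg (Int.cast : ℤ → k) h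
        push_cast at this
        exact this
      rw [h, h', one_smul, one_smul]
      rfl
    · have h' : (-1 : k) ^ (j : ℕ) = -1 := by
        have := congrArg (Int.cast : ℤ → k) h
        push_cast at this
        exact this
      rw [h, h', neg_smul, neg_smul, one_smul, one_smul]
      rfl
  rw [h1, map_sum, Finset.sum_apply]
  have h6 : ∀ j : Fin (i + 1), CF b i N (((-1 : k) ^ (j : ℕ)) •
      (bE b i ⟨S.1.erase (g j), hcard j⟩ ⊗ₜ[k] μ (b (g j)) m)) T =
      if S.1.erase (g j) = T then sg k (g j) T • μ (b (g j)) m else 0 := by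
    intro j
    rw [map_smul, Pi.smul_apply, CF_tmul]
    by_cases h : S.1.erase (g j) = T
    · rw [if_pos h, if_pos h, ← h]
      unfold sg
      rw [slink_cnt S.1 S.2 j]
    · rw [if_neg h, if_neg h, smul_zero]
  rw [sum_congr rfl fun j _ => h6 j]
  -- reindex
  have h4 : S.1 = univ.map g.toEmbedding := by
    ext x
    simp only [mem_map, mem_univ, true_and]
    constructor
    · intro hx
      have hx' : x ∈ Set.range g := by
        rw [hg, Finset.range_orderEmbOfFin]; exact hx
      obtain ⟨a, ha⟩ := hx'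
      exact ⟨a, ha⟩
    · rintro ⟨a, rfl⟩
      exact hgS a
  have h5 : ∑ l ∈ S.1, (if S.1.erase l = T then sg k l T • μ (b l) m else 0)
      = ∑ l ∈ univ.map g.toEmbedding, (if S.1.erase l = T then sg k l T • μ (b l) m else 0) := by
    rw [← h4]
  rw [h5, sum_map]
  rfl

theorem CF_kosS (b : Basis (Fin n) k V) (μ : V →ₗ[k] M →ₗ[k] N) (i : ℕ)
    (t : GrS.KC k V M (i + 1)) (T : Finset (Fin n)) :
    CF b i N (GrS.kos μ i t) T =
      ∑ j ∈ univ \ T, sg k j T • μ (b j) (CF b (i + 1) M t (insert j T)) := by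
  classical
  rw [slink_old]
  -- both sides are linear
  let A : ExtP k V (i + 1) ⊗[k] M →ₗ[k] N :=
    (LinearMap.proj T).comp ((CF b i N).comp (GrC.kos μ i))
  let B : ExtP k V (i + 1) ⊗[k] M →ₗ[k] N :=
    ∑ j ∈ univ \ T, sg k j T • (μ (b j)).comp ((LinearMap.proj (insert j T)).comp (CF b (i + 1) M))
  have hAB : A = B := by
    apply TensorProduct.ext
    apply (bE b (i + 1)).ext
    intro S
    ext m
    change CF b i N (GrC.kos μ i (bE b (i + 1) S ⊗ₜ m)) T = B (bE b (i + 1) S ⊗ₜ m)
    rw [slink_tmul]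
    have hB : B (bE b (i + 1) S ⊗ₜ m) =
        ∑ j ∈ univ \ T, if S.1 = insert j T then sg k j T • μ (b j) m else 0 := by
      simp only [B, LinearMap.sum_apply, LinearMap.smul_apply, LinearMap.comp_apply,
        LinearMap.proj_apply, CF_tmul]
      refine sum_congr rfl (fun j _ => ?_)
      split_ifs
      · rfl
      · rw [map_zero, smul_zero]
    rw [hB, ← sum_filter, ← sum_filter]
    apply sum_congr _ (fun _ _ => rfl)
    ext l
    simp only [mem_filter, mem_sdiff, mem_univ, true_and]
    constructor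
    · rintro ⟨h1, h2⟩
      rw [← h2]
      exact ⟨notMem_erase l _, (insert_erase h1).symm⟩
    · rintro ⟨h1, h2⟩
      rw [h2]
      exact ⟨mem_insert_self _ _, erase_insert h1⟩
  have := LinearMap.congr_fun hAB t
  simp only [A, B, LinearMap.sum_apply, LinearMap.smul_apply, LinearMap.comp_apply,
    LinearMap.proj_apply] at this
  exact this

end Pool.Agent.GrP
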