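import Mathlib

/-!
Pluecker coordinates of two vectors `x, y` and the coordinate rings of the Schubert varieties
`x_i = 0 (i < a)`, `y_j = 0 (j < b)`.

`MvPolynomial (ℕ ⊕ ℕ) F` is the ring `F[x_i, y_i]` (`inl i` is `x_i`, `inr i` is `y_i`),
`MvPolynomial (ℕ × ℕ) F` is the ring of the Pluecker variables `T_(i,j)`; only the `T_(i,j)` with
`i < j < n` are used, the others are sent to `0`.
-/

set_option autoImplicit false

namespace Pool.Agent.GrP

open MvPolynomial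

section

variable (F : Type*) [Field F]

/-- `x_i`, or `0` if `i < a`. -/
noncomputable def xx (a i : ℕ) : MvPolynomial (ℕ ⊕ ℕ) F :=
  if a ≤ i then X (Sum.inl i) else 0

/-- `y_j`, or `0` if `j < b`. -/
noncomputable def yy (b j : ℕ) : MvPolynomial (ℕ ⊕ ℕ) F :=
  if b ≤ j then X (Sum.inr j) else 0

/-- `x_i y_j - x_j y_i` with `x_l = 0` for `l < a` and `y_l = 0` for `l < b`. -/
noncomputable def minor (a b : ℕ) (u : ℕ × ℕ) : MvPolynomial (ℕ ⊕ ℕ) F :=
  xx F a u.1 * yy F b u.2 - xx F a u.2 * yy F b u.1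

/-- `T_(i,j) ↦ x_i y_j - x_j y_i` for `i < j < n`, and `T_(i,j) ↦ 0` for all other pairs. -/
noncomputable def phi (n a b : ℕ) : MvPolynomial (ℕ × ℕ) F →ₐ[F] MvPolynomial (ℕ ⊕ ℕ) F :=
  aeval (fun u => if u.1 < u.2 ∧ u.2 < n then minor F a b u else 0)

/-- The ideal of the Schubert variety. -/
noncomputable def II (n a b : ℕ) : Ideal (MvPolynomial (ℕ × ℕ) F) := RingHom.ker (phi F n a b)

/-- `h_s = ∑ c_ij T_(i,j)` over `i < j < n`, `i + j = s`. -/
noncomputable def hh (n : ℕ) (c : ℕ → ℕ → F) (s : ℕ) : MvPolynomial (ℕ × ℕ) F :=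
  ∑ u ∈ (Finset.range n ×ˢ Finset.range n).filter (fun u => u.1 < u.2 ∧ u.1 + u.2 = s),
    C (c u.1 u.2) * X u

end

end Pool.Agent.GrP
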