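import Mathlib

/-!
The map `ι` from forms of degree `m` to invariants of two vectors `x, y`.

`Phi μ x y = ∏ (x_i + y_i X)^μ_i`, `fX f x y = f(x + y X)`, both in `A[X]`, and
`iota = ∑_(j ≤ m) (-1)^j C(m,j)^(-1) [X^(q-1+qj)] Phi * ([X^(m-j)] fX)^q`.
Here `q = p^e` is a power of the characteristic, `∑ μ_i = q (m + 2) - 2`, `f` is homogeneous of
degree `m`, and all binomial coefficients `C(m,j)` are invertible.
-/

set_option autoImplicit false

namespace Pool.Agent.GrP

open MvPolynomial

section

variable {F : Type*} [Field F] {A : Type*} [CommRing A] [Algebra F A] {n : ℕ}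

/-- `∏ (x_i + y_i X)^μ_i`. -/
noncomputable def Phi (μ : Fin n → ℕ) (x y : Fin n → A) : Polynomial A :=
  ∏ i, (Polynomial.C (x i) + Polynomial.C (y i) * Polynomial.X) ^ μ i

/-- `f(x + y X)`. -/
noncomputable def fX (f : MvPolynomial (Fin n) F) (x y : Fin n → A) : Polynomial A :=
  aeval (fun i => Polynomial.C (x i) + Polynomial.C (y i) * Polynomial.X) f

/-- The invariant of `f`. -/
noncomputable def iota (m q : ℕ) (μ : Fin n → ℕ) (f : MvPolynomial (Fin n) F) (x y : Fin n → A) :
    A :=
  ∑ j ∈ Finset.range (m + 1), algebraMap F A ((-1) ^ j * ((m.choose j : F))⁻¹) *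
    ((Phi μ x y).coeff (q - 1 + q * j) * (fX f x y).coeff (m - j) ^ q)

private theorem iota_map_Phi {B : Type*} [CommRing B] [Algebra F B] (ψ : A →ₐ[F] B)
    (μ : Fin n → ℕ) (x y : Fin n → A) :
    (Phi μ x y).map (ψ : A →+* B) = Phi μ (fun i => ψ (x i)) (fun i => ψ (y i)) := by
  unfold Phi
  rw [Polynomial.map_prod]
  refine Finset.prod_congr rfl fun i _ => ?_
  simp

private theorem iota_fX_sum (f : MvPolynomial (Fin n) F) (x y : Fin n → A) :
    fX f x y = ∑ d ∈ f.support, Polynomial.C (algebraMap F A (coeff d f)) * Phi (⇑d) x y := by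
  unfold fX Phi
  rw [MvPolynomial.aeval_def, MvPolynomial.eval₂_eq']
  rfl

private theorem iota_map_fX {B : Type*} [CommRing B] [Algebra F B] (ψ : A →ₐ[F] B)
    (f : MvPolynomial (Fin n) F) (x y : Fin n → A) :
    (fX f x y).map (ψ : A →+* B) = fX f (fun i => ψ (x i)) (fun i => ψ (y i)) := by
  rw [iota_fX_sum, iota_fX_sum, Polynomial.map_sum]
  refine Finset.sum_congr rfl fun d _ => ?_
  rw [Polynomial.map_mul, iota_map_Phi, Polynomial.map_C]
  simp

/-- Algebra homomorphisms commute with `iota`. -/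
theorem map_iota {B : Type*} [CommRing B] [Algebra F B] (ψ : A →ₐ[F] B) (m q : ℕ) (μ : Fin n → ℕ)
    (f : MvPolynomial (Fin n) F) (x y : Fin n → A) :
    ψ (iota m q μ f x y) = iota m q μ f (fun i => ψ (x i)) (fun i => ψ (y i)) := by
  unfold iota
  rw [map_sum]
  refine Finset.sum_congr rfl fun j _ => ?_
  rw [← iota_map_Phi ψ, ← iota_map_fX ψ, Polynomial.coeff_map, Polynomial.coeff_map,
    map_mul ψ, AlgHom.commutes, map_mul ψ, map_pow ψ]
  rfl

private theorem iota_lin_deg (u v : A) :
    (Polynomial.C u + Polynomial.C v * Polynomial.X).natDegree ≤ 1 := by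
  rw [add_comm]
  exact Polynomial.natDegree_linear_le

private theorem iota_lin_pow_deg (u v : A) (k : ℕ) :
    ((Polynomial.C u + Polynomial.C v * Polynomial.X) ^ k).natDegree ≤ k := by
  refine le_trans Polynomial.natDegree_pow_le ?_
  have := iota_lin_deg u v
  nlinarith

private theorem iota_prod_deg (μ : Fin n → ℕ) (x y : Fin n → A) (s : Finset (Fin n)) :
    (∏ i ∈ s, (Polynomial.C (x i) + Polynomial.C (y i) * Polynomial.X) ^ μ i).natDegree ≤
      ∑ i ∈ s, μ i := by
  refine le_trans (Polynomial.natDegree_prod_le _ _) ?_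
  exact Finset.sum_le_sum fun i _ => iota_lin_pow_deg _ _ _

private theorem iota_reflect_lin (u v : A) :
    Polynomial.reflect 1 (Polynomial.C u + Polynomial.C v * Polynomial.X) =
      Polynomial.C v + Polynomial.C u * Polynomial.X := by
  rw [Polynomial.reflect_add, Polynomial.reflect_C, ← pow_one (Polynomial.X : Polynomial A),
    Polynomial.reflect_C_mul_X_pow]
  simp [Polynomial.revAt_le, add_comm]

private theorem iota_reflect_pow (u v : A) (k : ℕ) :
    Polynomial.reflect k ((Polynomial.C u + Polynomial.C v * Polynomial.X) ^ k) =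
      (Polynomial.C v + Polynomial.C u * Polynomial.X) ^ k := by
  induction k with
  | zero => simp
  | succ k ih =>
    rw [pow_succ, Polynomial.reflect_mul _ _ (iota_lin_pow_deg u v k) (iota_lin_deg u v), ih,
      iota_reflect_lin, pow_succ]

private theorem iota_reflect_prod (μ : Fin n → ℕ) (x y : Fin n → A) (s : Finset (Fin n)) :
    Polynomial.reflect (∑ i ∈ s, μ i)
        (∏ i ∈ s, (Polynomial.C (x i) + Polynomial.C (y i) * Polynomial.X) ^ μ i) =
      ∏ i ∈ s, (Polynomial.C (y i) + Polynomial.C (x i) * Polynomial.X) ^ μ i := by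
  classical
  induction s using Finset.induction_on with
  | empty => simp
  | insert i s hi ih =>
    rw [Finset.prod_insert hi, Finset.prod_insert hi, Finset.sum_insert hi,
      Polynomial.reflect_mul _ _ (iota_lin_pow_deg _ _ _) (iota_prod_deg _ _ _ _), ih,
      iota_reflect_pow]

private theorem iota_Phi_swap (μ : Fin n → ℕ) (x y : Fin n → A) (k : ℕ) (hk : k ≤ ∑ i, μ i) :
    (Phi μ y x).coeff k = (Phi μ x y).coeff (∑ i, μ i - k) := by
  unfold Phi
  rw [← iota_reflect_prod μ x y Finset.univ, Polynomial.coeff_reflect, Polynomial.revAt_le hk]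

private theorem iota_fX_swap (m : ℕ) (f : MvPolynomial (Fin n) F) (hf : f.IsHomogeneous m)
    (x y : Fin n → A) (k : ℕ) (hk : k ≤ m) :
    (fX f y x).coeff k = (fX f x y).coeff (m - k) := by
  rw [iota_fX_sum, iota_fX_sum, Polynomial.finsetSum_coeff, Polynomial.finsetSum_coeff]
  refine Finset.sum_congr rfl fun d hd => ?_
  have hdm : ∑ i, d i = m := by
    have := hf (MvPolynomial.mem_support_iff.1 hd)
    rw [Finsupp.weight_apply, Finsupp.sum_fintype _ _ (fun i => by simp)] at this
    simpa using this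
  rw [Polynomial.coeff_C_mul, Polynomial.coeff_C_mul, iota_Phi_swap _ _ _ _ (hdm ▸ hk), hdm]

/-- Interchanging `x` and `y`: both polynomials are reversed. -/
theorem iota_swap (m q : ℕ) (hq : 1 ≤ q) (μ : Fin n → ℕ) (hμ : ∑ i, μ i + 2 = q * (m + 2))
    (f : MvPolynomial (Fin n) F) (hf : f.IsHomogeneous m) (x y : Fin n → A) :
    iota m q μ f y x = (-1) ^ m * iota m q μ f x y := by
  unfold iota
  rw [← Finset.sum_range_reflect, Finset.mul_sum]
  refine Finset.sum_congr rfl fun j hj => ?_
  have hj' : j ≤ m := by simpa [Nat.lt_succ_iff] using hj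
  obtain ⟨l, rfl⟩ := Nat.exists_eq_add_of_le hj'
  obtain ⟨r, rfl⟩ := Nat.exists_eq_add_of_le' hq
  have e1 : j + l + 1 - 1 - j = l := by omega
  have e2 : j + l - l = j := by omega
  have e3 : j + l - j = l := by omega
  have hN : ∑ i, μ i = 2 * r + (r + 1) * (j + l) := by
    have : (r + 1) * (j + l + 2) = 2 * r + (r + 1) * (j + l) + 2 := by ring
    omega
  have hk : r + 1 - 1 + (r + 1) * l ≤ ∑ i, μ i := by
    rw [hN, mul_add]; omega
  have hk2 : ∑ i, μ i - (r + 1 - 1 + (r + 1) * l) = r + 1 - 1 + (r + 1) * j := by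
    rw [hN, mul_add]; omega
  rw [e1, e2, e3, iota_Phi_swap μ x y _ hk, hk2, iota_fX_swap (j + l) f hf x y j (by omega), e3]
  have hc : ((j + l).choose l : F) = ((j + l).choose j : F) := by
    rw [Nat.choose_symm_add]
  rw [hc]
  have hs : (-1 : F) ^ l = (-1) ^ (j + l) * (-1) ^ j := by
    rw [pow_add]
    have : (-1 : F) ^ j * (-1) ^ j = 1 := by
      rw [← mul_pow]; simp
    linear_combination (-(-1 : F) ^ l) * this
  rw [hs]
  simp only [map_mul, map_pow, map_neg, map_one]
  ring

private theorem iota_coeff_lin (u v a d : A) (k : ℕ) :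
    (Polynomial.C (a * u) + Polynomial.C (d * v) * Polynomial.X).coeff k =
      a ^ (1 - k) * d ^ k * (Polynomial.C u + Polynomial.C v * Polynomial.X).coeff k := by
  rcases k with _ | _ | k
  · simp
  · simp
  · simp

private theorem iota_scale_mul {N M : ℕ} {a d : A} {f g f' g' : Polynomial A}
    (hg : g.natDegree ≤ N) (hg' : g'.natDegree ≤ M)
    (h : ∀ k, f.coeff k = a ^ (N - k) * d ^ k * g.coeff k)
    (h' : ∀ k, f'.coeff k = a ^ (M - k) * d ^ k * g'.coeff k) (k : ℕ) :
    (f * f').coeff k = a ^ (N + M - k) * d ^ k * (g * g').coeff k := by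
  rw [Polynomial.coeff_mul, Polynomial.coeff_mul, Finset.mul_sum]
  refine Finset.sum_congr rfl fun t ht => ?_
  have ht : t.1 + t.2 = k := Finset.HasAntidiagonal.mem_antidiagonal.1 ht
  rw [h, h']
  by_cases h1 : t.1 ≤ N
  · by_cases h2 : t.2 ≤ M
    · have e : N + M - k = (N - t.1) + (M - t.2) := by omega
      rw [e, ← ht, pow_add, pow_add]; ring
    · rw [Polynomial.coeff_eq_zero_of_natDegree_lt (n := t.2) (p := g') (by omega)]; ring
  · rw [Polynomial.coeff_eq_zero_of_natDegree_lt (n := t.1) (p := g) (by omega)]; ring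

private theorem iota_coeff_pow (u v a d : A) (N : ℕ) : ∀ k,
    ((Polynomial.C (a * u) + Polynomial.C (d * v) * Polynomial.X) ^ N).coeff k =
      a ^ (N - k) * d ^ k * ((Polynomial.C u + Polynomial.C v * Polynomial.X) ^ N).coeff k := by
  induction N with
  | zero =>
    intro k
    rcases k with _ | k
    · simp
    · simp [Polynomial.coeff_one]
  | succ N ih =>
    intro k
    rw [pow_succ, pow_succ]
    exact iota_scale_mul (iota_lin_pow_deg u v N) (iota_lin_deg u v) ih
      (iota_coeff_lin u v a d) k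

private theorem iota_coeff_prod (μ : Fin n → ℕ) (x y : Fin n → A) (a d : A) (s : Finset (Fin n)) :
    ∀ k, (∏ i ∈ s, (Polynomial.C (a * x i) + Polynomial.C (d * y i) * Polynomial.X) ^
        μ i).coeff k = a ^ (∑ i ∈ s, μ i - k) * d ^ k *
      (∏ i ∈ s, (Polynomial.C (x i) + Polynomial.C (y i) * Polynomial.X) ^ μ i).coeff k := by
  classical
  induction s using Finset.induction_on with
  | empty =>
    intro k
    rcases k with _ | k
    · simp
    · simp [Polynomial.coeff_one]
  | insert i s hi ih =>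
    intro k
    rw [Finset.prod_insert hi, Finset.prod_insert hi, Finset.sum_insert hi]
    exact iota_scale_mul (iota_lin_pow_deg _ _ _) (iota_prod_deg _ _ _ _)
      (iota_coeff_pow _ _ _ _ _) ih k

private theorem iota_Phi_scale (μ : Fin n → ℕ) (x y : Fin n → A) (a d : A) (k : ℕ) :
    (Phi μ (fun i => a * x i) (fun i => d * y i)).coeff k =
      a ^ (∑ i, μ i - k) * d ^ k * (Phi μ x y).coeff k := by
  unfold Phi
  exact iota_coeff_prod μ x y a d Finset.univ k

private theorem iota_fX_scale (m : ℕ) (f : MvPolynomial (Fin n) F) (hf : f.IsHomogeneous m)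
    (x y : Fin n → A) (a d : A) (k : ℕ) :
    (fX f (fun i => a * x i) (fun i => d * y i)).coeff k =
      a ^ (m - k) * d ^ k * (fX f x y).coeff k := by
  rw [iota_fX_sum, iota_fX_sum, Polynomial.finsetSum_coeff, Polynomial.finsetSum_coeff,
    Finset.mul_sum]
  refine Finset.sum_congr rfl fun e he => ?_
  have hdm : ∑ i, e i = m := by
    have := hf (MvPolynomial.mem_support_iff.1 he)
    rw [Finsupp.weight_apply, Finsupp.sum_fintype _ _ (fun i => by simp)] at this
    simpa using this
  rw [Polynomial.coeff_C_mul, Polynomial.coeff_C_mul, iota_Phi_scale, hdm]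
  ring

/-- Scaling. -/
theorem iota_scale (m q : ℕ) (hq : 1 ≤ q) (μ : Fin n → ℕ) (hμ : ∑ i, μ i + 2 = q * (m + 2))
    (f : MvPolynomial (Fin n) F) (hf : f.IsHomogeneous m) (x y : Fin n → A) (a d : A) :
    iota m q μ f (fun i => a * x i) (fun i => d * y i) =
      (a * d) ^ (q * (m + 1) - 1) * iota m q μ f x y := by
  unfold iota
  rw [Finset.mul_sum]
  refine Finset.sum_congr rfl fun j hj => ?_
  have hj' : j ≤ m := by simpa [Nat.lt_succ_iff] using hj
  obtain ⟨l, rfl⟩ := Nat.exists_eq_add_of_le hj'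
  obtain ⟨r, rfl⟩ := Nat.exists_eq_add_of_le' hq
  have e3 : j + l - j = l := by omega
  have e4 : j + l - l = j := by omega
  have hN : ∑ i, μ i = 2 * r + (r + 1) * (j + l) := by
    have : (r + 1) * (j + l + 2) = 2 * r + (r + 1) * (j + l) + 2 := by ring
    omega
  have hk : ∑ i, μ i - (r + 1 - 1 + (r + 1) * j) = r + (r + 1) * l := by
    rw [hN, mul_add]; omega
  have hE : (r + 1) * (j + l + 1) - 1 = r + (r + 1) * (j + l) := by
    have : (r + 1) * (j + l + 1) = r + (r + 1) * (j + l) + 1 := by ring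
    omega
  rw [e3, iota_Phi_scale, iota_fX_scale (j + l) f hf, hk, e4, hE, Nat.add_sub_cancel]
  rw [mul_pow, mul_pow, ← pow_mul, ← pow_mul, mul_pow]
  have ea : a ^ (r + (r + 1) * (j + l)) = a ^ (r + (r + 1) * l) * a ^ (j * (r + 1)) := by
    rw [← pow_add]; congr 1; ring
  have ed : d ^ (r + (r + 1) * (j + l)) = d ^ (r + (r + 1) * j) * d ^ (l * (r + 1)) := by
    rw [← pow_add]; congr 1; ring
  rw [ea, ed]
  ring

end

end Pool.Agent.GrP
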