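import Mathlib
import Pool.Agent.GrP.Iota

/-!
Invariance of `iota` under the translation `x ↦ x + ν y`, and the special substitution.
-/

set_option autoImplicit false

namespace Pool.Agent.GrP

open MvPolynomial

section

variable {F : Type*} [Field F] {A : Type*} [CommRing A] [Algebra F A] {n : ℕ}

private theorem iotaT_lucas (p : ℕ) [Fact p.Prime] (e : ℕ) : ∀ a b : ℕ,
    a.choose b ≡ (a % p ^ e).choose (b % p ^ e) * (a / p ^ e).choose (b / p ^ e) [MOD p] := by
  induction e with
  | zero => intro a b; simp [Nat.mod_one]; rfl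
  | succ e ih =>
    intro a b
    have hp : 0 < p := (Fact.out : p.Prime).pos
    have h1 := Choose.choose_modEq_choose_mod_mul_choose_div_nat (n := a) (k := b) (p := p)
    have h2 := ih (a / p) (b / p)
    have h3 := Choose.choose_modEq_choose_mod_mul_choose_div_nat (n := a % p ^ (e + 1))
      (k := b % p ^ (e + 1)) (p := p)
    have e1 : ∀ c : ℕ, c % p ^ (e + 1) % p = c % p := fun c =>
      Nat.mod_mod_of_dvd c (dvd_pow_self p (Nat.succ_ne_zero e))
    have e2 : ∀ c : ℕ, c % p ^ (e + 1) / p = c / p % p ^ e := fun c => by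
      rw [pow_succ', Nat.mod_mul_right_div_self]
    have e3 : ∀ c : ℕ, c / p / p ^ e = c / p ^ (e + 1) := fun c => by
      rw [Nat.div_div_eq_div_mul, pow_succ']
    rw [e1, e1, e2, e2] at h3
    rw [e3, e3] at h2
    calc a.choose b ≡ (a % p).choose (b % p) * (a / p).choose (b / p) [MOD p] := h1
      _ ≡ (a % p).choose (b % p) * ((a / p % p ^ e).choose (b / p % p ^ e) *
            (a / p ^ (e + 1)).choose (b / p ^ (e + 1))) [MOD p] := Nat.ModEq.mul_left _ h2
      _ = ((a % p).choose (b % p) * (a / p % p ^ e).choose (b / p % p ^ e)) *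
            (a / p ^ (e + 1)).choose (b / p ^ (e + 1)) := by ring
      _ ≡ (a % p ^ (e + 1)).choose (b % p ^ (e + 1)) *
            (a / p ^ (e + 1)).choose (b / p ^ (e + 1)) [MOD p] :=
          Nat.ModEq.mul_right _ h3.symm

private theorem iotaT_lucas' (p e : ℕ) [Fact p.Prime] [CharP A p] (a j : ℕ) :
    (((p ^ e - 1 + p ^ e * a).choose (p ^ e - 1 + p ^ e * j) : ℕ) : A) = (a.choose j : A) := by
  have hq : 0 < p ^ e := pow_pos (Fact.out : p.Prime).pos e
  have h := iotaT_lucas p e (p ^ e - 1 + p ^ e * a) (p ^ e - 1 + p ^ e * j)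
  have hm : ∀ c : ℕ, (p ^ e - 1 + p ^ e * c) % p ^ e = p ^ e - 1 := fun c => by
    rw [Nat.add_mul_mod_self_left, Nat.mod_eq_of_lt (by omega)]
  have hd : ∀ c : ℕ, (p ^ e - 1 + p ^ e * c) / p ^ e = c := fun c => by
    rw [Nat.add_mul_div_left _ _ hq, Nat.div_eq_of_lt (by omega), zero_add]
  rw [hm, hm, hd, hd, Nat.choose_self, one_mul] at h
  exact (CharP.cast_eq_iff_mod_eq A p).2 h

private theorem iotaT_lucas0 (p e : ℕ) [Fact p.Prime] [CharP A p] (i j : ℕ)
    (hi : i % p ^ e ≠ p ^ e - 1) :
    ((i.choose (p ^ e - 1 + p ^ e * j) : ℕ) : A) = 0 := by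
  have hq : 0 < p ^ e := pow_pos (Fact.out : p.Prime).pos e
  have h := iotaT_lucas p e i (p ^ e - 1 + p ^ e * j)
  have hm : (p ^ e - 1 + p ^ e * j) % p ^ e = p ^ e - 1 := by
    rw [Nat.add_mul_mod_self_left, Nat.mod_eq_of_lt (by omega)]
  have hlt : i % p ^ e < p ^ e - 1 := by
    have := Nat.mod_lt i hq
    omega
  rw [hm, Nat.choose_eq_zero_of_lt hlt, zero_mul] at h
  have := (CharP.cast_eq_iff_mod_eq A p).2 h
  simpa using this

private theorem iotaT_coeff (P : Polynomial A) (M : ℕ) (hP : P.natDegree < M) (ν : A) (k : ℕ) :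
    (Polynomial.taylor ν P).coeff k =
      ∑ i ∈ Finset.range M, P.coeff i * ((i.choose k : ℕ) : A) * ν ^ (i - k) := by
  rw [Polynomial.taylor_coeff, Polynomial.hasseDeriv_apply,
    Polynomial.sum_over_range' _ _ M hP, Polynomial.eval_finsetSum]
  · refine Finset.sum_congr rfl fun i _ => ?_
    rw [Polynomial.eval_monomial]
    ring
  · intro i
    simp

private theorem iotaT_alt (c a : ℕ) (hc : c ≤ a) :
    ∑ i ∈ Finset.range (a + 1), (-1 : F) ^ i * ((c.choose i : ℕ) : F) =
      if c = 0 then 1 else 0 := by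
  have h : ∑ i ∈ Finset.range (a + 1), (-1 : F) ^ i * ((c.choose i : ℕ) : F) =
      ∑ i ∈ Finset.range (c + 1), (-1 : F) ^ i * ((c.choose i : ℕ) : F) := by
    symm
    refine Finset.sum_subset (Finset.range_mono (by omega)) fun i _ hi => ?_
    rw [Nat.choose_eq_zero_of_lt (by simpa [Nat.lt_succ_iff] using hi)]
    simp
  rw [h]
  have h2 := congrArg (Int.cast : ℤ → F) (Int.alternating_sum_range_choose (n := c))
  push_cast at h2
  rw [h2]

private theorem iotaT_term (m : ℕ) (hbin : ∀ j ≤ m, (m.choose j : F) ≠ 0) (a b : ℕ) (ha : a ≤ m)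
    (j : ℕ) (hj' : j ≤ m) (hja : j ≤ a) :
    (-1 : F) ^ j * ((m.choose j : F))⁻¹ *
      ((a.choose j : F) * (b.choose (m - j) : F)) =
      ((m.choose a : F))⁻¹ * ((b.choose (m - a) : F) *
        ((-1) ^ j * (((b - (m - a)).choose (a - j) : ℕ) : F))) := by
  have h1 : m.choose a * a.choose j = m.choose j * (m - j).choose (a - j) :=
    Nat.choose_mul hja
  have h2 : (m - j).choose (a - j) = (m - j).choose (m - a) := by
    rw [← Nat.choose_symm (show a - j ≤ m - j by omega)]
    congr 1
    omega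
  by_cases hjb : m - j ≤ b
  · have h3 : b.choose (m - j) * (m - j).choose (m - a) =
        b.choose (m - a) * (b - (m - a)).choose (m - j - (m - a)) :=
      Nat.choose_mul (by omega)
    have h4 : m - j - (m - a) = a - j := by omega
    rw [h4] at h3
    have h1F : (m.choose a : F) * (a.choose j : F) =
        (m.choose j : F) * ((m - j).choose (m - a) : F) := by
      rw [← h2]
      exact_mod_cast congrArg (Nat.cast : ℕ → F) h1
    have h3F : (b.choose (m - j) : F) * ((m - j).choose (m - a) : F) =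
        (b.choose (m - a) : F) * ((b - (m - a)).choose (a - j) : F) := by
      exact_mod_cast congrArg (Nat.cast : ℕ → F) h3
    have hA := hbin a ha
    have hJ := hbin j hj'
    field_simp
    linear_combination (b.choose (m - j) : F) * h1F + (m.choose j : F) * h3F
  · rw [Nat.choose_eq_zero_of_lt (show b < m - j by omega)]
    by_cases hab : m - a ≤ b
    · rw [Nat.choose_eq_zero_of_lt (show b - (m - a) < a - j by omega)]
      simp
    · rw [Nat.choose_eq_zero_of_lt (show b < m - a by omega)]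
      simp

private theorem iotaT_id (m : ℕ) (hbin : ∀ j ≤ m, (m.choose j : F) ≠ 0) (a b : ℕ) (ha : a ≤ m)
    (hb : b ≤ m) :
    ∑ j ∈ Finset.range (m + 1), (-1 : F) ^ j * ((m.choose j : F))⁻¹ *
      ((a.choose j : F) * (b.choose (m - j) : F)) =
      if a + b = m then (-1 : F) ^ a * ((m.choose a : F))⁻¹ else 0 := by
  have h0 : ∑ j ∈ Finset.range (m + 1), (-1 : F) ^ j * ((m.choose j : F))⁻¹ *
      ((a.choose j : F) * (b.choose (m - j) : F)) =
      ∑ j ∈ Finset.range (a + 1), (-1 : F) ^ j * ((m.choose j : F))⁻¹ *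
      ((a.choose j : F) * (b.choose (m - j) : F)) := by
    symm
    refine Finset.sum_subset (Finset.range_mono (by omega)) fun i _ hi => ?_
    rw [Nat.choose_eq_zero_of_lt (show a < i by simpa [Nat.lt_succ_iff] using hi)]
    simp
  have h1 : ∑ j ∈ Finset.range (a + 1), (-1 : F) ^ j * ((m.choose j : F))⁻¹ *
      ((a.choose j : F) * (b.choose (m - j) : F)) =
      ((m.choose a : F))⁻¹ * ((b.choose (m - a) : F) *
        ∑ j ∈ Finset.range (a + 1), (-1) ^ j * (((b - (m - a)).choose (a - j) : ℕ) : F)) := by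
    rw [Finset.mul_sum, Finset.mul_sum]
    refine Finset.sum_congr rfl fun j hj => ?_
    have hj' : j ≤ a := by simpa [Nat.lt_succ_iff] using hj
    exact iotaT_term m hbin a b ha j (by omega) hj'
  have h2 : ∑ j ∈ Finset.range (a + 1), (-1 : F) ^ j * (((b - (m - a)).choose (a - j) : ℕ) : F) =
      (-1) ^ a * ∑ i ∈ Finset.range (a + 1),
        (-1 : F) ^ i * (((b - (m - a)).choose i : ℕ) : F) := by
    rw [← Finset.sum_range_reflect, Finset.mul_sum]
    refine Finset.sum_congr rfl fun i hi => ?_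
    have hi' : i ≤ a := by simpa [Nat.lt_succ_iff] using hi
    obtain ⟨l, rfl⟩ := Nat.exists_eq_add_of_le hi'
    have e1 : i + l + 1 - 1 - i = l := by omega
    have e2 : i + l - l = i := by omega
    rw [e1, e2, pow_add]
    have : (-1 : F) ^ i * (-1) ^ i = 1 := by
      rw [← mul_pow]; simp
    linear_combination (-(-1 : F) ^ l * (((b - (m - (i + l))).choose i : ℕ) : F)) * this
  rw [h0, h1, h2, iotaT_alt _ _ (by omega)]
  by_cases hab : m - a ≤ b
  · by_cases hc : b - (m - a) = 0
    · have hc' : a + b = m := by omega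
      have hb' : b = m - a := by omega
      rw [if_pos hc, if_pos hc', hb', Nat.choose_self]
      push_cast
      ring
    · rw [if_neg hc, if_neg (by omega)]
      ring
  · rw [Nat.choose_eq_zero_of_lt (show b < m - a by omega), if_neg (show ¬ a + b = m by omega)]
    simp

/-- `Phi` at the translated vectors. -/
private theorem iotaT_Phi (μ : Fin n → ℕ) (x y : Fin n → A) (ν : A) :
    Phi μ (fun i => x i + ν * y i) y = Polynomial.taylor ν (Phi μ x y) := by
  have h : Polynomial.taylor ν (Phi μ x y) = Polynomial.taylorAlgHom ν (Phi μ x y) := rfl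
  rw [h]
  unfold Phi
  rw [map_prod]
  refine Finset.prod_congr rfl fun i _ => ?_
  rw [map_pow]
  congr 1
  change _ = Polynomial.taylor ν _
  rw [(Polynomial.taylor ν).map_add, Polynomial.taylor_mul, Polynomial.taylor_C,
    Polynomial.taylor_C, Polynomial.taylor_X, Polynomial.C_add, Polynomial.C_mul]
  ring

private theorem iotaT_fX (f : MvPolynomial (Fin n) F) (x y : Fin n → A) (ν : A) :
    fX f (fun i => x i + ν * y i) y = Polynomial.taylor ν (fX f x y) := by
  have h : Polynomial.taylor ν (fX f x y) = Polynomial.taylorAlgHom ν (fX f x y) := rfl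
  rw [h]
  unfold fX
  have h2 : (Polynomial.taylorAlgHom ν : Polynomial A →ₐ[A] Polynomial A)
      (aeval (fun i => Polynomial.C (x i) + Polynomial.C (y i) * Polynomial.X) f) =
      ((Polynomial.taylorAlgHom ν : Polynomial A →ₐ[A] Polynomial A).restrictScalars F)
      (aeval (fun i => Polynomial.C (x i) + Polynomial.C (y i) * Polynomial.X) f) := rfl
  rw [h2, ← AlgHom.comp_apply, MvPolynomial.comp_aeval]
  congr 2
  funext i
  change _ = Polynomial.taylor ν _
  rw [(Polynomial.taylor ν).map_add, Polynomial.taylor_mul, Polynomial.taylor_C,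
    Polynomial.taylor_C, Polynomial.taylor_X, Polynomial.C_add, Polynomial.C_mul]
  ring

private theorem iotaT_Phi_deg (μ : Fin n → ℕ) (x y : Fin n → A) :
    (Phi μ x y).natDegree ≤ ∑ i, μ i := by
  unfold Phi
  refine le_trans (Polynomial.natDegree_prod_le _ _) (Finset.sum_le_sum fun i _ => ?_)
  refine le_trans Polynomial.natDegree_pow_le ?_
  have : (Polynomial.C (x i) + Polynomial.C (y i) * Polynomial.X).natDegree ≤ 1 := by
    rw [add_comm]
    exact Polynomial.natDegree_linear_le
  nlinarith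

private theorem iotaT_fX_deg (m : ℕ) (f : MvPolynomial (Fin n) F) (hf : f.IsHomogeneous m)
    (x y : Fin n → A) : (fX f x y).natDegree ≤ m := by
  have h : fX f x y = ∑ d ∈ f.support, Polynomial.C (algebraMap F A (coeff d f)) *
      Phi (⇑d) x y := by
    unfold fX Phi
    rw [MvPolynomial.aeval_def, MvPolynomial.eval₂_eq']
    rfl
  rw [h]
  refine Polynomial.natDegree_sum_le_of_forall_le _ _ fun d hd => ?_
  have hdm : ∑ i, d i = m := by
    have := hf (MvPolynomial.mem_support_iff.1 hd)
    rw [Finsupp.weight_apply, Finsupp.sum_fintype _ _ (fun i => by simp)] at this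
    simpa using this
  refine le_trans (Polynomial.natDegree_C_mul_le _ _) ?_
  rw [← hdm]
  exact iotaT_Phi_deg _ _ _

/-- The coefficients of the translated `Phi`. -/
private theorem iotaT_cP (p e : ℕ) [Fact p.Prime] [CharP A p] (m : ℕ) (P : Polynomial A)
    (hP : P.natDegree + 2 ≤ p ^ e * (m + 2)) (ν : A) (j : ℕ) :
    (Polynomial.taylor ν P).coeff (p ^ e - 1 + p ^ e * j) =
      ∑ a ∈ Finset.range (m + 1), P.coeff (p ^ e - 1 + p ^ e * a) * ((a.choose j : ℕ) : A) *
        ν ^ (p ^ e * (a - j)) := by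
  have hq : 0 < p ^ e := pow_pos (Fact.out : p.Prime).pos e
  rw [iotaT_coeff P (p ^ e * (m + 2) - 1) (by omega)]
  symm
  refine Finset.sum_of_injOn (fun a => p ^ e - 1 + p ^ e * a) ?_ ?_ ?_ ?_
  · intro a _ b _ hab
    have h : p ^ e * a = p ^ e * b := by
      have : p ^ e - 1 + p ^ e * a = p ^ e - 1 + p ^ e * b := hab
      omega
    exact Nat.eq_of_mul_eq_mul_left hq h
  · intro a ha
    have ha' : a ≤ m := by simpa [Nat.lt_succ_iff] using ha
    have h1 : p ^ e * a ≤ p ^ e * m := Nat.mul_le_mul_left _ ha'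
    have h2 : p ^ e * (m + 2) = p ^ e * m + 2 * p ^ e := by ring
    simp only [Finset.coe_range, Set.mem_Iio]
    omega
  · intro i hi hni
    have hi' : i < p ^ e * (m + 2) - 1 := by simpa using hi
    rw [iotaT_lucas0 p e i j]
    · ring
    · intro hmod
      apply hni
      refine ⟨i / p ^ e, ?_, ?_⟩
      · simp only [Finset.coe_range, Set.mem_Iio]
        by_contra hcon
        have h3 : p ^ e * (m + 1) ≤ p ^ e * (i / p ^ e) := Nat.mul_le_mul_left _ (by omega)
        have h4 := Nat.mod_add_div i (p ^ e)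
        have h2 : p ^ e * (m + 2) = p ^ e * (m + 1) + p ^ e := by ring
        omega
      · have h4 := Nat.mod_add_div i (p ^ e)
        simp only
        omega
  · intro a _
    rw [iotaT_lucas' p e a j]
    congr 2
    rw [Nat.mul_sub]
    omega

/-- The powers of the coefficients of the translated `fX`. -/
private theorem iotaT_cQ (p e : ℕ) [Fact p.Prime] [CharP A p] (m : ℕ) (Q : Polynomial A)
    (hQ : Q.natDegree ≤ m) (ν : A) (k : ℕ) :
    (Polynomial.taylor ν Q).coeff k ^ p ^ e =
      ∑ b ∈ Finset.range (m + 1), Q.coeff b ^ p ^ e * ((b.choose k : ℕ) : A) *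
        ν ^ (p ^ e * (b - k)) := by
  rw [iotaT_coeff Q (m + 1) (by omega), sum_pow_char_pow]
  refine Finset.sum_congr rfl fun b _ => ?_
  rw [mul_pow, mul_pow, ← pow_mul, mul_comm (b - k) (p ^ e)]
  congr 2
  have h := map_natCast (iterateFrobenius A p e) (b.choose k)
  rw [iterateFrobenius_def] at h
  exact h

/-- Translation: `Phi` and `fX` are replaced by `Phi(X + ν)` and `fX(X + ν)`; by Lucas only the
coefficients of `Phi` at `q - 1 + q j` contribute, and
`∑_j (-1)^j C(m,j)^(-1) C(a,j) C(b,m-j) = (-1)^a C(m,a)^(-1) [a + b = m]` for `a, b ≤ m`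
(because `C(a,j)/C(m,j) = C(m-j,m-a)/C(m,a)`). -/
theorem iota_transl (p e : ℕ) [Fact p.Prime] [CharP F p] (m : ℕ)
    (hbin : ∀ j ≤ m, (m.choose j : F) ≠ 0) (μ : Fin n → ℕ)
    (hμ : ∑ i, μ i + 2 = p ^ e * (m + 2)) (f : MvPolynomial (Fin n) F) (hf : f.IsHomogeneous m)
    (x y : Fin n → A) (ν : A) :
    iota m (p ^ e) μ f (fun i => x i + ν * y i) y = iota m (p ^ e) μ f x y := by
  rcases subsingleton_or_nontrivial A with hA | hA
  · exact Subsingleton.elim _ _
  have : CharP A p := charP_of_injective_algebraMap (algebraMap F A).injective p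
  have hPd : (Phi μ x y).natDegree + 2 ≤ p ^ e * (m + 2) := by
    have := iotaT_Phi_deg μ x y
    omega
  have hQd := iotaT_fX_deg m f hf x y
  unfold iota
  rw [iotaT_Phi, iotaT_fX]
  set P := Phi μ x y with hPdef
  set Q := fX f x y with hQdef
  -- expand
  have h1 : ∀ j ∈ Finset.range (m + 1), algebraMap F A ((-1) ^ j * ((m.choose j : F))⁻¹) *
      ((Polynomial.taylor ν P).coeff (p ^ e - 1 + p ^ e * j) *
        (Polynomial.taylor ν Q).coeff (m - j) ^ p ^ e) =
      ∑ a ∈ Finset.range (m + 1), ∑ b ∈ Finset.range (m + 1),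
        P.coeff (p ^ e - 1 + p ^ e * a) * Q.coeff b ^ p ^ e * ν ^ (p ^ e * (a + b - m)) *
          algebraMap F A ((-1 : F) ^ j * ((m.choose j : F))⁻¹ *
            ((a.choose j : F) * (b.choose (m - j) : F))) := by
    intro j hj
    have hj' : j ≤ m := by simpa [Nat.lt_succ_iff] using hj
    rw [iotaT_cP p e m P hPd ν j, iotaT_cQ p e m Q hQd ν (m - j), Finset.sum_mul_sum,
      Finset.mul_sum]
    refine Finset.sum_congr rfl fun a _ => ?_
    rw [Finset.mul_sum]
    refine Finset.sum_congr rfl fun b _ => ?_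
    by_cases haj : j ≤ a
    · by_cases hbj : m - j ≤ b
      · have hexp : ν ^ (p ^ e * (a + b - m)) =
            ν ^ (p ^ e * (a - j)) * ν ^ (p ^ e * (b - (m - j))) := by
          rw [← pow_add, ← Nat.mul_add]
          congr 2
          omega
        rw [hexp, map_mul (algebraMap F A) _ ((a.choose j : F) * (b.choose (m - j) : F)),
          map_mul (algebraMap F A) (a.choose j : F), map_natCast, map_natCast]
        ring
      · rw [Nat.choose_eq_zero_of_lt (show b < m - j by omega)]
        simp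
    · rw [Nat.choose_eq_zero_of_lt (show a < j by omega)]
      simp
  rw [Finset.sum_congr rfl h1, Finset.sum_comm]
  -- the sum over `j`
  have h2 : ∀ a ∈ Finset.range (m + 1), (∑ j ∈ Finset.range (m + 1),
      ∑ b ∈ Finset.range (m + 1),
        P.coeff (p ^ e - 1 + p ^ e * a) * Q.coeff b ^ p ^ e * ν ^ (p ^ e * (a + b - m)) *
          algebraMap F A ((-1 : F) ^ j * ((m.choose j : F))⁻¹ *
            ((a.choose j : F) * (b.choose (m - j) : F)))) =
      algebraMap F A ((-1) ^ a * ((m.choose a : F))⁻¹) *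
        (P.coeff (p ^ e - 1 + p ^ e * a) * Q.coeff (m - a) ^ p ^ e) := by
    intro a ha
    have ha' : a ≤ m := by simpa [Nat.lt_succ_iff] using ha
    rw [Finset.sum_comm]
    have h3 : ∀ b ∈ Finset.range (m + 1), (∑ j ∈ Finset.range (m + 1),
        P.coeff (p ^ e - 1 + p ^ e * a) * Q.coeff b ^ p ^ e * ν ^ (p ^ e * (a + b - m)) *
          algebraMap F A ((-1 : F) ^ j * ((m.choose j : F))⁻¹ *
            ((a.choose j : F) * (b.choose (m - j) : F)))) =
        if b = m - a then algebraMap F A ((-1) ^ a * ((m.choose a : F))⁻¹) *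
          (P.coeff (p ^ e - 1 + p ^ e * a) * Q.coeff (m - a) ^ p ^ e) else 0 := by
      intro b hb
      have hb' : b ≤ m := by simpa [Nat.lt_succ_iff] using hb
      rw [← Finset.mul_sum, ← map_sum, iotaT_id m hbin a b ha' hb']
      by_cases hab : b = m - a
      · rw [if_pos hab, if_pos (by omega), hab]
        have : a + (m - a) - m = 0 := by omega
        rw [this, mul_zero, pow_zero]
        ring
      · rw [if_neg hab, if_neg (by omega), map_zero, mul_zero]
    rw [Finset.sum_congr rfl h3, Finset.sum_ite_eq' (Finset.range (m + 1)) (m - a), if_pos]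
    simp only [Finset.mem_range]
    omega
  exact Finset.sum_congr rfl h2

private theorem iotaT_field {K : Type*} [Field K] [Algebra F K] (p e : ℕ) [Fact p.Prime]
    [CharP F p] (m : ℕ)
    (hbin : ∀ j ≤ m, (m.choose j : F) ≠ 0) (μ : Fin n → ℕ)
    (hμ : ∑ i, μ i + 2 = p ^ e * (m + 2)) (f : MvPolynomial (Fin n) F) (hf : f.IsHomogeneous m)
    (x y : Fin n → K) (a b c d : K) (ha : a ≠ 0) (hδ : a * d - c * b ≠ 0) :
    iota m (p ^ e) μ f (fun i => d * x i - c * y i) (fun i => a * y i - b * x i) =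
      (a * d - c * b) ^ (p ^ e * (m + 1) - 1) * iota m (p ^ e) μ f x y := by
  have hq : 1 ≤ p ^ e := Nat.one_le_pow _ _ (Fact.out : p.Prime).pos
  have e1 : (fun i => d * x i - c * y i) =
      fun i => ((a * d - c * b) / a) *
        (x i + (-(c * a / (a * d - c * b))) * (y i + (-(b / a)) * x i)) := by
    funext i
    have hδ2 : d * a - c * b ≠ 0 := by rwa [mul_comm d a]
    field_simp
    ring
  have e2 : (fun i => a * y i - b * x i) = fun i => a * (y i + (-(b / a)) * x i) := by
    funext i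
    field_simp
    ring
  rw [e1, e2, iota_scale m (p ^ e) hq μ hμ f hf, iota_transl p e m hbin μ hμ f hf,
    iota_swap m (p ^ e) hq μ hμ f hf (fun i => y i + (-(b / a)) * x i) x,
    iota_transl p e m hbin μ hμ f hf y x, iota_swap m (p ^ e) hq μ hμ f hf x y]
  have e3 : (a * d - c * b) / a * a = a * d - c * b := by field_simp
  rw [e3]
  have e4 : (-1 : K) ^ m * (-1) ^ m = 1 := by
    rw [← mul_pow]; simp
  rw [← mul_assoc ((-1 : K) ^ m), e4, one_mul]

/-- The special substitution; `A` is a domain, work in its field of fractions `K` and write the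
matrix `(y₁, -x₁; -y₀, x₀)` as a product of a translation, a swapped translation and a scaling:
`y' = y - (y₀/x₀) x`, `x'' = x - (x₁ x₀ / δ) y'`, then `y₁ x - x₁ y = (δ/x₀) x''` and
`x₀ y - y₀ x = x₀ y'`, `δ = x₀ y₁ - x₁ y₀`. -/
theorem iota_special [IsDomain A] (p e : ℕ) [Fact p.Prime] [CharP F p] (m : ℕ)
    (hbin : ∀ j ≤ m, (m.choose j : F) ≠ 0) (μ : Fin n → ℕ)
    (hμ : ∑ i, μ i + 2 = p ^ e * (m + 2)) (f : MvPolynomial (Fin n) F) (hf : f.IsHomogeneous m)
    (x y : Fin n → A) (x0 y0 x1 y1 : A) (hx0 : x0 ≠ 0) (hδ : x0 * y1 - x1 * y0 ≠ 0) :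
    iota m (p ^ e) μ f (fun i => y1 * x i - x1 * y i) (fun i => x0 * y i - y0 * x i) =
      (x0 * y1 - x1 * y0) ^ (p ^ e * (m + 1) - 1) * iota m (p ^ e) μ f x y := by
  have hψ : Function.Injective (IsScalarTower.toAlgHom F A (FractionRing A)) :=
    IsFractionRing.injective A (FractionRing A)
  apply hψ
  rw [map_mul, map_pow, map_iota, map_iota]
  have hx0' : IsScalarTower.toAlgHom F A (FractionRing A) x0 ≠ 0 :=
    fun h => hx0 (hψ (by rw [h, map_zero]))
  have hδ' : IsScalarTower.toAlgHom F A (FractionRing A) (x0 * y1 - x1 * y0) ≠ 0 :=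
    fun h => hδ (hψ (by rw [h, map_zero]))
  simp only [map_sub, map_mul] at hδ' ⊢
  exact iotaT_field p e m hbin μ hμ f hf _ _ _ _ _ _ hx0' hδ'

end

end Pool.Agent.GrP
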