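import Mathlib
import Pool.Agent.GrP.Defs

/-!
First properties of the ideals of the Schubert varieties.
-/

set_option autoImplicit false

namespace Pool.Agent.GrP

open MvPolynomial

variable {F : Type*} [Field F]

/-- The substitution `x_i ↦ 0 (i < a)`, `y_j ↦ 0 (j < b)`. -/
noncomputable def kill (F : Type*) [Field F] (a b : ℕ) :
    MvPolynomial (ℕ ⊕ ℕ) F →ₐ[F] MvPolynomial (ℕ ⊕ ℕ) F :=
  aeval (Sum.elim (fun i => xx F a i) (fun j => yy F b j))

lemma mem_II {n a b : ℕ} {f : MvPolynomial (ℕ × ℕ) F} : f ∈ II F n a b ↔ phi F n a b f = 0 :=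
  RingHom.mem_ker

lemma phi_X (n a b : ℕ) (u : ℕ × ℕ) :
    phi F n a b (X u) = if u.1 < u.2 ∧ u.2 < n then minor F a b u else 0 := by
  simp [phi]

lemma kill_xx {a a' b' : ℕ} (ha : a ≤ a') (i : ℕ) : kill F a' b' (xx F a i) = xx F a' i := by
  unfold xx
  split_ifs with h1 h2 h2
  · simp [kill, xx, h2]
  · simp [kill, xx, h2]
  · omega
  · simp

lemma kill_yy {b a' b' : ℕ} (hb : b ≤ b') (i : ℕ) : kill F a' b' (yy F b i) = yy F b' i := by
  unfold yy
  split_ifs with h1 h2 h2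
  · simp [kill, yy, h2]
  · simp [kill, yy, h2]
  · omega
  · simp

lemma kill_phi {n a b a' b' : ℕ} (ha : a ≤ a') (hb : b ≤ b') (f : MvPolynomial (ℕ × ℕ) F) :
    kill F a' b' (phi F n a b f) = phi F n a' b' f := by
  have h : (kill F a' b').comp (phi F n a b) = phi F n a' b' := by
    apply MvPolynomial.algHom_ext
    intro u
    rw [AlgHom.comp_apply, phi_X, phi_X]
    split_ifs with h
    · simp only [minor, map_sub, map_mul, kill_xx ha, kill_yy hb]
    · simp
  rw [← h]
  rfl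

/-- The ideals grow. -/
theorem II_mono {n a b a' b' : ℕ} (ha : a ≤ a') (hb : b ≤ b') :
    II F n a b ≤ II F n a' b' := by
  intro f hf
  rw [mem_II] at hf ⊢
  rw [← kill_phi ha hb, hf, map_zero]

/-- `T_u` is in the ideal unless `u ≥ (a,b)`. -/
theorem X_mem_II {n a b : ℕ} (hab : a < b) (u : ℕ × ℕ)
    (hu : ¬ (u.1 < u.2 ∧ u.2 < n ∧ a ≤ u.1 ∧ b ≤ u.2)) :
    (X u : MvPolynomial (ℕ × ℕ) F) ∈ II F n a b := by
  rw [mem_II, phi_X]
  split_ifs with h
  · have h1 : ¬ (a ≤ u.1 ∧ b ≤ u.2) := fun h' => hu ⟨h.1, h.2, h'⟩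
    have h2 : yy F b u.1 = 0 := by
      unfold yy
      rw [if_neg]
      omega
    have h3 : xx F a u.1 = 0 ∨ yy F b u.2 = 0 := by
      by_cases h4 : a ≤ u.1
      · right
        unfold yy
        rw [if_neg]
        exact fun h5 => h1 ⟨h4, h5⟩
      · left
        unfold xx
        rw [if_neg h4]
    unfold minor
    rcases h3 with h3 | h3
    · rw [h2, h3]
      ring
    · rw [h2, h3]
      ring
  · rfl

/-- The image of `T_(a,b)` is `x_a y_b`. -/
theorem phi_X_self {n a b : ℕ} (hab : a < b) (hb : b < n) :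
    phi F n a b (X (a, b)) = X (Sum.inl a) * X (Sum.inr b) := by
  rw [phi_X, if_pos ⟨hab, hb⟩]
  have h1 : yy F b a = 0 := by
    unfold yy
    rw [if_neg]
    omega
  have h2 : xx F a a = X (Sum.inl a) := by
    unfold xx
    rw [if_pos le_rfl]
  have h3 : yy F b b = X (Sum.inr b) := by
    unfold yy
    rw [if_pos le_rfl]
  change xx F a a * yy F b b - xx F a b * yy F b a = _
  rw [h1, h2, h3, mul_zero, sub_zero]

/-- `T_(a,b)` is not a zero divisor. -/
theorem mem_II_of_X_mul {n a b : ℕ} (hab : a < b) (hb : b < n) {f : MvPolynomial (ℕ × ℕ) F}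
    (h : X (a, b) * f ∈ II F n a b) : f ∈ II F n a b := by
  rw [mem_II] at h ⊢
  rw [map_mul, phi_X_self hab hb] at h
  rcases mul_eq_zero.mp h with h | h
  · exfalso
    rcases mul_eq_zero.mp h with h | h
    · exact X_ne_zero _ h
    · exact X_ne_zero _ h
  · exact h

end Pool.Agent.GrP
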