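import Mathlib
import Pool.Agent.GrP.Defs
import Pool.Agent.GrP.Basic

/-!
Standard monomials and straightening.

A monomial in the `T_(i,j)` is a multiset of pairs.  It is standard (for `(n, a, b)`) if its factors
are pairs `i < j < n`, `(i,j) ≥ (a,b)`, any two of which are comparable in the product order.
Straightening: for `i < k < l < j < n` one has
`T_(i,j) T_(k,l) - T_(i,l) T_(k,j) + T_(i,k) T_(l,j) ∈ II n 0 0` (ring identity for the images), and
`∑ (j - i)^2` decreases: `(j-i)^2 + (l-k)^2 = (l-i)^2 + (j-k)^2 + 2 (k-i) (j-l)`.  Factors which are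
not pairs `i < j < n` are in `II n 0 0`.  Induction on `∑ (j - i)^2`.
-/

set_option autoImplicit false

namespace Pool.Agent.GrP

open MvPolynomial

variable {F : Type*} [Field F]

/-- Standard monomials. -/
def IsStd (n a b : ℕ) (m : Multiset (ℕ × ℕ)) : Prop :=
  (∀ u ∈ m, u.1 < u.2 ∧ u.2 < n ∧ a ≤ u.1 ∧ b ≤ u.2) ∧ ∀ u ∈ m, ∀ v ∈ m, u ≤ v ∨ v ≤ u

/-- The monomial of a multiset. -/
noncomputable def mon (F : Type*) [Field F] (m : Multiset (ℕ × ℕ)) : MvPolynomial (ℕ × ℕ) F :=
  (m.map X).prod

/-- Factors which are not pairs `i < j < n` are in the ideal. -/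
theorem stdA_bad {n : ℕ} (u : ℕ × ℕ) (hu : ¬ (u.1 < u.2 ∧ u.2 < n)) :
    (X u : MvPolynomial (ℕ × ℕ) F) ∈ II F n 0 0 := by
  rw [mem_II, phi_X, if_neg hu]

/-- The three term relation. -/
theorem stdA_rel {n i j k l : ℕ} (h1 : i < k) (h2 : k < l) (h3 : l < j) (h4 : j < n) :
    (X (i, j) * X (k, l) - X (i, l) * X (k, j) + X (i, k) * X (l, j) : MvPolynomial (ℕ × ℕ) F) ∈
      II F n 0 0 := by
  rw [mem_II, map_add, map_sub, map_mul, map_mul, map_mul]
  simp only [phi_X]
  rw [if_pos ⟨by omega, by omega⟩, if_pos ⟨by omega, by omega⟩, if_pos ⟨by omega, by omega⟩,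
    if_pos ⟨by omega, by omega⟩, if_pos ⟨by omega, by omega⟩, if_pos ⟨by omega, by omega⟩]
  unfold minor
  ring

/-- The sum of the squares of the lengths. -/
def stdA_mu (m : Multiset (ℕ × ℕ)) : ℕ := (m.map (fun u => (u.2 - u.1) ^ 2)).sum

/-- The combinations of standard monomials modulo the ideal. -/
noncomputable def stdA_W (F : Type*) [Field F] (n : ℕ) : Submodule F (MvPolynomial (ℕ × ℕ) F) :=
  Submodule.span F (mon F '' {m | IsStd n 0 0 m}) ⊔ (II F n 0 0).restrictScalars F

theorem stdA_mon_cons (u : ℕ × ℕ) (m : Multiset (ℕ × ℕ)) : mon F (u ::ₘ m) = X u * mon F m := by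
  unfold mon
  rw [Multiset.map_cons, Multiset.prod_cons]

theorem stdA_II_le (n : ℕ) {f : MvPolynomial (ℕ × ℕ) F} (hf : f ∈ II F n 0 0) : f ∈ stdA_W F n :=
  Submodule.mem_sup_right hf

theorem stdA_mon (n : ℕ) (m : Multiset (ℕ × ℕ)) : mon F m ∈ stdA_W F n := by
  induction hN : stdA_mu m using Nat.strong_induction_on generalizing m with
  | _ N ih =>
    subst hN
    by_cases hb : ∀ u ∈ m, u.1 < u.2 ∧ u.2 < n
    · by_cases hc : ∀ u ∈ m, ∀ v ∈ m, u ≤ v ∨ v ≤ u
      · refine Submodule.mem_sup_left (Submodule.subset_span ⟨m, ⟨fun u hu => ?_, hc⟩, rfl⟩)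
        exact ⟨(hb u hu).1, (hb u hu).2, Nat.zero_le _, Nat.zero_le _⟩
      · push Not at hc
        obtain ⟨u, hu, v, hv, h1, h2⟩ := hc
        -- an incomparable pair, ordered by the first coordinate
        have key : ∀ u ∈ m, ∀ v ∈ m, ¬ u ≤ v → ¬ v ≤ u → u.1 ≤ v.1 → mon F m ∈ stdA_W F n := by
          intro u hu v hv h1 h2 h3
          obtain ⟨i, j⟩ := u
          obtain ⟨k, l⟩ := v
          have bu := hb _ hu
          have bv := hb _ hv
          simp only [Prod.mk_le_mk, not_and, not_le] at h1 h2 h3 bu bv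
          have h4 : l < j := h1 h3
          have h5 : i < k := by
            rcases Nat.lt_or_ge i k with h | h
            · exact h
            · exact absurd (h2 h) (by omega)
          have hne : ((k, l) : ℕ × ℕ) ≠ (i, j) := by
            intro h
            rw [Prod.mk.injEq] at h
            omega
          obtain ⟨m1, rfl⟩ := Multiset.exists_cons_of_mem hu
          have hv1 : (k, l) ∈ m1 := by
            rcases Multiset.mem_cons.1 hv with h | h
            · exact absurd h hne
            · exact h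
          obtain ⟨m2, rfl⟩ := Multiset.exists_cons_of_mem hv1
          have hr := stdA_rel (F := F) h5 bv.1 h4 bu.2
          have e : mon F ((i, j) ::ₘ (k, l) ::ₘ m2) =
              (X (i, j) * X (k, l) - X (i, l) * X (k, j) + X (i, k) * X (l, j)) * mon F m2 +
              mon F ((i, l) ::ₘ (k, j) ::ₘ m2) - mon F ((i, k) ::ₘ (l, j) ::ₘ m2) := by
            simp only [stdA_mon_cons]
            ring
          obtain ⟨a, rfl⟩ : ∃ a, k = i + 1 + a := ⟨k - i - 1, by omega⟩
          obtain ⟨b, rfl⟩ : ∃ b, l = i + 1 + a + 1 + b := ⟨l - (i + 1 + a) - 1, by omega⟩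
          obtain ⟨d, rfl⟩ : ∃ d, j = i + 1 + a + 1 + b + 1 + d := ⟨j - (i + 1 + a + 1 + b) - 1, by omega⟩
          rw [e]
          refine Submodule.sub_mem _ (Submodule.add_mem _ (stdA_II_le n (Ideal.mul_mem_right _ _ hr)) ?_) ?_
          · refine ih _ ?_ _ rfl
            unfold stdA_mu
            simp only [Multiset.map_cons, Multiset.sum_cons]
            have e1 : i + 1 + a + 1 + b - i = a + b + 2 := by omega
            have e2 : i + 1 + a + 1 + b + 1 + d - (i + 1 + a) = b + d + 2 := by omega
            have e3 : i + 1 + a + 1 + b + 1 + d - i = a + b + d + 3 := by omega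
            have e4 : i + 1 + a + 1 + b - (i + 1 + a) = b + 1 := by omega
            rw [e1, e2, e3, e4]
            nlinarith [Nat.zero_le (a * d), Nat.zero_le a, Nat.zero_le d, Nat.zero_le b]
          · refine ih _ ?_ _ rfl
            unfold stdA_mu
            simp only [Multiset.map_cons, Multiset.sum_cons]
            have e1 : i + 1 + a - i = a + 1 := by omega
            have e2 : i + 1 + a + 1 + b + 1 + d - (i + 1 + a + 1 + b) = d + 1 := by omega
            have e3 : i + 1 + a + 1 + b + 1 + d - i = a + b + d + 3 := by omega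
            have e4 : i + 1 + a + 1 + b - (i + 1 + a) = b + 1 := by omega
            rw [e1, e2, e3, e4]
            nlinarith [Nat.zero_le (a * d), Nat.zero_le (a * b), Nat.zero_le (b * d), Nat.zero_le a, Nat.zero_le d,
              Nat.zero_le b]
        rcases le_total u.1 v.1 with h | h
        · exact key u hu v hv h1 h2 h
        · exact key v hv u hu h2 h1 h
    · push Not at hb
      obtain ⟨u, hu, h1⟩ := hb
      obtain ⟨m1, rfl⟩ := Multiset.exists_cons_of_mem hu
      rw [stdA_mon_cons]
      refine stdA_II_le n (Ideal.mul_mem_right _ _ (stdA_bad u ?_))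
      intro h2
      exact absurd h2.2 (not_lt.2 (h1 h2.1))

theorem stdA_top (n : ℕ) (f : MvPolynomial (ℕ × ℕ) F) : f ∈ stdA_W F n := by
  have h : f ∈ Submodule.span F (Set.range (mon F)) := by
    induction f using MvPolynomial.induction_on with
    | C a =>
      have e : (C a : MvPolynomial (ℕ × ℕ) F) = a • mon F 0 := by
        unfold mon
        rw [Multiset.map_zero, Multiset.prod_zero, MvPolynomial.smul_eq_C_mul, mul_one]
      rw [e]
      exact Submodule.smul_mem _ _ (Submodule.subset_span ⟨0, rfl⟩)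
    | add p q hp hq => exact Submodule.add_mem _ hp hq
    | mul_X p u hp =>
      induction hp using Submodule.span_induction with
      | mem x hx =>
        obtain ⟨m, rfl⟩ := hx
        refine Submodule.subset_span ⟨u ::ₘ m, ?_⟩
        rw [stdA_mon_cons, mul_comm]
      | zero => rw [zero_mul]; exact Submodule.zero_mem _
      | add x y _ _ hx hy => rw [add_mul]; exact Submodule.add_mem _ hx hy
      | smul a x _ hx => rw [smul_mul_assoc]; exact Submodule.smul_mem _ _ hx
  refine (Submodule.span_le.2 ?_) h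
  rintro _ ⟨m, rfl⟩
  exact stdA_mon n m

/-- Every polynomial is a combination of standard monomials modulo the Pluecker ideal. -/
theorem straighten (n : ℕ) (f : MvPolynomial (ℕ × ℕ) F) :
    ∃ (G : Finset (Multiset (ℕ × ℕ))) (c : Multiset (ℕ × ℕ) → F), (∀ m ∈ G, IsStd n 0 0 m) ∧
      f - ∑ m ∈ G, C (c m) * mon F m ∈ II F n 0 0 := by
  obtain ⟨g, hg, r, hr, rfl⟩ := Submodule.mem_sup.1 (stdA_top n f)
  obtain ⟨l, hl, rfl⟩ := (Finsupp.mem_span_image_iff_linearCombination F).1 hg
  refine ⟨l.support, l, fun m hm => ?_, ?_⟩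
  · exact (Finsupp.mem_supported F l).1 hl hm
  · have e : Finsupp.linearCombination F (mon F) l = ∑ m ∈ l.support, C (l m) * mon F m := by
      rw [Finsupp.linearCombination_apply, Finsupp.sum]
      exact Finset.sum_congr rfl fun m _ => MvPolynomial.smul_eq_C_mul _ _
    rw [e, add_sub_cancel_left]
    exact hr

end Pool.Agent.GrP
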