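import Mathlib
import Pool.Agent.GrP.Defs
import Pool.Agent.GrP.Basic
import Pool.Agent.GrP.StdA

/-!
Independence of the standard monomials `≥ (a,b)` modulo `II n a b`, `a < b`.

Induction on `(n - a) + (n - b)` and, for fixed `(a,b)`, on the maximal cardinality of the multisets.
If `b ≥ n` the only standard monomial is `1`.  If `b < n`:
* if `a + 1 < b`, apply `kill (a+1) b` (`kill_phi`): the relation modulo `II n (a+1) b`; the monomials
  which are not standard for `(a+1, b)` contain a factor `(a, j)`, which is in this ideal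
  (`X_mem_II`); so the coefficients of the monomials standard for `(a+1, b)` vanish;
* apply `kill a (b+1)`: the coefficients of the monomials standard for `(a, b+1)` vanish;
* the others contain a factor `(a,j)` and a factor `(i,b)`, so by comparability the factor `(a,b)`
  (for `b = a + 1`: a factor `(i,b)` with `a ≤ i < b` is `(a,b)`); divide the relation by `T_(a,b)`
  (`mem_II_of_X_mul`) and use the induction hypothesis for the multisets without one `(a,b)`.
-/

set_option autoImplicit false

namespace Pool.Agent.GrP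

open MvPolynomial

variable {F : Type*} [Field F]

theorem stdB_cons (u : ℕ × ℕ) (m : Multiset (ℕ × ℕ)) : mon F (u ::ₘ m) = X u * mon F m := by
  unfold mon
  rw [Multiset.map_cons, Multiset.prod_cons]

theorem stdB_card {u : ℕ × ℕ} {m : Multiset (ℕ × ℕ)} {K : ℕ} (hu : u ∈ m) (hK : m.card < K + 1) :
    (m.erase u).card < K := by
  obtain ⟨m', rfl⟩ := Multiset.exists_cons_of_mem hu
  rw [Multiset.erase_cons_head]
  rw [Multiset.card_cons] at hK
  exact Nat.lt_of_succ_lt_succ hK

/-- a monomial with a factor in the ideal is in the ideal -/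
theorem stdB_mem {n a b : ℕ} {m : Multiset (ℕ × ℕ)} {u : ℕ × ℕ} (hu : u ∈ m)
    (h : (X u : MvPolynomial (ℕ × ℕ) F) ∈ II F n a b) : mon F m ∈ II F n a b := by
  obtain ⟨m', rfl⟩ := Multiset.exists_cons_of_mem hu
  rw [stdB_cons]
  exact Ideal.mul_mem_right _ _ h

/-- if `b ≥ n` the only standard monomial is `1` -/
theorem stdB_base {n a b : ℕ} (hb : n ≤ b) (G : Finset (Multiset (ℕ × ℕ)))
    (c : Multiset (ℕ × ℕ) → F) (hG : ∀ m ∈ G, IsStd n a b m)
    (h : ∑ m ∈ G, C (c m) * mon F m ∈ II F n a b) : ∀ m ∈ G, c m = 0 := by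
  have h0 : ∀ m ∈ G, m = 0 := by
    intro m hm
    refine Multiset.eq_zero_of_forall_notMem fun u hu => ?_
    have := (hG m hm).1 u hu
    omega
  intro m hm
  have hm0 := h0 m hm
  have e : ∑ m ∈ G, C (c m) * mon F m = C (c 0) := by
    rw [Finset.sum_eq_single m (fun k hk hne => absurd ((h0 k hk).trans hm0.symm) hne) (fun hn => absurd hm hn),
      hm0]
    unfold mon
    simp
  rw [e, mem_II] at h
  have e2 : phi F n a b (C (c 0)) = C (c 0) := by
    unfold phi
    simp
  rw [e2] at h
  rw [hm0]
  exact (C_eq_zero).1 h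

/-- the coefficients of the monomials which are standard for larger indices vanish -/
theorem stdB_step {n a b a' b' : ℕ} (ha : a ≤ a') (hb : b ≤ b') (hab : a' < b') (G : Finset (Multiset (ℕ × ℕ)))
    (c : Multiset (ℕ × ℕ) → F) (hG : ∀ m ∈ G, IsStd n a b m)
    (h : ∑ m ∈ G, C (c m) * mon F m ∈ II F n a b)
    (ih : ∀ G' : Finset (Multiset (ℕ × ℕ)), (∀ m ∈ G', m ∈ G) → (∀ m ∈ G', IsStd n a' b' m) →
      ∑ m ∈ G', C (c m) * mon F m ∈ II F n a' b' → ∀ m ∈ G', c m = 0) :
    ∀ m ∈ G, IsStd n a' b' m → c m = 0 := by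
  classical
  intro m hm hs
  refine ih (G.filter fun m => IsStd n a' b' m) (fun k hk => (Finset.mem_filter.1 hk).1)
    (fun k hk => (Finset.mem_filter.1 hk).2) ?_ m (Finset.mem_filter.2 ⟨hm, hs⟩)
  have h1 := II_mono (F := F) (n := n) ha hb h
  rw [← Finset.sum_filter_add_sum_filter_not G (fun m => IsStd n a' b' m)] at h1
  refine (Ideal.add_mem_iff_left _ ?_).1 h1
  refine Ideal.sum_mem _ fun k hk => Ideal.mul_mem_left _ _ ?_
  obtain ⟨hkG, hns⟩ := Finset.mem_filter.1 hk
  have h2 := hG k hkG
  have h3 : ¬ ∀ u ∈ k, u.1 < u.2 ∧ u.2 < n ∧ a' ≤ u.1 ∧ b' ≤ u.2 := fun h4 => hns ⟨h4, h2.2⟩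
  push Not at h3
  obtain ⟨u, hu, h4⟩ := h3
  refine stdB_mem hu (X_mem_II hab u fun h5 => ?_)
  have := h4 h5.1 h5.2.1 h5.2.2.1
  omega

theorem stdB_aux (n : ℕ) : ∀ N a b : ℕ, a < b → (n - a) + (n - b) ≤ N → ∀ K : ℕ,
    ∀ (G : Finset (Multiset (ℕ × ℕ))) (c : Multiset (ℕ × ℕ) → F), (∀ m ∈ G, IsStd n a b m) →
    (∀ m ∈ G, m.card < K) → ∑ m ∈ G, C (c m) * mon F m ∈ II F n a b → ∀ m ∈ G, c m = 0 := by
  classical
  intro N
  induction N with
  | zero =>
    intro a b _ hN K G c hG _ h
    exact stdB_base (by omega) G c hG h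
  | succ N ihN =>
    intro a b hab hN K
    by_cases hb : n ≤ b
    · intro G c hG _ h
      exact stdB_base hb G c hG h
    push Not at hb
    induction K with
    | zero =>
      intro G c _ hK _ m hm
      exact absurd (hK m hm) (Nat.not_lt_zero _)
    | succ K ihK =>
      intro G c hG hK h
      have hA := stdB_step (F := F) (n := n) (a := a) (b := b) (a' := a) (b' := b + 1) le_rfl (Nat.le_succ b)
        (by omega) G c hG h (fun G' hs h1 h2 => ihN a (b + 1) (by omega) (by omega) (K + 1) G' c h1
          (fun m hm => hK m (hs m hm)) h2)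
      have hB : a + 1 < b → ∀ m ∈ G, IsStd n (a + 1) b m → c m = 0 := fun hlt =>
        stdB_step (F := F) (n := n) (a := a) (b := b) (a' := a + 1) (b' := b) (Nat.le_succ a) le_rfl
        hlt G c hG h (fun G' hs h1 h2 => ihN (a + 1) b hlt (by omega) (K + 1) G' c h1
          (fun m hm => hK m (hs m hm)) h2)
      -- the others contain `(a,b)`
      have hC : ∀ m ∈ G, c m ≠ 0 → (a, b) ∈ m := by
        intro m hm hc
        have hs := hG m hm
        have h1 : ¬ IsStd n a (b + 1) m := fun h' => hc (hA m hm h')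
        have h2 : ∃ u ∈ m, u.2 = b := by
          by_contra h3
          push Not at h3
          refine h1 ⟨fun u hu => ?_, hs.2⟩
          have h4 := hs.1 u hu
          have h5 := h3 u hu
          omega
        obtain ⟨u, hu, hu2⟩ := h2
        have hu' := hs.1 u hu
        by_cases hlt : a + 1 < b
        · have h6 : ¬ IsStd n (a + 1) b m := fun h' => hc (hB hlt m hm h')
          have h7 : ∃ v ∈ m, v.1 = a := by
            by_contra h3
            push Not at h3
            refine h6 ⟨fun v hv => ?_, hs.2⟩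
            have h4 := hs.1 v hv
            have h5 := h3 v hv
            omega
          obtain ⟨v, hv, hv1⟩ := h7
          have hv' := hs.1 v hv
          rcases hs.2 u hu v hv with h8 | h8
          · have h9 := h8.1
            have e : u = (a, b) := Prod.ext (by omega) hu2
            rwa [← e]
          · have h9 := h8.2
            have e : v = (a, b) := Prod.ext hv1 (by omega)
            rwa [← e]
        · have e : u = (a, b) := Prod.ext (by omega) hu2
          rwa [← e]
      -- divide by `T_(a,b)`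
      set G1 := G.filter fun m => c m ≠ 0 with hG1
      have h1 : ∑ m ∈ G, C (c m) * mon F m = X (a, b) * ∑ m ∈ G1, C (c m) * mon F (m.erase (a, b)) := by
        rw [← Finset.sum_filter_add_sum_filter_not G (fun m => c m ≠ 0), Finset.mul_sum]
        have h2 : ∑ m ∈ G.filter (fun m => ¬ c m ≠ 0), C (c m) * mon F m = 0 := by
          refine Finset.sum_eq_zero fun m hm => ?_
          rw [not_not.1 (Finset.mem_filter.1 hm).2, C_0, zero_mul]
        rw [h2, add_zero]
        refine Finset.sum_congr rfl fun m hm => ?_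
        have h3 := hC m (Finset.mem_filter.1 hm).1 (Finset.mem_filter.1 hm).2
        conv_lhs => rw [← Multiset.cons_erase h3, stdB_cons]
        rw [Multiset.cons_erase h3]
        ring
      rw [h1] at h
      have h2 := mem_II_of_X_mul hab hb h
      have hinj : Set.InjOn (fun m : Multiset (ℕ × ℕ) => m.erase (a, b)) G1 := by
        intro m hm m' hm' he
        have h3 := hC m (Finset.mem_filter.1 hm).1 (Finset.mem_filter.1 hm).2
        have h4 := hC m' (Finset.mem_filter.1 hm').1 (Finset.mem_filter.1 hm').2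
        have he' : m.erase (a, b) = m'.erase (a, b) := he
        rw [← Multiset.cons_erase h3, ← Multiset.cons_erase h4, he']
      have h3 : ∑ m ∈ G1.image (fun m => m.erase (a, b)), C (c ((a, b) ::ₘ m)) * mon F m ∈ II F n a b := by
        rw [Finset.sum_image hinj]
        convert h2 using 1
        refine Finset.sum_congr rfl fun m hm => ?_
        rw [Multiset.cons_erase (hC m (Finset.mem_filter.1 hm).1 (Finset.mem_filter.1 hm).2)]
      have h5 : ∀ m ∈ G1.image (fun m => m.erase (a, b)), IsStd n a b m := by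
        intro m hm
        obtain ⟨m', hm', he⟩ := Finset.mem_image.1 hm
        have h5 := hG m' (Finset.mem_filter.1 hm').1
        rw [← he]
        exact ⟨fun u hu => h5.1 u (Multiset.mem_of_mem_erase hu), fun u hu v hv =>
          h5.2 u (Multiset.mem_of_mem_erase hu) v (Multiset.mem_of_mem_erase hv)⟩
      have h6 : ∀ m ∈ G1.image (fun m => m.erase (a, b)), m.card < K := by
        intro m hm
        obtain ⟨m', hm', he⟩ := Finset.mem_image.1 hm
        have h7 := hC m' (Finset.mem_filter.1 hm').1 (Finset.mem_filter.1 hm').2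
        have h8 := hK m' (Finset.mem_filter.1 hm').1
        rw [← he]
        exact stdB_card h7 h8
      have h4 := ihK _ _ h5 h6 h3
      intro m hm
      by_contra hc
      have h5 := hC m hm hc
      have h6 := h4 (m.erase (a, b)) (Finset.mem_image.2 ⟨m, Finset.mem_filter.2 ⟨hm, hc⟩, rfl⟩)
      rw [Multiset.cons_erase h5] at h6
      exact hc h6

theorem std_indep {n a b : ℕ} (hab : a < b) (G : Finset (Multiset (ℕ × ℕ)))
    (c : Multiset (ℕ × ℕ) → F) (hG : ∀ m ∈ G, IsStd n a b m)
    (h : ∑ m ∈ G, C (c m) * mon F m ∈ II F n a b) : ∀ m ∈ G, c m = 0 :=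
  stdB_aux n _ a b hab le_rfl (G.sup Multiset.card + 1) G c hG
    (fun _ hm => Nat.lt_succ_of_le (Finset.le_sup (f := Multiset.card) hm)) h

end Pool.Agent.GrP
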