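import Mathlib
import Pool.Agent.GrP.Defs
import Pool.Agent.GrP.Basic
import Pool.Agent.GrP.StdA
import Pool.Agent.GrP.StdB

/-!
Consequences of standard monomial theory (`straighten`, `std_indep`) for the ideals `II n a b`.

Write `f = ∑ c_m m` modulo `II n 0 0` (contained in all `II n a b`).  Monomials with a factor which
is not `≥ (a,b)` are in `II n a b` (`X_mem_II`).  So `f ∈ II n a b` implies `c_m = 0` for all `m` which are
standard for `(a,b)` (`std_indep`).
-/

set_option autoImplicit false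

namespace Pool.Agent.GrP

open MvPolynomial

variable {F : Type*} [Field F]

/-- a monomial which is standard for `(0,0)` and not for `(a,b)` is in the ideal `II n a b` -/
theorem Std_not {n a b : ℕ} (hab : a < b) {m : Multiset (ℕ × ℕ)} (hm : IsStd n 0 0 m) (h : ¬ IsStd n a b m) :
    mon F m ∈ II F n a b := by
  have h3 : ¬ ∀ u ∈ m, u.1 < u.2 ∧ u.2 < n ∧ a ≤ u.1 ∧ b ≤ u.2 := fun h4 => h ⟨h4, hm.2⟩
  push Not at h3
  obtain ⟨u, hu, h4⟩ := h3
  refine stdB_mem hu (X_mem_II hab u fun h5 => ?_)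
  have := h4 h5.1 h5.2.1 h5.2.2.1
  omega

/-- the coefficients of the monomials which are standard for `(a,b)` vanish -/
theorem Std_coef {n a b : ℕ} (hab : a < b) {f : MvPolynomial (ℕ × ℕ) F} {G : Finset (Multiset (ℕ × ℕ))}
    {c : Multiset (ℕ × ℕ) → F} (hG : ∀ m ∈ G, IsStd n 0 0 m)
    (h : f - ∑ m ∈ G, C (c m) * mon F m ∈ II F n 0 0) (hf : f ∈ II F n a b) :
    ∀ m ∈ G, IsStd n a b m → c m = 0 := by
  classical
  intro m hm hs
  refine std_indep hab (G.filter fun m => IsStd n a b m) c (fun k hk => (Finset.mem_filter.1 hk).2) ?_ m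
    (Finset.mem_filter.2 ⟨hm, hs⟩)
  have h1 : ∑ m ∈ G, C (c m) * mon F m ∈ II F n a b := by
    have h2 := (II F n a b).sub_mem hf (II_mono (Nat.zero_le a) (Nat.zero_le b) h)
    rwa [sub_sub_cancel] at h2
  rw [← Finset.sum_filter_add_sum_filter_not G (fun m => IsStd n a b m)] at h1
  refine (Ideal.add_mem_iff_left _ ?_).1 h1
  refine Ideal.sum_mem _ fun k hk => Ideal.mul_mem_left _ _ ?_
  obtain ⟨hkG, hns⟩ := Finset.mem_filter.1 hk
  exact Std_not hab (hG k hkG) hns

/-- membership in an ideal which contains `II n 0 0` and the monomials which are not standard for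
`(a1,b1)` nor for `(a2,b2)` -/
theorem Std_mem {n a1 b1 a2 b2 : ℕ} (h1 : a1 < b1) (h2 : a2 < b2) {f : MvPolynomial (ℕ × ℕ) F}
    (hf1 : f ∈ II F n a1 b1) (hf2 : f ∈ II F n a2 b2) (J : Ideal (MvPolynomial (ℕ × ℕ) F)) (hJ : II F n 0 0 ≤ J)
    (H : ∀ m, IsStd n 0 0 m → ¬ IsStd n a1 b1 m → ¬ IsStd n a2 b2 m → mon F m ∈ J) : f ∈ J := by
  obtain ⟨G, c, hG, hs⟩ := straighten n f
  have e : f = (f - ∑ m ∈ G, C (c m) * mon F m) + ∑ m ∈ G, C (c m) * mon F m := by ring
  rw [e]
  refine J.add_mem (hJ hs) (Ideal.sum_mem _ fun m hm => ?_)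
  by_cases hc : c m = 0
  · rw [hc, C_0, zero_mul]
    exact J.zero_mem
  · refine Ideal.mul_mem_left _ _ (H m (hG m hm) ?_ ?_)
    · exact fun h => hc (Std_coef h1 hG hs hf1 m hm h)
    · exact fun h => hc (Std_coef h2 hG hs hf2 m hm h)

/-- a monomial with the factor `T_u` is in the ideal of `T_u` -/
theorem Std_span {u : ℕ × ℕ} {m : Multiset (ℕ × ℕ)} (hu : u ∈ m) :
    mon F m ∈ Ideal.span {(X u : MvPolynomial (ℕ × ℕ) F)} := by
  obtain ⟨m', rfl⟩ := Multiset.exists_cons_of_mem hu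
  rw [stdB_cons]
  exact Ideal.mul_mem_right _ _ (Ideal.subset_span rfl)

/-- the factor with first coordinate `a` -/
theorem Std_fst {n a b : ℕ} {m : Multiset (ℕ × ℕ)} (hs : IsStd n a b m) (h : ¬ IsStd n (a + 1) b m) :
    ∃ u ∈ m, u.1 = a := by
  by_contra h3
  push Not at h3
  refine h ⟨fun v hv => ?_, hs.2⟩
  have h4 := hs.1 v hv
  have h5 := h3 v hv
  omega

/-- the factor with second coordinate `b` -/
theorem Std_snd {n a b : ℕ} {m : Multiset (ℕ × ℕ)} (hs : IsStd n a b m) (h : ¬ IsStd n a (b + 1) m) :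
    ∃ u ∈ m, u.2 = b := by
  by_contra h3
  push Not at h3
  refine h ⟨fun v hv => ?_, hs.2⟩
  have h4 := hs.1 v hv
  have h5 := h3 v hv
  omega

/-- The two ideals of `(0,0)` and `(0,1)` agree: standard monomials for `(0,0)` are standard for
`(0,1)`. -/
theorem II_zero_one (n : ℕ) : II F n 0 1 = II F n 0 0 := by
  refine le_antisymm (fun f hf => ?_) (II_mono le_rfl (Nat.zero_le 1))
  refine Std_mem Nat.zero_lt_one Nat.zero_lt_one hf hf _ le_rfl fun m hm h1 _ => ?_
  refine absurd ⟨fun u hu => ?_, hm.2⟩ h1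
  have := hm.1 u hu
  omega

/-- Intersection: a standard monomial for `(a,b)` which is not standard for `(a+1,b)` nor for
`(a,b+1)` has the factor `T_(a,b)`. -/
theorem II_inf {n a b : ℕ} (hab : a + 1 < b) (hb : b < n) :
    II F n (a + 1) b ⊓ II F n a (b + 1) ≤ II F n a b ⊔ Ideal.span {X (a, b)} := by
  intro f hf
  refine Std_mem hab (by omega : a < b + 1) hf.1 hf.2 _
    ((II_mono (Nat.zero_le a) (Nat.zero_le b)).trans le_sup_left) fun m hm h1 h2 => ?_
  by_cases hs : IsStd n a b m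
  · obtain ⟨u, hu, hu1⟩ := Std_fst hs h1
    obtain ⟨v, hv, hv1⟩ := Std_snd hs h2
    have hu' := hs.1 u hu
    have hv' := hs.1 v hv
    refine (le_sup_right : _ ≤ II F n a b ⊔ Ideal.span {X (a, b)}) (Std_span ?_)
    rcases hs.2 u hu v hv with h8 | h8
    · have h9 := h8.2
      have e : u = (a, b) := Prod.ext hu1 (by omega)
      rwa [← e]
    · have h9 := h8.1
      have e : v = (a, b) := Prod.ext (by omega) hv1
      rwa [← e]
  · exact (le_sup_left : II F n a b ≤ _) (Std_not (by omega) hm hs)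

/-- The case `b = a + 1`. -/
theorem II_diag {n a : ℕ} (h : a + 1 < n) :
    II F n a (a + 2) ≤ II F n a (a + 1) ⊔ Ideal.span {X (a, a + 1)} := by
  intro f hf
  refine Std_mem (by omega : a < a + 2) (by omega : a < a + 2) hf hf _
    ((II_mono (Nat.zero_le a) (Nat.zero_le (a + 1))).trans le_sup_left) fun m hm h1 _ => ?_
  by_cases hs : IsStd n a (a + 1) m
  · obtain ⟨v, hv, hv1⟩ := Std_snd hs h1
    have hv' := hs.1 v hv
    refine (le_sup_right : _ ≤ II F n a (a + 1) ⊔ Ideal.span {X (a, a + 1)}) (Std_span ?_)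
    have e : v = (a, a + 1) := Prod.ext (by omega) hv1
    rwa [← e]
  · exact (le_sup_left : II F n a (a + 1) ≤ _) (Std_not (by omega) hm hs)

/-- The case `b = n - 1`: `II n (a+1) b ≤ II n a n` (constant coefficients; all `T_u` are in
`II n a n`), so this follows from `II_inf`. -/
theorem II_top {n a b : ℕ} (hab : a + 1 < b) (hb : b + 1 = n) :
    II F n (a + 1) b ≤ II F n a b ⊔ Ideal.span {X (a, b)} := by
  intro f hf
  refine Std_mem hab hab hf hf _
    ((II_mono (Nat.zero_le a) (Nat.zero_le b)).trans le_sup_left) fun m hm h1 _ => ?_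
  by_cases hs : IsStd n a b m
  · obtain ⟨u, hu, hu1⟩ := Std_fst hs h1
    have hu' := hs.1 u hu
    refine (le_sup_right : _ ≤ II F n a b ⊔ Ideal.span {X (a, b)}) (Std_span ?_)
    have e : u = (a, b) := Prod.ext hu1 (by omega)
    rwa [← e]
  · exact (le_sup_left : II F n a b ≤ _) (Std_not (by omega) hm hs)

/-- Sum: a standard monomial which is not standard for `(a+1,b+1)` is not standard for `(a+1,b)` or
not for `(a,b+1)`. -/
theorem II_sup {n a b : ℕ} (hab : a + 1 < b) (hb : b < n) :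
    II F n (a + 1) (b + 1) ≤ II F n (a + 1) b ⊔ II F n a (b + 1) := by
  intro f hf
  refine Std_mem (by omega : a + 1 < b + 1) (by omega : a + 1 < b + 1) hf hf _
    ((II_mono (Nat.zero_le (a + 1)) (Nat.zero_le b)).trans le_sup_left) fun m hm h1 _ => ?_
  by_cases hs : IsStd n (a + 1) b m
  · by_cases hs' : IsStd n a (b + 1) m
    · refine absurd ⟨fun u hu => ?_, hm.2⟩ h1
      have h3 := hs.1 u hu
      have h4 := hs'.1 u hu
      omega
    · exact (le_sup_right : II F n a (b + 1) ≤ _) (Std_not (by omega) hm hs')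
  · exact (le_sup_left : II F n (a + 1) b ≤ _) (Std_not hab hm hs)

/-- `p_01` is not zero -/
theorem Std_minor_ne : minor F 0 0 (0, 1) ≠ 0 := by
  intro h
  have h1 := congrArg (MvPolynomial.eval (Sum.elim (fun i => if i = 0 then (1 : F) else 0)
    (fun i => if i = 1 then (1 : F) else 0))) h
  unfold minor xx yy at h1
  simp at h1

/-- If `p_01 w` is in the Pluecker ring, then `w` is in the Pluecker ring: `p_01 w = phi f`, and
`f ∈ II n 0 2` because `kill 0 2` kills `p_01`; by `II_diag`, `f = f0 + T_(0,1) f1` with `f0 ∈ II n 0 1`; so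
`w = phi f1`. -/
theorem range_of_minor_mul {n : ℕ} (hn : 2 ≤ n) {w : MvPolynomial (ℕ ⊕ ℕ) F}
    (h : minor F 0 0 (0, 1) * w ∈ (phi F n 0 0).range) : w ∈ (phi F n 0 0).range := by
  obtain ⟨f, hf⟩ := h
  have hf' : phi F n 0 0 f = minor F 0 0 (0, 1) * w := hf
  have h1 : f ∈ II F n 0 2 := by
    rw [mem_II, ← kill_phi le_rfl (Nat.zero_le 2), hf', map_mul]
    have h2 : kill F 0 2 (minor F 0 0 (0, 1)) = 0 := by
      unfold minor
      rw [map_sub, map_mul, map_mul, kill_xx le_rfl, kill_xx le_rfl, kill_yy (Nat.zero_le 2), kill_yy (Nat.zero_le 2)]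
      unfold yy
      simp
    rw [h2, zero_mul]
  have h2 := II_diag (F := F) (a := 0) (by omega : 0 + 1 < n) h1
  obtain ⟨f0, hf0, r, hr, rfl⟩ := Submodule.mem_sup.1 h2
  obtain ⟨f1, rfl⟩ := Ideal.mem_span_singleton'.1 hr
  rw [zero_add, II_zero_one, mem_II] at hf0
  refine ⟨f1, ?_⟩
  have h3 : phi F n 0 0 (X (0, 0 + 1)) = minor F 0 0 (0, 1) := by
    rw [phi_X, if_pos ⟨by norm_num, by simpa using (by omega : 1 < n)⟩]
  rw [map_add, hf0, zero_add, map_mul, h3, mul_comm] at hf'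
  exact mul_left_cancel₀ Std_minor_ne hf'

end Pool.Agent.GrP
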