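import Mathlib
import Pool.Agent.GrP.Defs
import Pool.Agent.GrP.Std
import Pool.Agent.GrP.Iota
import Pool.Agent.GrP.IotaT

/-!
The map `ι` of `Iota.lean` for the generic vectors `x, y`: it lands in the Pluecker ring, it carries
relations between the `h_s` to relations between the `h_s ^ q`, and it is injective modulo
the `y_j ^ q`.  Here `n = m + 3`, `q = p ^ e ≥ m + 1` and `μ = (m, q-1, ..., q-1)`.
-/

set_option autoImplicit false

namespace Pool.Agent.GrP

open MvPolynomial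

section

variable (F : Type*) [Field F]

/-- The generic vector `x`. -/
noncomputable def gx (n : ℕ) : Fin n → MvPolynomial (ℕ ⊕ ℕ) F := fun i => X (Sum.inl (i : ℕ))

/-- The generic vector `y`. -/
noncomputable def gy (n : ℕ) : Fin n → MvPolynomial (ℕ ⊕ ℕ) F := fun i => X (Sum.inr (i : ℕ))

/-- The exponents `(m, q-1, ..., q-1)`. -/
def mu (m q : ℕ) : Fin (m + 3) → ℕ := fun i => if i = 0 then m else q - 1

variable {F}

lemma sum_mu (m q : ℕ) (hq : 1 ≤ q) : ∑ i, mu m q i + 2 = q * (m + 2) := by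
  obtain ⟨r, rfl⟩ : ∃ r, q = r + 1 := ⟨q - 1, by omega⟩
  rw [Fin.sum_univ_succ]
  have h1 : mu m (r + 1) 0 = m := by simp [mu]
  have h2 : ∀ i : Fin (m + 2), mu m (r + 1) i.succ = r := by
    intro i
    simp [mu]
  rw [h1, Finset.sum_congr rfl (fun i _ => h2 i), Finset.sum_const, Finset.card_univ,
    Fintype.card_fin, smul_eq_mul]
  ring

lemma iotaS_phi_minor {n i j : ℕ} (h1 : i < j) (h2 : j < n) :
    phi F n 0 0 (X (i, j)) = X (Sum.inl i) * X (Sum.inr j) - X (Sum.inl j) * X (Sum.inr i) := by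
  rw [phi_X, if_pos ⟨h1, h2⟩]
  simp [minor, xx, yy]

lemma iotaS_cancel {n : ℕ} (hn : 2 ≤ n) (N : ℕ) {w : MvPolynomial (ℕ ⊕ ℕ) F}
    (h : minor F 0 0 (0, 1) ^ N * w ∈ (phi F n 0 0).range) : w ∈ (phi F n 0 0).range := by
  induction N generalizing w with
  | zero => simpa using h
  | succ N ih =>
    apply range_of_minor_mul hn
    apply ih
    rw [← mul_assoc, ← pow_succ]
    exact h

/-- `ι(f)` is in the Pluecker ring: by `iota_special` with `(x₀, y₀)`, `(x₁, y₁)` the first two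
coordinates, `p_01 ^ (q (m + 1) - 1) * ι(f)` is `ι(f)` at the vectors `(- p_1i)_i`, `(p_0i)_i`, which
is a polynomial in the Pluecker coordinates; cancel `p_01` with `range_of_minor_mul`. -/
theorem iota_mem (p e : ℕ) [Fact p.Prime] [CharP F p] (m : ℕ)
    (hbin : ∀ j ≤ m, (m.choose j : F) ≠ 0) (f : MvPolynomial (Fin (m + 3)) F)
    (hf : f.IsHomogeneous m) :
    iota m (p ^ e) (mu m (p ^ e)) f (gx F (m + 3)) (gy F (m + 3)) ∈ (phi F (m + 3) 0 0).range := by
  have hpe : 1 ≤ p ^ e := Nat.one_le_pow _ _ (Fact.out (p := p.Prime)).pos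
  have hδ : (X (Sum.inl 0) * X (Sum.inr 1) - X (Sum.inl 1) * X (Sum.inr 0) :
      MvPolynomial (ℕ ⊕ ℕ) F) = minor F 0 0 (0, 1) := by
    simp [minor, xx, yy]
  have hδ0 : minor F 0 0 (0, 1) ≠ 0 := by
    intro h0
    have h1 := congrArg (aeval (Sum.elim (fun i : ℕ => if i = 0 then (1 : F) else 0)
      (fun i : ℕ => if i = 1 then (1 : F) else 0))) h0
    simp [minor, xx, yy] at h1
  have key := iota_special (F := F) p e m hbin (mu m (p ^ e)) (sum_mu m (p ^ e) hpe) f hf
    (gx F (m + 3)) (gy F (m + 3)) (X (Sum.inl 0)) (X (Sum.inr 0)) (X (Sum.inl 1)) (X (Sum.inr 1))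
    (X_ne_zero _) (by rw [hδ]; exact hδ0)
  rw [hδ] at key
  apply iotaS_cancel (by omega) (p ^ e * (m + 1) - 1)
  rw [← key]
  have hA : ∀ i : Fin (m + 3), ∃ z, phi F (m + 3) 0 0 z =
      X (Sum.inr 1) * gx F (m + 3) i - X (Sum.inl 1) * gy F (m + 3) i := by
    intro i
    unfold gx gy
    rcases lt_trichotomy (i : ℕ) 1 with h | h | h
    · have h0 : (i : ℕ) = 0 := by omega
      refine ⟨X (0, 1), ?_⟩
      rw [iotaS_phi_minor (by omega) (by omega), h0]
      ring
    · refine ⟨0, ?_⟩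
      rw [map_zero, h]
      ring
    · refine ⟨-X (1, (i : ℕ)), ?_⟩
      rw [map_neg, iotaS_phi_minor h i.2]
      ring
  have hB : ∀ i : Fin (m + 3), ∃ z, phi F (m + 3) 0 0 z =
      X (Sum.inl 0) * gy F (m + 3) i - X (Sum.inr 0) * gx F (m + 3) i := by
    intro i
    unfold gx gy
    rcases Nat.eq_zero_or_pos (i : ℕ) with h | h
    · refine ⟨0, ?_⟩
      rw [map_zero, h]
      ring
    · refine ⟨X (0, (i : ℕ)), ?_⟩
      rw [iotaS_phi_minor h i.2]
      ring
  choose a ha using hA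
  choose b hb using hB
  refine ⟨iota m (p ^ e) (mu m (p ^ e)) f a b, ?_⟩
  show phi F (m + 3) 0 0 _ = _
  rw [map_iota]
  simp only [ha, hb]

/-- The substitution `x ↦ x + X y`. -/
noncomputable def iotaS_sub (F : Type*) [Field F] :
    MvPolynomial (ℕ ⊕ ℕ) F →ₐ[F] Polynomial (MvPolynomial (ℕ ⊕ ℕ) F) :=
  aeval (Sum.elim (fun i => Polynomial.C (X (Sum.inl i)) +
    Polynomial.C (X (Sum.inr i)) * Polynomial.X) (fun i => Polynomial.C (X (Sum.inr i))))

lemma iotaS_sub_phi (n : ℕ) (g : MvPolynomial (ℕ × ℕ) F) :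
    iotaS_sub F (phi F n 0 0 g) = Polynomial.C (phi F n 0 0 g) := by
  have h : (iotaS_sub F).comp (phi F n 0 0) = (Polynomial.CAlgHom (R := F)).comp (phi F n 0 0) := by
    apply MvPolynomial.algHom_ext
    intro u
    rw [AlgHom.comp_apply, AlgHom.comp_apply, phi_X]
    split_ifs with hu
    · simp only [minor, xx, yy, Nat.zero_le, if_true, iotaS_sub, map_sub, map_mul, aeval_X,
        Sum.elim_inl, Sum.elim_inr, Polynomial.CAlgHom_apply]
      ring
    · simp
  have h2 := congrArg (fun φ => φ g) h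
  simpa using h2

lemma iotaS_sub_rename (n : ℕ) (f : MvPolynomial (Fin n) F) :
    iotaS_sub F (rename (fun i : Fin n => (Sum.inl (i : ℕ) : ℕ ⊕ ℕ)) f) =
      fX f (gx F n) (gy F n) := by
  unfold iotaS_sub fX gx gy
  rw [aeval_rename]
  rfl

/-- Relations: `∑ f_s(x) h_s(x,y) = 0` implies `∑ f_s(x + y X) h_s(x,y) = 0` (substitute `x + X y` for
`x`, the `h_s(x,y)` do not change), so the same for every coefficient of `fX (f s) x y`; take
`q`-th powers. -/
theorem iota_rel (p e : ℕ) [Fact p.Prime] [CharP F p] (m : ℕ) (c : ℕ → ℕ → F) (T : Finset ℕ)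
    (f : ℕ → MvPolynomial (Fin (m + 3)) F)
    (hrel : ∑ s ∈ T, rename (fun i : Fin (m + 3) => (Sum.inl (i : ℕ) : ℕ ⊕ ℕ)) (f s) *
      phi F (m + 3) 0 0 (hh F (m + 3) c s) = 0) :
    ∑ s ∈ T, iota m (p ^ e) (mu m (p ^ e)) (f s) (gx F (m + 3)) (gy F (m + 3)) *
      phi F (m + 3) 0 0 (hh F (m + 3) c s) ^ (p ^ e) = 0 := by
  have hpe : p ^ e ≠ 0 := pow_ne_zero _ (Fact.out (p := p.Prime)).ne_zero
  have h1 := congrArg (iotaS_sub F) hrel
  simp only [map_sum, map_mul, map_zero, iotaS_sub_phi, iotaS_sub_rename] at h1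
  have h2 : ∀ k, ∑ s ∈ T, (fX (f s) (gx F (m + 3)) (gy F (m + 3))).coeff k *
      phi F (m + 3) 0 0 (hh F (m + 3) c s) = 0 := by
    intro k
    have h3 := congrArg (fun P => Polynomial.coeff P k) h1
    simpa [Polynomial.finsetSum_coeff, Polynomial.coeff_mul_C] using h3
  have h4 : ∀ k, ∑ s ∈ T, (fX (f s) (gx F (m + 3)) (gy F (m + 3))).coeff k ^ (p ^ e) *
      phi F (m + 3) 0 0 (hh F (m + 3) c s) ^ (p ^ e) = 0 := by
    intro k
    have h5 := congrArg (fun z => z ^ (p ^ e)) (h2 k)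
    simp only [zero_pow hpe] at h5
    rw [sum_pow_char_pow p] at h5
    rw [← h5]
    exact Finset.sum_congr rfl fun s _ => (mul_pow _ _ _).symm
  unfold iota
  simp only [Finset.sum_mul]
  rw [Finset.sum_comm]
  apply Finset.sum_eq_zero
  intro j _
  have h6 := congrArg (fun z => algebraMap F (MvPolynomial (ℕ ⊕ ℕ) F)
    ((-1) ^ j * ((m.choose j : F))⁻¹) *
    (Phi (mu m (p ^ e)) (gx F (m + 3)) (gy F (m + 3))).coeff (p ^ e - 1 + p ^ e * j) * z)
    (h4 (m - j))
  simp only [mul_zero, Finset.mul_sum] at h6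
  rw [← h6]
  exact Finset.sum_congr rfl fun s _ => by ring

/-- The `q`-th power of an element of the ideal of the `y_j`. -/
lemma iotaS_pow_mem (p e : ℕ) [Fact p.Prime] [CharP F p] {z : MvPolynomial (ℕ ⊕ ℕ) F}
    (hz : z ∈ Ideal.span (Set.range fun j : ℕ => (X (Sum.inr j) : MvPolynomial (ℕ ⊕ ℕ) F))) :
    z ^ (p ^ e) ∈
      Ideal.span (Set.range fun j : ℕ => (X (Sum.inr j) : MvPolynomial (ℕ ⊕ ℕ) F) ^ (p ^ e)) := by
  have hpe : p ^ e ≠ 0 := pow_ne_zero _ (Fact.out (p := p.Prime)).ne_zero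
  refine Submodule.span_induction (p := fun z _ => z ^ (p ^ e) ∈
      Ideal.span (Set.range fun j : ℕ => (X (Sum.inr j) : MvPolynomial (ℕ ⊕ ℕ) F) ^ (p ^ e)))
    ?_ ?_ ?_ ?_ hz
  · rintro _ ⟨j, rfl⟩
    exact Ideal.subset_span ⟨j, rfl⟩
  · rw [zero_pow hpe]
    exact Submodule.zero_mem _
  · intro a b _ _ ha hb
    rw [add_pow_char_pow (p := p)]
    exact Submodule.add_mem _ ha hb
  · intro a b _ hb
    rw [smul_eq_mul, mul_pow]
    exact Ideal.mul_mem_left _ _ hb

/-- The coefficients of `f(x + y X)` of positive degree are in the ideal of the `y_j`. -/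
lemma iotaS_coeff_mem {n : ℕ} (f : MvPolynomial (Fin n) F) {k : ℕ} (hk : k ≠ 0) :
    (fX f (gx F n) (gy F n)).coeff k ∈
      Ideal.span (Set.range fun j : ℕ => (X (Sum.inr j) : MvPolynomial (ℕ ⊕ ℕ) F)) := by
  set J := Ideal.span (Set.range fun j : ℕ => (X (Sum.inr j) : MvPolynomial (ℕ ⊕ ℕ) F)) with hJ
  have h1 : Polynomial.mapAlgHom (Ideal.Quotient.mkₐ F J) (fX f (gx F n) (gy F n)) =
      Polynomial.C (aeval (fun i => Ideal.Quotient.mkₐ F J (gx F n i)) f) := by
    have h2 : ((Polynomial.mapAlgHom (Ideal.Quotient.mkₐ F J)).comp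
        (aeval (fun i : Fin n => Polynomial.C (gx F n i) +
          Polynomial.C (gy F n i) * Polynomial.X) :
          MvPolynomial (Fin n) F →ₐ[F] Polynomial (MvPolynomial (ℕ ⊕ ℕ) F))) =
        ((Polynomial.CAlgHom (R := F) (A := MvPolynomial (ℕ ⊕ ℕ) F ⧸ J)).comp
          (aeval (fun i => Ideal.Quotient.mkₐ F J (gx F n i)))) := by
      apply MvPolynomial.algHom_ext
      intro i
      have h3 : Ideal.Quotient.mk J (gy F n i) = 0 :=
        Ideal.Quotient.eq_zero_iff_mem.2 (Ideal.subset_span ⟨(i : ℕ), rfl⟩)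
      simp [h3]
    exact congrArg (fun φ => φ f) h2
  have h4 := congrArg (fun P => Polynomial.coeff P k) h1
  simp only [Polynomial.coeff_C, if_neg hk] at h4
  rw [← Ideal.Quotient.eq_zero_iff_mem]
  rw [← h4]
  simp

lemma iotaS_coeff_zero {n : ℕ} (f : MvPolynomial (Fin n) F) :
    (fX f (gx F n) (gy F n)).coeff 0 =
      rename (fun i : Fin n => (Sum.inl (i : ℕ) : ℕ ⊕ ℕ)) f := by
  rw [Polynomial.coeff_zero_eq_aeval_zero]
  unfold fX gx gy
  have h1 : (Polynomial.aeval (0 : MvPolynomial (ℕ ⊕ ℕ) F))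
      ((aeval (fun i : Fin n => Polynomial.C (X (Sum.inl (i : ℕ)) : MvPolynomial (ℕ ⊕ ℕ) F) +
        Polynomial.C (X (Sum.inr (i : ℕ))) * Polynomial.X)) f) =
      ((Polynomial.aeval (0 : MvPolynomial (ℕ ⊕ ℕ) F)).restrictScalars F)
      ((aeval (fun i : Fin n => Polynomial.C (X (Sum.inl (i : ℕ)) : MvPolynomial (ℕ ⊕ ℕ) F) +
        Polynomial.C (X (Sum.inr (i : ℕ))) * Polynomial.X)) f) := rfl
  rw [h1, MvPolynomial.comp_aeval_apply]
  rw [rename_eq_aeval]
  congr 1
  apply MvPolynomial.algHom_ext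
  intro i
  simp

/-- The coefficients of `Phi` have degree less than `q` in every `y_j`. -/
lemma iotaS_degree_Phi (m q k j : ℕ) :
    degreeOf (Sum.inr j) ((Phi (mu m q) (gx F (m + 3)) (gy F (m + 3))).coeff k) ≤ max m (q - 1) := by
  classical
  -- coefficientwise bounds
  have hmul : ∀ (P Q : Polynomial (MvPolynomial (ℕ ⊕ ℕ) F)) (a b : ℕ),
      (∀ k, degreeOf (Sum.inr j) (P.coeff k) ≤ a) → (∀ k, degreeOf (Sum.inr j) (Q.coeff k) ≤ b) →
      ∀ k, degreeOf (Sum.inr j) ((P * Q).coeff k) ≤ a + b := by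
    intro P Q a b hP hQ k
    rw [Polynomial.coeff_mul]
    refine (degreeOf_sum_le _ _ _).trans (Finset.sup_le fun x _ => ?_)
    exact (degreeOf_mul_le _ _ _).trans (add_le_add (hP _) (hQ _))
  have hpow : ∀ (P : Polynomial (MvPolynomial (ℕ ⊕ ℕ) F)) (a N : ℕ),
      (∀ k, degreeOf (Sum.inr j) (P.coeff k) ≤ a) →
      ∀ k, degreeOf (Sum.inr j) ((P ^ N).coeff k) ≤ N * a := by
    intro P a N hP
    induction N with
    | zero =>
      intro k
      rw [pow_zero, Polynomial.coeff_one, zero_mul]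
      split_ifs
      · rw [degreeOf_one]
      · rw [degreeOf_zero]
    | succ N ih =>
      intro k
      rw [pow_succ]
      refine (hmul _ _ _ _ ih hP k).trans ?_
      rw [Nat.succ_mul]
  have hprod : ∀ (S : Finset (Fin (m + 3))) (P : Fin (m + 3) → Polynomial (MvPolynomial (ℕ ⊕ ℕ) F))
      (a : Fin (m + 3) → ℕ), (∀ i k, degreeOf (Sum.inr j) ((P i).coeff k) ≤ a i) →
      ∀ k, degreeOf (Sum.inr j) ((∏ i ∈ S, P i).coeff k) ≤ ∑ i ∈ S, a i := by
    intro S P a hP
    induction S using Finset.induction_on with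
    | empty =>
      intro k
      rw [Finset.prod_empty, Finset.sum_empty, Polynomial.coeff_one]
      split_ifs
      · rw [degreeOf_one]
      · rw [degreeOf_zero]
    | insert i S hi ih =>
      intro k
      rw [Finset.prod_insert hi, Finset.sum_insert hi]
      exact hmul _ _ _ _ (hP i) ih k
  have hlin : ∀ (i : Fin (m + 3)) (k : ℕ), degreeOf (Sum.inr j)
      ((Polynomial.C (gx F (m + 3) i) + Polynomial.C (gy F (m + 3) i) * Polynomial.X).coeff k) ≤
      if (i : ℕ) = j then 1 else 0 := by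
    intro i k
    rw [Polynomial.coeff_add, Polynomial.coeff_C]
    refine (degreeOf_add_le _ _ _).trans (max_le ?_ ?_)
    · split_ifs
      · unfold gx
        rw [degreeOf_X]
        simp
      · unfold gx
        rw [degreeOf_X]
        simp
      · rw [degreeOf_zero]
        omega
      · rw [degreeOf_zero]
    · rw [Polynomial.coeff_C_mul, Polynomial.coeff_X]
      refine (degreeOf_mul_le _ _ _).trans ?_
      have h1 : degreeOf (Sum.inr j) (gy F (m + 3) i) = if (i : ℕ) = j then 1 else 0 := by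
        unfold gy
        rw [degreeOf_X]
        simp only [Sum.inr.injEq, eq_comm]
      have h2 : degreeOf (Sum.inr j) (if 1 = k then (1 : MvPolynomial (ℕ ⊕ ℕ) F) else 0) = 0 := by
        split_ifs
        · rw [degreeOf_one]
        · rw [degreeOf_zero]
      rw [h1, h2, add_zero]
  unfold Phi
  refine (hprod Finset.univ _ (fun i => mu m q i * if (i : ℕ) = j then 1 else 0)
    (fun i k => hpow _ _ _ (hlin i) k) k).trans ?_
  by_cases hj : j < m + 3
  · rw [Finset.sum_eq_single (⟨j, hj⟩ : Fin (m + 3))]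
    · simp only [if_true, mul_one]
      unfold mu
      split_ifs
      · exact le_max_left _ _
      · exact le_max_right _ _
    · intro b _ hb
      rw [if_neg (fun h => hb (Fin.ext h)), mul_zero]
    · intro h
      exact absurd (Finset.mem_univ _) h
  · rw [Finset.sum_eq_zero]
    · exact Nat.zero_le _
    · intro b _
      rw [if_neg (by have := b.2; omega), mul_zero]

lemma iotaS_degree_rename {n : ℕ} (f : MvPolynomial (Fin n) F) (j : ℕ) :
    degreeOf (Sum.inr j) (rename (fun i : Fin n => (Sum.inl (i : ℕ) : ℕ ⊕ ℕ)) f) = 0 := by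
  classical
  refine Nat.le_zero.1 (degreeOf_le_iff.2 fun d hd => ?_)
  obtain ⟨u, hu, _⟩ := (coeff_rename_ne_zero _ _ _ (mem_support_iff.1 hd))
  rw [← hu, Finsupp.mapDomain_of_notMem_range]
  rintro ⟨i, hi⟩
  exact absurd hi (by simp)

/-- The coefficient of `Phi` is not zero. -/
lemma iotaS_coeff_ne (m q : ℕ) (hq : 1 ≤ q) :
    (Phi (mu m q) (gx F (m + 3)) (gy F (m + 3))).coeff (q - 1 + q * m) ≠ 0 := by
  intro h0
  let ψ : MvPolynomial (ℕ ⊕ ℕ) F →ₐ[F] F := aeval (Sum.elim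
    (fun i => if i = m + 2 then (1 : F) else 0) (fun i => if i = m + 2 then (0 : F) else 1))
  have h1 : Polynomial.mapAlgHom ψ (Phi (mu m q) (gx F (m + 3)) (gy F (m + 3))) =
      Polynomial.X ^ (q - 1 + q * m) := by
    unfold Phi
    rw [map_prod, Fin.prod_univ_castSucc]
    have h2 : ∀ i : Fin (m + 2), Polynomial.mapAlgHom ψ
        ((Polynomial.C (gx F (m + 3) i.castSucc) + Polynomial.C (gy F (m + 3) i.castSucc) *
          Polynomial.X) ^ mu m q i.castSucc) = Polynomial.X ^ mu m q i.castSucc := by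
      intro i
      have h3 : (i : ℕ) ≠ m + 2 := by
        have := i.2
        omega
      have h4 : ψ (gx F (m + 3) i.castSucc) = 0 := by
        simp [ψ, gx, h3]
      have h5 : ψ (gy F (m + 3) i.castSucc) = 1 := by
        simp [ψ, gy, h3]
      rw [map_pow]
      simp [h4, h5]
    have h6 : Polynomial.mapAlgHom ψ
        ((Polynomial.C (gx F (m + 3) (Fin.last (m + 2))) + Polynomial.C
          (gy F (m + 3) (Fin.last (m + 2))) * Polynomial.X) ^ mu m q (Fin.last (m + 2))) = 1 := by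
      have h4 : ψ (gx F (m + 3) (Fin.last (m + 2))) = 1 := by
        simp [ψ, gx]
      have h5 : ψ (gy F (m + 3) (Fin.last (m + 2))) = 0 := by
        simp [ψ, gy]
      rw [map_pow]
      simp [h4, h5]
    rw [Finset.prod_congr rfl (fun i _ => h2 i), h6, mul_one, Finset.prod_pow_eq_pow_sum]
    congr 1
    have h7 := sum_mu m q hq
    rw [Fin.sum_univ_castSucc] at h7
    have h8 : mu m q (Fin.last (m + 2)) = q - 1 := by
      unfold mu
      rw [if_neg]
      intro h
      have := congrArg Fin.val h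
      simp at this
    rw [h8] at h7
    have h9 : q * (m + 2) = q * m + 2 * q := by ring
    omega
  have h2 := congrArg (fun P => Polynomial.coeff P (q - 1 + q * m)) h1
  simp [h0] at h2

/-- An element of the ideal of the `y_j ^ q` all whose degrees in the `y_j` are less than `q`. -/
lemma iotaS_zero_of_mem {q : ℕ} {z : MvPolynomial (ℕ ⊕ ℕ) F}
    (hd : ∀ j : ℕ, degreeOf (Sum.inr j) z < q)
    (hz : z ∈ Ideal.span (Set.range fun j : ℕ => (X (Sum.inr j) : MvPolynomial (ℕ ⊕ ℕ) F) ^ q)) :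
    z = 0 := by
  classical
  by_contra hne
  obtain ⟨d, hdz⟩ := support_nonempty.2 hne
  have h1 : (Set.range fun j : ℕ => (X (Sum.inr j) : MvPolynomial (ℕ ⊕ ℕ) F) ^ q) =
      (fun s => monomial s (1 : F)) '' (Set.range fun j : ℕ => Finsupp.single (Sum.inr j) q) := by
    ext w
    simp [X_pow_eq_monomial]
  rw [h1, mem_ideal_span_monomial_image] at hz
  obtain ⟨_, ⟨j, rfl⟩, hj⟩ := hz d hdz
  have h2 := hj (Sum.inr j)
  have h3 := degreeOf_le_iff.1 (le_refl (degreeOf (Sum.inr j) z)) d hdz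
  have h4 := hd j
  simp at h2
  omega

/-- If `ι(f)` is in the ideal of the `y_j ^ q`, then `f = 0`: modulo this ideal
`ι(f) = ± [X^(q (m+1) - 1)] Phi * f(x)^q`, all exponents of the `y_j` in the first factor are
`< q`, the first factor is not zero (coefficient `1` at `y_0^m ∏_(1 ≤ i ≤ m+1) y_i^(q-1) x_(m+2)^(q-1)`)
and the second factor does not contain the `y_j`. -/
theorem iota_mod (p e : ℕ) [Fact p.Prime] [CharP F p] (m : ℕ) (hq : m + 1 ≤ p ^ e)
    (f : MvPolynomial (Fin (m + 3)) F) (hf : f.IsHomogeneous m)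
    (h : iota m (p ^ e) (mu m (p ^ e)) f (gx F (m + 3)) (gy F (m + 3)) ∈
      Ideal.span (Set.range fun j : ℕ => (X (Sum.inr j) : MvPolynomial (ℕ ⊕ ℕ) F) ^ (p ^ e))) :
    f = 0 := by
  classical
  have hpe : 1 ≤ p ^ e := Nat.one_le_pow _ _ (Fact.out (p := p.Prime)).pos
  have hterm : ∀ j, j < m → algebraMap F (MvPolynomial (ℕ ⊕ ℕ) F)
      ((-1) ^ j * ((m.choose j : F))⁻¹) *
      ((Phi (mu m (p ^ e)) (gx F (m + 3)) (gy F (m + 3))).coeff (p ^ e - 1 + p ^ e * j) *
        (fX f (gx F (m + 3)) (gy F (m + 3))).coeff (m - j) ^ (p ^ e)) ∈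
      Ideal.span (Set.range fun j : ℕ => (X (Sum.inr j) : MvPolynomial (ℕ ⊕ ℕ) F) ^ (p ^ e)) :=
    fun j hj => Ideal.mul_mem_left _ _ (Ideal.mul_mem_left _ _
      (iotaS_pow_mem p e (iotaS_coeff_mem f (by omega))))
  unfold iota at h
  rw [Finset.sum_range_succ] at h
  have h1 := (Submodule.add_mem_iff_right _ (Submodule.sum_mem _ fun j hj =>
    hterm j (Finset.mem_range.1 hj))).1 h
  rw [Nat.sub_self, iotaS_coeff_zero, Nat.choose_self, Nat.cast_one, inv_one, mul_one] at h1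
  have h2 := Ideal.mul_mem_left _ (algebraMap F (MvPolynomial (ℕ ⊕ ℕ) F) ((-1) ^ m)) h1
  rw [← mul_assoc, ← map_mul, ← pow_add, Even.neg_one_pow ⟨m, rfl⟩, map_one, one_mul] at h2
  have hP := iotaS_coeff_ne (F := F) m (p ^ e) hpe
  have h3 := iotaS_zero_of_mem (q := p ^ e) (by
    intro j
    refine (degreeOf_mul_le _ _ _).trans_lt ?_
    have h4 := iotaS_degree_Phi (F := F) m (p ^ e) (p ^ e - 1 + p ^ e * m) j
    have h5 : degreeOf (Sum.inr j) (rename (fun i : Fin (m + 3) => (Sum.inl (i : ℕ) : ℕ ⊕ ℕ)) f ^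
        (p ^ e)) = 0 := by
      have h6 := degreeOf_pow_le (Sum.inr j)
        (rename (fun i : Fin (m + 3) => (Sum.inl (i : ℕ) : ℕ ⊕ ℕ)) f) (p ^ e)
      rw [iotaS_degree_rename, mul_zero] at h6
      omega
    rw [h5]
    omega) h2
  rcases mul_eq_zero.1 h3 with h4 | h4
  · exact absurd h4 hP
  · have h5 := pow_eq_zero_iff (by omega) |>.1 h4
    have hinj : Function.Injective (fun i : Fin (m + 3) => (Sum.inl (i : ℕ) : ℕ ⊕ ℕ)) := by
      intro a b hab
      exact Fin.ext (Sum.inl_injective hab)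
    exact rename_injective _ hinj (h5.trans (map_zero _).symm)

end

end Pool.Agent.GrP
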