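import Mathlib

/-!
Weakly regular sequences in short exact sequences, powers, and first syzygies.
-/

set_option autoImplicit false

namespace Pool.Agent.GrP

open RingTheory.Sequence

universe u v

variable {R : Type u} [CommRing R]

section

open scoped Pointwise

private lemma WR_mem_smul_top {A : Type v} [AddCommGroup A] [Module R A] (r : R) (x : A) :
    x ∈ (r • (⊤ : Submodule R A)) ↔ ∃ y, r • y = x := by
  rw [Submodule.mem_smul_pointwise_iff_exists]
  simp

end

private lemma WR_mk_eq_zero {A : Type v} [AddCommGroup A] [Module R A] (r : R) (x : A) :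
    (Submodule.Quotient.mk x : QuotSMulTop r A) = 0 ↔ ∃ y, r • y = x := by
  rw [Submodule.Quotient.mk_eq_zero, WR_mem_smul_top]

private lemma WR_reg {A B : Type v} [AddCommGroup A] [AddCommGroup B] [Module R A]
    [Module R B] (f : A →ₗ[R] B) (hf : Function.Injective f) (r : R) (h : IsSMulRegular B r) :
    IsSMulRegular A r := by
  intro x y hxy
  apply hf
  apply h
  simp only at hxy ⊢
  rw [← map_smul, ← map_smul, hxy]

private lemma WR_zero_of_smul {A : Type v} [AddCommGroup A] [Module R A] {r : R}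
    (h : IsSMulRegular A r) {x : A} (hx : r • x = 0) : x = 0 :=
  h.right_eq_zero_of_smul hx

private lemma WR_map_inj {A B C : Type v} [AddCommGroup A] [AddCommGroup B] [AddCommGroup C]
    [Module R A] [Module R B] [Module R C] (f : A →ₗ[R] B) (g : B →ₗ[R] C)
    (hf : Function.Injective f) (hfg : Function.Exact f g) (r : R) (h : IsSMulRegular C r) :
    Function.Injective (QuotSMulTop.map r f) := by
  rw [injective_iff_map_eq_zero]
  intro x hx
  obtain ⟨a, rfl⟩ := Submodule.Quotient.mk_surjective _ x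
  rw [QuotSMulTop.map_apply_mk, WR_mk_eq_zero] at hx
  obtain ⟨b, hb⟩ := hx
  have h1 : g b = 0 := by
    apply WR_zero_of_smul h
    rw [← map_smul, hb]
    exact (hfg _).2 ⟨a, rfl⟩
  obtain ⟨a', rfl⟩ := (hfg b).1 h1
  rw [WR_mk_eq_zero]
  refine ⟨a', hf ?_⟩
  rw [map_smul, hb]

/-- If `0 → A → B → C → 0` is exact and the sequence is weakly regular on `A` and on `C`, then it is
weakly regular on `B`. -/
theorem wr_ext {A B C : Type v} [AddCommGroup A] [AddCommGroup B] [AddCommGroup C] [Module R A]
    [Module R B] [Module R C] (f : A →ₗ[R] B) (g : B →ₗ[R] C) (hf : Function.Injective f)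
    (hfg : Function.Exact f g) (hg : Function.Surjective g) (rs : List R)
    (hA : IsWeaklyRegular A rs) (hC : IsWeaklyRegular C rs) : IsWeaklyRegular B rs := by
  induction rs generalizing A B C with
  | nil => exact IsWeaklyRegular.nil R B
  | cons r rs ih =>
    rw [isWeaklyRegular_cons_iff] at hA hC ⊢
    refine ⟨isSMulRegular_of_range_eq_ker hf hfg.linearMap_ker_eq.symm hA.1 hC.1, ?_⟩
    exact ih (QuotSMulTop.map r f) (QuotSMulTop.map r g) (WR_map_inj f g hf hfg r hC.1)
      (QuotSMulTop.map_exact r hfg hg) (QuotSMulTop.map_surjective r hg) hA.2 hC.2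

/-- If `0 → A → B → C → 0` is exact and the sequence is weakly regular on `B` and on `C`, then it is
weakly regular on `A`. -/
theorem wr_ker {A B C : Type v} [AddCommGroup A] [AddCommGroup B] [AddCommGroup C] [Module R A]
    [Module R B] [Module R C] (f : A →ₗ[R] B) (g : B →ₗ[R] C) (hf : Function.Injective f)
    (hfg : Function.Exact f g) (hg : Function.Surjective g) (rs : List R)
    (hB : IsWeaklyRegular B rs) (hC : IsWeaklyRegular C rs) : IsWeaklyRegular A rs := by
  induction rs generalizing A B C with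
  | nil => exact IsWeaklyRegular.nil R A
  | cons r rs ih =>
    rw [isWeaklyRegular_cons_iff] at hB hC ⊢
    refine ⟨WR_reg f hf r hB.1, ?_⟩
    exact ih (QuotSMulTop.map r f) (QuotSMulTop.map r g) (WR_map_inj f g hf hfg r hC.1)
      (QuotSMulTop.map_exact r hfg hg) (QuotSMulTop.map_surjective r hg) hB.2 hC.2

/-- If `0 → A → B → C → 0` is exact, `r C = 0`, `r :: rs` is weakly regular on `B` and `rs` is weakly
regular on `C`, then `r :: rs` is weakly regular on `A`. -/
theorem wr_snake {A B C : Type v} [AddCommGroup A] [AddCommGroup B] [AddCommGroup C] [Module R A]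
    [Module R B] [Module R C] (f : A →ₗ[R] B) (g : B →ₗ[R] C) (hf : Function.Injective f)
    (hfg : Function.Exact f g) (hg : Function.Surjective g) (r : R) (rs : List R)
    (hr : ∀ c : C, r • c = 0) (hB : IsWeaklyRegular B (r :: rs)) (hC : IsWeaklyRegular C rs) :
    IsWeaklyRegular A (r :: rs) := by
  rw [isWeaklyRegular_cons_iff] at hB ⊢
  refine ⟨WR_reg f hf r hB.1, ?_⟩
  -- the map `B / r B → C`
  open scoped Pointwise in
  have hle : (r • (⊤ : Submodule R B)) ≤ LinearMap.ker g := by
    intro b hb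
    obtain ⟨y, rfl⟩ := (WR_mem_smul_top r b).1 hb
    rw [LinearMap.mem_ker, map_smul, hr]
  let gq : QuotSMulTop r B →ₗ[R] C := Submodule.liftQ _ g hle
  have hgq : Function.Surjective gq := by
    intro c
    obtain ⟨b, rfl⟩ := hg c
    exact ⟨Submodule.Quotient.mk b, rfl⟩
  have hK : IsWeaklyRegular (LinearMap.ker gq) rs := by
    refine wr_ker (LinearMap.ker gq).subtype gq (Submodule.injective_subtype _) ?_ hgq rs hB.2 hC
    rw [LinearMap.exact_iff, Submodule.range_subtype]
  -- the map `B → A`
  have hφ0 : ∀ b : B, r • b ∈ LinearMap.range f := by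
    intro b
    have : g (r • b) = 0 := by rw [map_smul, hr]
    obtain ⟨a, ha⟩ := (hfg _).1 this
    exact ⟨a, ha⟩
  let φ : B →ₗ[R] A := (LinearEquiv.ofInjective f hf).symm.toLinearMap.comp
    ((LinearMap.lsmul R B r).codRestrict (LinearMap.range f) hφ0)
  have hφ : ∀ b, f (φ b) = r • b := by
    intro b
    have := (LinearEquiv.ofInjective f hf).apply_symm_apply
      ((LinearMap.lsmul R B r).codRestrict (LinearMap.range f) hφ0 b)
    have h2 := congrArg Subtype.val this
    rw [LinearEquiv.ofInjective_apply] at h2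
    exact h2
  let ψ : B →ₗ[R] QuotSMulTop r A := (Submodule.mkQ _).comp φ
  have hψ : LinearMap.ker ψ = LinearMap.ker g := by
    ext b
    rw [LinearMap.mem_ker, LinearMap.mem_ker]
    change (Submodule.Quotient.mk (φ b) : QuotSMulTop r A) = 0 ↔ _
    rw [WR_mk_eq_zero]
    constructor
    · rintro ⟨a, ha⟩
      have h1 : f a = b := by
        apply hB.1
        simp only
        rw [← map_smul, ha, hφ]
      rw [← h1]
      exact (hfg _).2 ⟨a, rfl⟩
    · intro hb
      obtain ⟨a, rfl⟩ := (hfg b).1 hb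
      refine ⟨a, hf ?_⟩
      rw [hφ, map_smul]
  let ψ' : (B ⧸ LinearMap.ker g) →ₗ[R] QuotSMulTop r A :=
    Submodule.liftQ _ ψ (le_of_eq hψ.symm)
  have hψ'i : Function.Injective ψ' := by
    rw [← LinearMap.ker_eq_bot]
    exact Submodule.ker_liftQ_eq_bot _ _ _ (le_of_eq hψ)
  have hC' : IsWeaklyRegular (B ⧸ LinearMap.ker g) rs :=
    ((LinearMap.quotKerEquivOfSurjective g hg).isWeaklyRegular_congr rs).2 hC
  -- the map `A / r A → K`
  have hmem : ∀ x : QuotSMulTop r A, QuotSMulTop.map r f x ∈ LinearMap.ker gq := by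
    intro x
    obtain ⟨a, rfl⟩ := Submodule.Quotient.mk_surjective _ x
    rw [QuotSMulTop.map_apply_mk, LinearMap.mem_ker]
    exact (hfg _).2 ⟨a, rfl⟩
  let χ : QuotSMulTop r A →ₗ[R] LinearMap.ker gq :=
    (QuotSMulTop.map r f).codRestrict (LinearMap.ker gq) hmem
  refine wr_ext ψ' χ hψ'i ?_ ?_ rs hC' hK
  · intro x
    obtain ⟨a, rfl⟩ := Submodule.Quotient.mk_surjective _ x
    constructor
    · intro hx
      have h1 : QuotSMulTop.map r f (Submodule.Quotient.mk a) = 0 := congrArg Subtype.val hx
      rw [QuotSMulTop.map_apply_mk, WR_mk_eq_zero] at h1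
      obtain ⟨b, hb⟩ := h1
      refine ⟨Submodule.Quotient.mk b, ?_⟩
      change (Submodule.Quotient.mk (φ b) : QuotSMulTop r A) = Submodule.Quotient.mk a
      congr 1
      apply hf
      rw [hφ, hb]
    · rintro ⟨y, hy⟩
      obtain ⟨b, rfl⟩ := Submodule.Quotient.mk_surjective _ y
      rw [← hy]
      apply Subtype.ext
      change QuotSMulTop.map r f (Submodule.Quotient.mk (φ b)) = 0
      rw [QuotSMulTop.map_apply_mk, WR_mk_eq_zero]
      exact ⟨b, (hφ b).symm⟩
  · rintro ⟨y, hy⟩
    obtain ⟨b, rfl⟩ := Submodule.Quotient.mk_surjective _ y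
    have h1 : g b = 0 := hy
    obtain ⟨a, rfl⟩ := (hfg b).1 h1
    exact ⟨Submodule.Quotient.mk a, Subtype.ext (QuotSMulTop.map_apply_mk r f a)⟩

/-- Products. -/
theorem wr_prod {A B : Type v} [AddCommGroup A] [AddCommGroup B] [Module R A] [Module R B]
    (rs : List R) (hA : IsWeaklyRegular A rs) (hB : IsWeaklyRegular B rs) :
    IsWeaklyRegular (A × B) rs := by
  refine wr_ext (LinearMap.inl R A B) (LinearMap.snd R A B) LinearMap.inl_injective ?_
    LinearMap.snd_surjective rs hA hB
  exact Function.Exact.inl_snd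

open scoped Pointwise in
private lemma WR_pow_aux {A : Type v} [AddCommGroup A] [Module R A] (r : R)
    (hr : IsSMulRegular A r) (L : List R) (h : IsWeaklyRegular (QuotSMulTop r A) L) (j : ℕ) :
    IsWeaklyRegular (QuotSMulTop (r ^ (j + 1)) A) L := by
  induction j with
  | zero =>
    have h1 : r ^ (0 + 1) = r := by simp
    rw [h1]
    exact h
  | succ j ih =>
    have h1 : (r • (⊤ : Submodule R A)) ≤
        (r ^ (j + 1 + 1) • (⊤ : Submodule R A)).comap (LinearMap.lsmul R A (r ^ (j + 1))) := by
      intro x hx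
      obtain ⟨y, rfl⟩ := (WR_mem_smul_top r x).1 hx
      rw [Submodule.mem_comap, WR_mem_smul_top]
      refine ⟨y, ?_⟩
      rw [LinearMap.lsmul_apply, smul_smul, pow_succ (r) (j + 1)]
    have h2 : (r ^ (j + 1 + 1) • (⊤ : Submodule R A)) ≤
        (r ^ (j + 1) • (⊤ : Submodule R A)).comap LinearMap.id := by
      intro x hx
      obtain ⟨y, rfl⟩ := (WR_mem_smul_top _ x).1 hx
      rw [Submodule.mem_comap, WR_mem_smul_top]
      refine ⟨r • y, ?_⟩
      rw [LinearMap.id_apply, smul_smul, ← pow_succ]
    let f : QuotSMulTop r A →ₗ[R] QuotSMulTop (r ^ (j + 1 + 1)) A :=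
      Submodule.mapQ _ _ (LinearMap.lsmul R A (r ^ (j + 1))) h1
    let g : QuotSMulTop (r ^ (j + 1 + 1)) A →ₗ[R] QuotSMulTop (r ^ (j + 1)) A :=
      Submodule.mapQ _ _ LinearMap.id h2
    have hf : ∀ x : A, f (Submodule.Quotient.mk x) = Submodule.Quotient.mk (r ^ (j + 1) • x) :=
      fun x => rfl
    have hg : ∀ x : A, g (Submodule.Quotient.mk x) = Submodule.Quotient.mk x :=
      fun x => rfl
    have hrj : IsSMulRegular A (r ^ (j + 1)) := hr.pow (j + 1)
    refine wr_ext f g ?_ ?_ ?_ L h ih
    · rw [injective_iff_map_eq_zero]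
      intro x hx
      obtain ⟨a, rfl⟩ := Submodule.Quotient.mk_surjective _ x
      rw [hf, WR_mk_eq_zero] at hx
      obtain ⟨y, hy⟩ := hx
      rw [WR_mk_eq_zero]
      refine ⟨y, hrj ?_⟩
      simp only
      rw [smul_smul, ← pow_succ, hy]
    · intro x
      obtain ⟨a, rfl⟩ := Submodule.Quotient.mk_surjective _ x
      rw [hg, WR_mk_eq_zero]
      constructor
      · rintro ⟨y, hy⟩
        exact ⟨Submodule.Quotient.mk y, by rw [hf, hy]⟩
      · rintro ⟨y, hy⟩
        obtain ⟨b, rfl⟩ := Submodule.Quotient.mk_surjective _ y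
        rw [hf] at hy
        rw [← sub_eq_zero, ← Submodule.Quotient.mk_sub, WR_mk_eq_zero] at hy
        obtain ⟨z, hz⟩ := hy
        refine ⟨b - r • z, ?_⟩
        rw [smul_sub, smul_smul, ← pow_succ, hz]
        abel
    · intro x
      obtain ⟨a, rfl⟩ := Submodule.Quotient.mk_surjective _ x
      exact ⟨Submodule.Quotient.mk a, hg a⟩

/-- Powers. -/
theorem wr_pow {A : Type v} [AddCommGroup A] [Module R A] (rs : List R)
    (h : IsWeaklyRegular A rs) (q : ℕ) (hq : 1 ≤ q) : IsWeaklyRegular A (rs.map (· ^ q)) := by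
  induction rs generalizing A with
  | nil => exact IsWeaklyRegular.nil R A
  | cons r rs ih =>
    rw [isWeaklyRegular_cons_iff] at h
    rw [List.map_cons, isWeaklyRegular_cons_iff]
    refine ⟨h.1.pow q, ?_⟩
    obtain ⟨j, rfl⟩ : ∃ j, q = j + 1 := ⟨q - 1, by omega⟩
    exact WR_pow_aux r h.1 _ (ih h.2) j

private lemma WR_mem_span {A : Type v} [AddCommGroup A] [Module R A] {n : ℕ} (r : Fin n → R)
    (x : A) (hx : x ∈ Ideal.span (Set.range r) • (⊤ : Submodule R A)) :
    ∃ m : Fin n → A, x = ∑ i, r i • m i := by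
  let T : (Fin n → A) →ₗ[R] A :=
    ∑ i, (LinearMap.lsmul R A (r i)).comp (LinearMap.proj i)
  have hT : ∀ m, T m = ∑ i, r i • m i := by
    intro m
    simp [T, LinearMap.sum_apply]
  have h : Ideal.span (Set.range r) • (⊤ : Submodule R A) ≤ LinearMap.range T := by
    rw [Submodule.smul_le]
    intro s hs a _
    induction hs using Submodule.span_induction with
    | mem s hs =>
      obtain ⟨i, rfl⟩ := hs
      refine ⟨Pi.single i a, ?_⟩
      rw [hT, Finset.sum_eq_single i]
      · rw [Pi.single_eq_same]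
      · intro j _ hj
        rw [Pi.single_eq_of_ne hj, smul_zero]
      · intro hi
        exact absurd (Finset.mem_univ i) hi
    | zero =>
      rw [zero_smul]
      exact Submodule.zero_mem _
    | add s t _ _ hs ht =>
      rw [add_smul]
      exact Submodule.add_mem _ hs ht
    | smul c s _ hs =>
      rw [smul_assoc]
      exact Submodule.smul_mem _ _ hs
  obtain ⟨m, hm⟩ := h hx
  exact ⟨m, by rw [← hm, hT]⟩

private lemma WR_syz_aux {A : Type v} [AddCommGroup A] [Module R A] (n : ℕ) (r : Fin n → R)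
    (h : ∀ i : Fin n, ∀ x : A,
      r i • x ∈ Ideal.span (r '' {j | j < i}) • (⊤ : Submodule R A) →
      x ∈ Ideal.span (r '' {j | j < i}) • (⊤ : Submodule R A))
    (m : Fin n → A) (hm : ∑ i, r i • m i = 0) :
    ∀ i, m i ∈ Ideal.span (Set.range r) • (⊤ : Submodule R A) := by
  induction n with
  | zero => exact fun i => i.elim0
  | succ n ih =>
    have hlast : (r '' {j | j < Fin.last n}) = Set.range (fun i : Fin n => r i.castSucc) := by
      ext x
      constructor
      · rintro ⟨j, hj, rfl⟩
        exact ⟨⟨j, hj⟩, rfl⟩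
      · rintro ⟨j, rfl⟩
        exact ⟨j.castSucc, Fin.castSucc_lt_last j, rfl⟩
    have hsub : Set.range (fun i : Fin n => r i.castSucc) ⊆ Set.range r := by
      rintro x ⟨j, rfl⟩
      exact ⟨j.castSucc, rfl⟩
    have hmono : Ideal.span (Set.range (fun i : Fin n => r i.castSucc)) • (⊤ : Submodule R A) ≤
        Ideal.span (Set.range r) • (⊤ : Submodule R A) :=
      Submodule.smul_mono_left (Ideal.span_mono hsub)
    rw [Fin.sum_univ_castSucc] at hm
    have h1 : r (Fin.last n) • m (Fin.last n) ∈
        Ideal.span (Set.range (fun i : Fin n => r i.castSucc)) • (⊤ : Submodule R A) := by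
      have h2 : r (Fin.last n) • m (Fin.last n) =
          - ∑ i : Fin n, r i.castSucc • m i.castSucc := by
        rw [eq_neg_iff_add_eq_zero, add_comm]
        exact hm
      rw [h2]
      apply Submodule.neg_mem
      apply Submodule.sum_mem
      intro i _
      exact Submodule.smul_mem_smul (Ideal.subset_span ⟨i, rfl⟩) trivial
    have h3 := h (Fin.last n) (m (Fin.last n))
    rw [hlast] at h3
    have h4 := h3 h1
    obtain ⟨p, hp⟩ := WR_mem_span _ _ h4
    have h5 : ∑ i : Fin n, r i.castSucc • (m i.castSucc + r (Fin.last n) • p i) = 0 := by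
      rw [← hm]
      conv_rhs => rw [hp]
      rw [Finset.smul_sum, ← Finset.sum_add_distrib]
      refine Finset.sum_congr rfl (fun i _ => ?_)
      rw [smul_add, smul_comm (r (Fin.last n))]
    have h6 := ih (fun i => r i.castSucc) ?_ (fun i => m i.castSucc + r (Fin.last n) • p i) h5
    · intro i
      refine Fin.lastCases ?_ (fun j => ?_) i
      · exact hmono h4
      · have h7 := hmono (h6 j)
        have h8 : r (Fin.last n) • p j ∈ Ideal.span (Set.range r) • (⊤ : Submodule R A) :=
          Submodule.smul_mem_smul (Ideal.subset_span ⟨_, rfl⟩) trivial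
        have h9 := Submodule.sub_mem _ h7 h8
        simpa using h9
    · intro i x hx
      have h10 : (fun i : Fin n => r i.castSucc) '' {j | j < i} = r '' {j | j < i.castSucc} := by
        ext y
        constructor
        · rintro ⟨j, hj, rfl⟩
          exact ⟨j.castSucc, hj, rfl⟩
        · rintro ⟨j, hj, rfl⟩
          have hj' : (j : ℕ) < i := hj
          exact ⟨⟨j, by omega⟩, hj, rfl⟩
      rw [h10] at hx ⊢
      exact h i.castSucc x hx

/-- The first syzygies of a weakly regular sequence have coefficients in the ideal of the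
sequence. -/
theorem wr_syz {A : Type v} [AddCommGroup A] [Module R A] (rs : List R)
    (h : IsWeaklyRegular A rs) (m : Fin rs.length → A) (hm : ∑ i, rs.get i • m i = 0) :
    ∀ i, m i ∈ Ideal.ofList rs • (⊤ : Submodule R A) := by
  have h1 : ∀ i : ℕ, ∀ hi : i < rs.length,
      (rs.get '' {j | j < (⟨i, hi⟩ : Fin rs.length)}) = {x | x ∈ rs.take i} := by
    intro i hi
    ext x
    constructor
    · rintro ⟨j, hj, rfl⟩
      have hj' : (j : ℕ) < i := hj
      rw [Set.mem_ofPred_eq, List.mem_take_iff_getElem]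
      exact ⟨j, by omega, rfl⟩
    · intro hx
      rw [Set.mem_ofPred_eq, List.mem_take_iff_getElem] at hx
      obtain ⟨j, hj, rfl⟩ := hx
      exact ⟨⟨j, by omega⟩, by
        change j < i
        omega, rfl⟩
  have h2 : Set.range rs.get = {x | x ∈ rs} := by
    ext x
    rw [Set.mem_ofPred_eq, List.mem_iff_get]
    rfl
  have h3 := WR_syz_aux (A := A) rs.length rs.get ?_ m hm
  · intro i
    have := h3 i
    rw [h2] at this
    exact this
  · rintro ⟨i, hi⟩ x hx
    have h4 := h.regular_mod_prev i hi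
    rw [isSMulRegular_quotient_iff_mem_of_smul_mem] at h4
    rw [h1 i hi] at hx ⊢
    exact h4 x hx

end Pool.Agent.GrP
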