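import Mathlib
import Pool.Agent.GrP.Defs
import Pool.Agent.GrP.Basic
import Pool.Agent.GrP.Std
import Pool.Agent.GrP.WR

/-!
The forms `h_s` form a regular sequence on the Pluecker ring; the same for their `q`-th powers.

Claim: for `a < b < n` the sequence `h_(a+b), h_(a+b+1), ..., h_(2n-3)` is weakly regular on
`P / II n a b`.  Downward induction on `a + b`.  Modulo `II n a b` one has `h_s = 0` for `s < a + b`
and `h_(a+b) = c_ab T_(a,b)`, a nonzerodivisor.
* `b = a + 1 < n - 1`: `II n a b + (T_(a,b)) = II n a (b+1)`; use the induction hypothesis.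
* `b = n - 1`, `a < n - 2`: `II n a b + (T_(a,b)) = II n (a+1) b`.
* `(a,b) = (n-2,n-1)`: nothing is left after `h_(2n-3)`.
* otherwise `II n a b + (T_(a,b)) = I ⊓ J`, `I = II n (a+1) b`, `J = II n a (b+1)`, and
  `I + J = II n (a+1) (b+1)` contains `h_(a+b+1)`; apply `wr_snake` to
  `0 → P/(I ⊓ J) → P/I × P/J → P/(I ⊔ J) → 0`.
Then `wr_pow` and `wr_syz` for `(a,b) = (0,1)`.
-/

set_option autoImplicit false

namespace Pool.Agent.GrP

open MvPolynomial RingTheory.Sequence

section

variable {R : Type*} [CommRing R]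

open scoped Pointwise in
private lemma Reg_cons (I K : Ideal R) (r : R) (rs : List R) (hK : K = I ⊔ Ideal.span {r})
    (h1 : ∀ x, r * x ∈ I → x ∈ I) (h2 : IsWeaklyRegular (R ⧸ K) rs) :
    IsWeaklyRegular (R ⧸ I) (r :: rs) := by
  rw [isWeaklyRegular_cons_iff]
  constructor
  · rw [isSMulRegular_quotient_iff_mem_of_smul_mem]
    intro x hx
    exact h1 x hx
  · have h3 : (r • (⊤ : Submodule R (R ⧸ I))) = Submodule.map I.mkQ (Ideal.span {r}) := by
      ext x
      constructor
      · intro hx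
        rw [Submodule.mem_smul_pointwise_iff_exists] at hx
        obtain ⟨y, -, rfl⟩ := hx
        obtain ⟨z, rfl⟩ := Submodule.Quotient.mk_surjective _ y
        refine ⟨r * z, ?_, rfl⟩
        exact Ideal.mul_mem_right _ _ (Ideal.subset_span rfl)
      · rintro ⟨y, hy, rfl⟩
        have hy' : y ∈ Ideal.span {r} := hy
        rw [Ideal.mem_span_singleton'] at hy'
        obtain ⟨z, rfl⟩ := hy'
        rw [Submodule.mem_smul_pointwise_iff_exists]
        refine ⟨I.mkQ z, trivial, ?_⟩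
        rw [← map_smul, smul_eq_mul, mul_comm]
    have e1 : QuotSMulTop r (R ⧸ I) ≃ₗ[R] ((R ⧸ I) ⧸ Submodule.map I.mkQ (Ideal.span {r})) :=
      Submodule.quotEquivOfEq _ _ h3
    have e2 : ((R ⧸ I) ⧸ Submodule.map I.mkQ (Ideal.span {r})) ≃ₗ[R]
        (R ⧸ (I ⊔ Ideal.span {r})) :=
      Submodule.quotientQuotientEquivQuotientSup I (Ideal.span {r})
    have e3 : (R ⧸ (I ⊔ Ideal.span {r})) ≃ₗ[R] (R ⧸ K) :=
      Submodule.quotEquivOfEq _ _ hK.symm
    exact (((e1.trans e2).trans e3).isWeaklyRegular_congr rs).2 h2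

private lemma Reg_infsup (I J K L : Ideal R) (hK : K = I ⊓ J) (hL : L = I ⊔ J) (r : R)
    (rs : List R) (hr : r ∈ L) (h1 : IsWeaklyRegular (R ⧸ I) (r :: rs))
    (h2 : IsWeaklyRegular (R ⧸ J) (r :: rs)) (h3 : IsWeaklyRegular (R ⧸ L) rs) :
    IsWeaklyRegular (R ⧸ K) (r :: rs) := by
  have hKI : K ≤ I := hK ▸ inf_le_left
  have hKJ : K ≤ J := hK ▸ inf_le_right
  have hIL : I ≤ L := hL ▸ le_sup_left
  have hJL : J ≤ L := hL ▸ le_sup_right
  let f1 : (R ⧸ K) →ₗ[R] (R ⧸ I) := Submodule.factor hKI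
  let f2 : (R ⧸ K) →ₗ[R] (R ⧸ J) := Submodule.factor hKJ
  let g1 : (R ⧸ I) →ₗ[R] (R ⧸ L) := Submodule.factor hIL
  let g2 : (R ⧸ J) →ₗ[R] (R ⧸ L) := Submodule.factor hJL
  let f : (R ⧸ K) →ₗ[R] (R ⧸ I) × (R ⧸ J) := f1.prod f2
  let g : (R ⧸ I) × (R ⧸ J) →ₗ[R] (R ⧸ L) := g1.coprod (-g2)
  have hf : ∀ x : R, f (Submodule.Quotient.mk x) =
      (Submodule.Quotient.mk x, Submodule.Quotient.mk x) := fun x => rfl
  have hg : ∀ x y : R, g (Submodule.Quotient.mk x, Submodule.Quotient.mk y) =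
      Submodule.Quotient.mk (x - y) := by
    intro x y
    change g1 (Submodule.Quotient.mk x) + (-g2) (Submodule.Quotient.mk y) = _
    rw [LinearMap.neg_apply, ← sub_eq_add_neg, Submodule.Quotient.mk_sub]
    rfl
  refine wr_snake f g ?_ ?_ ?_ r rs ?_ (wr_prod _ h1 h2) h3
  · rw [injective_iff_map_eq_zero]
    intro x hx
    obtain ⟨a, rfl⟩ := Submodule.Quotient.mk_surjective _ x
    rw [hf, Prod.mk_eq_zero, Submodule.Quotient.mk_eq_zero, Submodule.Quotient.mk_eq_zero] at hx
    rw [Submodule.Quotient.mk_eq_zero, hK]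
    exact hx
  · rintro ⟨x, y⟩
    obtain ⟨a, rfl⟩ := Submodule.Quotient.mk_surjective _ x
    obtain ⟨b, rfl⟩ := Submodule.Quotient.mk_surjective _ y
    rw [hg, Submodule.Quotient.mk_eq_zero, hL, Submodule.mem_sup]
    constructor
    · rintro ⟨u, hu, v, hv, huv⟩
      refine ⟨Submodule.Quotient.mk (a - u), ?_⟩
      rw [hf]
      congr 1
      · rw [Submodule.Quotient.eq]
        have : a - u - a = -u := by ring
        rw [this]
        exact Submodule.neg_mem _ hu
      · rw [Submodule.Quotient.eq]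
        have : a - u - b = v := by rw [sub_right_comm, ← huv]; ring
        rw [this]
        exact hv
    · rintro ⟨z, hz⟩
      obtain ⟨d, rfl⟩ := Submodule.Quotient.mk_surjective _ z
      rw [hf, Prod.mk.injEq, Submodule.Quotient.eq, Submodule.Quotient.eq] at hz
      refine ⟨-(d - a), Submodule.neg_mem _ hz.1, d - b, hz.2, ?_⟩
      ring
  · intro x
    obtain ⟨a, rfl⟩ := Submodule.Quotient.mk_surjective _ x
    refine ⟨(Submodule.Quotient.mk a, Submodule.Quotient.mk 0), ?_⟩
    rw [hg, sub_zero]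
  · intro x
    obtain ⟨a, rfl⟩ := Submodule.Quotient.mk_surjective _ x
    rw [← Submodule.Quotient.mk_smul, Submodule.Quotient.mk_eq_zero]
    exact Ideal.mul_mem_right _ _ hr

private lemma Reg_mem (I J : Ideal R) (x : R) :
    (Submodule.Quotient.mk x : R ⧸ I) ∈ J • (⊤ : Submodule R (R ⧸ I)) ↔ x ∈ I ⊔ J := by
  have h1 : J • (⊤ : Submodule R (R ⧸ I)) = Submodule.map I.mkQ J := by
    have h2 : Submodule.map I.mkQ (J • (⊤ : Submodule R R)) = J • Submodule.map I.mkQ ⊤ :=
      Submodule.map_smul'' _ _ _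
    rw [Submodule.map_top, Submodule.range_mkQ] at h2
    rw [← h2]
    congr 1
    change J * ⊤ = J
    exact Ideal.mul_top J
  rw [h1]
  constructor
  · intro h
    have h3 : x ∈ Submodule.comap I.mkQ (Submodule.map I.mkQ J) := h
    rw [Submodule.comap_map_mkQ] at h3
    exact h3
  · intro h
    rw [← Submodule.comap_map_mkQ] at h
    exact h

private lemma Reg_rep (I : Ideal R) (h : ℕ → R) (s : Finset ℕ) (x : R)
    (hx : x ∈ I ⊔ Ideal.span (h '' s)) : ∃ p : ℕ → R, x - ∑ i ∈ s, p i * h i ∈ I := by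
  rw [Submodule.mem_sup] at hx
  obtain ⟨y, hy, z, hz, rfl⟩ := hx
  have hz' : z ∈ Submodule.span R (h '' s) := hz
  rw [Submodule.mem_span_image_finset_iff_exists_fun'] at hz'
  obtain ⟨p, hp⟩ := hz'
  refine ⟨p, ?_⟩
  have h1 : ∑ i ∈ s, p i * h i = z := hp
  rw [h1, add_sub_cancel_right]
  exact hy

/-- The vanishing of `H_1` of the Koszul complex at the first element. -/
private lemma Reg_first (I : Ideal R) (h : ℕ → R) (s0 : ℕ) (N : ℕ)
    (H : ∀ i < N + 1, ∀ x, h (s0 + i) * x ∈ I ⊔ Ideal.span (h '' Finset.Ico s0 (s0 + i)) →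
      x ∈ I ⊔ Ideal.span (h '' Finset.Ico s0 (s0 + i))) :
    ∀ r : ℕ → R, ∑ s ∈ Finset.Ico s0 (s0 + (N + 1)), r s * h s ∈ I →
      r s0 ∈ I ⊔ Ideal.span (h '' Finset.Ico (s0 + 1) (s0 + (N + 1))) := by
  induction N with
  | zero =>
    intro r hr
    have h1 := H 0 (by omega) (r s0)
    rw [add_zero, Finset.Ico_self, Finset.coe_empty, Set.image_empty, Ideal.span_empty,
      sup_bot_eq] at h1
    rw [zero_add, Finset.sum_Ico_succ_top (by omega), Finset.Ico_self, Finset.sum_empty,
      zero_add] at hr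
    rw [mul_comm] at hr
    exact Ideal.mem_sup_left (h1 hr)
  | succ N ih =>
    intro r hr
    set L := s0 + (N + 1) with hL
    have hL2 : s0 + (N + 1 + 1) = L + 1 := by omega
    rw [hL2, Finset.sum_Ico_succ_top (by omega)] at hr
    have h1 : h L * r L ∈ I ⊔ Ideal.span (h '' Finset.Ico s0 L) := by
      have h2 : h L * r L = (∑ s ∈ Finset.Ico s0 L, r s * h s + r L * h L) -
          ∑ s ∈ Finset.Ico s0 L, r s * h s := by ring
      rw [h2]
      refine Ideal.sub_mem _ (Ideal.mem_sup_left hr) (Ideal.mem_sup_right ?_)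
      refine Ideal.sum_mem _ fun s hs => Ideal.mul_mem_left _ _ (Ideal.subset_span ?_)
      exact ⟨s, hs, rfl⟩
    have h3 := H (N + 1) (by omega) (r L) h1
    obtain ⟨p, hp⟩ := Reg_rep I h _ _ h3
    have h4 := ih (fun i hi => H i (by omega)) (fun s => r s + h L * p s) (by
      have h5 : ∑ s ∈ Finset.Ico s0 L, (r s + h L * p s) * h s =
          (∑ s ∈ Finset.Ico s0 L, r s * h s + r L * h L) -
            h L * (r L - ∑ s ∈ Finset.Ico s0 L, p s * h s) := by
        rw [mul_sub, Finset.mul_sum]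
        have h6 : ∑ s ∈ Finset.Ico s0 L, (r s + h L * p s) * h s =
            ∑ s ∈ Finset.Ico s0 L, r s * h s + ∑ s ∈ Finset.Ico s0 L, h L * (p s * h s) := by
          rw [← Finset.sum_add_distrib]
          exact Finset.sum_congr rfl fun s _ => by ring
        rw [h6]
        ring
      rw [h5]
      exact Ideal.sub_mem _ hr (Ideal.mul_mem_left _ _ hp))
    have h7 : r s0 = (r s0 + h L * p s0) - p s0 * h L := by ring
    rw [h7, hL2]
    refine Ideal.sub_mem _ ?_ ?_
    · have h8 : I ⊔ Ideal.span (h '' Finset.Ico (s0 + 1) L) ≤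
          I ⊔ Ideal.span (h '' Finset.Ico (s0 + 1) (L + 1)) := by
        refine sup_le_sup_left (Ideal.span_mono (Set.image_mono ?_)) _
        intro x hx
        rw [Finset.mem_coe, Finset.mem_Ico] at hx ⊢
        omega
      exact h8 h4
    · refine Ideal.mem_sup_right (Ideal.mul_mem_left _ _ (Ideal.subset_span ⟨L, ?_, rfl⟩))
      rw [Finset.mem_coe, Finset.mem_Ico]
      omega

private lemma Reg_prev (I : Ideal R) (h : ℕ → R) (s0 N : ℕ)
    (hw : IsWeaklyRegular (R ⧸ I) ((List.range' s0 N).map h)) (i : ℕ) (hi : i < N) (x : R)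
    (hx : h (s0 + i) * x ∈ I ⊔ Ideal.span (h '' Finset.Ico s0 (s0 + i))) :
    x ∈ I ⊔ Ideal.span (h '' Finset.Ico s0 (s0 + i)) := by
  have hlen : ((List.range' s0 N).map h).length = N := by
    rw [List.length_map, List.length_range']
  have h1 := hw.regular_mod_prev i (by omega)
  have h2 : Ideal.ofList (((List.range' s0 N).map h).take i) =
      Ideal.span (h '' Finset.Ico s0 (s0 + i)) := by
    unfold Ideal.ofList
    congr 1
    ext y
    rw [Set.mem_ofPred_eq, ← List.map_take, List.mem_map, List.take_range'_of_length_ge hi.le]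
    constructor
    · rintro ⟨t, ht, rfl⟩
      rw [List.mem_range'_1] at ht
      refine ⟨t, ?_, rfl⟩
      rw [Finset.mem_coe, Finset.mem_Ico]
      omega
    · rintro ⟨t, ht, rfl⟩
      rw [Finset.mem_coe, Finset.mem_Ico] at ht
      refine ⟨t, ?_, rfl⟩
      rw [List.mem_range'_1]
      omega
  have h3 : ((List.range' s0 N).map h)[i]'(by omega) = h (s0 + i) := by
    rw [List.getElem_map, List.getElem_range', one_mul]
  rw [isSMulRegular_quotient_iff_mem_of_smul_mem] at h1
  have h4 := h1 (Submodule.Quotient.mk x)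
  rw [h2, h3, ← Submodule.Quotient.mk_smul, Reg_mem, Reg_mem] at h4
  exact h4 hx

end

variable {F : Type*} [Field F]

private lemma Reg_hh_mem {n a b s : ℕ} (hab : a < b) (c : ℕ → ℕ → F) (hs : s < a + b) :
    hh F n c s ∈ II F n a b := by
  unfold hh
  refine Ideal.sum_mem _ fun u hu => ?_
  rw [Finset.mem_filter] at hu
  apply Ideal.mul_mem_left
  apply X_mem_II hab
  rintro ⟨-, -, h1, h2⟩
  omega

private lemma Reg_hh_sub {n a b : ℕ} (hab : a < b) (hb : b < n) (c : ℕ → ℕ → F) :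
    hh F n c (a + b) - C (c a b) * X (a, b) ∈ II F n a b := by
  have h0 : (a, b) ∈ (Finset.range n ×ˢ Finset.range n).filter
      (fun u => u.1 < u.2 ∧ u.1 + u.2 = a + b) :=
    Finset.mem_filter.2 ⟨Finset.mem_product.2
      ⟨Finset.mem_range.2 (show a < n by omega), Finset.mem_range.2 hb⟩, hab, rfl⟩
  unfold hh
  rw [← Finset.add_sum_erase _ _ h0, add_sub_cancel_left]
  refine Ideal.sum_mem _ fun u hu => ?_
  rw [Finset.mem_erase, Finset.mem_filter] at hu
  apply Ideal.mul_mem_left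
  apply X_mem_II hab
  rintro ⟨-, -, h1, h2⟩
  apply hu.1
  ext <;> simp only <;> omega

/-- The ideal generated by `II n a b` and `h_(a+b)`. -/
private lemma Reg_sup {n a b : ℕ} (hab : a < b) (hb : b < n) (c : ℕ → ℕ → F)
    (hc : c a b ≠ 0) :
    II F n a b ⊔ Ideal.span {hh F n c (a + b)} = II F n a b ⊔ Ideal.span {X (a, b)} := by
  have h1 := Reg_hh_sub hab hb c
  apply le_antisymm
  · refine sup_le le_sup_left ?_
    rw [Ideal.span_singleton_le_iff_mem]
    have h2 : hh F n c (a + b) =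
        (hh F n c (a + b) - C (c a b) * X (a, b)) + C (c a b) * X (a, b) := by ring
    rw [h2]
    refine Ideal.add_mem _ (Ideal.mem_sup_left h1) (Ideal.mem_sup_right ?_)
    exact Ideal.mul_mem_left _ _ (Ideal.subset_span rfl)
  · refine sup_le le_sup_left ?_
    rw [Ideal.span_singleton_le_iff_mem]
    have h2 : (X (a, b) : MvPolynomial (ℕ × ℕ) F) =
        - C (c a b)⁻¹ * (hh F n c (a + b) - C (c a b) * X (a, b)) +
          C (c a b)⁻¹ * hh F n c (a + b) := by
      have h3 : (C (c a b)⁻¹ : MvPolynomial (ℕ × ℕ) F) * C (c a b) = 1 := by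
        rw [← C_mul, inv_mul_cancel₀ hc, C_1]
      linear_combination (-X (a, b)) * h3
    rw [h2]
    refine Ideal.add_mem _ (Ideal.mem_sup_left (Ideal.mul_mem_left _ _ h1))
      (Ideal.mem_sup_right ?_)
    exact Ideal.mul_mem_left _ _ (Ideal.subset_span rfl)

private lemma Reg_nzd {n a b : ℕ} (hab : a < b) (hb : b < n) (c : ℕ → ℕ → F)
    (hc : c a b ≠ 0) (x : MvPolynomial (ℕ × ℕ) F) (hx : hh F n c (a + b) * x ∈ II F n a b) :
    x ∈ II F n a b := by
  have h1 := Reg_hh_sub hab hb c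
  apply mem_II_of_X_mul hab hb
  have h2 : (X (a, b) : MvPolynomial (ℕ × ℕ) F) * x =
      - C (c a b)⁻¹ * x * (hh F n c (a + b) - C (c a b) * X (a, b)) +
        C (c a b)⁻¹ * (hh F n c (a + b) * x) := by
    have h3 : (C (c a b)⁻¹ : MvPolynomial (ℕ × ℕ) F) * C (c a b) = 1 := by
      rw [← C_mul, inv_mul_cancel₀ hc, C_1]
    linear_combination (-X (a, b) * x) * h3
  rw [h2]
  exact Ideal.add_mem _ (Ideal.mul_mem_left _ _ h1) (Ideal.mul_mem_left _ _ hx)

private lemma Reg_list (h : ℕ → MvPolynomial (ℕ × ℕ) F) (s d : ℕ) :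
    (List.range' s (d + 1)).map h = h s :: (List.range' (s + 1) d).map h := by
  rw [List.range'_succ, List.map_cons]

private lemma Reg_wr (n : ℕ) (c : ℕ → ℕ → F) (hc : ∀ i j, i < j → j < n → c i j ≠ 0) (d : ℕ) :
    ∀ a b, a < b → b < n → a + b + d + 3 = 2 * n →
      IsWeaklyRegular (MvPolynomial (ℕ × ℕ) F ⧸ II F n a b)
        ((List.range' (a + b) (d + 1)).map (hh F n c)) := by
  induction d using Nat.strong_induction_on with
  | _ d ih =>
  intro a b hab hb hd
  rw [Reg_list]
  rcases Nat.eq_zero_or_pos d with hd0 | hd0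
  · subst hd0
    exact Reg_cons _ _ _ _ rfl (Reg_nzd hab hb c (hc a b hab hb)) (IsWeaklyRegular.nil _ _)
  obtain ⟨e, rfl⟩ : ∃ e, d = e + 1 := ⟨d - 1, by omega⟩
  refine Reg_cons _ _ _ _ rfl (Reg_nzd hab hb c (hc a b hab hb)) ?_
  rw [Reg_sup hab hb c (hc a b hab hb)]
  by_cases h1 : b = a + 1
  · subst h1
    have h2 : a + 2 < n := by omega
    have h3 : II F n a (a + 1) ⊔ Ideal.span {X (a, a + 1)} = II F n a (a + 2) := by
      apply le_antisymm
      · refine sup_le (II_mono le_rfl (by omega)) ?_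
        rw [Ideal.span_singleton_le_iff_mem]
        apply X_mem_II (by omega)
        rintro ⟨-, -, -, h4⟩
        simp only at h4
        omega
      · exact II_diag hb
    rw [h3]
    exact ih e (by omega) a (a + 2) (by omega) h2 (by omega)
  by_cases h2 : b + 1 = n
  · have h3 : II F n a b ⊔ Ideal.span {X (a, b)} = II F n (a + 1) b := by
      apply le_antisymm
      · refine sup_le (II_mono (by omega) le_rfl) ?_
        rw [Ideal.span_singleton_le_iff_mem]
        apply X_mem_II (by omega)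
        rintro ⟨-, -, h4, -⟩
        simp only at h4
        omega
      · exact II_top (by omega) h2
    rw [h3]
    have h4 := ih e (by omega) (a + 1) b (by omega) hb (by omega)
    have h5 : a + 1 + b = a + b + 1 := by ring
    rw [h5] at h4
    exact h4
  -- the general case
  have h3 : II F n a b ⊔ Ideal.span {X (a, b)} = II F n (a + 1) b ⊓ II F n a (b + 1) := by
    apply le_antisymm
    · refine sup_le (le_inf (II_mono (by omega) le_rfl) (II_mono le_rfl (by omega))) ?_
      rw [Ideal.span_singleton_le_iff_mem]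
      constructor
      · apply X_mem_II (by omega)
        rintro ⟨-, -, h4, -⟩
        simp only at h4
        omega
      · apply X_mem_II (by omega)
        rintro ⟨-, -, -, h4⟩
        simp only at h4
        omega
    · exact II_inf (by omega) hb
  have h4 : II F n (a + 1) (b + 1) = II F n (a + 1) b ⊔ II F n a (b + 1) := by
    apply le_antisymm
    · exact II_sup (by omega) hb
    · exact sup_le (II_mono le_rfl (by omega)) (II_mono (by omega) le_rfl)
  obtain ⟨e', rfl⟩ : ∃ e', e = e' + 1 := ⟨e - 1, by omega⟩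
  have h5 := ih (e' + 1) (by omega) (a + 1) b (by omega) hb (by omega)
  have h6 := ih (e' + 1) (by omega) a (b + 1) (by omega) (by omega) (by omega)
  have h7 := ih e' (by omega) (a + 1) (b + 1) (by omega) (by omega) (by omega)
  have h8 : a + 1 + b = a + b + 1 := by ring
  have h9 : a + (b + 1) = a + b + 1 := by ring
  have h10 : a + 1 + (b + 1) = a + b + 1 + 1 := by ring
  rw [h8] at h5
  rw [h9] at h6
  rw [h10] at h7
  rw [Reg_list] at h5 h6 ⊢
  exact Reg_infsup _ _ _ _ h3 h4 _ _ (Reg_hh_mem (by omega) c (by omega)) h5 h6 h7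

/-- The sequence `h_(a+b), ..., h_(2n-3)` is weakly regular on `P / II n a b`. -/
theorem reg_wr (n a b : ℕ) (hab : a < b) (hb : b < n) (c : ℕ → ℕ → F)
    (hc : ∀ i j, i < j → j < n → c i j ≠ 0) :
    IsWeaklyRegular (MvPolynomial (ℕ × ℕ) F ⧸ II F n a b)
      ((List.range' (a + b) (2 * n - 3 - (a + b) + 1)).map (hh F n c)) :=
  Reg_wr n c hc _ a b hab hb (by omega)

/-- The first syzygies at the first element. -/
theorem reg_syz (n a b : ℕ) (hab : a < b) (hb : b < n) (c : ℕ → ℕ → F)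
    (hc : ∀ i j, i < j → j < n → c i j ≠ 0) (r : ℕ → MvPolynomial (ℕ × ℕ) F)
    (hr : ∑ s ∈ Finset.Icc (a + b) (2 * n - 3), r s * hh F n c s ∈ II F n a b) :
    r (a + b) ∈ II F n a b ⊔ Ideal.span (hh F n c '' Set.Ioi (a + b)) := by
  have h1 := reg_wr n a b hab hb c hc
  have h2 := Reg_first (II F n a b) (hh F n c) (a + b) (2 * n - 3 - (a + b))
    (fun i hi x hx => Reg_prev _ _ _ _ h1 i hi x hx) r (by
      have h3 : Finset.Ico (a + b) (a + b + (2 * n - 3 - (a + b) + 1)) =
          Finset.Icc (a + b) (2 * n - 3) := by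
        ext x
        rw [Finset.mem_Ico, Finset.mem_Icc]
        omega
      rw [h3]
      exact hr)
  have h4 : II F n a b ⊔ Ideal.span (hh F n c '' Finset.Ico (a + b + 1)
      (a + b + (2 * n - 3 - (a + b) + 1))) ≤
      II F n a b ⊔ Ideal.span (hh F n c '' Set.Ioi (a + b)) := by
    refine sup_le_sup_left (Ideal.span_mono (Set.image_mono ?_)) _
    intro x hx
    rw [Finset.mem_coe, Finset.mem_Ico] at hx
    rw [Set.mem_Ioi]
    omega
  exact h4 h2

theorem reg_main (n : ℕ) (hn : 2 ≤ n) (c : ℕ → ℕ → F) (hc : ∀ i j, i < j → j < n → c i j ≠ 0)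
    (q : ℕ) (hq : 1 ≤ q) (r : ℕ → MvPolynomial (ℕ × ℕ) F)
    (hr : ∑ s ∈ Finset.Icc 1 (2 * n - 3), r s * hh F n c s ^ q ∈ II F n 0 1) :
    ∀ s ∈ Finset.Icc 1 (2 * n - 3),
      r s ∈ II F n 0 1 ⊔ Ideal.span (Set.range fun t => hh F n c t ^ q) := by
  obtain ⟨d, hd⟩ : ∃ d, d + 1 = 2 * n - 3 := ⟨2 * n - 4, by omega⟩
  have h1 := wr_pow _ (Reg_wr n c hc d 0 1 (by omega) (by omega) (by omega)) q hq
  rw [List.map_map, zero_add] at h1
  set L : List (MvPolynomial (ℕ × ℕ) F) :=
    (List.range' 1 (d + 1)).map ((fun x => x ^ q) ∘ hh F n c) with hL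
  have hlen : L.length = d + 1 := by
    rw [hL, List.length_map, List.length_range']
  have hget : ∀ i : Fin L.length, L.get i = hh F n c (i.1 + 1) ^ q := by
    intro i
    rw [List.get_eq_getElem]
    simp only [hL, List.getElem_map, List.getElem_range', Function.comp_apply]
    congr 2
    omega
  let m : Fin L.length → (MvPolynomial (ℕ × ℕ) F ⧸ II F n 0 1) :=
    fun i => Submodule.Quotient.mk (r (i.1 + 1))
  have hm : ∑ i, L.get i • m i = 0 := by
    have h2 : ∀ i : Fin L.length, L.get i • m i =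
        Submodule.Quotient.mk (p := II F n 0 1) (r (i.1 + 1) * hh F n c (i.1 + 1) ^ q) := by
      intro i
      rw [hget, ← Submodule.Quotient.mk_smul, smul_eq_mul, mul_comm]
    rw [Finset.sum_congr rfl (fun i _ => h2 i)]
    rw [Fin.sum_univ_eq_sum_range (fun i => Submodule.Quotient.mk (p := II F n 0 1)
      (r (i + 1) * hh F n c (i + 1) ^ q)) L.length]
    rw [hlen]
    have h3 : ∑ i ∈ Finset.range (d + 1), Submodule.Quotient.mk (p := II F n 0 1)
        (r (i + 1) * hh F n c (i + 1) ^ q) = Submodule.Quotient.mk (p := II F n 0 1)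
          (∑ i ∈ Finset.range (d + 1), (r (i + 1) * hh F n c (i + 1) ^ q)) := by
      rw [← Submodule.mkQ_apply, map_sum]
      rfl
    rw [h3, Submodule.Quotient.mk_eq_zero]
    have h4 : ∑ i ∈ Finset.range (d + 1), (r (i + 1) * hh F n c (i + 1) ^ q) =
        ∑ s ∈ Finset.Icc 1 (2 * n - 3), r s * hh F n c s ^ q := by
      rw [← hd, Finset.range_eq_Ico, Finset.sum_Ico_add' (fun s => r s * hh F n c s ^ q) 0 (d + 1) 1]
      rfl
    rw [h4]
    exact hr
  have h5 := wr_syz L h1 m hm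
  intro s hs
  rw [Finset.mem_Icc] at hs
  have h6 := h5 ⟨s - 1, by omega⟩
  have h7 : m ⟨s - 1, by omega⟩ = Submodule.Quotient.mk (r s) := by
    change Submodule.Quotient.mk (r (s - 1 + 1)) = _
    rw [Nat.sub_add_cancel hs.1]
  rw [h7] at h6
  have h8 : Ideal.ofList L ≤ Ideal.span (Set.range fun t => hh F n c t ^ q) := by
    apply Ideal.span_mono
    intro x hx
    have hx' : x ∈ L := hx
    rw [hL, List.mem_map] at hx'
    obtain ⟨t, -, rfl⟩ := hx'
    exact ⟨t, rfl⟩
  have h9 : Ideal.ofList L • (⊤ : Submodule (MvPolynomial (ℕ × ℕ) F)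
      (MvPolynomial (ℕ × ℕ) F ⧸ II F n 0 1)) ≤
      Submodule.map (II F n 0 1).mkQ (Ideal.span (Set.range fun t => hh F n c t ^ q)) := by
    rw [Submodule.smul_le]
    intro x hx y _
    obtain ⟨z, rfl⟩ := Submodule.Quotient.mk_surjective _ y
    exact ⟨x * z, Ideal.mul_mem_right _ _ (h8 hx), rfl⟩
  obtain ⟨y, hy, hy2⟩ := h9 h6
  rw [Submodule.mkQ_apply, Submodule.Quotient.eq] at hy2
  have h10 : r s = -(y - r s) + y := by ring
  rw [h10]
  exact Ideal.add_mem _ (Ideal.mem_sup_left (Submodule.neg_mem _ hy2)) (Ideal.mem_sup_right hy)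

end Pool.Agent.GrP
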