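import Mathlib
import Pool.Agent.GrP.Defs
import Pool.Agent.GrP.Reg
import Pool.Agent.GrP.IotaS

/-!
Injectivity: in characteristic `p`, if no `C(m,j)` is divisible by `p`, the forms
`h_s = ∑_(i+j=s) c_ij (x_i y_j - x_j y_i)` of `n = m + 3` variables have no relation
`∑ f_s(x) h_s(x,y) = 0` with `f_s` of degree `m`.
Proof: choose `q = p ^ e ≥ m + 1`.  By `iota_rel`, `∑ ι(f_s) h_s^q = 0`; by `iota_mem` this is a relation
in the Pluecker ring, by `reg_main` all `ι(f_s)` are in the ideal of the `h_t^q`, hence in the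
ideal of the `y_j^q`, so `f_s = 0` by `iota_mod`.
-/

set_option autoImplicit false

namespace Pool.Agent.GrP

open MvPolynomial

variable {F : Type*} [Field F]

/-- The image of `h_t ^ q` is in the ideal of the `y_j ^ q`. -/
lemma inj_phi_hh_mem (p e : ℕ) [Fact p.Prime] [CharP F p] (n : ℕ) (c : ℕ → ℕ → F) (t : ℕ) :
    phi F n 0 0 (hh F n c t) ^ (p ^ e) ∈
      Ideal.span (Set.range fun j : ℕ => (X (Sum.inr j) : MvPolynomial (ℕ ⊕ ℕ) F) ^ (p ^ e)) := by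
  haveI : ExpChar (MvPolynomial (ℕ ⊕ ℕ) F) p := ExpChar.prime Fact.out
  unfold hh
  rw [map_sum, sum_pow_char_pow]
  apply Ideal.sum_mem
  intro u hu
  rw [Finset.mem_filter] at hu
  have hX : ∀ j : ℕ, (X (Sum.inr j) : MvPolynomial (ℕ ⊕ ℕ) F) ^ (p ^ e) ∈
      Ideal.span (Set.range fun j : ℕ => (X (Sum.inr j) : MvPolynomial (ℕ ⊕ ℕ) F) ^ (p ^ e)) :=
    fun j => Ideal.subset_span ⟨j, rfl⟩
  have hy : ∀ j : ℕ, yy F 0 j = X (Sum.inr j) := fun j => if_pos (Nat.zero_le j)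
  rw [map_mul, phi_X, mul_pow]
  apply Ideal.mul_mem_left
  split_ifs with h
  · unfold minor
    rw [sub_pow_char_pow, mul_pow, mul_pow, hy, hy]
    exact Ideal.sub_mem _ (Ideal.mul_mem_left _ _ (hX _)) (Ideal.mul_mem_left _ _ (hX _))
  · rw [zero_pow (pow_ne_zero e (Nat.Prime.ne_zero Fact.out))]
    exact Ideal.zero_mem _

theorem inj_main (p : ℕ) [Fact p.Prime] [CharP F p] (m : ℕ)
    (hbin : ∀ j ≤ m, (m.choose j : F) ≠ 0) (c : ℕ → ℕ → F)
    (hc : ∀ i j, i < j → j < m + 3 → c i j ≠ 0) (f : ℕ → MvPolynomial (Fin (m + 3)) F)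
    (hf : ∀ s, (f s).IsHomogeneous m)
    (hrel : ∑ s ∈ Finset.Icc 1 (2 * m + 3),
      rename (fun i : Fin (m + 3) => (Sum.inl (i : ℕ) : ℕ ⊕ ℕ)) (f s) *
        phi F (m + 3) 0 0 (hh F (m + 3) c s) = 0) :
    ∀ s ∈ Finset.Icc 1 (2 * m + 3), f s = 0 := by
  have hp : p.Prime := Fact.out
  have hq : m + 1 ≤ p ^ (m + 1) := (Nat.lt_pow_self hp.one_lt).le
  have hq1 : 1 ≤ p ^ (m + 1) := (Nat.le_add_left 1 m).trans hq
  have h1 := iota_rel p (m + 1) m c (Finset.Icc 1 (2 * m + 3)) f hrel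
  have h2 := fun s => iota_mem p (m + 1) m hbin (f s) (hf s)
  choose r hr using h2
  have h3 : ∑ s ∈ Finset.Icc 1 (2 * (m + 3) - 3), r s * hh F (m + 3) c s ^ (p ^ (m + 1)) ∈
      II F (m + 3) 0 1 := by
    rw [II_zero_one, mem_II, map_sum, show 2 * (m + 3) - 3 = 2 * m + 3 by omega, ← h1]
    apply Finset.sum_congr rfl
    intro s _
    rw [map_mul, map_pow]
    congr 1
    exact hr s
  have h4 := reg_main (m + 3) (by omega) c hc (p ^ (m + 1)) hq1 r h3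
  rw [show 2 * (m + 3) - 3 = 2 * m + 3 by omega] at h4
  intro s hs
  apply iota_mod p (m + 1) m hq (f s) (hf s)
  have h5 : phi F (m + 3) 0 0 (r s) = _ := hr s
  rw [← h5]
  have h6 := h4 s hs
  rw [II_zero_one] at h6
  obtain ⟨u, hu, v, hv, huv⟩ := Submodule.mem_sup.mp h6
  rw [← huv, map_add, mem_II.mp hu, zero_add]
  have h7 : Ideal.span (Set.range fun t => hh F (m + 3) c t ^ (p ^ (m + 1))) ≤
      (Ideal.span (Set.range fun j : ℕ =>
        (X (Sum.inr j) : MvPolynomial (ℕ ⊕ ℕ) F) ^ (p ^ (m + 1)))).comap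
          (phi F (m + 3) 0 0 : MvPolynomial (ℕ × ℕ) F →+* MvPolynomial (ℕ ⊕ ℕ) F) := by
    rw [Ideal.span_le]
    rintro _ ⟨t, rfl⟩
    rw [SetLike.mem_coe, Ideal.mem_comap]
    change phi F (m + 3) 0 0 (hh F (m + 3) c t ^ (p ^ (m + 1))) ∈ _
    rw [map_pow]
    exact inj_phi_hh_mem p (m + 1) (m + 3) c t
  exact h7 hv

end Pool.Agent.GrP
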