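import Mathlib
import Pool.Agent.GrP.Defs
import Pool.Agent.GrP.Inj

/-!
The dual form of `inj_main`.

Put `n = m + 3`, `k = m + 1`.  The map `(f_s)_s ↦ ∑ f_s(x) h_s(x,y)` from `(2m+3)` copies of the forms of
degree `m` to the kernel of `S^k V ⊗ V → S^(k+1) V` is injective by `inj_main`, and both sides
have dimension `(2m+3) C(2m+2,m) = (m+3) C(2m+3,m+1) - C(2m+4,m+2)`; so it is onto, and every
functional on `S^k V ⊗ V` which vanishes on the `x^β h_s` vanishes on the `x^β (x_i y_j - x_j y_i)`.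
-/

set_option autoImplicit false

namespace Pool.Agent.GrP

open MvPolynomial

variable {F : Type*} [Field F]

/-- The multiset of values. -/
private def dualMs {n N : ℕ} (v : Fin N → Fin n) : Sym (Fin n) N :=
  ⟨(List.ofFn v : Multiset (Fin n)), by simp⟩

private lemma dualMs_succ {n N : ℕ} (v : Fin (N + 1) → Fin n) :
    dualMs v = v 0 ::ₛ dualMs (v ∘ Fin.succ) := by
  apply Sym.ext
  change (List.ofFn v : Multiset (Fin n)) = v 0 ::ₘ (List.ofFn (v ∘ Fin.succ) : Multiset (Fin n))
  rw [List.ofFn_succ]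
  rfl

private lemma dualMs_perm {n N : ℕ} (v : Fin N → Fin n) (π : Equiv.Perm (Fin N)) :
    dualMs (v ∘ π) = dualMs v := by
  apply Sym.ext
  change (List.ofFn (v ∘ π) : Multiset (Fin n)) = (List.ofFn v : Multiset (Fin n))
  exact Multiset.coe_eq_coe.mpr (π.ofFn_comp_perm v)

private lemma dualMs_inj {n N : ℕ} {α : Type*} (g : (Fin N → Fin n) → α)
    (hg : ∀ (π : Equiv.Perm (Fin N)) v, g (v ∘ π) = g v) {v w : Fin N → Fin n}
    (h : dualMs v = dualMs w) : g v = g w := by
  have h1 : v ∘ Tuple.sort v = w ∘ Tuple.sort w := by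
    apply List.ofFn_injective
    apply List.Perm.eq_of_sortedLE (Tuple.monotone_sort v).sortedLE_ofFn
      (Tuple.monotone_sort w).sortedLE_ofFn
    apply Multiset.coe_eq_coe.mp
    have h2 : dualMs (v ∘ Tuple.sort v) = dualMs (w ∘ Tuple.sort w) := by
      rw [dualMs_perm, dualMs_perm, h]
    exact congrArg Subtype.val h2
  rw [← hg (Tuple.sort v) v, ← hg (Tuple.sort w) w, h1]

private lemma dualMs_surj {n : ℕ} : ∀ {N : ℕ} (β : Sym (Fin n) N), ∃ v, dualMs v = β := by
  intro N
  induction N with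
  | zero =>
    intro β
    refine ⟨Fin.elim0, ?_⟩
    rw [Sym.eq_nil_of_card_zero β]
    exact Sym.eq_nil_of_card_zero _
  | succ N ih =>
    intro β
    obtain ⟨a, γ, rfl⟩ := β.exists_eq_cons_of_succ
    obtain ⟨v, rfl⟩ := ih γ
    refine ⟨Fin.cons a v, ?_⟩
    rw [dualMs_succ]
    rfl

/-- A function which is symmetric in the positions `1, ..., N` is a function of the multiset. -/
private lemma dual_lift {n N : ℕ} {α : Type*} (σ : (Fin (N + 1) → Fin n) → α)
    (hsym : ∀ π : Equiv.Perm (Fin (N + 1)), π 0 = 0 → ∀ v, σ (v ∘ π) = σ v) :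
    ∃ τ : Sym (Fin n) N × Fin n → α, ∀ v, σ v = τ (dualMs (v ∘ Fin.succ), v 0) := by
  refine ⟨fun u => σ (Fin.cons u.2 (Classical.choose (dualMs_surj u.1))), ?_⟩
  intro v
  have h1 : σ v = σ (Fin.cons (v 0) (v ∘ Fin.succ)) := by
    congr 1
    exact (Fin.cons_self_tail v).symm
  rw [h1]
  apply dualMs_inj (fun w => σ (Fin.cons (v 0) w))
  · intro π w
    rw [← hsym (Equiv.Perm.decomposeFin.symm (0, π)) (by simp) (Fin.cons (v 0) w)]
    congr 1
    funext i
    refine Fin.cases ?_ (fun j => ?_) i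
    · simp
    · simp
  · exact (Classical.choose_spec (dualMs_surj (dualMs (v ∘ Fin.succ)))).symm

/-- Binomial identity. -/
private lemma dual_choose (m : ℕ) :
    (2 * m + 3) * (2 * m + 2).choose m + (2 * m + 4).choose (m + 2) =
      (m + 3) * (2 * m + 3).choose (m + 1) := by
  have h1 : (2 * m + 2).choose (m + 1) * (m + 1) = (2 * m + 2).choose m * (m + 2) := by
    have := Nat.choose_succ_right_eq (2 * m + 2) m
    rw [this]
    congr 1
    omega
  have h2 : (2 * m + 3).choose (m + 1) = (2 * m + 2).choose m + (2 * m + 2).choose (m + 1) :=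
    Nat.choose_succ_succ (2 * m + 2) m
  have h3 : (2 * m + 4).choose (m + 2) = (2 * m + 3).choose (m + 1) + (2 * m + 3).choose (m + 2) :=
    Nat.choose_succ_succ (2 * m + 3) (m + 1)
  have h4 : (2 * m + 3).choose (m + 2) = (2 * m + 3).choose (m + 1) := by
    rw [← Nat.choose_symm (by omega : m + 2 ≤ 2 * m + 3)]
    congr 1
    omega
  rw [h3, h4, h2]
  nlinarith [h1]

/-- A sum over all pairs of sum `s` is twice-counted pairs plus the diagonal. -/
private lemma dual_pairs {M : Type*} [AddCommGroup M] (n s : ℕ) (G : ℕ → ℕ → M)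
    (hd : ∀ i, G i i = 0) :
    ∑ i : Fin n, ∑ j : Fin n, (if (i : ℕ) + (j : ℕ) = s then G i j else 0) =
      ∑ u ∈ (Finset.range n ×ˢ Finset.range n).filter (fun u => u.1 < u.2 ∧ u.1 + u.2 = s),
        (G u.1 u.2 + G u.2 u.1) := by
  have h0 : ∑ i : Fin n, ∑ j : Fin n, (if (i : ℕ) + (j : ℕ) = s then G i j else 0) =
      ∑ u ∈ Finset.range n ×ˢ Finset.range n, (if u.1 + u.2 = s then G u.1 u.2 else 0) := by
    rw [Finset.sum_product, ← Fin.sum_univ_eq_sum_range
      (fun i => ∑ j ∈ Finset.range n, (if i + j = s then G i j else 0))]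
    apply Finset.sum_congr rfl
    intro i _
    exact Fin.sum_univ_eq_sum_range (fun j => (if (i : ℕ) + j = s then G i j else 0)) n
  rw [h0, Finset.sum_add_distrib]
  have h1 : ∀ u : ℕ × ℕ, (if u.1 + u.2 = s then G u.1 u.2 else 0) =
      (if u.1 < u.2 ∧ u.1 + u.2 = s then G u.1 u.2 else 0) +
        (if u.2 < u.1 ∧ u.1 + u.2 = s then G u.1 u.2 else 0) := by
    intro u
    rcases lt_trichotomy u.1 u.2 with h | h | h
    · simp [h, not_lt.mpr h.le]
    · rw [h, hd]
      simp
    · simp [h, not_lt.mpr h.le]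
  rw [Finset.sum_congr rfl (fun u _ => h1 u), Finset.sum_add_distrib, Finset.sum_filter]
  congr 1
  rw [Finset.sum_filter]
  apply Finset.sum_bij' (fun u _ => Prod.swap u) (fun u _ => Prod.swap u)
  · intro u hu
    simp only [Finset.mem_product, Prod.fst_swap, Prod.snd_swap] at hu ⊢
    exact ⟨hu.2, hu.1⟩
  · intro u hu
    simp only [Finset.mem_product, Prod.fst_swap, Prod.snd_swap] at hu ⊢
    exact ⟨hu.2, hu.1⟩
  · intro u _
    rfl
  · intro u _
    rfl
  · intro u _
    simp only [Prod.fst_swap, Prod.snd_swap]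
    rw [add_comm u.1 u.2]


/-- The monomial of a multiset. -/
private noncomputable def dualMono (F : Type*) [Field F] {n N : ℕ} (β : Sym (Fin n) N) :
    MvPolynomial (Fin n) F :=
  monomial (Multiset.toFinsupp (β : Multiset (Fin n))) 1

private lemma dualMono_cons {n N : ℕ} (j : Fin n) (β : Sym (Fin n) N) :
    dualMono F (j ::ₛ β) = X j * dualMono F β := by
  unfold dualMono
  rw [Sym.coe_cons, ← Multiset.singleton_add, map_add, Multiset.toFinsupp_singleton, X,
    monomial_mul, one_mul]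

private lemma dualMono_hom {n N : ℕ} (β : Sym (Fin n) N) : (dualMono F β).IsHomogeneous N := by
  apply isHomogeneous_monomial
  have h := Multiset.toFinsupp_sum_eq (β : Multiset (Fin n))
  rw [Sym.card_coe] at h
  exact h

private lemma dualMono_coeff {n N : ℕ} (a : Sym (Fin n) N → F)
    (h : ∑ β, C (a β) * dualMono F β = 0) : ∀ β, a β = 0 := by
  intro β
  have h1 := congrArg (coeff (Multiset.toFinsupp (β : Multiset (Fin n)))) h
  rw [coeff_sum, coeff_zero, Finset.sum_eq_single β] at h1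
  · rw [coeff_C_mul] at h1
    unfold dualMono at h1
    rw [coeff_monomial, if_pos rfl, mul_one] at h1
    exact h1
  · intro γ _ hγ
    rw [coeff_C_mul]
    unfold dualMono
    rw [coeff_monomial, if_neg, mul_zero]
    intro he
    exact hγ (Sym.ext (Multiset.toFinsupp.injective he))
  · intro hn
    exact absurd (Finset.mem_univ _) hn

/-- The form `h_s` as a sum over all pairs. -/
private lemma dual_phi_hh (n : ℕ) (c : ℕ → ℕ → F) (hanti : ∀ i j, c j i = - c i j)
    (hdiag : ∀ i, c i i = 0) (s : ℕ) :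
    phi F n 0 0 (hh F n c s) = - ∑ i : Fin n, ∑ j : Fin n,
      (if (i : ℕ) + (j : ℕ) = s then
        C (c i j) * (X (Sum.inl (j : ℕ)) * X (Sum.inr (i : ℕ))) else 0) := by
  rw [dual_pairs n s (fun i j => C (c i j) * (X (Sum.inl j) * X (Sum.inr i)))]
  · unfold hh
    rw [map_sum, ← Finset.sum_neg_distrib]
    apply Finset.sum_congr rfl
    intro u hu
    have h1 : u.1 < u.2 ∧ u.2 < n := by
      rw [Finset.mem_filter, Finset.mem_product, Finset.mem_range, Finset.mem_range] at hu
      exact ⟨hu.2.1, hu.1.2⟩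
    have h2 : phi F n 0 0 (X u) = minor F 0 0 u := by
      unfold phi
      rw [aeval_X, if_pos h1]
    rw [map_mul, h2, hanti u.1 u.2]
    unfold minor xx yy
    rw [if_pos (Nat.zero_le _), if_pos (Nat.zero_le _), if_pos (Nat.zero_le _),
      if_pos (Nat.zero_le _), map_neg]
    have h3 : phi F n 0 0 (C (c u.1 u.2)) = C (c u.1 u.2) := by
      exact (phi F n 0 0).commutes (c u.1 u.2)
    rw [h3]
    ring
  · intro i
    rw [hdiag, map_zero, zero_mul]

/-- The transpose of multiplication by the `h_s`. -/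
private noncomputable def dualPhi (m : ℕ) (c : ℕ → ℕ → F) :
    ((Sym (Fin (m + 3)) (m + 1) × Fin (m + 3)) → F) →ₗ[F]
      ((↥(Finset.Icc 1 (2 * m + 3)) × Sym (Fin (m + 3)) m) → F) where
  toFun τ := fun l => ∑ i : Fin (m + 3), ∑ j : Fin (m + 3),
    (if (i : ℕ) + (j : ℕ) = (l.1 : ℕ) then c i j * τ (j ::ₛ l.2, i) else 0)
  map_add' τ τ' := by
    funext l
    rw [Pi.add_apply, ← Finset.sum_add_distrib]
    apply Finset.sum_congr rfl
    intro i _
    rw [← Finset.sum_add_distrib]
    apply Finset.sum_congr rfl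
    intro j _
    split_ifs
    · rw [Pi.add_apply, mul_add]
    · rw [add_zero]
  map_smul' r τ := by
    funext l
    rw [Pi.smul_apply, Finset.smul_sum]
    apply Finset.sum_congr rfl
    intro i _
    rw [Finset.smul_sum]
    apply Finset.sum_congr rfl
    intro j _
    split_ifs
    · rw [Pi.smul_apply, smul_eq_mul, smul_eq_mul, RingHom.id_apply]
      ring
    · rw [smul_zero]

private lemma dualPhi_apply (m : ℕ) (c : ℕ → ℕ → F) (τ) (l) :
    dualPhi m c τ l = ∑ i : Fin (m + 3), ∑ j : Fin (m + 3),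
    (if (i : ℕ) + (j : ℕ) = (l.1 : ℕ) then c i j * τ (j ::ₛ l.2, i) else 0) := rfl

/-- The transpose of the multiplication `S^(m+1) V ⊗ V → S^(m+2) V`. -/
private def dualPsi (F : Type*) [Field F] (m : ℕ) : (Sym (Fin (m + 3)) (m + 2) → F) →ₗ[F]
    ((Sym (Fin (m + 3)) (m + 1) × Fin (m + 3)) → F) where
  toFun τ := fun u => τ (u.2 ::ₛ u.1)
  map_add' _ _ := rfl
  map_smul' _ _ := rfl

private lemma dualPsi_apply (m : ℕ) (τ : Sym (Fin (m + 3)) (m + 2) → F) (u) :
    dualPsi F m τ u = τ (u.2 ::ₛ u.1) := rfl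

private lemma dualPsi_inj (m : ℕ) : Function.Injective (dualPsi F m) := by
  intro τ τ' h
  funext γ
  obtain ⟨a, β, rfl⟩ := γ.exists_eq_cons_of_succ
  exact congrFun h (β, a)

private lemma dualPhi_dualPsi (m : ℕ) (c : ℕ → ℕ → F) (hanti : ∀ i j, c j i = - c i j)
    (hdiag : ∀ i, c i i = 0) (τ : Sym (Fin (m + 3)) (m + 2) → F) :
    dualPhi m c (dualPsi F m τ) = 0 := by
  funext l
  rw [dualPhi_apply, Pi.zero_apply]
  have h1 : ∀ G : Fin (m + 3) → Fin (m + 3) → F, (∀ i j, G j i = - G i j) → (∀ i, G i i = 0) →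
      ∑ i, ∑ j, G i j = 0 := by
    intro G hG hG0
    rw [← Finset.sum_product', Finset.univ_product_univ]
    apply Finset.sum_involution (fun u _ => Prod.swap u)
    · intro u _
      change G u.1 u.2 + G u.2 u.1 = 0
      rw [hG u.1 u.2, add_neg_cancel]
    · intro u _ hu he
      apply hu
      have h2 : u.2 = u.1 := congrArg Prod.fst he
      rw [h2]
      exact hG0 _
    · intro u _
      exact Finset.mem_univ _
    · intro u _
      rfl
  apply h1
  · intro i j
    rw [add_comm (j : ℕ) (i : ℕ)]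
    split_ifs
    · rw [dualPsi_apply, dualPsi_apply, hanti i j, neg_mul]
      change - (c i j * τ (j ::ₛ i ::ₛ l.2)) = - (c i j * τ (i ::ₛ j ::ₛ l.2))
      rw [Sym.cons_swap]
    · rw [neg_zero]
  · intro i
    rw [hdiag, zero_mul, ite_self]

private lemma dualPhi_surj (p : ℕ) [Fact p.Prime] [CharP F p] (m : ℕ)
    (hbin : ∀ j ≤ m, (m.choose j : F) ≠ 0) (c : ℕ → ℕ → F) (hanti : ∀ i j, c j i = - c i j)
    (hdiag : ∀ i, c i i = 0) (hc : ∀ i j, i < j → j < m + 3 → c i j ≠ 0) :
    Function.Surjective (dualPhi m c) := by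
  rw [← LinearMap.range_eq_top]
  by_contra hne
  obtain ⟨φ, hφ, hle⟩ := Submodule.exists_le_ker_of_lt_top _ (lt_top_iff_ne_top.mpr hne)
  apply hφ
  have hφ' : ∀ x, φ x = ∑ l, x l • φ (Pi.single l 1) := by
    intro x
    rw [LinearMap.pi_apply_eq_sum_univ φ x]
    apply Finset.sum_congr rfl
    intro l _
    congr 2
    funext l'
    rw [Pi.single_apply]
    simp only [eq_comm]
  have hz : ∀ τ, ∑ l, dualPhi m c τ l * φ (Pi.single l 1) = 0 := by
    intro τ
    have h1 : dualPhi m c τ ∈ LinearMap.ker φ := hle (LinearMap.mem_range_self _ _)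
    rw [LinearMap.mem_ker, hφ'] at h1
    exact h1
  generalize ha : (fun l => φ (Pi.single l 1)) = a at *
  have ha' : ∀ l, φ (Pi.single l 1) = a l := fun l => congrFun ha l
  have hz' : ∀ τ, ∑ l, dualPhi m c τ l * a l = 0 := by
    intro τ
    rw [← hz τ]
    apply Finset.sum_congr rfl
    intro l _
    rw [ha']
  have hall : ∀ l, a l = 0 := by
    have key := inj_main p m hbin c hc (fun s => if h : s ∈ Finset.Icc 1 (2 * m + 3) then
      ∑ β, C (a (⟨s, h⟩, β)) * dualMono F β else 0) ?_ ?_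
    · intro l
      have h1 := key l.1.1 l.1.2
      rw [dif_pos l.1.2] at h1
      exact dualMono_coeff (fun β => a (l.1, β)) h1 l.2
    · intro s
      split_ifs
      · apply IsHomogeneous.sum
        intro β _
        exact (dualMono_hom β).C_mul _
      · exact isHomogeneous_zero _ _ _
    · apply MvPolynomial.ext
      intro d
      rw [coeff_zero, coeff_sum, ← neg_eq_zero, ← hz' (fun u => coeff d
        (rename (fun i : Fin (m + 3) => (Sum.inl (i : ℕ) : ℕ ⊕ ℕ)) (dualMono F u.1) *
          X (Sum.inr (u.2 : ℕ)))), ← Finset.univ_product_univ, Finset.sum_product,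
        ← Finset.sum_neg_distrib, ← Finset.sum_coe_sort]
      apply Finset.sum_congr rfl
      intro s _
      rw [dif_pos s.2, dual_phi_hh _ _ hanti hdiag, mul_neg, coeff_neg, neg_neg, map_sum,
        Finset.sum_mul, coeff_sum]
      apply Finset.sum_congr rfl
      intro β _
      rw [dualPhi_apply, map_mul, rename_C, mul_assoc, coeff_C_mul, mul_comm, Finset.mul_sum,
        coeff_sum]
      congr 1
      apply Finset.sum_congr rfl
      intro i _
      rw [Finset.mul_sum, coeff_sum]
      apply Finset.sum_congr rfl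
      intro j _
      split_ifs
      · rw [← coeff_C_mul, dualMono_cons, map_mul, rename_X]
        congr 1
        ring
      · rw [mul_zero, coeff_zero]
  apply LinearMap.ext
  intro x
  rw [hφ', LinearMap.zero_apply]
  apply Finset.sum_eq_zero
  intro l _
  rw [ha', hall, smul_zero]

/-- `σ(v₀; v₁, ..., v_k)` is the value of the functional at `x_(v₁) ⋯ x_(v_k) y_(v₀)`; it is symmetric
in `v₁, ..., v_k`. -/
theorem dual_main (p : ℕ) [Fact p.Prime] [CharP F p] (m : ℕ)
    (hbin : ∀ j ≤ m, (m.choose j : F) ≠ 0) (c : ℕ → ℕ → F) (hanti : ∀ i j, c j i = - c i j)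
    (hdiag : ∀ i, c i i = 0) (hc : ∀ i j, i < j → j < m + 3 → c i j ≠ 0)
    (σ : (Fin (m + 2) → Fin (m + 3)) → F)
    (hsym : ∀ π : Equiv.Perm (Fin (m + 2)), π 0 = 0 → ∀ v, σ (v ∘ π) = σ v)
    (hch : ∀ (w : Fin (m + 2) → Fin (m + 3)) (s : ℕ),
      ∑ i : Fin (m + 3), ∑ j : Fin (m + 3), (if (i : ℕ) + (j : ℕ) = s then
        c i j * σ (Function.update (Function.update w 0 i) 1 j) else 0) = 0) :
    ∀ v, σ (v ∘ Equiv.swap 0 1) = σ v := by
  obtain ⟨τ, hτ⟩ := dual_lift σ hsym
  have hker : dualPhi m c τ = 0 := by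
    funext l
    obtain ⟨u, hu⟩ := dualMs_surj l.2
    have h1 := hch (Fin.cons 0 (Fin.cons 0 u)) l.1
    rw [dualPhi_apply, Pi.zero_apply]
    refine Eq.trans ?_ h1
    apply Finset.sum_congr rfl
    intro i _
    apply Finset.sum_congr rfl
    intro j _
    split_ifs
    · congr 1
      rw [hτ]
      have h2 : Function.update (Function.update (Fin.cons 0 (Fin.cons 0 u) :
          Fin (m + 2) → Fin (m + 3)) 0 i) 1 j = Fin.cons i (Fin.cons j u) := by
        rw [Fin.update_cons_zero, ← Fin.succ_zero_eq_one, ← Fin.cons_update, Fin.update_cons_zero]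
      rw [h2, ← hu]
      congr 2
      rw [dualMs_succ]
      rfl
    · rfl
  have hrange : LinearMap.range (dualPsi F m) = LinearMap.ker (dualPhi m c) := by
    apply Submodule.eq_of_le_of_finrank_eq
    · rintro _ ⟨τ', rfl⟩
      exact dualPhi_dualPsi m c hanti hdiag τ'
    · have h1 := LinearMap.finrank_range_add_finrank_ker (dualPhi m c)
      rw [LinearMap.range_eq_top.mpr (dualPhi_surj p m hbin c hanti hdiag hc), finrank_top,
        Module.finrank_fintype_fun_eq_card, Module.finrank_fintype_fun_eq_card, Fintype.card_prod,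
        Fintype.card_prod, Fintype.card_coe, Nat.card_Icc, Fintype.card_fin,
        Sym.card_sym_eq_choose, Sym.card_sym_eq_choose, Fintype.card_fin] at h1
      rw [LinearMap.finrank_range_of_inj (dualPsi_inj m), Module.finrank_fintype_fun_eq_card,
        Sym.card_sym_eq_choose, Fintype.card_fin]
      have h2 := dual_choose m
      rw [show m + 3 + m - 1 = 2 * m + 2 by omega, show m + 3 + (m + 1) - 1 = 2 * m + 3 by omega,
        show 2 * m + 3 + 1 - 1 = 2 * m + 3 by omega] at h1
      rw [show m + 3 + (m + 2) - 1 = 2 * m + 4 by omega]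
      rw [mul_comm ((2 * m + 3).choose (m + 1))] at h1
      omega
  have hmem : τ ∈ LinearMap.range (dualPsi F m) := by
    rw [hrange, LinearMap.mem_ker]
    exact hker
  obtain ⟨ψ, rfl⟩ := hmem
  have hψ : ∀ v, σ v = ψ (dualMs v) := by
    intro v
    rw [hτ, dualPsi_apply, dualMs_succ v]
  intro v
  rw [hψ, hψ, dualMs_perm]

end Pool.Agent.GrP
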