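import Mathlib
import Pool.Agent.GrP.Defs
import Pool.Agent.GrP.Dual

/-!
`dual_main` for fewer letters and more arguments: `n ≤ m + 3` letters, `m' + 2 ≥ m + 2` arguments.
The functional is extended by `0` to the letters `≥ n`, and the last `m' - m` arguments are fixed.
-/

set_option autoImplicit false

namespace Pool.Agent.GrP

open MvPolynomial

variable {F : Type*} [Field F]

/-- The first `m + 2` entries from `u`, the others from `v`. -/
def glueF {m m' n : ℕ} (v : Fin (m' + 2) → Fin n) (u : Fin (m + 2) → Fin (m + 3)) :
    Fin (m' + 2) → Fin n := fun i =>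
  if hi : (i : ℕ) < m + 2 then
    (if hu : ((u ⟨i, hi⟩ : Fin (m + 3)) : ℕ) < n then ⟨u ⟨i, hi⟩, hu⟩ else v i)
  else v i

theorem dual_gen (p : ℕ) [Fact p.Prime] [CharP F p] (m m' n : ℕ) (hmm : m ≤ m')
    (hn : n ≤ m + 3) (hbin : ∀ j ≤ m, (m.choose j : F) ≠ 0) (c : ℕ → ℕ → F)
    (hanti : ∀ i j, c j i = - c i j) (hdiag : ∀ i, c i i = 0)
    (hc : ∀ i j, i < j → j < n → c i j ≠ 0)
    (σ : (Fin (m' + 2) → Fin n) → F)
    (hsym : ∀ π : Equiv.Perm (Fin (m' + 2)), π 0 = 0 → ∀ v, σ (v ∘ π) = σ v)
    (hch : ∀ (w : Fin (m' + 2) → Fin n) (s : ℕ),
      ∑ i : Fin n, ∑ j : Fin n, (if (i : ℕ) + (j : ℕ) = s then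
        c i j * σ (Function.update (Function.update w 0 i) 1 j) else 0) = 0) :
    ∀ v, σ (v ∘ Equiv.swap 0 1) = σ v := by
  classical
  intro v
  have hle : m + 2 ≤ m' + 2 := by omega
  set c' : ℕ → ℕ → F := fun i j =>
    if i < n ∧ j < n then c i j else (if i < j then 1 else if j < i then -1 else 0) with hc'
  set σ' : (Fin (m + 2) → Fin (m + 3)) → F := fun u =>
    if ∀ i, ((u i : Fin (m + 3)) : ℕ) < n then σ (glueF v u) else 0 with hσ'
  have key := dual_main (F := F) p m hbin c' ?_ ?_ ?_ σ' ?_ ?_
    (fun i => ⟨v (Fin.castLE hle i), by have := (v (Fin.castLE hle i)).2; omega⟩)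
  · -- conclusion
    have h1 : glueF v (fun i : Fin (m + 2) => (⟨v (Fin.castLE hle i), by
        have := (v (Fin.castLE hle i)).2; omega⟩ : Fin (m + 3))) = v := by
      funext i
      unfold glueF
      by_cases hi : (i : ℕ) < m + 2
      · rw [dif_pos hi]
        have : (Fin.castLE hle ⟨i, hi⟩ : Fin (m' + 2)) = i := by ext; simp
        simp only [this]
        rw [dif_pos (v i).2]
      · rw [dif_neg hi]
    have h2 : glueF v ((fun i : Fin (m + 2) => (⟨v (Fin.castLE hle i), by
        have := (v (Fin.castLE hle i)).2; omega⟩ : Fin (m + 3))) ∘ (Equiv.swap 0 1)) =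
        v ∘ Equiv.swap 0 1 := by
      funext i
      unfold glueF
      by_cases hi : (i : ℕ) < m + 2
      · rw [dif_pos hi]
        have : (Fin.castLE hle (Equiv.swap 0 1 ⟨i, hi⟩) : Fin (m' + 2)) = Equiv.swap 0 1 i := by
          by_cases h0 : i = 0
          · subst h0
            have e0 : (⟨((0 : Fin (m' + 2)) : ℕ), hi⟩ : Fin (m + 2)) = 0 := by ext; simp
            rw [e0]
            simp only [Equiv.swap_apply_left]
            ext; simp
          · by_cases h01 : i = 1
            · subst h01
              have e0 : (⟨((1 : Fin (m' + 2)) : ℕ), hi⟩ : Fin (m + 2)) = 1 := by ext; simp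
              rw [e0]
              simp only [Equiv.swap_apply_right]
              ext; simp
            · rw [Equiv.swap_apply_of_ne_of_ne h0 h01, Equiv.swap_apply_of_ne_of_ne]
              · ext; simp
              · intro h; apply h0; ext; simpa using congrArg Fin.val h
              · intro h; apply h01; ext; simpa using congrArg Fin.val h
        simp only [Function.comp_apply, this]
        rw [dif_pos (v _).2]
      · rw [dif_neg hi]
        simp only [Function.comp_apply]
        rw [Equiv.swap_apply_of_ne_of_ne]
        · intro h; apply hi; rw [h]; simp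
        · intro h; apply hi; rw [h]; simp
    simp only [hσ'] at key
    have hl1 : ∀ i : Fin (m + 2), (((fun i : Fin (m + 2) => (⟨v (Fin.castLE hle i), by
        have := (v (Fin.castLE hle i)).2; omega⟩ : Fin (m + 3))) i : Fin (m + 3)) : ℕ) < n :=
      fun i => (v (Fin.castLE hle i)).2
    have hl2 : ∀ i : Fin (m + 2), (((fun i : Fin (m + 2) => (⟨v (Fin.castLE hle i), by
        have := (v (Fin.castLE hle i)).2; omega⟩ : Fin (m + 3))) ∘ (Equiv.swap 0 1)) i :
        Fin (m + 3)).1 < n :=
      fun i => (v (Fin.castLE hle (Equiv.swap 0 1 i))).2
    rw [if_pos hl2, if_pos hl1, h1, h2] at key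
    exact key
  · intro i j
    simp only [hc']
    by_cases h : i < n ∧ j < n
    · rw [if_pos ⟨h.2, h.1⟩, if_pos h, hanti]
    · rw [if_neg (fun h' => h ⟨h'.2, h'.1⟩), if_neg h]
      rcases lt_trichotomy i j with h1 | h1 | h1
      · rw [if_neg (by omega), if_pos h1, if_pos h1]
      · subst h1; simp
      · rw [if_pos h1, if_neg (by omega), if_pos h1]; simp
  · intro i
    simp only [hc']
    by_cases h : i < n ∧ i < n
    · rw [if_pos h, hdiag]
    · rw [if_neg h, if_neg (lt_irrefl i), if_neg (lt_irrefl i)]
  · intro i j hij hj
    simp only [hc']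
    split_ifs with h
    · exact hc i j hij h.2
    · exact one_ne_zero
  · intro π hπ u
    simp only [hσ']
    have hiff : (∀ i, ((u ∘ π) i : ℕ) < n) ↔ ∀ i, (u i : ℕ) < n := by
      constructor
      · intro h i
        have := h (π.symm i)
        simpa using this
      · intro h i
        exact h _
    by_cases h : ∀ i, (u i : ℕ) < n
    · rw [if_pos h, if_pos (hiff.mpr h)]
      set π' : Equiv.Perm (Fin (m' + 2)) :=
        π.viaFintypeEmbedding (Fin.castLEEmb hle) with hπ'
      have hπ'0 : π' 0 = 0 := by
        have : (0 : Fin (m' + 2)) = Fin.castLEEmb hle 0 := by ext; simp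
        rw [this, hπ', Equiv.Perm.viaFintypeEmbedding_apply_image, hπ]
      rw [← hsym π' hπ'0 (glueF v u)]
      congr 1
      funext i
      by_cases hi : (i : ℕ) < m + 2
      · have e1 : i = Fin.castLEEmb hle ⟨i, hi⟩ := by ext; simp
        have e2 : π' i = Fin.castLEEmb hle (π ⟨i, hi⟩) := by
          conv_lhs => rw [e1]
          rw [hπ', Equiv.Perm.viaFintypeEmbedding_apply_image]
        simp only [Function.comp_apply, e2]
        unfold glueF
        have e4 : ((Fin.castLEEmb hle (π ⟨i, hi⟩) : Fin (m' + 2)) : ℕ) < m + 2 := by simp
        rw [dif_pos hi, dif_pos e4]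
        simp only [Function.comp_apply]
        rw [dif_pos (h _)]
        have e3 : (⟨((Fin.castLEEmb hle (π ⟨i, hi⟩) : Fin (m' + 2)) : ℕ), e4⟩ : Fin (m + 2)) =
            π ⟨i, hi⟩ := by ext; simp
        simp only [e3]
        rw [dif_pos (h _)]
      · have e1 : i ∉ Set.range (Fin.castLEEmb hle) := by
          rintro ⟨j, rfl⟩
          apply hi
          simpa using j.2
        have e2 : π' i = i := by
          rw [hπ', Equiv.Perm.viaFintypeEmbedding_apply_notMem_range _ _ e1]
        simp only [Function.comp_apply, e2]
        unfold glueF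
        rw [dif_neg hi, dif_neg hi]
    · rw [if_neg h, if_neg (fun h' => h (hiff.mp h'))]
  · intro w s
    by_cases hw : ∀ l : Fin (m + 2), l ≠ 0 → l ≠ 1 → (w l : ℕ) < n
    · have hu : ∀ (i j : Fin (m + 3)), (∀ l, ((Function.update (Function.update w 0 i) 1 j l :
          Fin (m + 3)) : ℕ) < n) ↔ (i : ℕ) < n ∧ (j : ℕ) < n := by
        intro i j
        constructor
        · intro h
          refine ⟨?_, ?_⟩
          · have := h 0
            rwa [Function.update_of_ne (by simp), Function.update_self] at this
          · have := h 1
            rwa [Function.update_self] at this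
        · rintro ⟨h1, h2⟩ l
          by_cases hl1 : l = 1
          · subst hl1; rwa [Function.update_self]
          · rw [Function.update_of_ne hl1]
            by_cases hl0 : l = 0
            · subst hl0; rwa [Function.update_self]
            · rw [Function.update_of_ne hl0]
              exact hw l hl0 hl1
      refine Eq.trans ?_ (hch (glueF v w) s)
      have hcast : ∀ i ∉ Set.range (Fin.castLE hn : Fin n → Fin (m + 3)), ¬ (i : ℕ) < n := by
        intro i hi h
        exact hi ⟨⟨i, h⟩, by ext; simp⟩
      symm
      apply Fintype.sum_of_injective (Fin.castLE hn) (Fin.castLE_injective hn)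
      · intro i hi
        apply Finset.sum_eq_zero
        intro j _
        simp only [hσ']
        rw [if_neg (fun h => hcast i hi ((hu i j).mp h).1)]
        simp
      · intro i
        apply Fintype.sum_of_injective (Fin.castLE hn) (Fin.castLE_injective hn)
        · intro j hj
          simp only [hσ']
          rw [if_neg (fun h => hcast j hj ((hu _ j).mp h).2)]
          simp
        · intro j
          simp only [Fin.val_castLE, hσ']
          rw [if_pos ((hu _ _).mpr ⟨by simp, by simp⟩)]
          have e1 : c' i j = c i j := by
            simp only [hc']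
            rw [if_pos ⟨i.2, j.2⟩]
          rw [e1]
          have e2 : glueF v (Function.update (Function.update w 0 (Fin.castLE hn i)) 1
              (Fin.castLE hn j)) =
              Function.update (Function.update (glueF v w) 0 i) 1 j := by
            funext l
            by_cases hl1 : l = 1
            · subst hl1
              rw [Function.update_self]
              unfold glueF
              rw [dif_pos (by simp)]
              have e3 : (⟨((1 : Fin (m' + 2)) : ℕ), by simp⟩ : Fin (m + 2)) = 1 := by ext; simp
              simp only [e3, Function.update_self, Fin.val_castLE]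
              rw [dif_pos j.2]
            · rw [Function.update_of_ne hl1]
              by_cases hl0 : l = 0
              · subst hl0
                rw [Function.update_self]
                unfold glueF
                rw [dif_pos (by simp)]
                have e3 : (⟨((0 : Fin (m' + 2)) : ℕ), by simp⟩ : Fin (m + 2)) = 0 := by
                  ext; simp
                have e4 : (0 : Fin (m + 2)) ≠ 1 := by simp
                simp only [e3, Function.update_of_ne e4, Function.update_self, Fin.val_castLE]
                rw [dif_pos i.2]
              · rw [Function.update_of_ne hl0]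
                unfold glueF
                by_cases hl : (l : ℕ) < m + 2
                · rw [dif_pos hl, dif_pos hl]
                  have e5 : (⟨(l : ℕ), hl⟩ : Fin (m + 2)) ≠ 1 := by
                    intro h; apply hl1; ext; simpa using congrArg Fin.val h
                  have e6 : (⟨(l : ℕ), hl⟩ : Fin (m + 2)) ≠ 0 := by
                    intro h; apply hl0; ext; simpa using congrArg Fin.val h
                  simp only [Function.update_of_ne e5, Function.update_of_ne e6]
                · rw [dif_neg hl, dif_neg hl]
          rw [e2]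
    · push Not at hw
      obtain ⟨l, hl0, hl1, hl⟩ := hw
      apply Finset.sum_eq_zero
      intro i _
      apply Finset.sum_eq_zero
      intro j _
      have hn' : ¬ ∀ l, ((Function.update (Function.update w 0 i) 1 j l : Fin (m + 3)) : ℕ) < n := by
        intro h
        have := h l
        rw [Function.update_of_ne hl1, Function.update_of_ne hl0] at this
        omega
      simp only [hσ']
      rw [if_neg hn', mul_zero]
      simp

end Pool.Agent.GrP
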