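import Mathlib
import Pool.Agent.GrP.Dual
import Pool.Agent.GrP.DualG

/-!
The chord surface: an alternating polynomial form of the vanishing of `K_(k,1)`, `k = m + 1`.

`N(z_0; z_1, ..., z_k)` has degree at most `2k + 1` in every variable, is alternating in `z_1, ..., z_k`,
vanishes for `z_1 = z_0`, and `N(ρt; t, ...) + N(t; ρt, ...) = 0`.  Then `N` changes sign under the
interchange of `z_0` and `z_1`.
Proof: `N` vanishes on all diagonals `z_i = z_j`, so `N = V σ`, `V` the Vandermonde product of all
`k + 1` variables (`Finset.prod_dvd_of_isRelPrime`), `σ` is symmetric in `z_1, ..., z_k`, has degree at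
most `k + 1` in every variable, and `σ(ρt; t, ...) = σ(t; ρt, ...)` because `V` changes sign and does
not vanish there.  The coefficient of `t^s` is the hypothesis of `dual_main` for
`c_ij = ρ^j - ρ^i`, so `σ` is symmetric in `z_0, z_1`.
-/

set_option autoImplicit false

namespace Pool.Agent.GrP

open MvPolynomial

variable {F : Type*} [Field F]

/-- the difference product -/
def surfD {n : ℕ} {R : Type*} [CommRing R] (a : Fin n → R) : R :=
  ∏ i : Fin n, ∏ j ∈ Finset.Ioi i, (a j - a i)

theorem surfD_swap {n : ℕ} {R : Type*} [CommRing R] (a : Fin n → R) (i j : Fin n)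
    (h : i ≠ j) : surfD (a ∘ Equiv.swap i j) = - surfD a := by
  unfold surfD
  rw [← Matrix.det_vandermonde, ← Matrix.det_vandermonde]
  have h1 : Matrix.vandermonde (a ∘ Equiv.swap i j) =
      (Matrix.vandermonde a).submatrix (Equiv.swap i j) id := by
    ext x y; simp [Matrix.vandermonde]
  rw [h1, Matrix.det_permute, Equiv.Perm.sign_swap h]
  simp

theorem surfD_map {n : ℕ} {R S : Type*} [CommRing R] [CommRing S] (f : R →+* S)
    (a : Fin n → R) : f (surfD a) = surfD (fun i => f (a i)) := by
  unfold surfD
  rw [map_prod]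
  refine Finset.prod_congr rfl fun i _ => ?_
  rw [map_prod]
  refine Finset.prod_congr rfl fun j _ => ?_
  rw [map_sub]

theorem surfD_ne_zero {n : ℕ} {R : Type*} [CommRing R] [IsDomain R] (a : Fin n → R)
    (h : Function.Injective a) : surfD a ≠ 0 := by
  unfold surfD
  rw [Finset.prod_ne_zero_iff]
  intro i _
  rw [Finset.prod_ne_zero_iff]
  intro j hj
  rw [Finset.mem_Ioi] at hj
  rw [sub_ne_zero]
  exact fun e => hj.ne' (h e)

theorem surf_dvd_sub {n : ℕ} (i j : Fin n) (N : MvPolynomial (Fin n) F) :
    (X i - X j : MvPolynomial (Fin n) F) ∣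
      N - aeval (Function.update X i (X j) : Fin n → MvPolynomial (Fin n) F) N := by
  classical
  induction N using MvPolynomial.induction_on with
  | C a => simp
  | add p q hp hq =>
    rw [map_add]
    have := dvd_add hp hq
    have e : (p + q) - ((aeval (Function.update X i (X j) : Fin n → MvPolynomial (Fin n) F)) p +
      (aeval (Function.update X i (X j) : Fin n → MvPolynomial (Fin n) F)) q) =
      (p - (aeval (Function.update X i (X j) : Fin n → MvPolynomial (Fin n) F)) p) +
      (q - (aeval (Function.update X i (X j) : Fin n → MvPolynomial (Fin n) F)) q) := by ring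
    rw [e]; exact this
  | mul_X p k hp =>
    rw [map_mul, aeval_X]
    have e : p * X k - (aeval (Function.update X i (X j) : Fin n → MvPolynomial (Fin n) F)) p *
        (Function.update X i (X j) : Fin n → MvPolynomial (Fin n) F) k =
      (p - (aeval (Function.update X i (X j) : Fin n → MvPolynomial (Fin n) F)) p) * X k +
      (aeval (Function.update X i (X j) : Fin n → MvPolynomial (Fin n) F)) p *
        (X k - (Function.update X i (X j) : Fin n → MvPolynomial (Fin n) F) k) := by ring
    rw [e]
    refine dvd_add (Dvd.dvd.mul_right hp _) (Dvd.dvd.mul_left ?_ _)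
    by_cases hk : k = i
    · subst hk; rw [Function.update_self]
    · rw [Function.update_of_ne hk]; simp

theorem surf_dvd_iff {n : ℕ} (i j : Fin n) (N : MvPolynomial (Fin n) F) :
    (X i - X j : MvPolynomial (Fin n) F) ∣ N ↔
      aeval (Function.update X i (X j) : Fin n → MvPolynomial (Fin n) F) N = 0 := by
  classical
  constructor
  · rintro ⟨q, rfl⟩
    rw [map_mul, map_sub, aeval_X, aeval_X, Function.update_self]
    by_cases h : j = i
    · subst h; rw [Function.update_self]; simp
    · rw [Function.update_of_ne h]; simp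
  · intro h
    have := surf_dvd_sub i j N
    rwa [h, sub_zero] at this

theorem surf_prime {n : ℕ} (i j : Fin n) (hij : i ≠ j) :
    Prime (X i - X j : MvPolynomial (Fin n) F) := by
  classical
  refine ⟨?_, ?_, ?_⟩
  · rw [sub_ne_zero]
    exact fun e => hij (X_injective e)
  · intro hu
    have h1 := (surf_dvd_iff (F := F) i j 1).mp hu.dvd
    rw [map_one] at h1
    exact one_ne_zero h1
  · intro a b hab
    rw [surf_dvd_iff, map_mul, mul_eq_zero] at hab
    rcases hab with h | h
    · exact Or.inl ((surf_dvd_iff i j a).mpr h)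
    · exact Or.inr ((surf_dvd_iff i j b).mpr h)

theorem surf_relPrime {n : ℕ} (i j k l : Fin n) (hij : i < j) (hkl : k < l)
    (h : ¬ (i = k ∧ j = l)) :
    IsRelPrime (X j - X i : MvPolynomial (Fin n) F) (X l - X k) := by
  classical
  rw [(surf_prime (F := F) j i hij.ne').irreducible.isRelPrime_iff_not_dvd, surf_dvd_iff, map_sub,
    aeval_X, aeval_X, sub_eq_zero]
  intro e
  by_cases h1 : l = j
  · subst h1
    rw [Function.update_self, Function.update_of_ne hkl.ne] at e
    exact h ⟨X_injective e, rfl⟩
  · rw [Function.update_of_ne h1] at e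
    by_cases h2 : k = j
    · subst h2
      rw [Function.update_self] at e
      have := X_injective e
      subst this
      exact absurd hkl (not_lt.mpr hij.le)
    · rw [Function.update_of_ne h2] at e
      exact hkl.ne' (X_injective e)

theorem surfD_eq_sigma {n : ℕ} {R : Type*} [CommRing R] (a : Fin n → R) :
    surfD a = ∏ x ∈ (Finset.univ : Finset (Fin n)).sigma (fun i => Finset.Ioi i),
      (a x.2 - a x.1) := by
  unfold surfD
  rw [Finset.prod_sigma]

theorem surfD_dvd {n : ℕ} (N : MvPolynomial (Fin n) F)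
    (h : ∀ i j : Fin n, i < j → (X j - X i : MvPolynomial (Fin n) F) ∣ N) :
    surfD (X : Fin n → MvPolynomial (Fin n) F) ∣ N := by
  classical
  rw [surfD_eq_sigma]
  apply Finset.prod_dvd_of_isRelPrime
  · rintro ⟨i, j⟩ hx ⟨k, l⟩ hy hne
    rw [Finset.coe_sigma, Set.mem_sigma_iff] at hx hy
    have hij : i < j := by simpa using hx.2
    have hkl : k < l := by simpa using hy.2
    apply surf_relPrime i j k l hij hkl
    rintro ⟨rfl, rfl⟩
    exact hne rfl
  · rintro ⟨i, j⟩ hx
    rw [Finset.mem_sigma] at hx
    exact h i j (by simpa using hx.2)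

theorem surf_degreeOf_sub {n : ℕ} (i a b : Fin n) (hab : a ≠ b) (hi : i = a ∨ i = b) :
    1 ≤ degreeOf i (X b - X a : MvPolynomial (Fin n) F) := by
  classical
  by_contra hc
  have h0 : degreeOf i (X b - X a : MvPolynomial (Fin n) F) = 0 := by omega
  have h1 : coeff (Finsupp.single i 1) (X b - X a : MvPolynomial (Fin n) F) ≠ 0 := by
    rw [coeff_sub, coeff_X, coeff_X]
    have hn : ∀ c : Fin n, c ≠ i → (Finsupp.single c 1 : Fin n →₀ ℕ) ≠ Finsupp.single i 1 :=
      fun c hc e => hc (Finsupp.single_left_injective one_ne_zero e)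
    rcases hi with rfl | rfl
    · rw [if_neg (hn b (Ne.symm hab))]; simp
    · rw [if_neg (hn a hab)]; simp
  have h2 := monomial_le_degreeOf i (mem_support_iff.mpr h1)
  rw [h0, Finsupp.single_eq_same] at h2
  omega

theorem surfD_degreeOf {n : ℕ} (i : Fin (n + 1)) :
    n ≤ degreeOf i (surfD (X : Fin (n + 1) → MvPolynomial (Fin (n + 1)) F)) := by
  classical
  rw [surfD_eq_sigma, degreeOf_prod_eq]
  · set s := (Finset.univ : Finset (Fin (n + 1))).sigma (fun i => Finset.Ioi i) with hs
    have hsub : (s.filter (fun x => i = x.1 ∨ i = x.2)) ⊆ s := Finset.filter_subset _ _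
    refine le_trans ?_ (Finset.sum_le_sum_of_subset hsub)
    refine le_trans ?_ (Finset.card_nsmul_le_sum _ _ 1 ?_)
    · rw [smul_eq_mul, mul_one]
      have hcard : ((Finset.univ : Finset (Fin (n + 1))).erase i).card = n := by
        rw [Finset.card_erase_of_mem (Finset.mem_univ _)]; simp
      conv_lhs => rw [← hcard]
      apply Finset.card_le_card_of_injOn
        (fun k => (⟨min k i, max k i⟩ : (_ : Fin (n + 1)) × Fin (n + 1)))
      · intro k hk
        have hk' : k ≠ i := (Finset.mem_erase.mp hk).1
        rw [Finset.mem_coe, Finset.mem_filter, hs, Finset.mem_sigma]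
        refine ⟨⟨Finset.mem_univ _, ?_⟩, ?_⟩
        · simp only [Finset.mem_Ioi]
          rcases lt_or_gt_of_ne hk' with h | h
          · rw [min_eq_left h.le, max_eq_right h.le]; exact h
          · rw [min_eq_right h.le, max_eq_left h.le]; exact h
        · rcases lt_or_gt_of_ne hk' with h | h
          · right; simp [max_eq_right h.le]
          · left; simp [min_eq_right h.le]
      · intro k hk l hl e
        have e1 := congrArg Sigma.fst e
        have e2 : max k i = max l i := by
          have := (Sigma.mk.inj_iff.mp e).2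
          exact eq_of_heq this
        simp only at e1
        have hk' : k ≠ i := (Finset.mem_erase.mp hk).1
        have hl' : l ≠ i := (Finset.mem_erase.mp hl).1
        rcases lt_or_gt_of_ne hk' with h | h <;> rcases lt_or_gt_of_ne hl' with h' | h'
        · rwa [min_eq_left h.le, min_eq_left h'.le] at e1
        · rw [max_eq_right h.le, max_eq_left h'.le] at e2; exact absurd e2.symm hl'
        · rw [max_eq_left h.le, max_eq_right h'.le] at e2; exact absurd e2 hk'
        · rwa [max_eq_left h.le, max_eq_left h'.le] at e2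
    · rintro ⟨a, b⟩ hx
      rw [Finset.mem_filter, hs, Finset.mem_sigma] at hx
      have hab : a < b := by simpa using hx.1.2
      exact surf_degreeOf_sub i a b hab.ne hx.2
  · rintro ⟨a, b⟩ hx
    rw [Finset.mem_sigma] at hx
    have hab : a < b := by simpa using hx.2
    rw [sub_ne_zero]
    exact fun e => hab.ne' (X_injective e)

/-- exponent vector of a word -/
noncomputable def surfF {n k : ℕ} (v : Fin n → Fin k) : Fin n →₀ ℕ :=
  Finsupp.equivFunOnFinite.symm (fun i => (v i : ℕ))

theorem surfF_apply {n k : ℕ} (v : Fin n → Fin k) (i : Fin n) : surfF v i = (v i : ℕ) := rfl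

theorem surfF_injective {n k : ℕ} : Function.Injective (surfF : (Fin n → Fin k) → _) := by
  intro v w h
  funext i
  apply Fin.ext
  rw [← surfF_apply, ← surfF_apply, h]

theorem surf_expand {n k : ℕ} (σ : MvPolynomial (Fin n) F) (h : ∀ i, degreeOf i σ < k) :
    σ = ∑ v : Fin n → Fin k, monomial (surfF v) (coeff (surfF v) σ) := by
  classical
  ext u
  rw [coeff_sum]
  simp only [coeff_monomial]
  by_cases hu : ∀ i, u i < k
  · have e : u = surfF (fun i => (⟨u i, hu i⟩ : Fin k)) := by
      ext i; rw [surfF_apply]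
    rw [Finset.sum_eq_single (fun i => (⟨u i, hu i⟩ : Fin k))]
    · rw [← e, if_pos rfl]
    · intro v _ hv
      rw [if_neg]
      intro e'
      apply hv
      apply surfF_injective
      rw [e', ← e]
    · intro h'; exact absurd (Finset.mem_univ _) h'
  · push Not at hu
    obtain ⟨i, hi⟩ := hu
    rw [Finset.sum_eq_zero]
    · by_contra hc
      have := monomial_le_degreeOf i (mem_support_iff.mpr hc)
      have := h i
      omega
    · intro v _
      rw [if_neg]
      rintro rfl
      rw [surfF_apply] at hi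
      have := (v i).2
      omega

/-- exponent vector after the substitution `X 0, X 1 ↦ multiples of X 1` -/
noncomputable def surfE {n k : ℕ} (v : Fin (n + 2) → Fin k) (t : ℕ) : Fin (n + 2) →₀ ℕ :=
  Finsupp.equivFunOnFinite.symm
    (Function.update (Function.update (fun i => (v i : ℕ)) 0 0) 1 t)

theorem surfE_zero {n k : ℕ} (v : Fin (n + 2) → Fin k) (t : ℕ) : surfE v t 0 = 0 := by
  change Function.update (Function.update (fun i => (v i : ℕ)) 0 0) 1 t 0 = 0
  rw [Function.update_of_ne (by simp), Function.update_self]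

theorem surfE_one {n k : ℕ} (v : Fin (n + 2) → Fin k) (t : ℕ) : surfE v t 1 = t := by
  change Function.update (Function.update (fun i => (v i : ℕ)) 0 0) 1 t 1 = t
  rw [Function.update_self]

theorem surfE_ne {n k : ℕ} (v : Fin (n + 2) → Fin k) (t : ℕ) (l : Fin (n + 2)) (h0 : l ≠ 0)
    (h1 : l ≠ 1) : surfE v t l = v l := by
  change Function.update (Function.update (fun i => (v i : ℕ)) 0 0) 1 t l = v l
  rw [Function.update_of_ne h1, Function.update_of_ne h0]

theorem surf_ss0 {n : ℕ} (l : Fin n) : (l.succ.succ : Fin (n + 2)) ≠ 0 := Fin.succ_ne_zero _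

theorem surf_ss1 {n : ℕ} (l : Fin n) : (l.succ.succ : Fin (n + 2)) ≠ 1 := by
  intro h
  have := congrArg Fin.val h
  simp at this

theorem surf_subst {n k : ℕ} (α β : F) (s : Fin (n + 2) → MvPolynomial (Fin (n + 2)) F)
    (h0 : s 0 = C α * X 1) (h1 : s 1 = C β * X 1) (hs : ∀ l, l ≠ 0 → l ≠ 1 → s l = X l)
    (v : Fin (n + 2) → Fin k) (a : F) :
    aeval s (monomial (surfF v) a) =
      monomial (surfE v ((v 0 : ℕ) + v 1)) (a * α ^ (v 0 : ℕ) * β ^ (v 1 : ℕ)) := by
  rw [aeval_monomial, monomial_eq, Finsupp.prod_fintype _ _ (fun i => pow_zero _),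
    Finsupp.prod_fintype _ _ (fun i => pow_zero _), Fin.prod_univ_succ, Fin.prod_univ_succ,
    Fin.prod_univ_succ (n := n + 1), Fin.prod_univ_succ (n := n)]
  have e1 : (Fin.succ 0 : Fin (n + 2)) = 1 := rfl
  rw [e1, surfE_zero, surfE_one, h0, h1, surfF_apply, surfF_apply]
  have e2 : ∏ i : Fin n, s i.succ.succ ^ (surfF v) i.succ.succ =
      ∏ i : Fin n, (X i.succ.succ : MvPolynomial (Fin (n + 2)) F) ^
        (surfE v ((v 0 : ℕ) + v 1)) i.succ.succ := by
    refine Finset.prod_congr rfl fun l _ => ?_
    rw [hs _ (surf_ss0 l) (surf_ss1 l), surfF_apply, surfE_ne _ _ _ (surf_ss0 l) (surf_ss1 l)]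
  rw [e2]
  rw [C_mul, C_mul, C_pow, C_pow, algebraMap_eq, mul_pow, mul_pow, pow_add, pow_zero]
  ring

theorem surf_coeff {n k : ℕ} (σ : MvPolynomial (Fin (n + 2)) F) (h : ∀ i, degreeOf i σ < k)
    (α β : F) (s : Fin (n + 2) → MvPolynomial (Fin (n + 2)) F)
    (h0 : s 0 = C α * X 1) (h1 : s 1 = C β * X 1) (hs : ∀ l, l ≠ 0 → l ≠ 1 → s l = X l)
    (w : Fin (n + 2) → Fin k) (t : ℕ) :
    coeff (surfE w t) (aeval s σ) = ∑ i : Fin k, ∑ j : Fin k, (if (i : ℕ) + (j : ℕ) = t then
      coeff (surfF (Function.update (Function.update w 0 i) 1 j)) σ *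
        α ^ (i : ℕ) * β ^ (j : ℕ) else 0) := by
  classical
  conv_lhs => rw [surf_expand σ h]
  rw [map_sum, coeff_sum]
  simp only [surf_subst α β s h0 h1 hs, coeff_monomial]
  rw [← Fintype.sum_prod_type']
  symm
  apply Fintype.sum_of_injective
    (fun x : Fin k × Fin k => Function.update (Function.update w 0 x.1) 1 x.2)
  · rintro ⟨a, b⟩ ⟨c, d⟩ e
    have e1 := congrFun e 1
    have e0 := congrFun e 0
    simp only [Function.update_self] at e1
    simp only [Function.update_of_ne (show (0 : Fin (n + 2)) ≠ 1 by simp),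
      Function.update_self] at e0
    rw [e0, e1]
  · intro v hv
    rw [if_neg]
    intro e
    apply hv
    refine ⟨(v 0, v 1), ?_⟩
    funext l
    by_cases hl1 : l = 1
    · subst hl1; simp only [Function.update_self]
    · simp only [Function.update_of_ne hl1]
      by_cases hl0 : l = 0
      · subst hl0; simp only [Function.update_self]
      · simp only [Function.update_of_ne hl0]
        have := DFunLike.congr_fun e l
        rw [surfE_ne _ _ _ hl0 hl1, surfE_ne _ _ _ hl0 hl1] at this
        exact (Fin.ext this).symm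
  · rintro ⟨i, j⟩
    have e0 : Function.update (Function.update w 0 i) 1 j 0 = i := by
      rw [Function.update_of_ne (by simp), Function.update_self]
    have e1 : Function.update (Function.update w 0 i) 1 j 1 = j := by
      rw [Function.update_self]
    simp only [e0, e1]
    have hiff : (surfE (Function.update (Function.update w 0 i) 1 j) ((i : ℕ) + j) =
        surfE w t) ↔ (i : ℕ) + j = t := by
      constructor
      · intro e
        have := DFunLike.congr_fun e 1
        rwa [surfE_one, surfE_one] at this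
      · rintro rfl
        ext l
        by_cases hl1 : l = 1
        · subst hl1; rw [surfE_one, surfE_one]
        · by_cases hl0 : l = 0
          · subst hl0; rw [surfE_zero, surfE_zero]
          · rw [surfE_ne _ _ _ hl0 hl1, surfE_ne _ _ _ hl0 hl1, Function.update_of_ne hl1,
              Function.update_of_ne hl0]
    by_cases hc : (i : ℕ) + j = t
    · rw [if_pos hc, if_pos (hiff.mpr hc)]
    · rw [if_neg hc, if_neg (fun e => hc (hiff.mp e))]

theorem surf_perm_coeff {n k : ℕ} (σ : MvPolynomial (Fin n) F) (π : Equiv.Perm (Fin n))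
    (h : rename π σ = σ) (v : Fin n → Fin k) :
    coeff (surfF (v ∘ π)) σ = coeff (surfF v) σ := by
  have e : (surfF (v ∘ π)).mapDomain π = surfF v := by
    ext i
    conv_lhs => rw [← π.apply_symm_apply i]
    rw [Finsupp.mapDomain_apply π.injective, surfF_apply, surfF_apply, Function.comp_apply,
      π.apply_symm_apply]
  conv_rhs => rw [← h, ← e]
  rw [coeff_rename_mapDomain _ π.injective]

theorem surf_perm {n : ℕ} (σ : MvPolynomial (Fin (n + 1)) F)
    (h : ∀ i j : Fin (n + 1), i ≠ 0 → j ≠ 0 → i ≠ j → rename (Equiv.swap i j) σ = σ)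
    (π : Equiv.Perm (Fin (n + 1))) (hπ : π 0 = 0) : rename π σ = σ := by
  classical
  obtain ⟨⟨q, e⟩, rfl⟩ := Equiv.Perm.decomposeFin.symm.surjective π
  rw [Equiv.Perm.decomposeFin_symm_apply_zero] at hπ
  subst hπ
  induction e using Equiv.Perm.swap_induction_on with
  | one =>
    have e1 : (Equiv.Perm.decomposeFin.symm ((0 : Fin (n + 1)), (1 : Equiv.Perm (Fin n))) :
        Equiv.Perm (Fin (n + 1))) = 1 := by
      simp
      rfl
    rw [e1]
    exact rename_id_apply σ
  | swap_mul f x y hxy ih =>
    have e1 : (Equiv.Perm.decomposeFin.symm ((0 : Fin (n + 1)), Equiv.swap x y * f) :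
        Equiv.Perm (Fin (n + 1))) =
        Equiv.swap x.succ y.succ * Equiv.Perm.decomposeFin.symm ((0 : Fin (n + 1)), f) := by
      ext i
      refine Fin.cases ?_ (fun i => ?_) i
      · rw [Equiv.Perm.mul_apply, Equiv.Perm.decomposeFin_symm_apply_zero,
          Equiv.Perm.decomposeFin_symm_apply_zero, Equiv.swap_apply_of_ne_of_ne
            (Fin.succ_ne_zero x).symm (Fin.succ_ne_zero y).symm]
      · rw [Equiv.Perm.mul_apply, Equiv.Perm.decomposeFin_symm_apply_succ,
          Equiv.Perm.decomposeFin_symm_apply_succ, Equiv.swap_self, Equiv.refl_apply,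
          Equiv.refl_apply, Equiv.Perm.mul_apply]
        congr 1
        rcases eq_or_ne (f i) x with h1 | h1
        · rw [h1, Equiv.swap_apply_left, Equiv.swap_apply_left]
        · rcases eq_or_ne (f i) y with h2 | h2
          · rw [h2, Equiv.swap_apply_right, Equiv.swap_apply_right]
          · rw [Equiv.swap_apply_of_ne_of_ne h1 h2, Equiv.swap_apply_of_ne_of_ne]
            · exact fun e => h1 (Fin.succ_injective _ e)
            · exact fun e => h2 (Fin.succ_injective _ e)
    rw [e1, Equiv.Perm.coe_mul, ← rename_rename, ih]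
    exact h _ _ (Fin.succ_ne_zero x) (Fin.succ_ne_zero y)
      (fun e => hxy (Fin.succ_injective _ e))

theorem surf_swap_of_coeff {n k : ℕ} (σ : MvPolynomial (Fin n) F) (h : ∀ i, degreeOf i σ < k)
    (π : Equiv.Perm (Fin n)) (hc : ∀ v : Fin n → Fin k, coeff (surfF (v ∘ π)) σ =
      coeff (surfF v) σ) : rename π.symm σ = σ := by
  classical
  conv_lhs => rw [surf_expand σ h]
  conv_rhs => rw [surf_expand σ h]
  rw [map_sum]
  refine Fintype.sum_equiv (Equiv.arrowCongr π.symm (Equiv.refl _)) _ _ fun v => ?_
  have e : (Equiv.arrowCongr π.symm (Equiv.refl (Fin k))) v = v ∘ π := by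
    funext i; simp [Equiv.arrowCongr]
  have e2 : Finsupp.mapDomain π.symm (surfF v) = surfF (v ∘ π) := by
    ext i
    have : i = π.symm (π i) := by simp
    conv_lhs => rw [this]
    rw [Finsupp.mapDomain_apply π.symm.injective, surfF_apply, surfF_apply, Function.comp_apply]
  rw [e, hc, rename_monomial, e2]

/-- General form: `k' = m' + 1`, `N` has degree at most `g` in every variable, `σ` degree at most
`g - k'`, so `n = g - m'` coefficients; `m + 1 ≤ k'` and `g ≤ (m + 1) + k' + 1`.  Same proof with
`dual_gen` instead of `dual_main`. -/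
theorem surf_gen (p : ℕ) [Fact p.Prime] [CharP F p] (m m' g : ℕ) (hmm : m ≤ m')
    (hg : g ≤ m + m' + 3) (hg' : m' + 1 ≤ g)
    (hbin : ∀ j ≤ m, (m.choose j : F) ≠ 0) (ρ : F) (hρ0 : ρ ≠ 0)
    (hρ : ∀ i j, i < j → j < g - m' → ρ ^ i ≠ ρ ^ j) (hρ1 : ρ ≠ 1)
    (N : MvPolynomial (Fin (m' + 2)) F) (hdeg : ∀ i, N.degreeOf i ≤ g)
    (halt : ∀ i j : Fin (m' + 2), i ≠ 0 → j ≠ 0 → i ≠ j →
      rename (Equiv.swap i j) N = - N ∧ aeval (Function.update X i (X j)) N =
        (0 : MvPolynomial (Fin (m' + 2)) F))
    (hdiag : aeval (Function.update X 1 (X 0)) N = (0 : MvPolynomial (Fin (m' + 2)) F))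
    (hch : aeval (Function.update X 0 (C ρ * X 1)) N +
      aeval (Function.update (Function.update X 0 (X 1)) 1 (C ρ * X 1)) N =
        (0 : MvPolynomial (Fin (m' + 2)) F)) :
    rename (Equiv.swap 0 1) N = - N := by
  classical
  by_cases hN0 : N = 0
  · rw [hN0]; simp
  have h01 : (0 : Fin (m' + 2)) ≠ 1 := by simp
  -- divisibility
  have hdvd : surfD (X : Fin (m' + 2) → MvPolynomial (Fin (m' + 2)) F) ∣ N := by
    apply surfD_dvd
    intro i j hij
    rw [surf_dvd_iff]
    have hj0 : j ≠ 0 := by
      rintro rfl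
      exact absurd hij (Fin.not_lt_zero i)
    by_cases hi0 : i = 0
    · subst hi0
      by_cases hj1 : j = 1
      · subst hj1; exact hdiag
      · have h1 := (halt 1 j (Ne.symm h01) hj0 (Ne.symm hj1)).1
        have h2 : N = - rename (Equiv.swap 1 j) N := by rw [h1, neg_neg]
        have h3 : aeval (Function.update X j (X 0) : Fin (m' + 2) →
            MvPolynomial (Fin (m' + 2)) F) (rename (Equiv.swap 1 j) N) =
            rename (Equiv.swap 1 j) (aeval (Function.update X 1 (X 0) : Fin (m' + 2) →
              MvPolynomial (Fin (m' + 2)) F) N) := by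
          rw [aeval_rename, ← AlgHom.comp_apply, comp_aeval]
          congr 2
          funext l
          simp only [Function.comp_apply]
          by_cases hl1 : l = 1
          · subst hl1
            rw [Equiv.swap_apply_left, Function.update_self, Function.update_self, rename_X,
              Equiv.swap_apply_of_ne_of_ne h01 (Ne.symm hj0)]
          · rw [Function.update_of_ne hl1, rename_X]
            by_cases hlj : l = j
            · subst hlj
              rw [Equiv.swap_apply_right, Function.update_of_ne (Ne.symm hj1)]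
            · rw [Equiv.swap_apply_of_ne_of_ne hl1 hlj, Function.update_of_ne hlj]
        rw [h2, map_neg, h3, hdiag, map_zero, neg_zero]
    · exact (halt j i hj0 hi0 hij.ne').2
  obtain ⟨σ, hσ⟩ := hdvd
  have hVne : surfD (X : Fin (m' + 2) → MvPolynomial (Fin (m' + 2)) F) ≠ 0 :=
    surfD_ne_zero _ X_injective
  have hσ0 : σ ≠ 0 := by
    rintro rfl
    apply hN0
    rw [hσ, mul_zero]
  have hVswap : ∀ i j : Fin (m' + 2), i ≠ j → rename (Equiv.swap i j)
      (surfD (X : Fin (m' + 2) → MvPolynomial (Fin (m' + 2)) F)) = - surfD X := by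
    intro i j hij
    have h1 := surfD_map (rename (Equiv.swap i j) : MvPolynomial (Fin (m' + 2)) F →ₐ[F]
      MvPolynomial (Fin (m' + 2)) F).toRingHom X
    have h2 : (fun l => (rename (Equiv.swap i j) : MvPolynomial (Fin (m' + 2)) F →ₐ[F]
      MvPolynomial (Fin (m' + 2)) F).toRingHom (X l)) =
      (X : Fin (m' + 2) → MvPolynomial (Fin (m' + 2)) F) ∘ Equiv.swap i j := by
      funext l
      exact rename_X _ _
    rw [h2, surfD_swap _ _ _ hij] at h1
    exact h1
  -- symmetry of σ
  have hσsym : ∀ i j : Fin (m' + 2), i ≠ 0 → j ≠ 0 → i ≠ j → rename (Equiv.swap i j) σ = σ := by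
    intro i j hi hj hij
    have h1 := (halt i j hi hj hij).1
    rw [hσ, map_mul, hVswap i j hij, neg_mul, neg_inj] at h1
    exact mul_left_cancel₀ hVne h1
  -- degrees
  have hσdeg : ∀ i, degreeOf i σ < g - m' := by
    intro i
    have h1 := hdeg i
    rw [hσ, degreeOf_mul_eq hVne hσ0] at h1
    have h2 := surfD_degreeOf (F := F) (n := m' + 1) i
    have h3 : m' + 1 ≤ degreeOf i (surfD (X : Fin (m' + 2) →
      MvPolynomial (Fin (m' + 2)) F)) := h2
    omega
  -- the chord condition
  set s1 : Fin (m' + 2) → MvPolynomial (Fin (m' + 2)) F :=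
    Function.update X 0 (C ρ * X 1) with hs1
  set s2 : Fin (m' + 2) → MvPolynomial (Fin (m' + 2)) F :=
    Function.update (Function.update X 0 (X 1)) 1 (C ρ * X 1) with hs2
  have hs10 : s1 0 = C ρ * X 1 := by rw [hs1, Function.update_self]
  have hs11 : s1 1 = C 1 * X 1 := by rw [hs1, Function.update_of_ne (Ne.symm h01)]; simp
  have hs1l : ∀ l, l ≠ 0 → l ≠ 1 → s1 l = X l := by
    intro l hl0 _
    rw [hs1, Function.update_of_ne hl0]
  have hs20 : s2 0 = C 1 * X 1 := by
    rw [hs2, Function.update_of_ne h01, Function.update_self]; simp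
  have hs21 : s2 1 = C ρ * X 1 := by rw [hs2, Function.update_self]
  have hs2l : ∀ l, l ≠ 0 → l ≠ 1 → s2 l = X l := by
    intro l hl0 hl1
    rw [hs2, Function.update_of_ne hl1, Function.update_of_ne hl0]
  have hs12 : s2 = s1 ∘ Equiv.swap 0 1 := by
    funext l
    rw [Function.comp_apply]
    by_cases hl0 : l = 0
    · subst hl0; rw [Equiv.swap_apply_left, hs20, hs11]
    · by_cases hl1 : l = 1
      · subst hl1; rw [Equiv.swap_apply_right, hs21, hs10]
      · rw [Equiv.swap_apply_of_ne_of_ne hl0 hl1, hs1l l hl0 hl1, hs2l l hl0 hl1]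
  have hs1inj : Function.Injective s1 := by
    have hne : ∀ l : Fin (m' + 2), l ≠ 0 → (C ρ * X 1 : MvPolynomial (Fin (m' + 2)) F) ≠ X l := by
      intro l _ e
      have e1 := congrArg (coeff (Finsupp.single 1 1)) e
      rw [coeff_C_mul, coeff_X, if_pos rfl, mul_one, coeff_X] at e1
      split_ifs at e1
      · exact hρ1 e1
      · exact hρ0 e1
    intro a b hab
    by_cases ha : a = 0
    · by_cases hb : b = 0
      · rw [ha, hb]
      · rw [ha, hs10, hs1, Function.update_of_ne hb] at hab
        exact absurd hab (hne b hb)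
    · by_cases hb : b = 0
      · rw [hb, hs10, hs1, Function.update_of_ne ha] at hab
        exact absurd hab.symm (hne a ha)
      · rw [hs1, Function.update_of_ne ha, Function.update_of_ne hb] at hab
        exact X_injective hab
  have hD : ∀ s : Fin (m' + 2) → MvPolynomial (Fin (m' + 2)) F,
      aeval s (surfD (X : Fin (m' + 2) → MvPolynomial (Fin (m' + 2)) F)) = surfD s := by
    intro s
    have h1 := surfD_map (aeval s : MvPolynomial (Fin (m' + 2)) F →ₐ[F]
      MvPolynomial (Fin (m' + 2)) F).toRingHom X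
    have h2 : (fun l => (aeval s : MvPolynomial (Fin (m' + 2)) F →ₐ[F]
      MvPolynomial (Fin (m' + 2)) F).toRingHom (X l)) = s := by
      funext l
      exact aeval_X s l
    rw [h2] at h1
    exact h1
  have hchσ : aeval s1 σ = aeval s2 σ := by
    rw [hσ, map_mul, map_mul, hD, hD, hs12, surfD_swap _ _ _ h01, ← hs12] at hch
    have h1 : surfD s1 * (aeval s1 σ - aeval s2 σ) = 0 := by
      rw [mul_sub]
      rw [neg_mul, ← sub_eq_add_neg] at hch
      exact hch
    rcases mul_eq_zero.mp h1 with h2 | h2
    · exact absurd h2 (surfD_ne_zero _ hs1inj)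
    · exact sub_eq_zero.mp h2
  -- the functional
  have key := dual_gen (F := F) p m m' (g - m') hmm (by omega) hbin
    (fun i j => ρ ^ j - ρ ^ i) (fun i j => by ring) (fun i => by ring)
    (fun i j hij hj => sub_ne_zero.mpr (hρ i j hij hj).symm)
    (fun v => coeff (surfF v) σ)
    (fun π hπ v => surf_perm_coeff σ π (surf_perm σ hσsym π hπ) v)
    (fun w s => by
      have e1 := surf_coeff σ hσdeg ρ 1 s1 hs10 hs11 hs1l w s
      have e2 := surf_coeff σ hσdeg 1 ρ s2 hs20 hs21 hs2l w s
      rw [← hchσ, e1] at e2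
      rw [← sub_eq_zero, ← Finset.sum_sub_distrib] at e2
      have e3 : (∑ i : Fin (g - m'), ∑ j : Fin (g - m'), (if (i : ℕ) + (j : ℕ) = s then
          (ρ ^ (j : ℕ) - ρ ^ (i : ℕ)) *
            coeff (surfF (Function.update (Function.update w 0 i) 1 j)) σ else 0)) =
          - ∑ i : Fin (g - m'), ((∑ j : Fin (g - m'), (if (i : ℕ) + (j : ℕ) = s then
            coeff (surfF (Function.update (Function.update w 0 i) 1 j)) σ *
              ρ ^ (i : ℕ) * 1 ^ (j : ℕ) else 0)) -
            ∑ j : Fin (g - m'), (if (i : ℕ) + (j : ℕ) = s then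
            coeff (surfF (Function.update (Function.update w 0 i) 1 j)) σ *
              1 ^ (i : ℕ) * ρ ^ (j : ℕ) else 0)) := by
        rw [← Finset.sum_neg_distrib]
        refine Finset.sum_congr rfl fun i _ => ?_
        rw [← Finset.sum_sub_distrib, ← Finset.sum_neg_distrib]
        refine Finset.sum_congr rfl fun j _ => ?_
        split_ifs
        · rw [one_pow, one_pow]; ring
        · ring
      rw [e3, e2, neg_zero])
  have hfin := surf_swap_of_coeff σ hσdeg (Equiv.swap 0 1) key
  rw [Equiv.symm_swap] at hfin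
  rw [hσ, map_mul, hfin, hVswap 0 1 h01, neg_mul]

end Pool.Agent.GrP
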