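import Mathlib
import Pool.Agent.GrP.Surf

/-!
The nodal rational curve in coordinates.

`g = 2m + 3` nodes `τ_l ~ ρ^(-1) τ_l`, `ω_l = 1/(t - τ_l) - 1/(t - ρ^(-1) τ_l)`.  A coefficient array
`e(v_0; v_1, ..., v_k)`, `k = m + 1`, which is alternating in `v_1, ..., v_k` and closed for the Koszul
differential is alternating in all its entries.

Proof.  `ℓ = ∏ (t - τ_l)`, `b_l = ℓ/(t - τ_l)`; `t ω_l = τ_l (b_l(t)/ℓ(t) - b_l(ρt)/ℓ(ρt))`.  Put
`e'(v) = e(v) ∏ τ_(v_j)`, `N̄(z) = ∑_v e'(v) ∏_j b_(v_j)(z_j)`.  For fixed `w` the polynomial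
`Q_w(t) = ∑_(i,j) e'(i,j,w) b_i(t) b_j(t)` is divisible by `ℓ` (multiply the closedness relation by
`ℓ(t)^2 ℓ(ρt)^2`; `ℓ(t)` and `ℓ(ρt)` are coprime), `Q_w = ℓ Z_w`, and
`∑_(i,j) e'(i,j,w) (b_i(t) b_j(ρt) + b_i(ρt) b_j(t)) = ℓ(ρt) Z_w(t) + ℓ(t) Z_w(ρt)`.  Let
`Z(z_0; z_2, ..., z_k) = ∑_w Z_w(z_0) ∏ b_(w_j)(z_j)` and
`N(z) = N̄(z) - ∑_(r=1)^k (-1)^(r-1) ℓ(z_r) Z(z_0; z_1, .. ẑ_r .., z_k)`.  Then `N` satisfies the
hypotheses of `surf_main`, and `N(τ_(v_0), ..., τ_(v_k)) = e'(v) ∏ b_(v_j)(τ_(v_j))`.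
-/

set_option autoImplicit false

namespace Pool.Agent.GrP

open MvPolynomial

section alt

variable {A : Type*} [CommRing A] {g r : ℕ}

/-- The alternating map of an alternating array. -/
noncomputable def nodal_alt (E : (Fin r → Fin g) → A)
    (hE : ∀ i j : Fin r, i ≠ j → ∀ w, E (w ∘ Equiv.swap i j) = - E w ∧ (w i = w j → E w = 0)) :
    (Fin g → A) [⋀^Fin r]→ₗ[A] A :=
  { (∑ w : Fin r → Fin g, E w • (MultilinearMap.mkPiAlgebra A (Fin r) A).compLinearMap
      (fun j => LinearMap.proj (w j)) : MultilinearMap A (fun _ : Fin r => (Fin g → A)) A) with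
    map_eq_zero_of_eq' := by
      intro v i j hv hij
      simp only [MultilinearMap.toFun_eq_coe, sum_apply,
        smul_apply, MultilinearMap.compLinearMap_apply, LinearMap.proj_apply,
        MultilinearMap.mkPiAlgebra_apply, smul_eq_mul]
      refine Finset.sum_involution (fun w _ => w ∘ Equiv.swap i j) ?_ ?_ ?_ ?_
      · intro w _
        have h1 : ∏ k, v k ((w ∘ Equiv.swap i j) k) = ∏ k, v k (w k) := by
          rw [← Equiv.prod_comp (Equiv.swap i j)]
          refine Finset.prod_congr rfl fun k _ => ?_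
          simp only [Function.comp_apply, Equiv.swap_apply_self]
          have h2 : v (Equiv.swap i j k) = v k := by
            by_cases hk : k = i
            · subst hk; rw [Equiv.swap_apply_left]; exact hv.symm
            · by_cases hk' : k = j
              · subst hk'; rw [Equiv.swap_apply_right]; exact hv
              · rw [Equiv.swap_apply_of_ne_of_ne hk hk']
          rw [h2]
        rw [h1, (hE i j hij w).1]
        ring
      · intro w _ hne hw
        apply hne
        have : w i = w j := by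
          have := congrFun hw j
          simp only [Function.comp_apply, Equiv.swap_apply_right] at this
          exact this
        rw [(hE i j hij w).2 this, zero_mul]
      · intro w _; exact Finset.mem_univ _
      · intro w _
        funext k
        simp }

theorem nodal_alt_apply (E : (Fin r → Fin g) → A)
    (hE : ∀ i j : Fin r, i ≠ j → ∀ w, E (w ∘ Equiv.swap i j) = - E w ∧ (w i = w j → E w = 0))
    (v : Fin r → Fin g → A) :
    nodal_alt E hE v = ∑ w : Fin r → Fin g, E w * ∏ j, v j (w j) := by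
  change (∑ w : Fin r → Fin g, E w • (MultilinearMap.mkPiAlgebra A (Fin r) A).compLinearMap
      (fun j => LinearMap.proj (w j)) : MultilinearMap A (fun _ : Fin r => (Fin g → A)) A) v = _
  simp only [sum_apply, smul_apply, MultilinearMap.compLinearMap_apply, LinearMap.proj_apply,
        MultilinearMap.mkPiAlgebra_apply, smul_eq_mul]

end alt

section pts

variable {F : Type*} [Field F] {A : Type*} [CommRing A] [Algebra F A] {g n : ℕ}

/-- the evaluation vector of a point -/
noncomputable def nodal_pt (b : Fin g → Polynomial F) (l : Polynomial F) (x : A) :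
    (Fin g → A) × A :=
  (fun i => Polynomial.aeval x (b i), Polynomial.aeval x l)

/-- array in the last variables -/
noncomputable def nodal_E (b : Fin g → Polynomial F) (e : (Fin (n + 2) → Fin g) → F) (x : A)
    (u : Fin (n + 1) → Fin g) : A :=
  ∑ i, algebraMap F A (e (Fin.cons i u)) * Polynomial.aeval x (b i)

/-- alternation in the last variables -/
def NodalAlt (e : (Fin (n + 2) → Fin g) → F) : Prop :=
  ∀ i j : Fin (n + 1), i ≠ j → ∀ v : Fin (n + 2) → Fin g,
    e (v ∘ Equiv.swap i.succ j.succ) = - e v ∧ (v i.succ = v j.succ → e v = 0)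

theorem nodal_cons_swap {α : Type*} {n : ℕ} (a : α) (u : Fin n → α) (i j : Fin n) :
    (Fin.cons a (u ∘ Equiv.swap i j) : Fin (n + 1) → α) =
      (Fin.cons a u : Fin (n + 1) → α) ∘ Equiv.swap i.succ j.succ := by
  funext k
  refine Fin.cases ?_ (fun k => ?_) k
  · rw [Fin.cons_zero, Function.comp_apply, Equiv.swap_apply_of_ne_of_ne (Fin.succ_ne_zero i).symm
      (Fin.succ_ne_zero j).symm, Fin.cons_zero]
  · rw [Fin.cons_succ, Function.comp_apply, Function.comp_apply]
    by_cases hk : k = i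
    · subst hk; rw [Equiv.swap_apply_left, Equiv.swap_apply_left, Fin.cons_succ]
    · by_cases hk' : k = j
      · subst hk'; rw [Equiv.swap_apply_right, Equiv.swap_apply_right, Fin.cons_succ]
      · rw [Equiv.swap_apply_of_ne_of_ne hk hk', Equiv.swap_apply_of_ne_of_ne
          (fun h => hk (Fin.succ_injective _ h)) (fun h => hk' (Fin.succ_injective _ h)),
          Fin.cons_succ]

theorem nodal_E_alt (b : Fin g → Polynomial F) (e : (Fin (n + 2) → Fin g) → F)
    (he : NodalAlt e) (x : A) (i j : Fin (n + 1)) (hij : i ≠ j) (u : Fin (n + 1) → Fin g) :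
    nodal_E b e x (u ∘ Equiv.swap i j) = - nodal_E b e x u ∧
      (u i = u j → nodal_E b e x u = 0) := by
  constructor
  · unfold nodal_E
    rw [← Finset.sum_neg_distrib]
    refine Finset.sum_congr rfl fun a _ => ?_
    rw [nodal_cons_swap, (he i j hij _).1, map_neg, neg_mul]
  · intro h
    unfold nodal_E
    refine Finset.sum_eq_zero fun a _ => ?_
    rw [(he i j hij _).2 (by simpa using h), map_zero, zero_mul]

/-- alternating map of the main part -/
noncomputable def nodal_B (b : Fin g → Polynomial F) (e : (Fin (n + 2) → Fin g) → F)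
    (he : NodalAlt e) (x : A) : ((Fin g → A) × A) [⋀^Fin (n + 1)]→ₗ[A] A :=
  (nodal_alt (nodal_E b e x) (nodal_E_alt b e he x)).compLinearMap (LinearMap.fst A _ _)

/-- alternation of the quotients -/
def NodalAltZ (Z : (Fin n → Fin g) → Polynomial F) : Prop :=
  ∀ i j : Fin n, i ≠ j → ∀ w, Z (w ∘ Equiv.swap i j) = - Z w ∧ (w i = w j → Z w = 0)

theorem nodal_Z_alt (Z : (Fin n → Fin g) → Polynomial F) (hZ : NodalAltZ Z) (x : A)
    (i j : Fin n) (hij : i ≠ j) (w : Fin n → Fin g) :
    Polynomial.aeval x (Z (w ∘ Equiv.swap i j)) = - Polynomial.aeval x (Z w) ∧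
      (w i = w j → Polynomial.aeval x (Z w) = 0) := by
  constructor
  · rw [(hZ i j hij w).1, map_neg]
  · intro h
    rw [(hZ i j hij w).2 h, map_zero]

/-- alternating map of the quotients -/
noncomputable def nodal_Zm (Z : (Fin n → Fin g) → Polynomial F) (hZ : NodalAltZ Z) (x : A) :
    ((Fin g → A) × A) [⋀^Fin n]→ₗ[A] A :=
  (nodal_alt (fun w => Polynomial.aeval x (Z w)) (nodal_Z_alt Z hZ x)).compLinearMap
    (LinearMap.fst A _ _)

/-- correction term -/
noncomputable def nodal_D (Z : (Fin n → Fin g) → Polynomial F) (hZ : NodalAltZ Z) (x : A) :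
    ((Fin g → A) × A) [⋀^Fin (n + 1)]→ₗ[A] A :=
  AlternatingMap.alternatizeUncurryFin
    ((LinearMap.snd A (Fin g → A) A).smulRight (nodal_Zm Z hZ x))

theorem nodal_D_apply (Z : (Fin n → Fin g) → Polynomial F) (hZ : NodalAltZ Z) (x : A)
    (v : Fin (n + 1) → (Fin g → A) × A) :
    nodal_D Z hZ x v = ∑ i : Fin (n + 1), (-1) ^ (i : ℕ) * ((v i).2 *
      nodal_Zm Z hZ x (i.removeNth v)) := by
  unfold nodal_D
  rw [AlternatingMap.alternatizeUncurryFin_apply]
  refine Finset.sum_congr rfl fun i _ => ?_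
  rw [LinearMap.smulRight_apply, AlternatingMap.smul_apply, LinearMap.snd_apply, smul_eq_mul,
    zsmul_eq_mul]
  push_cast
  rfl

/-- the polynomial function `N` -/
noncomputable def nodal_N (b : Fin g → Polynomial F) (l : Polynomial F)
    (e : (Fin (n + 2) → Fin g) → F) (he : NodalAlt e)
    (Z : (Fin n → Fin g) → Polynomial F) (hZ : NodalAltZ Z) (z : Fin (n + 2) → A) : A :=
  (nodal_B b e he (z 0) - nodal_D Z hZ (z 0)) (fun j => nodal_pt b l (z j.succ))

theorem nodal_Zm_apply (b : Fin g → Polynomial F) (l : Polynomial F)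
    (Z : (Fin n → Fin g) → Polynomial F) (hZ : NodalAltZ Z) (x : A) (z : Fin n → A) :
    nodal_Zm Z hZ x (fun j => nodal_pt b l (z j)) =
      ∑ w : Fin n → Fin g, Polynomial.aeval x (Z w) * ∏ j, Polynomial.aeval (z j) (b (w j)) := by
  unfold nodal_Zm
  rw [AlternatingMap.compLinearMap_apply, nodal_alt_apply]
  rfl

theorem nodal_N_apply (b : Fin g → Polynomial F) (l : Polynomial F)
    (e : (Fin (n + 2) → Fin g) → F) (he : NodalAlt e)
    (Z : (Fin n → Fin g) → Polynomial F) (hZ : NodalAltZ Z) (z : Fin (n + 2) → A) :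
    nodal_N b l e he Z hZ z =
      ∑ v : Fin (n + 2) → Fin g, algebraMap F A (e v) * ∏ j, Polynomial.aeval (z j) (b (v j)) -
      ∑ i : Fin (n + 1), (-1) ^ (i : ℕ) * (Polynomial.aeval (z i.succ) l *
        ∑ w : Fin n → Fin g, Polynomial.aeval (z 0) (Z w) *
          ∏ j, Polynomial.aeval (z (i.succAbove j).succ) (b (w j))) := by
  unfold nodal_N
  rw [AlternatingMap.sub_apply, nodal_D_apply]
  congr 1
  · unfold nodal_B
    rw [AlternatingMap.compLinearMap_apply, nodal_alt_apply]
    rw [← Equiv.sum_comp (Fin.consEquiv (fun _ : Fin (n + 2) => Fin g)), Fintype.sum_prod_type,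
      Finset.sum_comm]
    refine Finset.sum_congr rfl fun u _ => ?_
    unfold nodal_E
    rw [Finset.sum_mul]
    refine Finset.sum_congr rfl fun i _ => ?_
    rw [mul_assoc]
    change _ = algebraMap F A (e (Fin.cons i u)) * ∏ j : Fin (n + 2),
      Polynomial.aeval (z j) (b ((Fin.cons i u : Fin (n + 2) → Fin g) j))
    rw [Fin.prod_univ_succ (n := n + 1)]
    rfl
  · refine Finset.sum_congr rfl fun i _ => ?_
    congr 2
    exact nodal_Zm_apply b l Z hZ (z 0) (fun j => z (i.succAbove j).succ)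

theorem nodal_B_cons (b : Fin g → Polynomial F) (l : Polynomial F)
    (e : (Fin (n + 2) → Fin g) → F) (he : NodalAlt e) (x y : A)
    (v : Fin n → (Fin g → A) × A) :
    nodal_B b e he x (Fin.cons (nodal_pt b l y) v : Fin (n + 1) → (Fin g → A) × A) =
      ∑ w : Fin n → Fin g, (∑ i, ∑ j, algebraMap F A (e (Fin.cons i (Fin.cons j w))) *
        (Polynomial.aeval x (b i) * Polynomial.aeval y (b j))) * ∏ k, (v k).1 (w k) := by
  unfold nodal_B
  rw [AlternatingMap.compLinearMap_apply, nodal_alt_apply]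
  rw [← Equiv.sum_comp (Fin.consEquiv (fun _ : Fin (n + 1) => Fin g)), Fintype.sum_prod_type,
    Finset.sum_comm]
  refine Finset.sum_congr rfl fun w _ => ?_
  rw [Finset.sum_comm, Finset.sum_mul]
  refine Finset.sum_congr rfl fun j _ => ?_
  change nodal_E b e x (Fin.cons j w) * ∏ k : Fin (n + 1),
    ((Fin.cons (nodal_pt b l y) v : Fin (n + 1) → (Fin g → A) × A) k).1
      ((Fin.cons j w : Fin (n + 1) → Fin g) k) = _
  rw [Fin.prod_univ_succ]
  simp only [Fin.cons_zero, Fin.cons_succ]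
  unfold nodal_E nodal_pt
  rw [← mul_assoc, Finset.sum_mul]
  congr 1
  refine Finset.sum_congr rfl fun i _ => ?_
  simp only
  ring

/-- the quotient relation -/
def NodalQ (b : Fin g → Polynomial F) (l : Polynomial F) (e : (Fin (n + 2) → Fin g) → F)
    (Z : (Fin n → Fin g) → Polynomial F) : Prop :=
  ∀ w : Fin n → Fin g, ∑ i, ∑ j, Polynomial.C (e (Fin.cons i (Fin.cons j w))) *
    (b i * b j) = l * Z w

/-- the chord relation -/
def NodalR (ρ : F) (b : Fin g → Polynomial F) (l : Polynomial F)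
    (e : (Fin (n + 2) → Fin g) → F) (Z : (Fin n → Fin g) → Polynomial F) : Prop :=
  ∀ w : Fin n → Fin g, ∑ i, ∑ j, Polynomial.C (e (Fin.cons i (Fin.cons j w))) *
    (b i * (b j).comp (Polynomial.C ρ * Polynomial.X) +
      (b i).comp (Polynomial.C ρ * Polynomial.X) * b j) =
    l.comp (Polynomial.C ρ * Polynomial.X) * Z w +
      l * (Z w).comp (Polynomial.C ρ * Polynomial.X)

theorem nodal_Zm_apply' (Z : (Fin n → Fin g) → Polynomial F) (hZ : NodalAltZ Z) (x : A)
    (v : Fin n → (Fin g → A) × A) :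
    nodal_Zm Z hZ x v =
      ∑ w : Fin n → Fin g, Polynomial.aeval x (Z w) * ∏ j, (v j).1 (w j) := by
  unfold nodal_Zm
  rw [AlternatingMap.compLinearMap_apply, nodal_alt_apply]
  rfl

theorem nodal_B_diag {b : Fin g → Polynomial F} {l : Polynomial F}
    {e : (Fin (n + 2) → Fin g) → F} (he : NodalAlt e)
    {Z : (Fin n → Fin g) → Polynomial F} (hZ : NodalAltZ Z) (hQ : NodalQ b l e Z) (x : A)
    (v : Fin n → (Fin g → A) × A) :
    nodal_B b e he x (Fin.cons (nodal_pt b l x) v : Fin (n + 1) → (Fin g → A) × A) =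
      Polynomial.aeval x l * nodal_Zm Z hZ x v := by
  rw [nodal_B_cons, nodal_Zm_apply', Finset.mul_sum]
  refine Finset.sum_congr rfl fun w _ => ?_
  rw [← mul_assoc]
  congr 1
  have h := congrArg (Polynomial.aeval x) (hQ w)
  simp only [map_sum, map_mul, Polynomial.aeval_C] at h
  exact h

theorem nodal_B_chord {ρ : F} {b : Fin g → Polynomial F} {l : Polynomial F}
    {e : (Fin (n + 2) → Fin g) → F} (he : NodalAlt e)
    {Z : (Fin n → Fin g) → Polynomial F} (hZ : NodalAltZ Z) (hR : NodalR ρ b l e Z) (x y : A)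
    (hy : y = algebraMap F A ρ * x)
    (v : Fin n → (Fin g → A) × A) :
    nodal_B b e he y (Fin.cons (nodal_pt b l x) v : Fin (n + 1) → (Fin g → A) × A) +
    nodal_B b e he x (Fin.cons (nodal_pt b l y) v : Fin (n + 1) → (Fin g → A) × A) =
      Polynomial.aeval y l * nodal_Zm Z hZ x v + Polynomial.aeval x l * nodal_Zm Z hZ y v := by
  have hc : ∀ q : Polynomial F, Polynomial.aeval x (q.comp (Polynomial.C ρ * Polynomial.X)) =
      Polynomial.aeval y q := by
    intro q
    rw [Polynomial.aeval_comp, map_mul, Polynomial.aeval_C, Polynomial.aeval_X, hy]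
  rw [nodal_B_cons, nodal_B_cons, nodal_Zm_apply', nodal_Zm_apply', Finset.mul_sum,
    Finset.mul_sum, ← Finset.sum_add_distrib, ← Finset.sum_add_distrib]
  refine Finset.sum_congr rfl fun w _ => ?_
  have h := congrArg (Polynomial.aeval x) (hR w)
  simp only [map_sum, map_mul, map_add, Polynomial.aeval_C, hc] at h
  rw [← mul_assoc, ← mul_assoc, ← add_mul, ← add_mul, ← h, ← Finset.sum_add_distrib]
  congr 1
  refine Finset.sum_congr rfl fun i _ => ?_
  rw [← Finset.sum_add_distrib]
  refine Finset.sum_congr rfl fun j _ => ?_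
  ring

theorem nodal_D_cons (Z : (Fin n → Fin g) → Polynomial F) (hZ : NodalAltZ Z) (x : A)
    (a : (Fin g → A) × A) (v : Fin n → (Fin g → A) × A) :
    nodal_D Z hZ x (Fin.cons a v : Fin (n + 1) → (Fin g → A) × A) =
      a.2 * nodal_Zm Z hZ x v + ∑ i : Fin n, (-1) ^ ((i : ℕ) + 1) * ((v i).2 *
      nodal_Zm Z hZ x (i.succ.removeNth (Fin.cons a v : Fin (n + 1) → (Fin g → A) × A))) := by
  rw [nodal_D_apply, Fin.sum_univ_succ]
  simp only [Fin.val_zero, pow_zero, one_mul, Fin.cons_zero, Fin.val_succ, Fin.cons_succ]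
  rfl

theorem nodal_removeNth {α : Type*} {n : ℕ} (a : α) (v : Fin (n + 1) → α) (i : Fin (n + 1)) :
    i.succ.removeNth (Fin.cons a v : Fin (n + 2) → α) =
      (Fin.cons a (i.removeNth v) : Fin (n + 1) → α) := by
  funext k
  refine Fin.cases ?_ (fun k => ?_) k
  · simp [Fin.removeNth]
  · simp [Fin.removeNth]

theorem nodal_Z_diag [IsDomain A] {b : Fin g → Polynomial F} {l : Polynomial F}
    {e : (Fin (n + 3) → Fin g) → F} (he : NodalAlt e)
    {Z : (Fin (n + 1) → Fin g) → Polynomial F} (hZ : NodalAltZ Z) (hQ : NodalQ b l e Z) (x : A)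
    (hx : Polynomial.aeval x l ≠ 0) (v : Fin n → (Fin g → A) × A) :
    nodal_Zm Z hZ x (Fin.cons (nodal_pt b l x) v : Fin (n + 1) → (Fin g → A) × A) = 0 := by
  have h := nodal_B_diag he hZ hQ x (Fin.cons (nodal_pt b l x) v : Fin (n + 1) → (Fin g → A) × A)
  rw [(nodal_B b e he x).map_eq_zero_of_eq _ (i := 0) (j := 1) (by rfl) (by simp)] at h
  exact (mul_eq_zero.mp h.symm).resolve_left hx

theorem nodal_Z_chord [IsDomain A] {ρ : F} {b : Fin g → Polynomial F} {l : Polynomial F}
    {e : (Fin (n + 3) → Fin g) → F} (he : NodalAlt e)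
    {Z : (Fin (n + 1) → Fin g) → Polynomial F} (hZ : NodalAltZ Z) (hQ : NodalQ b l e Z)
    (hR : NodalR ρ b l e Z) (x y : A)
    (hy : y = algebraMap F A ρ * x)
    (hx : Polynomial.aeval x l ≠ 0) (v : Fin n → (Fin g → A) × A) :
    nodal_Zm Z hZ y (Fin.cons (nodal_pt b l x) v : Fin (n + 1) → (Fin g → A) × A) +
    nodal_Zm Z hZ x (Fin.cons (nodal_pt b l y) v : Fin (n + 1) → (Fin g → A) × A) = 0 := by
  have h := nodal_B_chord he hZ hR x y hy
    (Fin.cons (nodal_pt b l x) v : Fin (n + 1) → (Fin g → A) × A)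
  rw [(nodal_B b e he y).map_eq_zero_of_eq _ (i := 0) (j := 1) (by rfl) (by simp),
    nodal_Z_diag he hZ hQ x hx, zero_add, mul_zero, zero_add] at h
  have h2 := (nodal_B b e he x).map_swap (Fin.cons (nodal_pt b l x)
    (Fin.cons (nodal_pt b l y) v : Fin (n + 1) → (Fin g → A) × A) :
      Fin (n + 2) → (Fin g → A) × A) (i := 0) (j := 1) (by simp)
  have h3 : (Fin.cons (nodal_pt b l x)
    (Fin.cons (nodal_pt b l y) v : Fin (n + 1) → (Fin g → A) × A) :
      Fin (n + 2) → (Fin g → A) × A) ∘ Equiv.swap 0 1 = Fin.cons (nodal_pt b l y)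
    (Fin.cons (nodal_pt b l x) v : Fin (n + 1) → (Fin g → A) × A) := by
    funext k
    refine Fin.cases ?_ (fun k => ?_) k
    · rw [Function.comp_apply, Equiv.swap_apply_left]; rfl
    · refine Fin.cases ?_ (fun k => ?_) k
      · rw [Function.comp_apply]
        have : (Fin.succ 0 : Fin (n + 2)) = 1 := rfl
        rw [this, Equiv.swap_apply_right]; rfl
      · rw [Function.comp_apply, Equiv.swap_apply_of_ne_of_ne (Fin.succ_ne_zero _) (by
          intro h
          have := Fin.succ_injective _ (h.trans (Fin.succ_zero_eq_one (n := n)).symm)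
          exact Fin.succ_ne_zero _ this)]
        rfl
  rw [h3, h, nodal_B_diag he hZ hQ x] at h2
  have h4 : Polynomial.aeval x l * (nodal_Zm Z hZ y (Fin.cons (nodal_pt b l x) v :
      Fin (n + 1) → (Fin g → A) × A) +
    nodal_Zm Z hZ x (Fin.cons (nodal_pt b l y) v : Fin (n + 1) → (Fin g → A) × A)) = 0 := by
    rw [mul_add, h2]; ring
  exact (mul_eq_zero.mp h4).resolve_left hx

theorem nodal_pts (b : Fin g → Polynomial F) (l : Polynomial F) (z : Fin (n + 2) → A) :
    (fun j : Fin (n + 1) => nodal_pt b l (z j.succ)) =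
      Fin.cons (nodal_pt b l (z 1)) (fun j : Fin n => nodal_pt b l (z j.succ.succ)) := by
  funext k
  refine Fin.cases ?_ (fun k => ?_) k
  · rfl
  · rfl

theorem nodal_N_diag [IsDomain A] {b : Fin g → Polynomial F} {l : Polynomial F}
    {e : (Fin (n + 2) → Fin g) → F} (he : NodalAlt e)
    {Z : (Fin n → Fin g) → Polynomial F} (hZ : NodalAltZ Z) (hQ : NodalQ b l e Z)
    (z : Fin (n + 2) → A) (hz : z 0 = z 1) (hx : Polynomial.aeval (z 0) l ≠ 0) :
    nodal_N b l e he Z hZ z = 0 := by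
  unfold nodal_N
  rw [AlternatingMap.sub_apply, nodal_pts, ← hz, nodal_B_diag he hZ hQ, nodal_D_cons]
  have h0 : ∑ i : Fin n, (-1) ^ ((i : ℕ) + 1) * ((nodal_pt b l (z i.succ.succ)).2 *
      nodal_Zm Z hZ (z 0) (i.succ.removeNth (Fin.cons (nodal_pt b l (z 0))
        (fun j : Fin n => nodal_pt b l (z j.succ.succ)) : Fin (n + 1) → (Fin g → A) × A))) = 0 := by
    rcases n with _ | n
    · simp
    · refine Finset.sum_eq_zero fun i _ => ?_
      rw [nodal_removeNth, nodal_Z_diag he hZ hQ _ hx, mul_zero, mul_zero]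
  rw [h0]
  unfold nodal_pt
  simp

theorem nodal_N_chord [IsDomain A] {ρ : F} {b : Fin g → Polynomial F} {l : Polynomial F}
    {e : (Fin (n + 2) → Fin g) → F} (he : NodalAlt e)
    {Z : (Fin n → Fin g) → Polynomial F} (hZ : NodalAltZ Z) (hQ : NodalQ b l e Z)
    (hR : NodalR ρ b l e Z)
    (z z' : Fin (n + 2) → A) (hz1 : z 0 = algebraMap F A ρ * z 1) (hz2 : z' 0 = z 1)
    (hz3 : z' 1 = z 0) (hz4 : ∀ j : Fin n, z' j.succ.succ = z j.succ.succ)
    (hx : Polynomial.aeval (z 1) l ≠ 0) :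
    nodal_N b l e he Z hZ z + nodal_N b l e he Z hZ z' = 0 := by
  unfold nodal_N
  rw [AlternatingMap.sub_apply, AlternatingMap.sub_apply, nodal_pts, nodal_pts, hz2, hz3,
    nodal_D_cons, nodal_D_cons]
  simp only [hz4]
  have h1 := nodal_B_chord he hZ hR (z 1) (z 0) hz1
    (fun j : Fin n => nodal_pt b l (z j.succ.succ))
  have h0 : ∑ i : Fin n, (-1) ^ ((i : ℕ) + 1) * ((nodal_pt b l (z i.succ.succ)).2 *
      nodal_Zm Z hZ (z 0) (i.succ.removeNth (Fin.cons (nodal_pt b l (z 1))
        (fun j : Fin n => nodal_pt b l (z j.succ.succ)) : Fin (n + 1) → (Fin g → A) × A))) +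
      ∑ i : Fin n, (-1) ^ ((i : ℕ) + 1) * ((nodal_pt b l (z i.succ.succ)).2 *
      nodal_Zm Z hZ (z 1) (i.succ.removeNth (Fin.cons (nodal_pt b l (z 0))
        (fun j : Fin n => nodal_pt b l (z j.succ.succ)) : Fin (n + 1) → (Fin g → A) × A)))
        = 0 := by
    rw [← Finset.sum_add_distrib]
    rcases n with _ | n
    · simp
    · refine Finset.sum_eq_zero fun i _ => ?_
      rw [nodal_removeNth, nodal_removeNth, ← mul_add, ← mul_add,
        nodal_Z_chord he hZ hQ hR _ _ hz1 hx, mul_zero, mul_zero]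
  have h2 : ∀ x : A, (nodal_pt b l x).2 = Polynomial.aeval x l := fun x => rfl
  rw [h2 (z 0), h2 (z 1)]
  linear_combination h1 - h0

theorem nodal_N_alt {b : Fin g → Polynomial F} {l : Polynomial F}
    {e : (Fin (n + 2) → Fin g) → F} (he : NodalAlt e)
    {Z : (Fin n → Fin g) → Polynomial F} (hZ : NodalAltZ Z)
    (z : Fin (n + 2) → A) (i j : Fin (n + 1)) (hij : i ≠ j) :
    nodal_N b l e he Z hZ (z ∘ Equiv.swap i.succ j.succ) = - nodal_N b l e he Z hZ z ∧
      (z i.succ = z j.succ → nodal_N b l e he Z hZ z = 0) := by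
  constructor
  · unfold nodal_N
    rw [← AlternatingMap.map_swap _ _ hij]
    have h0 : (z ∘ Equiv.swap i.succ j.succ) 0 = z 0 := by
      rw [Function.comp_apply, Equiv.swap_apply_of_ne_of_ne (Fin.succ_ne_zero i).symm
        (Fin.succ_ne_zero j).symm]
    rw [h0]
    congr 1
    funext k
    simp only [Function.comp_apply]
    congr 2
    by_cases hk : k = i
    · subst hk; rw [Equiv.swap_apply_left, Equiv.swap_apply_left]
    · by_cases hk' : k = j
      · subst hk'; rw [Equiv.swap_apply_right, Equiv.swap_apply_right]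
      · rw [Equiv.swap_apply_of_ne_of_ne hk hk', Equiv.swap_apply_of_ne_of_ne
          (fun h => hk (Fin.succ_injective _ h)) (fun h => hk' (Fin.succ_injective _ h))]
  · intro h
    unfold nodal_N
    refine AlternatingMap.map_eq_zero_of_eq _ _ (i := i) (j := j) ?_ hij
    simp only [h]

theorem nodal_N_map {B : Type*} [CommRing B] [Algebra F B] (φ : A →ₐ[F] B)
    {b : Fin g → Polynomial F} {l : Polynomial F}
    {e : (Fin (n + 2) → Fin g) → F} (he : NodalAlt e)
    {Z : (Fin n → Fin g) → Polynomial F} (hZ : NodalAltZ Z)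
    (z : Fin (n + 2) → A) :
    φ (nodal_N b l e he Z hZ z) = nodal_N b l e he Z hZ (fun i => φ (z i)) := by
  rw [nodal_N_apply, nodal_N_apply]
  simp only [map_sub, map_sum, map_mul, map_prod, map_pow, map_neg, map_one, AlgHom.commutes,
    Polynomial.aeval_algHom_apply]

end pts

section deg

variable {F : Type*} [Field F]

theorem nodal_degreeOf_aeval {N : ℕ} (i j : Fin N) (q : Polynomial F) :
    degreeOf i (Polynomial.aeval (X j : MvPolynomial (Fin N) F) q) ≤
      if i = j then q.natDegree else 0 := by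
  rw [Polynomial.aeval_eq_sum_range]
  refine (degreeOf_sum_le _ _ _).trans (Finset.sup_le fun k hk => ?_)
  rw [smul_eq_C_mul]
  refine (degreeOf_C_mul_le _ _ _).trans ((degreeOf_pow_le _ _ _).trans ?_)
  rw [Finset.mem_range] at hk
  rw [degreeOf_X]
  split_ifs
  · omega
  · simp

theorem nodal_degreeOf_prod {N g : ℕ} (i : Fin N) (f : Fin N → Polynomial F)
    (hf : ∀ j, (f j).natDegree ≤ g) :
    degreeOf i (∏ j, Polynomial.aeval (X j : MvPolynomial (Fin N) F) (f j)) ≤ g := by
  refine (degreeOf_prod_le _ _ _).trans ?_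
  refine (Finset.sum_le_sum fun j _ => nodal_degreeOf_aeval i j (f j)).trans ?_
  rw [Finset.sum_ite_eq]
  simp only [Finset.mem_univ, if_true]
  exact hf i

theorem nodal_N_deg {g n : ℕ} {b : Fin g → Polynomial F} {l : Polynomial F}
    {e : (Fin (n + 2) → Fin g) → F} (he : NodalAlt e)
    {Z : (Fin n → Fin g) → Polynomial F} (hZ : NodalAltZ Z)
    (hb : ∀ i, (b i).natDegree ≤ g) (hl : l.natDegree ≤ g) (hZd : ∀ w, (Z w).natDegree ≤ g)
    (i : Fin (n + 2)) :
    degreeOf i (nodal_N b l e he Z hZ (X : Fin (n + 2) → MvPolynomial (Fin (n + 2)) F)) ≤ g := by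
  rw [nodal_N_apply, sub_eq_add_neg]
  refine (degreeOf_add_le _ _ _).trans (max_le ?_ ?_)
  · refine (degreeOf_sum_le _ _ _).trans (Finset.sup_le fun v _ => ?_)
    rw [MvPolynomial.algebraMap_eq]
    exact (degreeOf_C_mul_le _ _ _).trans (nodal_degreeOf_prod i _ fun j => hb _)
  · rw [← neg_one_mul]
    have h1 : (-1 : MvPolynomial (Fin (n + 2)) F) = C (-1) := by simp
    rw [h1]
    refine (degreeOf_C_mul_le _ _ _).trans ?_
    refine (degreeOf_sum_le _ _ _).trans (Finset.sup_le fun a _ => ?_)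
    rw [← C_pow]
    refine (degreeOf_C_mul_le _ _ _).trans ?_
    rw [Finset.mul_sum]
    refine (degreeOf_sum_le _ _ _).trans (Finset.sup_le fun w _ => ?_)
    have h2 := nodal_degreeOf_prod (g := g) i (Fin.cons (Z w) (a.insertNth l (fun j => b (w j)) :
      Fin (n + 1) → Polynomial F) : Fin (n + 2) → Polynomial F) (by
        intro j
        refine Fin.cases ?_ (fun j => ?_) j
        · exact hZd w
        · rw [Fin.cons_succ]
          rcases Fin.eq_self_or_eq_succAbove a j with rfl | ⟨j, rfl⟩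
          · rw [Fin.insertNth_apply_same]; exact hl
          · rw [Fin.insertNth_apply_succAbove]; exact hb _)
    rw [Fin.prod_univ_succ, Fin.prod_univ_succAbove _ a] at h2
    simp only [Fin.cons_zero, Fin.cons_succ, Fin.insertNth_apply_same,
      Fin.insertNth_apply_succAbove] at h2
    refine le_trans (le_of_eq ?_) h2
    congr 1
    ring

end deg

section rel

variable {F : Type*} [Field F]

/-- `b_i` -/
noncomputable def nodal_b {g : ℕ} (τ : Fin g → F) (i : Fin g) : Polynomial F :=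
  ∏ k ∈ Finset.univ.erase i, (Polynomial.X - Polynomial.C (τ k))

/-- `ℓ` -/
noncomputable def nodal_l {g : ℕ} (τ : Fin g → F) : Polynomial F :=
  ∏ k, (Polynomial.X - Polynomial.C (τ k))

theorem nodal_l_eq {g : ℕ} (τ : Fin g → F) (i : Fin g) :
    nodal_l τ = (Polynomial.X - Polynomial.C (τ i)) * nodal_b τ i :=
  (Finset.mul_prod_erase _ _ (Finset.mem_univ i)).symm

theorem nodal_l_natDegree {g : ℕ} (τ : Fin g → F) : (nodal_l τ).natDegree = g := by
  unfold nodal_l
  rw [Polynomial.natDegree_prod_of_monic _ _ (fun _ _ => Polynomial.monic_X_sub_C _)]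
  simp

theorem nodal_l_monic {g : ℕ} (τ : Fin g → F) : (nodal_l τ).Monic :=
  Polynomial.monic_prod_of_monic _ _ (fun _ _ => Polynomial.monic_X_sub_C _)

theorem nodal_b_natDegree {g : ℕ} (τ : Fin g → F) (i : Fin g) :
    (nodal_b τ i).natDegree = g - 1 := by
  unfold nodal_b
  rw [Polynomial.natDegree_prod_of_monic _ _ (fun _ _ => Polynomial.monic_X_sub_C _)]
  simp

theorem nodal_l_comp {g : ℕ} (τ : Fin g → F) (ρ : F) :
    (nodal_l τ).comp (Polynomial.C ρ * Polynomial.X) =
      ∏ k, (Polynomial.C ρ * Polynomial.X - Polynomial.C (τ k)) := by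
  unfold nodal_l
  rw [Polynomial.prod_comp]
  simp

theorem nodal_coprime {g : ℕ} (τ : Fin g → F) (ρ : F) (hτρ : ∀ l l', τ l ≠ ρ * τ l') :
    IsCoprime (nodal_l τ) ((nodal_l τ).comp (Polynomial.C ρ * Polynomial.X)) := by
  rw [nodal_l_comp]
  refine IsCoprime.prod_left fun k _ => IsCoprime.prod_right fun k' _ => ?_
  have h : ρ * τ k - τ k' ≠ 0 := sub_ne_zero.mpr (hτρ k' k).symm
  refine ⟨- Polynomial.C ρ * Polynomial.C (ρ * τ k - τ k')⁻¹,
    Polynomial.C (ρ * τ k - τ k')⁻¹, ?_⟩
  have h1 : - Polynomial.C ρ * Polynomial.C (ρ * τ k - τ k')⁻¹ *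
      (Polynomial.X - Polynomial.C (τ k)) + Polynomial.C (ρ * τ k - τ k')⁻¹ *
      (Polynomial.C ρ * Polynomial.X - Polynomial.C (τ k')) =
      Polynomial.C ((ρ * τ k - τ k')⁻¹ * (ρ * τ k - τ k')) := by
    simp only [Polynomial.C_mul, Polynomial.C_sub]; ring
  rw [h1, inv_mul_cancel₀ h, Polynomial.C_1]

theorem nodal_om {g : ℕ} (τ : Fin g → F) (ρ : F) (hρ0 : ρ ≠ 0) (i : Fin g)
    (om : RatFunc F) (hom : om = (RatFunc.X - RatFunc.C (τ i))⁻¹ -
      (RatFunc.X - RatFunc.C (ρ⁻¹ * τ i))⁻¹) :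
    RatFunc.X * om * algebraMap (Polynomial F) (RatFunc F) (nodal_l τ) *
      algebraMap (Polynomial F) (RatFunc F)
        ((nodal_l τ).comp (Polynomial.C ρ * Polynomial.X)) =
    algebraMap (Polynomial F) (RatFunc F) (Polynomial.C (τ i) *
      (nodal_b τ i * (nodal_l τ).comp (Polynomial.C ρ * Polynomial.X) -
        (nodal_b τ i).comp (Polynomial.C ρ * Polynomial.X) * nodal_l τ)) := by
  have hne : ∀ a : F, (RatFunc.X - RatFunc.C a : RatFunc F) ≠ 0 := by
    intro a h
    have h1 : algebraMap (Polynomial F) (RatFunc F) (Polynomial.X - Polynomial.C a) =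
        algebraMap (Polynomial F) (RatFunc F) 0 := by
      rw [map_sub, RatFunc.algebraMap_X, RatFunc.algebraMap_C, h, map_zero]
    exact Polynomial.X_sub_C_ne_zero a (RatFunc.algebraMap_injective F h1)
  have h1 := hne (τ i)
  have h2 := hne (ρ⁻¹ * τ i)
  have hC : (RatFunc.C ρ : RatFunc F) ≠ 0 := by
    rwa [Ne, map_eq_zero]
  have e1 : (nodal_l τ).comp (Polynomial.C ρ * Polynomial.X) =
      (Polynomial.C ρ * Polynomial.X - Polynomial.C (τ i)) *
        (nodal_b τ i).comp (Polynomial.C ρ * Polynomial.X) := by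
    rw [nodal_l_eq τ i, Polynomial.mul_comp]
    simp
  rw [e1, nodal_l_eq τ i]
  simp only [map_mul, map_sub, RatFunc.algebraMap_X, RatFunc.algebraMap_C]
  have e2 : RatFunc.C ρ * RatFunc.X - RatFunc.C (τ i) =
      RatFunc.C ρ * (RatFunc.X - RatFunc.C (ρ⁻¹ * τ i)) := by
    rw [mul_sub, ← map_mul, mul_inv_cancel_left₀ hρ0]
  rw [e2, hom]
  have e3 : RatFunc.C ρ * RatFunc.C (ρ⁻¹ * τ i) = (RatFunc.C (τ i) : RatFunc F) := by
    rw [← map_mul, mul_inv_cancel_left₀ hρ0]
  generalize (RatFunc.C (ρ⁻¹ * τ i) : RatFunc F) = s at *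
  generalize (RatFunc.C (τ i) : RatFunc F) = t at *
  generalize algebraMap (Polynomial F) (RatFunc F) (nodal_b τ i) = B
  generalize algebraMap (Polynomial F) (RatFunc F)
    ((nodal_b τ i).comp (Polynomial.C ρ * Polynomial.X)) = B'
  generalize (RatFunc.C ρ : RatFunc F) = r at *
  subst e3
  field_simp
  ring

end rel

section main

variable {F : Type*} [Field F]

/-- The differential `dt/(t - a) - dt/(t - b)`, divided by `dt`. -/
noncomputable def om (a b : F) : RatFunc F :=
  (RatFunc.X - RatFunc.C a)⁻¹ - (RatFunc.X - RatFunc.C b)⁻¹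

theorem nodal_closed {g : ℕ} (τ : Fin g → F) (ρ : F) (hρ0 : ρ ≠ 0) (E : Fin g → Fin g → F)
    (hcl : ∑ i, ∑ j, RatFunc.C (E i j) *
        (om (τ i) (ρ⁻¹ * τ i) * om (τ j) (ρ⁻¹ * τ j)) = 0) :
    ∑ i, ∑ j, Polynomial.C (E i j * (τ i * τ j)) *
      ((nodal_b τ i * (nodal_l τ).comp (Polynomial.C ρ * Polynomial.X) -
        (nodal_b τ i).comp (Polynomial.C ρ * Polynomial.X) * nodal_l τ) *
      (nodal_b τ j * (nodal_l τ).comp (Polynomial.C ρ * Polynomial.X) -
        (nodal_b τ j).comp (Polynomial.C ρ * Polynomial.X) * nodal_l τ)) = 0 := by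
  apply RatFunc.algebraMap_injective F
  rw [map_zero]
  have h := congrArg (fun x => x * (RatFunc.X *
    algebraMap (Polynomial F) (RatFunc F) (nodal_l τ) *
      algebraMap (Polynomial F) (RatFunc F)
        ((nodal_l τ).comp (Polynomial.C ρ * Polynomial.X))) ^ 2) hcl
  simp only [zero_mul] at h
  rw [← h, Finset.sum_mul, map_sum]
  refine Finset.sum_congr rfl fun i _ => ?_
  rw [Finset.sum_mul, map_sum]
  refine Finset.sum_congr rfl fun j _ => ?_
  have hi := nodal_om τ ρ hρ0 i (om (τ i) (ρ⁻¹ * τ i)) rfl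
  have hj := nodal_om τ ρ hρ0 j (om (τ j) (ρ⁻¹ * τ j)) rfl
  simp only [map_mul, map_sub, RatFunc.algebraMap_C] at hi hj ⊢
  linear_combination (-RatFunc.C (E i j) * RatFunc.C (τ j) *
      (algebraMap (Polynomial F) (RatFunc F) (nodal_b τ j) *
        algebraMap (Polynomial F) (RatFunc F)
          ((nodal_l τ).comp (Polynomial.C ρ * Polynomial.X)) -
        algebraMap (Polynomial F) (RatFunc F)
          ((nodal_b τ j).comp (Polynomial.C ρ * Polynomial.X)) *
        algebraMap (Polynomial F) (RatFunc F) (nodal_l τ))) * hi -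
    (RatFunc.C (E i j) * (RatFunc.X * om (τ i) (ρ⁻¹ * τ i) *
      algebraMap (Polynomial F) (RatFunc F) (nodal_l τ) *
      algebraMap (Polynomial F) (RatFunc F)
        ((nodal_l τ).comp (Polynomial.C ρ * Polynomial.X)))) * hj

/-- `Q_w` -/
noncomputable def nodal_Q {g n : ℕ} (τ : Fin g → F) (e : (Fin (n + 2) → Fin g) → F)
    (w : Fin n → Fin g) : Polynomial F :=
  ∑ i, ∑ j, Polynomial.C (e (Fin.cons i (Fin.cons j w))) * (nodal_b τ i * nodal_b τ j)

/-- `R_w` -/
noncomputable def nodal_R {g n : ℕ} (τ : Fin g → F) (ρ : F) (e : (Fin (n + 2) → Fin g) → F)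
    (w : Fin n → Fin g) : Polynomial F :=
  ∑ i, ∑ j, Polynomial.C (e (Fin.cons i (Fin.cons j w))) *
    (nodal_b τ i * (nodal_b τ j).comp (Polynomial.C ρ * Polynomial.X) +
      (nodal_b τ i).comp (Polynomial.C ρ * Polynomial.X) * nodal_b τ j)

theorem nodal_QR {g n : ℕ} (τ : Fin g → F) (ρ : F) (e : (Fin (n + 2) → Fin g) → F)
    (w : Fin n → Fin g)
    (h : ∑ i, ∑ j, Polynomial.C (e (Fin.cons i (Fin.cons j w))) *
      ((nodal_b τ i * (nodal_l τ).comp (Polynomial.C ρ * Polynomial.X) -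
        (nodal_b τ i).comp (Polynomial.C ρ * Polynomial.X) * nodal_l τ) *
      (nodal_b τ j * (nodal_l τ).comp (Polynomial.C ρ * Polynomial.X) -
        (nodal_b τ j).comp (Polynomial.C ρ * Polynomial.X) * nodal_l τ)) = 0) :
    (nodal_l τ).comp (Polynomial.C ρ * Polynomial.X) ^ 2 * nodal_Q τ e w -
      nodal_l τ * (nodal_l τ).comp (Polynomial.C ρ * Polynomial.X) * nodal_R τ ρ e w +
      nodal_l τ ^ 2 * (nodal_Q τ e w).comp (Polynomial.C ρ * Polynomial.X) = 0 := by
  rw [← h]
  unfold nodal_Q nodal_R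
  rw [Polynomial.sum_comp, Finset.mul_sum, Finset.mul_sum, Finset.mul_sum,
    ← Finset.sum_sub_distrib, ← Finset.sum_add_distrib]
  refine Finset.sum_congr rfl fun i _ => ?_
  rw [Polynomial.sum_comp, Finset.mul_sum, Finset.mul_sum, Finset.mul_sum,
    ← Finset.sum_sub_distrib, ← Finset.sum_add_distrib]
  refine Finset.sum_congr rfl fun j _ => ?_
  rw [Polynomial.mul_comp, Polynomial.mul_comp, Polynomial.C_comp]
  ring

theorem nodal_exists_Z {g n : ℕ} (τ : Fin g → F) (ρ : F)
    (hτρ : ∀ l l', τ l ≠ ρ * τ l')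
    (e : (Fin (n + 2) → Fin g) → F) (he : NodalAlt e)
    (h : ∀ w : Fin n → Fin g, ∑ i, ∑ j, Polynomial.C (e (Fin.cons i (Fin.cons j w))) *
      ((nodal_b τ i * (nodal_l τ).comp (Polynomial.C ρ * Polynomial.X) -
        (nodal_b τ i).comp (Polynomial.C ρ * Polynomial.X) * nodal_l τ) *
      (nodal_b τ j * (nodal_l τ).comp (Polynomial.C ρ * Polynomial.X) -
        (nodal_b τ j).comp (Polynomial.C ρ * Polynomial.X) * nodal_l τ)) = 0) :
    ∃ Z : (Fin n → Fin g) → Polynomial F, NodalAltZ Z ∧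
      NodalQ (nodal_b τ) (nodal_l τ) e Z ∧ NodalR ρ (nodal_b τ) (nodal_l τ) e Z ∧
      ∀ w, (Z w).natDegree ≤ g := by
  have hl0 : nodal_l τ ≠ 0 := (nodal_l_monic τ).ne_zero
  have hl0' : (nodal_l τ).comp (Polynomial.C ρ * Polynomial.X) ≠ 0 := by
    intro h0
    have h1 := nodal_coprime τ ρ hτρ
    rw [h0, isCoprime_zero_right] at h1
    have h2 := (nodal_l_monic τ).eq_one_of_isUnit h1
    rw [h2] at h0
    simp at h0
  have hdvd : ∀ w, nodal_l τ ∣ nodal_Q τ e w := by
    intro w
    have h1 := nodal_QR τ ρ e w (h w)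
    have h2 : nodal_l τ ∣ (nodal_l τ).comp (Polynomial.C ρ * Polynomial.X) ^ 2 *
        nodal_Q τ e w := by
      refine ⟨(nodal_l τ).comp (Polynomial.C ρ * Polynomial.X) * nodal_R τ ρ e w -
        nodal_l τ * (nodal_Q τ e w).comp (Polynomial.C ρ * Polynomial.X), ?_⟩
      linear_combination h1
    exact ((nodal_coprime τ ρ hτρ).pow_right).dvd_of_dvd_mul_left h2
  choose Z hZ using hdvd
  refine ⟨Z, ?_, fun w => hZ w, ?_, ?_⟩
  · intro i j hij w
    constructor
    · apply mul_left_cancel₀ hl0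
      rw [← hZ, mul_neg, ← hZ]
      unfold nodal_Q
      rw [← Finset.sum_neg_distrib]
      refine Finset.sum_congr rfl fun a _ => ?_
      rw [← Finset.sum_neg_distrib]
      refine Finset.sum_congr rfl fun c _ => ?_
      rw [nodal_cons_swap, nodal_cons_swap, (he i.succ j.succ
        (fun h => hij (Fin.succ_injective _ h)) _).1, Polynomial.C_neg, neg_mul]
    · intro hw
      apply mul_left_cancel₀ hl0
      rw [← hZ, mul_zero]
      unfold nodal_Q
      refine Finset.sum_eq_zero fun a _ => Finset.sum_eq_zero fun c _ => ?_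
      rw [(he i.succ j.succ (fun h => hij (Fin.succ_injective _ h)) _).2 (by simpa using hw),
        Polynomial.C_0, zero_mul]
  · intro w
    have h1 := nodal_QR τ ρ e w (h w)
    rw [hZ w, Polynomial.mul_comp] at h1
    have h2 : nodal_l τ * (nodal_l τ).comp (Polynomial.C ρ * Polynomial.X) *
      (((nodal_l τ).comp (Polynomial.C ρ * Polynomial.X) * Z w + nodal_l τ *
        (Z w).comp (Polynomial.C ρ * Polynomial.X)) - nodal_R τ ρ e w) = 0 := by
      linear_combination h1
    have h3 := (mul_eq_zero.mp h2).resolve_left (mul_ne_zero hl0 hl0')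
    exact (sub_eq_zero.mp h3).symm
  · intro w
    by_cases hz : Z w = 0
    · rw [hz]; simp
    have h1 := Polynomial.natDegree_mul hl0 hz
    rw [← hZ w, nodal_l_natDegree] at h1
    have h2 : (nodal_Q τ e w).natDegree ≤ 2 * (g - 1) := by
      unfold nodal_Q
      refine Polynomial.natDegree_sum_le_of_forall_le _ _ fun i _ =>
        Polynomial.natDegree_sum_le_of_forall_le _ _ fun j _ => ?_
      refine (Polynomial.natDegree_C_mul_le _ _).trans (Polynomial.natDegree_mul_le.trans ?_)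
      rw [nodal_b_natDegree, nodal_b_natDegree]
      omega
    omega

theorem nodal_update {n g : ℕ} (w : Fin (n + 2) → Fin g) (i j : Fin g) :
    Function.update (Function.update w 0 i) 1 j =
      (Fin.cons i (Fin.cons j (fun k : Fin n => w k.succ.succ)) : Fin (n + 2) → Fin g) := by
  funext k
  refine Fin.cases ?_ (fun k => ?_) k
  · rw [Function.update_of_ne (by simp), Function.update_self]; rfl
  · refine Fin.cases ?_ (fun k => ?_) k
    · rw [Fin.succ_zero_eq_one, Function.update_self]; rfl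
    · rw [Function.update_of_ne, Function.update_of_ne (Fin.succ_ne_zero _)]
      · rfl
      · intro h
        exact Fin.succ_ne_zero _ (Fin.succ_injective _ (h.trans Fin.succ_zero_eq_one.symm))

theorem nodal_eval_b {g : ℕ} (τ : Fin g → F) (i j : Fin g) (hij : i ≠ j) :
    Polynomial.aeval (τ j) (nodal_b τ i) = 0 := by
  unfold nodal_b
  rw [map_prod]
  refine Finset.prod_eq_zero (Finset.mem_erase.mpr ⟨hij.symm, Finset.mem_univ j⟩) ?_
  simp

theorem nodal_eval_b_ne {g : ℕ} (τ : Fin g → F) (hτ : Function.Injective τ) (i : Fin g) :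
    Polynomial.aeval (τ i) (nodal_b τ i) ≠ 0 := by
  unfold nodal_b
  rw [map_prod, Finset.prod_ne_zero_iff]
  intro k hk
  rw [map_sub, Polynomial.aeval_X, Polynomial.aeval_C]
  exact sub_ne_zero.mpr fun h => (Finset.mem_erase.mp hk).1 (hτ h).symm

theorem nodal_eval_N {g n : ℕ} (τ : Fin g → F)
    {e : (Fin (n + 2) → Fin g) → F} (he : NodalAlt e)
    {Z : (Fin n → Fin g) → Polynomial F} (hZ : NodalAltZ Z) (v : Fin (n + 2) → Fin g) :
    nodal_N (nodal_b τ) (nodal_l τ) e he Z hZ (fun j => τ (v j)) =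
      e v * ∏ j, Polynomial.aeval (τ (v j)) (nodal_b τ (v j)) := by
  rw [nodal_N_apply]
  have h0 : ∀ j : Fin g, Polynomial.aeval (τ j) (nodal_l τ) = 0 := by
    intro j
    rw [nodal_l_eq τ j, map_mul, map_sub, Polynomial.aeval_X, Polynomial.aeval_C]
    simp
  simp only [h0, zero_mul, mul_zero, Finset.sum_const_zero, sub_zero]
  rw [Finset.sum_eq_single v]
  · rfl
  · intro u _ hu
    obtain ⟨j, hj⟩ : ∃ j, u j ≠ v j := by
      by_contra hcon
      push Not at hcon
      exact hu (funext hcon)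
    rw [Finset.prod_eq_zero (Finset.mem_univ j) (nodal_eval_b τ (u j) (v j) hj), mul_zero]
  · intro h; exact absurd (Finset.mem_univ v) h

theorem nodal_aeval_ne {N g : ℕ} (τ : Fin g → F) (j : Fin N) :
    Polynomial.aeval (X j : MvPolynomial (Fin N) F) (nodal_l τ) ≠ 0 := by
  unfold nodal_l
  rw [map_prod, Finset.prod_ne_zero_iff]
  intro k _ h
  have h1 := congrArg (MvPolynomial.eval (fun _ => τ k + 1)) h
  simp at h1

/-- General form: any `g ≤ m + m' + 3`, arrays with `m' + 2` entries, `m ≤ m'`.  Same proof with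
`surf_gen`. -/
theorem nodal_gen (p : ℕ) [Fact p.Prime] [CharP F p] (m m' g : ℕ) (hmm : m ≤ m')
    (hg : g ≤ m + m' + 3)
    (hbin : ∀ j ≤ m, (m.choose j : F) ≠ 0) (ρ : F) (hρ0 : ρ ≠ 0)
    (hρ : ∀ i j, i < j → j < g - m' → ρ ^ i ≠ ρ ^ j)
    (τ : Fin g → F) (hτ0 : ∀ l, τ l ≠ 0) (hτ : Function.Injective τ)
    (hτρ : ∀ l l', τ l ≠ ρ * τ l')
    (e : (Fin (m' + 2) → Fin g) → F)
    (halt : ∀ i j : Fin (m' + 2), i ≠ 0 → j ≠ 0 → i ≠ j → ∀ v,
      e (v ∘ Equiv.swap i j) = - e v ∧ (v i = v j → e v = 0))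
    (hcl : ∀ w : Fin (m' + 2) → Fin g,
      ∑ i, ∑ j, RatFunc.C (e (Function.update (Function.update w 0 i) 1 j)) *
        (om (τ i) (ρ⁻¹ * τ i) * om (τ j) (ρ⁻¹ * τ j)) = 0) :
    ∀ v, e (v ∘ Equiv.swap 0 1) = - e v ∧ (v 0 = v 1 → e v = 0) := by
  classical
  by_cases hg' : m' + 1 ≤ g
  swap
  · -- pigeonhole
    have h0 : ∀ v, e v = 0 := by
      intro v
      obtain ⟨i, j, hij, hv⟩ := Fintype.exists_ne_map_eq_of_card_lt
        (fun k : Fin (m' + 1) => v k.succ) (by simp; omega)
      exact (halt i.succ j.succ (Fin.succ_ne_zero _) (Fin.succ_ne_zero _)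
        (fun h => hij (Fin.succ_injective _ h)) v).2 hv
    intro v
    rw [h0, h0]; simp
  have hρ1 : ρ ≠ 1 := by
    rintro rfl
    have hgp : 0 < g := by omega
    exact hτρ ⟨0, hgp⟩ ⟨0, hgp⟩ (one_mul _).symm
  -- the modified array
  set e' : (Fin (m' + 2) → Fin g) → F := fun v => e v * ∏ k, τ (v k) with he'
  have hprod : ∀ (v : Fin (m' + 2) → Fin g) (s : Equiv.Perm (Fin (m' + 2))),
      ∏ k, τ ((v ∘ s) k) = ∏ k, τ (v k) := by
    intro v s
    exact Equiv.prod_comp s (fun k => τ (v k))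
  have hne : ∀ v : Fin (m' + 2) → Fin g, ∏ k, τ (v k) ≠ 0 := fun v =>
    Finset.prod_ne_zero_iff.mpr fun k _ => hτ0 _
  have hE : NodalAlt e' := by
    intro i j hij v
    have h1 := halt i.succ j.succ (Fin.succ_ne_zero _) (Fin.succ_ne_zero _)
        (fun h => hij (Fin.succ_injective _ h)) v
    constructor
    · simp only [he']
      rw [hprod, h1.1, neg_mul]
    · intro h
      simp only [he']
      rw [h1.2 h, zero_mul]
  have hclosed : ∀ w : Fin m' → Fin g, ∑ i, ∑ j,
      Polynomial.C (e' (Fin.cons i (Fin.cons j w))) *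
      ((nodal_b τ i * (nodal_l τ).comp (Polynomial.C ρ * Polynomial.X) -
        (nodal_b τ i).comp (Polynomial.C ρ * Polynomial.X) * nodal_l τ) *
      (nodal_b τ j * (nodal_l τ).comp (Polynomial.C ρ * Polynomial.X) -
        (nodal_b τ j).comp (Polynomial.C ρ * Polynomial.X) * nodal_l τ)) = 0 := by
    intro w
    have hgp : 0 < g := by omega
    have h1 := hcl (Fin.cons ⟨0, hgp⟩ (Fin.cons ⟨0, hgp⟩ w))
    simp only [nodal_update, Fin.cons_succ] at h1
    have h2 := nodal_closed τ ρ hρ0 (fun i j => e (Fin.cons i (Fin.cons j w))) h1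
    have h3 := congrArg (fun x => Polynomial.C (∏ k, τ (w k)) * x) h2
    simp only [mul_zero] at h3
    rw [← h3, Finset.mul_sum]
    refine Finset.sum_congr rfl fun i _ => ?_
    rw [Finset.mul_sum]
    refine Finset.sum_congr rfl fun j _ => ?_
    have h4 : Polynomial.C (e' (Fin.cons i (Fin.cons j w))) = Polynomial.C (∏ k, τ (w k)) *
        Polynomial.C (e (Fin.cons i (Fin.cons j w)) * (τ i * τ j)) := by
      rw [← Polynomial.C_mul]
      congr 1
      simp only [he']
      rw [Fin.prod_univ_succ, Fin.prod_univ_succ]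
      simp only [Fin.cons_zero, Fin.cons_succ]
      ring
    rw [h4]
    ring
  obtain ⟨Z, hZ, hQ, hR, hZd⟩ := nodal_exists_Z τ ρ hτρ e' hE hclosed
  set N : MvPolynomial (Fin (m' + 2)) F :=
    nodal_N (nodal_b τ) (nodal_l τ) e' hE Z hZ X with hN
  have hmap : ∀ φ : MvPolynomial (Fin (m' + 2)) F →ₐ[F] MvPolynomial (Fin (m' + 2)) F,
      φ N = nodal_N (nodal_b τ) (nodal_l τ) e' hE Z hZ (fun i => φ (X i)) := fun φ =>
    nodal_N_map φ hE hZ X
  have hdiag : aeval (Function.update X 1 (X 0)) N = (0 : MvPolynomial (Fin (m' + 2)) F) := by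
    rw [hmap]
    refine nodal_N_diag hE hZ hQ _ ?_ ?_
    · simp only [aeval_X]
      rw [Function.update_self, Function.update_of_ne (by simp)]
    · simp only [aeval_X]
      rw [Function.update_of_ne (by simp)]
      exact nodal_aeval_ne τ _
  have hsurf := surf_gen p m m' g hmm hg hg' hbin ρ hρ0 hρ hρ1 N
    (fun i => nodal_N_deg hE hZ (fun i => by rw [nodal_b_natDegree]; omega)
      (nodal_l_natDegree τ).le hZd i)
    (by
      intro i j hi hj hij
      obtain ⟨i, rfl⟩ := Fin.exists_succ_eq.mpr hi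
      obtain ⟨j, rfl⟩ := Fin.exists_succ_eq.mpr hj
      have hij' : i ≠ j := fun h => hij (by rw [h])
      constructor
      · rw [hmap]
        have h1 := (nodal_N_alt (b := nodal_b τ) (l := nodal_l τ) hE hZ
          (X : Fin (m' + 2) → MvPolynomial (Fin (m' + 2)) F) i j hij').1
        rw [← hN] at h1
        rw [← h1]
        congr 1
        funext k
        rw [rename_X]; rfl
      · rw [hmap]
        refine (nodal_N_alt hE hZ _ i j hij').2 ?_
        simp only [aeval_X]
        rw [Function.update_self, Function.update_of_ne (Ne.symm hij)])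
    hdiag
    (by
      rw [hmap, hmap]
      refine nodal_N_chord hE hZ hQ hR _ _ ?_ ?_ ?_ ?_ ?_
      · simp only [aeval_X]
        rw [Function.update_self, Function.update_of_ne (by simp), MvPolynomial.algebraMap_eq]
      · simp only [aeval_X]
        rw [Function.update_of_ne (by simp), Function.update_self,
          Function.update_of_ne (by simp)]
      · simp only [aeval_X]
        rw [Function.update_self, Function.update_self]
      · intro k
        simp only [aeval_X]
        have hk1 : (k.succ.succ : Fin (m' + 2)) ≠ 1 := by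
          intro h
          exact Fin.succ_ne_zero _ (Fin.succ_injective _ (h.trans Fin.succ_zero_eq_one.symm))
        rw [Function.update_of_ne hk1, Function.update_of_ne (Fin.succ_ne_zero _),
          Function.update_of_ne (Fin.succ_ne_zero _)]
      · simp only [aeval_X]
        rw [Function.update_of_ne (by simp)]
        exact nodal_aeval_ne τ _)
  have hev : ∀ v : Fin (m' + 2) → Fin g, aeval (fun k => τ (v k)) N =
      e' v * ∏ j, Polynomial.aeval (τ (v j)) (nodal_b τ (v j)) := by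
    intro v
    rw [← nodal_eval_N τ hE hZ v, hN, nodal_N_map]
    simp only [aeval_X]
  have hbne : ∀ v : Fin (m' + 2) → Fin g,
      ∏ j, Polynomial.aeval (τ (v j)) (nodal_b τ (v j)) ≠ 0 := fun v =>
    Finset.prod_ne_zero_iff.mpr fun k _ => nodal_eval_b_ne τ hτ _
  intro v
  constructor
  · have h1 := congrArg (aeval (fun k => τ (v k))) hsurf
    rw [aeval_rename, map_neg, hev] at h1
    have h2 := hev (v ∘ Equiv.swap 0 1)
    have h3 : ((fun k => τ (v k)) ∘ (Equiv.swap 0 1 : Equiv.Perm (Fin (m' + 2)))) =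
        fun k => τ ((v ∘ Equiv.swap 0 1) k) := rfl
    rw [h3, h2] at h1
    have h4 : ∏ j, Polynomial.aeval (τ ((v ∘ Equiv.swap 0 1) j))
        (nodal_b τ ((v ∘ Equiv.swap 0 1) j)) =
        ∏ j, Polynomial.aeval (τ (v j)) (nodal_b τ (v j)) :=
      Equiv.prod_comp (Equiv.swap 0 1) (fun j => Polynomial.aeval (τ (v j)) (nodal_b τ (v j)))
    rw [h4] at h1
    simp only [he'] at h1
    rw [hprod] at h1
    have h5 : (e (v ∘ Equiv.swap 0 1) + e v) * ((∏ k, τ (v k)) *
        ∏ j, Polynomial.aeval (τ (v j)) (nodal_b τ (v j))) = 0 := by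
      linear_combination h1
    have h6 := (mul_eq_zero.mp h5).resolve_right (mul_ne_zero (hne v) (hbne v))
    exact eq_neg_of_add_eq_zero_left h6
  · intro hv
    have h1 := congrArg (aeval (fun k => τ (v k))) hdiag
    rw [map_zero, ← AlgHom.comp_apply, comp_aeval] at h1
    have h3 : (fun i => (aeval fun k => τ (v k)) ((Function.update X 1 (X 0) :
        Fin (m' + 2) → MvPolynomial (Fin (m' + 2)) F) i)) = fun k => τ (v k) := by
      funext k
      by_cases hk : k = 1
      · subst hk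
        rw [Function.update_self, aeval_X, hv]
      · rw [Function.update_of_ne hk, aeval_X]
    rw [h3, hev] at h1
    simp only [he'] at h1
    have h5 := (mul_eq_zero.mp h1).resolve_right (hbne v)
    exact (mul_eq_zero.mp h5).resolve_right (hne v)

end main

end Pool.Agent.GrP
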