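import Mathlib
import Pool.Agent.GrC.Stmt

/-!
Koszul cohomology `K_(m+1,1)` through coordinates: if every coefficient array
`e(v_0; v_1, ..., v_(m+1))` which is alternating in `v_1, ..., v_(m+1)` and closed is alternating in all
entries, then the homology in the middle of `⋀^(m+2) V ⊗ U → ⋀^(m+1) V ⊗ V → ⋀^m V ⊗ P` vanishes,
where `U` is one-dimensional and `U × V → V` is the scalar multiplication.
-/

set_option autoImplicit false

namespace Pool.Agent.GrP

open Pool.Agent.GrS Module Set

section Bridge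

variable {k V U P : Type*} [Field k] [AddCommGroup V] [Module k V] [AddCommGroup U]
    [Module k U] [AddCommGroup P] [Module k P]

/-- the functional of the index tuple `v` on `⋀^n V` -/
noncomputable def Bridge_Phi {g : ℕ} (b : Module.Basis (Fin g) k V) (n : ℕ) (v : Fin n → Fin g) :
    Module.Dual k (⋀[k]^n V) :=
  exteriorPower.pairingDual k V n (exteriorPower.ιMulti k n (fun i => b.coord (v i)))

theorem Bridge_Phi_apply {g : ℕ} (b : Module.Basis (Fin g) k V) (n : ℕ) (v : Fin n → Fin g) (y : Fin n → V) :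
    Bridge_Phi b n v (exteriorPower.ιMulti k n y) = (Matrix.of fun i j => b.coord (v j) (y i)).det := by
  unfold Bridge_Phi
  rw [exteriorPower.pairingDual_ιMulti_ιMulti]

theorem Bridge_Phi_swap {g : ℕ} (b : Module.Basis (Fin g) k V) {n : ℕ} (v : Fin n → Fin g) {i j : Fin n} (h : i ≠ j) :
    Bridge_Phi b n (v ∘ Equiv.swap i j) = - Bridge_Phi b n v := by
  unfold Bridge_Phi
  have h1 := (exteriorPower.ιMulti k n (M := Module.Dual k V)).map_swap (fun i => b.coord (v i)) h
  have h2 : (fun l => b.coord ((v ∘ Equiv.swap i j) l)) = (fun i => b.coord (v i)) ∘ Equiv.swap i j := rfl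
  rw [h2, h1, map_neg]

theorem Bridge_Phi_zero {g : ℕ} (b : Module.Basis (Fin g) k V) {n : ℕ} (v : Fin n → Fin g) {i j : Fin n} (h : i ≠ j)
    (hv : v i = v j) : Bridge_Phi b n v = 0 := by
  unfold Bridge_Phi
  have h1 := (exteriorPower.ιMulti k n (M := Module.Dual k V)).map_eq_zero_of_eq (fun i => b.coord (v i))
    (i := i) (j := j) (by show b.coord (v i) = b.coord (v j); rw [hv]) h
  rw [h1, map_zero]

/-- expansion along the first index -/
theorem Bridge_laplace {g : ℕ} (b : Module.Basis (Fin g) k V) (n : ℕ) (v : Fin (n + 1) → Fin g) (y : Fin (n + 1) → V) :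
    Bridge_Phi b (n + 1) v (exteriorPower.ιMulti k (n + 1) y) =
      ∑ l : Fin (n + 1), (-1) ^ (l : ℕ) * b.coord (v 0) (y l) *
        Bridge_Phi b n (v ∘ Fin.succ) (exteriorPower.ιMulti k n (l.removeNth y)) := by
  rw [Bridge_Phi_apply, Matrix.det_succ_column_zero]
  refine Finset.sum_congr rfl fun l _ => ?_
  rw [Bridge_Phi_apply]
  rfl

/-- the tuples separate -/
theorem Bridge_Phi_basis {g : ℕ} (b : Module.Basis (Fin g) k V) (n : ℕ) (s : powersetCard (Fin g) n) :
    Bridge_Phi b n (powersetCard.ofFinEmbEquiv.symm s) = (b.exteriorPower n).coord s := by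
  rw [exteriorPower.basis_coord]
  rfl

/-- the functional on the tensor product -/
noncomputable def Bridge_Psi {g : ℕ} (b : Module.Basis (Fin g) k V) (n : ℕ) (v : Fin (n + 1) → Fin g) :
    KC k V V n →ₗ[k] k :=
  LinearMap.mul' k k ∘ₗ TensorProduct.map (Bridge_Phi b n (v ∘ Fin.succ)) (b.coord (v 0))

theorem Bridge_Psi_wt {g : ℕ} (b : Module.Basis (Fin g) k V) (n : ℕ) (v : Fin (n + 1) → Fin g) (y : Fin n → V) (z : V) :
    Bridge_Psi b n v (wt k y z) =
      Bridge_Phi b n (v ∘ Fin.succ) (exteriorPower.ιMulti k n y) * b.coord (v 0) z := rfl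

theorem Bridge_Psi_neg {g n : ℕ} (b : Module.Basis (Fin g) k V) {v v' : Fin (n + 1) → Fin g} (h0 : v' 0 = v 0)
    (h1 : Bridge_Phi b n (v' ∘ Fin.succ) = - Bridge_Phi b n (v ∘ Fin.succ)) : Bridge_Psi b n v' = - Bridge_Psi b n v := by
  apply hom_ext
  intro y z
  rw [LinearMap.neg_apply, Bridge_Psi_wt, Bridge_Psi_wt, h0, h1, LinearMap.neg_apply, neg_mul]

theorem Bridge_Psi_zero {g n : ℕ} (b : Module.Basis (Fin g) k V) {v : Fin (n + 1) → Fin g}
    (h1 : Bridge_Phi b n (v ∘ Fin.succ) = 0) : Bridge_Psi b n v = 0 := by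
  apply hom_ext
  intro y z
  rw [LinearMap.zero_apply, Bridge_Psi_wt, h1, LinearMap.zero_apply, zero_mul]

/-- the functional with values in `P` -/
noncomputable def Bridge_Theta {g : ℕ} (b : Module.Basis (Fin g) k V) (n : ℕ) (v : Fin n → Fin g) :
    KC k V P n →ₗ[k] P :=
  (TensorProduct.lid k P).toLinearMap ∘ₗ TensorProduct.map (Bridge_Phi b n v) LinearMap.id

theorem Bridge_Theta_wt {g : ℕ} (b : Module.Basis (Fin g) k V) (n : ℕ) (v : Fin n → Fin g) (y : Fin n → V) (p : P) :
    Bridge_Theta b n v (wt k y p) = Bridge_Phi b n v (exteriorPower.ιMulti k n y) • p := rfl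

theorem Bridge_sep {g : ℕ} (b : Module.Basis (Fin g) k V) (n : ℕ) {x : KC k V V n}
    (h : ∀ v, Bridge_Psi b n v x = 0) : x = 0 := by
  let B : Module.Basis (powersetCard (Fin g) n × Fin g) k (KC k V V n) := (b.exteriorPower n).tensorProduct b
  refine B.ext_elem (fun i => ?_)
  rw [map_zero, Finsupp.zero_apply]
  have h1 := h (Fin.cons i.2 (powersetCard.ofFinEmbEquiv.symm i.1))
  have h2 : Bridge_Psi b n (Fin.cons i.2 (powersetCard.ofFinEmbEquiv.symm i.1)) = B.coord i := by
    apply TensorProduct.ext'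
    intro y z
    show Bridge_Phi b n ((Fin.cons i.2 (powersetCard.ofFinEmbEquiv.symm i.1) : Fin (n + 1) → Fin g) ∘ Fin.succ) y *
      b.coord ((Fin.cons i.2 (powersetCard.ofFinEmbEquiv.symm i.1) : Fin (n + 1) → Fin g) 0) z = _
    have h3 : (Fin.cons i.2 (powersetCard.ofFinEmbEquiv.symm i.1) : Fin (n + 1) → Fin g) ∘ Fin.succ =
        (powersetCard.ofFinEmbEquiv.symm i.1) := by
      funext l
      simp
    rw [h3, Fin.cons_zero, Bridge_Phi_basis]
    obtain ⟨i1, i2⟩ := i
    have h4 := Module.Basis.tensorProduct_repr_tmul_apply (b.exteriorPower n) b y z i1 i2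
    refine Eq.trans ?_ h4.symm
    show (b.exteriorPower n).repr y i1 * b.repr z i2 = b.repr z i2 • (b.exteriorPower n).repr y i1
    rw [smul_eq_mul, mul_comm]
  rw [h2] at h1
  exact h1

theorem Bridge_kos (μ : V →ₗ[k] U →ₗ[k] P) (i : ℕ) (v : Fin (i + 1) → V) (u : U) :
    kos μ i (wt k v u) = ∑ j : Fin (i + 1), (-1 : ℤ) ^ (j : ℕ) • wt k (j.removeNth v) (μ (v j) u) :=
  (existsUnique_kos μ i).choose_spec.1 v u

theorem Bridge_neg_one (j : ℕ) {A : Type*} [AddCommGroup A] [Module k A] (a : A) :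
    ((-1 : ℤ) ^ j) • a = ((-1 : k) ^ j) • a := by
  rcases Nat.even_or_odd j with h | h
  · rw [h.neg_one_pow, h.neg_one_pow, one_smul, one_smul]
  · rw [h.neg_one_pow, h.neg_one_pow, neg_smul, neg_smul, one_smul, one_smul]

/-- closedness in coordinates -/
theorem Bridge_closed {g m : ℕ} (b : Module.Basis (Fin g) k V) (ν : V →ₗ[k] V →ₗ[k] P) (x : KC k V V (m + 1))
    (w : Fin m → Fin g) :
    Bridge_Theta b m w (kos ν m x) =
      ∑ i, ∑ j, Bridge_Psi b (m + 1) (Fin.cons i (Fin.cons j w)) x • ν (b j) (b i) := by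
  have key : (Bridge_Theta b m w).comp (kos ν m) =
      ∑ i, ∑ j, (Bridge_Psi b (m + 1) (Fin.cons i (Fin.cons j w))).smulRight (ν (b j) (b i)) := by
    apply hom_ext
    intro y z
    rw [LinearMap.comp_apply, Bridge_kos, map_sum]
    simp only [LinearMap.sum_apply, LinearMap.smulRight_apply]
    have h1 : ∀ i j, Bridge_Psi b (m + 1) (Fin.cons i (Fin.cons j w)) (wt k y z) =
        ∑ l : Fin (m + 1), (-1) ^ (l : ℕ) * b.coord j (y l) *
          Bridge_Phi b m w (exteriorPower.ιMulti k m (l.removeNth y)) * b.coord i z := by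
      intro i j
      rw [Bridge_Psi_wt]
      have h2 : (Fin.cons i (Fin.cons j w : Fin (m + 1) → Fin g) : Fin (m + 1 + 1) → Fin g) ∘ Fin.succ = Fin.cons j w := by
        funext l
        simp
      have h3 : (Fin.cons j w : Fin (m + 1) → Fin g) ∘ Fin.succ = w := by
        funext l
        simp
      rw [h2, Bridge_laplace, h3, Fin.cons_zero, Fin.cons_zero, Finset.sum_mul]
    have h4 : ∀ l : Fin (m + 1), Bridge_Theta b m w ((-1 : ℤ) ^ (l : ℕ) • wt k (l.removeNth y) (ν (y l) z)) =
        ∑ i, ∑ j, ((-1) ^ (l : ℕ) * b.coord j (y l) *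
          Bridge_Phi b m w (exteriorPower.ιMulti k m (l.removeNth y)) * b.coord i z) • ν (b j) (b i) := by
      intro l
      rw [map_zsmul, Bridge_Theta_wt, Bridge_neg_one (k := k)]
      have h5 : ν (y l) z = ∑ i, ∑ j, (b.coord j (y l) * b.coord i z) • ν (b j) (b i) := by
        conv_lhs => rw [← b.sum_repr (y l), ← b.sum_repr z]
        rw [map_sum]
        refine Finset.sum_congr rfl fun i _ => ?_
        rw [map_sum, LinearMap.sum_apply]
        refine Finset.sum_congr rfl fun j _ => ?_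
        rw [map_smul, map_smul, LinearMap.smul_apply, smul_smul]
        rw [Module.Basis.coord_apply, Module.Basis.coord_apply, mul_comm]
      rw [h5, Finset.smul_sum, Finset.smul_sum]
      refine Finset.sum_congr rfl fun i _ => ?_
      rw [Finset.smul_sum, Finset.smul_sum]
      refine Finset.sum_congr rfl fun j _ => ?_
      rw [smul_smul, smul_smul]
      congr 1
      ring
    simp only [h1, h4]
    rw [Finset.sum_comm]
    refine Finset.sum_congr rfl fun i _ => ?_
    rw [Finset.sum_comm]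
    refine Finset.sum_congr rfl fun j _ => ?_
    rw [Finset.sum_smul]
  have h1 := LinearMap.congr_fun key x
  rw [LinearMap.comp_apply] at h1
  rw [h1]
  simp only [LinearMap.sum_apply, LinearMap.smulRight_apply]

/-- the functionals on the image of the first differential -/
theorem Bridge_image {g m : ℕ} (b : Module.Basis (Fin g) k V) (μ : V →ₗ[k] U →ₗ[k] V) (u0 : U) (hμ : ∀ v, μ v u0 = v)
    (v : Fin (m + 2) → Fin g) (c : Fin (m + 2) → V) :
    Bridge_Psi b (m + 1) v (kos μ (m + 1) (wt k c u0)) = Bridge_Phi b (m + 2) v (exteriorPower.ιMulti k (m + 2) c) := by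
  rw [Bridge_kos, map_sum, Bridge_laplace]
  refine Finset.sum_congr rfl fun l _ => ?_
  rw [map_zsmul, Bridge_Psi_wt, hμ, Bridge_neg_one (k := k), smul_eq_mul]
  ring

end Bridge

/-! ### alternating arrays -/

section Alt

variable {k : Type*} [Field k]

/-- alternating array -/
def Bridge_Alt {g n : ℕ} (e : (Fin n → Fin g) → k) : Prop :=
  (∀ v (σ : Equiv.Perm (Fin n)), e (v ∘ σ) = (Equiv.Perm.sign σ : ℤ) • e v) ∧
    ∀ v (i j : Fin n), i ≠ j → v i = v j → e v = 0

theorem Bridge_alt_ext {g n : ℕ} {e e' : (Fin n → Fin g) → k} (h : Bridge_Alt e) (h' : Bridge_Alt e')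
    (hs : ∀ s : powersetCard (Fin g) n, e (powersetCard.ofFinEmbEquiv.symm s) = e' (powersetCard.ofFinEmbEquiv.symm s)) :
    e = e' := by
  funext v
  by_cases hv : Function.Injective v
  · set σ := Tuple.sort v with hσ
    have hmono : StrictMono (v ∘ σ) := (Tuple.monotone_sort v).strictMono_of_injective (hv.comp σ.injective)
    set s : powersetCard (Fin g) n := powersetCard.ofFinEmbEquiv (OrderEmbedding.ofStrictMono (v ∘ σ) hmono) with hsd
    have h1 : (powersetCard.ofFinEmbEquiv.symm s : Fin n → Fin g) = v ∘ σ := by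
      rw [hsd, Equiv.symm_apply_apply]
      rfl
    have h2 : v = (powersetCard.ofFinEmbEquiv.symm s : Fin n → Fin g) ∘ σ.symm := by
      rw [h1]
      funext i
      simp
    rw [h2, h.1 _ σ.symm, h'.1 _ σ.symm, hs s]
  · rw [Function.Injective] at hv
    push Not at hv
    obtain ⟨i, j, hij, hne⟩ := hv
    rw [h.2 v i j hne hij, h'.2 v i j hne hij]

theorem Bridge_alt_of {g n : ℕ} {e : (Fin (n + 2) → Fin g) → k}
    (h1 : ∀ i j : Fin (n + 2), i ≠ 0 → j ≠ 0 → i ≠ j → ∀ v, e (v ∘ Equiv.swap i j) = - e v ∧ (v i = v j → e v = 0))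
    (h2 : ∀ v, e (v ∘ Equiv.swap 0 1) = - e v ∧ (v 0 = v 1 → e v = 0)) : Bridge_Alt e := by
  have h01 : (0 : Fin (n + 2)) ≠ 1 := by simp
  -- all transpositions with `0`
  have h3 : ∀ j : Fin (n + 2), j ≠ 0 → ∀ v, e (v ∘ Equiv.swap 0 j) = - e v ∧ (v 0 = v j → e v = 0) := by
    intro j hj v
    by_cases hj1 : j = 1
    · rw [hj1]
      exact h2 v
    · have a1 := h1 1 j h01.symm hj (Ne.symm hj1)
      have e1 : Equiv.swap (0 : Fin (n + 2)) j = Equiv.swap 1 j * Equiv.swap 0 1 * Equiv.swap 1 j := by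
        rw [Equiv.swap_comm 1 j, Equiv.swap_comm 0 1]
        have := Equiv.swap_mul_swap_mul_swap (x := j) (y := 1) (z := 0) (Ne.symm (Ne.symm hj1)) (Ne.symm (Ne.symm hj))
        rw [Equiv.swap_comm 0 j]
        first
          | exact this.symm
          | rw [Equiv.swap_comm j 1, Equiv.swap_comm 1 0] at *
            ext l
            simp [Equiv.swap_apply_def]
            split_ifs <;> simp_all
      constructor
      · rw [e1]
        have e2 : v ∘ (Equiv.swap 1 j * Equiv.swap 0 1 * Equiv.swap 1 j : Equiv.Perm (Fin (n + 2))) =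
            ((v ∘ Equiv.swap 1 j) ∘ Equiv.swap 0 1) ∘ Equiv.swap 1 j := rfl
        rw [e2, (a1 _).1, (h2 _).1, (a1 _).1, neg_neg]
      · intro hv
        have e3 := (a1 v).1
        have e4 := (h2 (v ∘ Equiv.swap 1 j)).2 (by
          show v (Equiv.swap 1 j 0) = v (Equiv.swap 1 j 1)
          rw [Equiv.swap_apply_left, Equiv.swap_apply_of_ne_of_ne h01 (Ne.symm hj)]
          exact hv)
        rw [e4] at e3
        exact neg_eq_zero.1 e3.symm
  have h4 : ∀ i j : Fin (n + 2), i ≠ j → ∀ v, e (v ∘ Equiv.swap i j) = - e v ∧ (v i = v j → e v = 0) := by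
    intro i j hij v
    by_cases hi : i = 0
    · subst hi
      exact h3 j (Ne.symm hij) v
    · by_cases hj : j = 0
      · subst hj
        have := h3 i hi v
        rw [Equiv.swap_comm]
        exact ⟨this.1, fun h => this.2 h.symm⟩
      · exact h1 i j hi hj hij v
  refine ⟨fun v σ => ?_, fun v i j hij hv => (h4 i j hij v).2 hv⟩
  induction σ using Equiv.Perm.swap_induction_on generalizing v with
  | one =>
    simp
  | swap_mul f x y hxy ih =>
    have e1 : v ∘ (Equiv.swap x y * f : Equiv.Perm (Fin (n + 2))) = (v ∘ Equiv.swap x y) ∘ f := rfl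
    rw [e1, ih, (h4 x y hxy v).1, Equiv.Perm.sign_mul, Equiv.Perm.sign_swap hxy]
    simp

end Alt

section Main

variable {k V U P : Type*} [Field k] [AddCommGroup V] [Module k V] [AddCommGroup U]
    [Module k U] [AddCommGroup P] [Module k P]

theorem Bridge_alt_Phi {g : ℕ} (b : Module.Basis (Fin g) k V) (n : ℕ) (z : ↥(⋀[k]^(n + 2) V)) :
    Bridge_Alt (fun v => Bridge_Phi b (n + 2) v z) := by
  refine Bridge_alt_of (fun i j _ _ hij v => ⟨?_, fun h => ?_⟩) (fun v => ⟨?_, fun h => ?_⟩)
  · show Bridge_Phi b (n + 2) (v ∘ Equiv.swap i j) z = - Bridge_Phi b (n + 2) v z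
    rw [Bridge_Phi_swap b v hij, LinearMap.neg_apply]
  · show Bridge_Phi b (n + 2) v z = 0
    rw [Bridge_Phi_zero b v hij h, LinearMap.zero_apply]
  · show Bridge_Phi b (n + 2) (v ∘ Equiv.swap 0 1) z = - Bridge_Phi b (n + 2) v z
    rw [Bridge_Phi_swap b v (by simp), LinearMap.neg_apply]
  · show Bridge_Phi b (n + 2) v z = 0
    rw [Bridge_Phi_zero b v (by simp : (0 : Fin (n + 2)) ≠ 1) h, LinearMap.zero_apply]

/-- an alternating array is in the image -/
theorem Bridge_surj {g m : ℕ} (b : Module.Basis (Fin g) k V) (μ : V →ₗ[k] U →ₗ[k] V) (u0 : U) (hμ : ∀ v, μ v u0 = v)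
    (x : KC k V V (m + 1)) (h : Bridge_Alt (fun v => Bridge_Psi b (m + 1) v x)) :
    x ∈ LinearMap.range (kos μ (m + 1)) := by
  classical
  set y : KC k V U (m + 2) := ∑ s : powersetCard (Fin g) (m + 2),
    Bridge_Psi b (m + 1) (powersetCard.ofFinEmbEquiv.symm s) x •
      wt k (b ∘ (powersetCard.ofFinEmbEquiv.symm s)) u0 with hy
  set z : ↥(⋀[k]^(m + 2) V) := ∑ s : powersetCard (Fin g) (m + 2),
    Bridge_Psi b (m + 1) (powersetCard.ofFinEmbEquiv.symm s) x •
      exteriorPower.ιMulti k (m + 2) (b ∘ (powersetCard.ofFinEmbEquiv.symm s)) with hz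
  have h1 : ∀ v, Bridge_Psi b (m + 1) v (kos μ (m + 1) y) = Bridge_Phi b (m + 2) v z := by
    intro v
    rw [hy, hz, map_sum, map_sum, map_sum]
    refine Finset.sum_congr rfl fun s _ => ?_
    rw [map_smul, map_smul, map_smul, Bridge_image b μ u0 hμ]
  have h2 : (fun v => Bridge_Phi b (m + 2) v z) = (fun v => Bridge_Psi b (m + 1) v x) := by
    refine Bridge_alt_ext (Bridge_alt_Phi b m z) h (fun s => ?_)
    show Bridge_Phi b (m + 2) (powersetCard.ofFinEmbEquiv.symm s) z = _
    rw [Bridge_Phi_basis, hz, map_sum]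
    rw [Finset.sum_eq_single s]
    · rw [map_smul, Module.Basis.coord_apply]
      have h3 : exteriorPower.ιMulti k (m + 2) (b ∘ (powersetCard.ofFinEmbEquiv.symm s)) =
          exteriorPower.ιMulti_family k (m + 2) b s := rfl
      rw [h3, exteriorPower.basis_repr_self, smul_eq_mul, mul_one]
    · intro t _ hts
      rw [map_smul, Module.Basis.coord_apply]
      have h3 : exteriorPower.ιMulti k (m + 2) (b ∘ (powersetCard.ofFinEmbEquiv.symm t)) =
          exteriorPower.ιMulti_family k (m + 2) b t := rfl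
      rw [h3, exteriorPower.basis_repr_ne k (m + 2) b hts, smul_zero]
    · intro hs
      exact absurd (Finset.mem_univ s) hs
  refine ⟨y, ?_⟩
  rw [← sub_eq_zero]
  refine Bridge_sep b (m + 1) (fun v => ?_)
  rw [map_sub, h1 v, sub_eq_zero]
  exact congrFun h2 v

end Main

theorem bridge_main {k V U P : Type*} [Field k] [AddCommGroup V] [Module k V] [AddCommGroup U]
    [Module k U] [AddCommGroup P] [Module k P] (g m : ℕ) (b : Module.Basis (Fin g) k V)
    (u0 : U) (hU : ∀ u : U, ∃ a : k, u = a • u0) (μ : V →ₗ[k] U →ₗ[k] V) (hμ : ∀ v, μ v u0 = v)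
    (ν : V →ₗ[k] V →ₗ[k] P) (hν : ∀ v w, ν v w = ν w v)
    (H : ∀ e : (Fin (m + 2) → Fin g) → k,
      (∀ i j : Fin (m + 2), i ≠ 0 → j ≠ 0 → i ≠ j → ∀ v,
        e (v ∘ Equiv.swap i j) = - e v ∧ (v i = v j → e v = 0)) →
      (∀ w : Fin (m + 2) → Fin g,
        ∑ i, ∑ j, e (Function.update (Function.update w 0 i) 1 j) • ν (b j) (b i) = 0) →
      ∀ v, e (v ∘ Equiv.swap 0 1) = - e v ∧ (v 0 = v 1 → e v = 0)) :
    koszulDim μ ν m = 0 := by
  have hker : LinearMap.ker (kos ν m) ≤ LinearMap.range (kos μ (m + 1)) := by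
    intro x hx
    rw [LinearMap.mem_ker] at hx
    refine Bridge_surj b μ u0 hμ x ?_
    have c1 : ∀ i j : Fin (m + 2), i ≠ 0 → j ≠ 0 → i ≠ j → ∀ v,
        Bridge_Psi b (m + 1) (v ∘ Equiv.swap i j) x = - Bridge_Psi b (m + 1) v x ∧
          (v i = v j → Bridge_Psi b (m + 1) v x = 0) := by
      intro i j hi hj hij v
      obtain ⟨i', rfl⟩ := Fin.exists_succ_eq.2 hi
      obtain ⟨j', rfl⟩ := Fin.exists_succ_eq.2 hj
      have hij' : i' ≠ j' := fun h => hij (by rw [h])
      constructor
      · have e1 : (v ∘ Equiv.swap i'.succ j'.succ) ∘ Fin.succ = (v ∘ Fin.succ) ∘ Equiv.swap i' j' := by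
          funext l
          simp only [Function.comp_apply]
          congr 1
          rw [Equiv.swap_apply_def, Equiv.swap_apply_def]
          by_cases h1 : l = i'
          · rw [if_pos (by rw [h1]), if_pos h1]
          · rw [if_neg (fun h => h1 (Fin.succ_injective _ h)), if_neg h1]
            by_cases h2 : l = j'
            · rw [if_pos (by rw [h2]), if_pos h2]
            · rw [if_neg (fun h => h2 (Fin.succ_injective _ h)), if_neg h2]
        have e2 : (v ∘ Equiv.swap i'.succ j'.succ) 0 = v 0 := by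
          show v (Equiv.swap i'.succ j'.succ 0) = v 0
          rw [Equiv.swap_apply_of_ne_of_ne (Ne.symm hi) (Ne.symm hj)]
        rw [Bridge_Psi_neg b e2 (by rw [e1, Bridge_Phi_swap b _ hij']), LinearMap.neg_apply]
      · intro hv
        rw [Bridge_Psi_zero b (Bridge_Phi_zero b (v ∘ Fin.succ) hij' hv), LinearMap.zero_apply]
    refine Bridge_alt_of c1 (H (fun v => Bridge_Psi b (m + 1) v x) c1 (fun w => ?_))
    have h1 := Bridge_closed b ν x (w ∘ Fin.succ ∘ Fin.succ)
    rw [hx, map_zero] at h1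
    rw [h1]
    refine Finset.sum_congr rfl fun i _ => Finset.sum_congr rfl fun j _ => ?_
    congr 3
    funext l
    refine Fin.cases ?_ (fun l => Fin.cases ?_ (fun l => ?_) l) l
    · rw [Function.update_of_ne (by simp), Function.update_self]
      simp
    · show Function.update (Function.update w 0 i) 1 j 1 = _
      rw [Function.update_self]
      simp
    · rw [Function.update_of_ne (by
        intro h
        have := congrArg Fin.val h
        simp at this), Function.update_of_ne (by simp)]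
      simp
  unfold koszulDim homDim
  have htop : (LinearMap.range (kos μ (m + 1))).submoduleOf (LinearMap.ker (kos ν m)) = ⊤ := by
    rw [Submodule.submoduleOf, Submodule.comap_subtype_eq_top]
    exact hker
  rw [htop]
  haveI : Subsingleton (↥(LinearMap.ker (kos ν m)) ⧸ (⊤ : Submodule k ↥(LinearMap.ker (kos ν m)))) :=
    Submodule.Quotient.subsingleton_iff.2 rfl
  exact Module.finrank_zero_of_subsingleton

end Pool.Agent.GrP
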