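import Mathlib
import Pool.Agent.GrC.Stmt

/-!
The rational nodal curve `C` obtained from `P¹` by gluing `a_l` to `b_l` (`l = 1, ..., g`; the `2g`
points are finite and distinct), its pluricanonical forms and its Koszul cohomology.

Let `t` be the coordinate of `P¹`.  The sections of `ω_C ^ q` are the `φ (dt) ^ q`, `φ ∈ F(t)`, which are
regular outside the `2g` points (also at infinity), have poles of order at most `q` there, and whose
leading coefficients satisfy `[(t - a_l)^q φ](a_l) = (-1)^q [(t - b_l)^q φ](b_l)`.  With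
`D = ∏ (t - a_l) (t - b_l)` this means `φ = P / D ^ q`, `P` a polynomial with `deg P + 2 q ≤ 2 g q` and
`P(a_l) / D'(a_l)^q = (-1)^q P(b_l) / D'(b_l)^q`.
-/

set_option autoImplicit false

namespace Pool.Agent.GrP

open Polynomial Pool.Agent.GrS

section

variable {F : Type*} [Field F] {g : ℕ}

/-- `D = ∏ (t - a_l) (t - b_l)`. -/
noncomputable def DD (a b : Fin g → F) : F[X] := ∏ l, (X - C (a l)) * (X - C (b l))

/-- `P / D ^ q` is a section of `ω_C ^ q`. -/
def IsSec (a b : Fin g → F) (q : ℕ) (P : F[X]) : Prop :=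
  P.degree + ((2 * q : ℕ) : WithBot ℕ) ≤ ((2 * g * q : ℕ) : WithBot ℕ) ∧
    ∀ l, P.eval (a l) / (derivative (DD a b)).eval (a l) ^ q =
      (-1) ^ q * (P.eval (b l) / (derivative (DD a b)).eval (b l) ^ q)

/-- `H⁰(C, ω_C ^ q)`, `C` the rational curve with the nodes `a_l ~ b_l`. -/
noncomputable def HN (a b : Fin g → F) (q : ℕ) : Submodule F (RatFunc F) where
  carrier := {φ | ∃ P : F[X], IsSec a b q P ∧
    φ = algebraMap F[X] (RatFunc F) P / algebraMap F[X] (RatFunc F) (DD a b) ^ q}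
  add_mem' := by
    rintro φ ψ ⟨P, ⟨hP1, hP2⟩, rfl⟩ ⟨Q, ⟨hQ1, hQ2⟩, rfl⟩
    refine ⟨P + Q, ⟨?_, ?_⟩, ?_⟩
    · refine (add_le_add_left (degree_add_le P Q) _).trans ?_
      rcases max_choice P.degree Q.degree with h | h
      · rw [h]
        exact hP1
      · rw [h]
        exact hQ1
    · intro l
      rw [eval_add, eval_add, add_div, add_div, hP2 l, hQ2 l]
      ring
    · rw [map_add, add_div]
  zero_mem' := ⟨0, ⟨by simp, by simp⟩, by simp⟩
  smul_mem' := by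
    rintro c φ ⟨P, ⟨hP1, hP2⟩, rfl⟩
    refine ⟨C c * P, ⟨?_, ?_⟩, ?_⟩
    · refine (add_le_add_left ?_ _).trans hP1
      by_cases hc : c = 0
      · simp [hc]
      · rw [degree_C_mul hc]
    · intro l
      rw [eval_mul, eval_mul, eval_C, eval_C, mul_div_assoc, mul_div_assoc, hP2 l]
      ring
    · rw [map_mul, mul_div_assoc, Algebra.smul_def]
      rfl

lemma isSec_mul {a b : Fin g → F} {q r : ℕ} {P Q : F[X]} (hP : IsSec a b q P)
    (hQ : IsSec a b r Q) : IsSec a b (q + r) (P * Q) := by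
  refine ⟨?_, ?_⟩
  · rw [degree_mul]
    have h1 : ((2 * (q + r) : ℕ) : WithBot ℕ) = ((2 * q : ℕ) : WithBot ℕ) + ((2 * r : ℕ) : WithBot ℕ) := by
      rw [← Nat.cast_add]
      congr 1
      ring
    have h2 : ((2 * g * (q + r) : ℕ) : WithBot ℕ) =
        ((2 * g * q : ℕ) : WithBot ℕ) + ((2 * g * r : ℕ) : WithBot ℕ) := by
      rw [← Nat.cast_add]
      congr 1
      ring
    rw [h1, h2]
    calc P.degree + Q.degree + (((2 * q : ℕ) : WithBot ℕ) + ((2 * r : ℕ) : WithBot ℕ))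
        = (P.degree + ((2 * q : ℕ) : WithBot ℕ)) + (Q.degree + ((2 * r : ℕ) : WithBot ℕ)) := by
          abel
      _ ≤ _ := add_le_add hP.1 hQ.1
  · intro l
    have h1 := hP.2 l
    have h2 := hQ.2 l
    rw [eval_mul, eval_mul, pow_add, pow_add, pow_add, mul_div_mul_comm, mul_div_mul_comm, h1, h2]
    ring

lemma HN_mul {a b : Fin g → F} {q r : ℕ} {φ ψ : RatFunc F} (hφ : φ ∈ HN a b q)
    (hψ : ψ ∈ HN a b r) : φ * ψ ∈ HN a b (q + r) := by
  obtain ⟨P, hP, rfl⟩ := hφ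
  obtain ⟨Q, hQ, rfl⟩ := hψ
  refine ⟨P * Q, isSec_mul hP hQ, ?_⟩
  rw [map_mul, pow_add, mul_div_mul_comm]

/-- The multiplication `H⁰(ω) × H⁰(ω^q) → H⁰(ω^(q+1))`. -/
noncomputable def mulHN (a b : Fin g → F) (q : ℕ) :
    HN a b 1 →ₗ[F] HN a b q →ₗ[F] HN a b (q + 1) :=
  LinearMap.mk₂ F (fun f h => ⟨f.1 * h.1, by rw [add_comm]; exact HN_mul f.2 h.2⟩)
    (fun f f' h => Subtype.ext (add_mul f.1 f'.1 h.1))
    (fun c f h => Subtype.ext (smul_mul_assoc c f.1 h.1))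
    (fun f h h' => Subtype.ext (mul_add f.1 h.1 h'.1))
    (fun c f h => Subtype.ext (mul_smul_comm c f.1 h.1))

/-- `dim K_{i+1, q+1}(C, ω_C)`: the dimension of the homology in the middle of
`⋀^(i+2) H⁰(ω) ⊗ H⁰(ω^q) → ⋀^(i+1) H⁰(ω) ⊗ H⁰(ω^(q+1)) → ⋀^i H⁰(ω) ⊗ H⁰(ω^(q+2))`. -/
noncomputable def kNod (a b : Fin g → F) (i q : ℕ) : ℕ :=
  koszulDim (mulHN a b q) (mulHN a b (q + 1)) i

end

end Pool.Agent.GrP
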