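import Mathlib
import Pool.Agent.GrP.CurveDef
import Pool.Agent.GrP.Nodal

/-!
The differentials `dt/(t - a_l) - dt/(t - b_l)` are a basis of `H⁰(C, ω_C)`.
-/

set_option autoImplicit false

namespace Pool.Agent.GrP

open Polynomial Pool.Agent.GrS

section

variable {F : Type*} [Field F] {g : ℕ}

/-- `(a_l - b_l) ∏_(l' ≠ l) (t - a_l') (t - b_l')`. -/
noncomputable def cof (a b : Fin g → F) (l : Fin g) : F[X] :=
  C (a l - b l) * ∏ l' ∈ Finset.univ.erase l, (X - C (a l')) * (X - C (b l'))

/-- The rest of `D`. -/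
noncomputable def rest (a b : Fin g → F) (l : Fin g) : F[X] :=
  ∏ l' ∈ Finset.univ.erase l, (X - C (a l')) * (X - C (b l'))

lemma DD_eq (a b : Fin g → F) (l : Fin g) :
    DD a b = (X - C (a l)) * (X - C (b l)) * rest a b l := by
  unfold DD rest
  rw [Finset.mul_prod_erase Finset.univ (fun l' => (X - C (a l')) * (X - C (b l')))
    (Finset.mem_univ l)]

lemma DD_ne_zero (a b : Fin g → F) : DD a b ≠ 0 := by
  unfold DD
  rw [Finset.prod_ne_zero_iff]
  intro l _
  exact mul_ne_zero (X_sub_C_ne_zero _) (X_sub_C_ne_zero _)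

lemma DD_degree (a b : Fin g → F) : (DD a b).degree = ((2 * g : ℕ) : WithBot ℕ) := by
  unfold DD
  rw [degree_prod]
  simp only [degree_mul, degree_X_sub_C, Finset.sum_const, Finset.card_univ, Fintype.card_fin]
  rw [nsmul_eq_mul]
  push_cast
  rw [mul_comm]
  norm_num

lemma eval_rest_a {a b : Fin g → F} {l m : Fin g} (h : m ≠ l) :
    (rest a b l).eval (a m) = 0 := by
  unfold rest
  rw [eval_prod]
  apply Finset.prod_eq_zero (Finset.mem_erase.mpr ⟨h, Finset.mem_univ m⟩)
  simp

lemma eval_rest_b {a b : Fin g → F} {l m : Fin g} (h : m ≠ l) :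
    (rest a b l).eval (b m) = 0 := by
  unfold rest
  rw [eval_prod]
  apply Finset.prod_eq_zero (Finset.mem_erase.mpr ⟨h, Finset.mem_univ m⟩)
  simp

lemma eval_rest_ne_a {a b : Fin g → F} (hab : Function.Injective (Sum.elim a b)) (l : Fin g) :
    (rest a b l).eval (a l) ≠ 0 := by
  unfold rest
  rw [eval_prod, Finset.prod_ne_zero_iff]
  intro l' hl'
  have h1 : a l ≠ a l' := by
    intro h
    have := hab (a₁ := Sum.inl l) (a₂ := Sum.inl l') (by simpa using h)
    exact (Finset.mem_erase.mp hl').1 (Sum.inl.inj this).symm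
  have h2 : a l ≠ b l' := by
    intro h
    have := hab (a₁ := Sum.inl l) (a₂ := Sum.inr l') (by simpa using h)
    exact Sum.inl_ne_inr this
  simp only [eval_mul, eval_sub, eval_X, eval_C]
  exact mul_ne_zero (sub_ne_zero.mpr h1) (sub_ne_zero.mpr h2)

lemma eval_rest_ne_b {a b : Fin g → F} (hab : Function.Injective (Sum.elim a b)) (l : Fin g) :
    (rest a b l).eval (b l) ≠ 0 := by
  unfold rest
  rw [eval_prod, Finset.prod_ne_zero_iff]
  intro l' hl'
  have h1 : b l ≠ b l' := by
    intro h
    have := hab (a₁ := Sum.inr l) (a₂ := Sum.inr l') (by simpa using h)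
    exact (Finset.mem_erase.mp hl').1 (Sum.inr.inj this).symm
  have h2 : b l ≠ a l' := by
    intro h
    have := hab (a₁ := Sum.inr l) (a₂ := Sum.inl l') (by simpa using h)
    exact Sum.inl_ne_inr this.symm
  simp only [eval_mul, eval_sub, eval_X, eval_C]
  exact mul_ne_zero (sub_ne_zero.mpr h2) (sub_ne_zero.mpr h1)

omit [Field F] in
lemma ab_ne {a b : Fin g → F} (hab : Function.Injective (Sum.elim a b)) (l : Fin g) :
    a l ≠ b l := by
  intro h
  have := hab (a₁ := Sum.inl l) (a₂ := Sum.inr l) (by simpa using h)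
  exact Sum.inl_ne_inr this

lemma eval_der_a (a b : Fin g → F) (l : Fin g) :
    (derivative (DD a b)).eval (a l) = (a l - b l) * (rest a b l).eval (a l) := by
  rw [DD_eq a b l, derivative_mul, derivative_mul]
  simp

lemma eval_der_b (a b : Fin g → F) (l : Fin g) :
    (derivative (DD a b)).eval (b l) = - ((a l - b l) * (rest a b l).eval (b l)) := by
  rw [DD_eq a b l, derivative_mul, derivative_mul]
  simp
  ring

lemma eval_der_ne_a {a b : Fin g → F} (hab : Function.Injective (Sum.elim a b)) (l : Fin g) :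
    (derivative (DD a b)).eval (a l) ≠ 0 := by
  rw [eval_der_a]
  exact mul_ne_zero (sub_ne_zero.mpr (ab_ne hab l)) (eval_rest_ne_a hab l)

lemma eval_der_ne_b {a b : Fin g → F} (hab : Function.Injective (Sum.elim a b)) (l : Fin g) :
    (derivative (DD a b)).eval (b l) ≠ 0 := by
  rw [eval_der_b]
  exact neg_ne_zero.mpr (mul_ne_zero (sub_ne_zero.mpr (ab_ne hab l)) (eval_rest_ne_b hab l))

lemma cof_eq (a b : Fin g → F) (l : Fin g) : cof a b l = C (a l - b l) * rest a b l := rfl

lemma eval_cof_a {a b : Fin g → F} (l m : Fin g) :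
    (cof a b l).eval (a m) = if m = l then (derivative (DD a b)).eval (a m) else 0 := by
  rw [cof_eq, eval_mul, eval_C]
  split_ifs with h
  · subst h
    rw [eval_der_a]
  · rw [eval_rest_a h, mul_zero]

lemma eval_cof_b {a b : Fin g → F} (l m : Fin g) :
    (cof a b l).eval (b m) = if m = l then - (derivative (DD a b)).eval (b m) else 0 := by
  rw [cof_eq, eval_mul, eval_C]
  split_ifs with h
  · subst h
    rw [eval_der_b, neg_neg]
  · rw [eval_rest_b h, mul_zero]

lemma degree_rest (a b : Fin g → F) (l : Fin g) :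
    (rest a b l).degree + ((2 : ℕ) : WithBot ℕ) = ((2 * g : ℕ) : WithBot ℕ) := by
  have h := DD_degree a b
  rw [DD_eq a b l, degree_mul, degree_mul, degree_X_sub_C, degree_X_sub_C] at h
  rw [← h, add_comm]
  norm_num

lemma cof_isSec {a b : Fin g → F} (hab : Function.Injective (Sum.elim a b)) (l : Fin g) :
    IsSec a b 1 (cof a b l) := by
  refine ⟨?_, ?_⟩
  · rw [cof_eq, degree_mul, degree_C (sub_ne_zero.mpr (ab_ne hab l)), zero_add, mul_one, mul_one,
      degree_rest]
  · intro m
    rw [eval_cof_a, eval_cof_b, pow_one, pow_one, pow_one]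
    by_cases h : m = l
    · rw [if_pos h, if_pos h, div_self (eval_der_ne_a hab m), neg_div,
        div_self (eval_der_ne_b hab m)]
      norm_num
    · rw [if_neg h, if_neg h]
      simp

lemma om_eq {a b : Fin g → F} (l : Fin g) : om (a l) (b l) =
    algebraMap F[X] (RatFunc F) (cof a b l) / algebraMap F[X] (RatFunc F) (DD a b) := by
  have ha : (RatFunc.X - RatFunc.C (a l) : RatFunc F) =
      algebraMap F[X] (RatFunc F) (X - C (a l)) := by
    rw [map_sub, RatFunc.algebraMap_X, RatFunc.algebraMap_C]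
  have hb : (RatFunc.X - RatFunc.C (b l) : RatFunc F) =
      algebraMap F[X] (RatFunc F) (X - C (b l)) := by
    rw [map_sub, RatFunc.algebraMap_X, RatFunc.algebraMap_C]
  have hinj := RatFunc.algebraMap_injective F
  have ha0 : algebraMap F[X] (RatFunc F) (X - C (a l)) ≠ 0 := by
    rw [Ne, map_eq_zero_iff _ hinj]
    exact X_sub_C_ne_zero _
  have hb0 : algebraMap F[X] (RatFunc F) (X - C (b l)) ≠ 0 := by
    rw [Ne, map_eq_zero_iff _ hinj]
    exact X_sub_C_ne_zero _
  have hD0 : algebraMap F[X] (RatFunc F) (DD a b) ≠ 0 := by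
    rw [Ne, map_eq_zero_iff _ hinj]
    exact DD_ne_zero a b
  have hr0 : algebraMap F[X] (RatFunc F) (rest a b l) ≠ 0 := by
    intro h
    rw [DD_eq a b l, map_mul, h, mul_zero] at hD0
    exact hD0 rfl
  have hc : algebraMap F[X] (RatFunc F) (C (a l - b l)) =
      algebraMap F[X] (RatFunc F) (X - C (b l)) - algebraMap F[X] (RatFunc F) (X - C (a l)) := by
    rw [← map_sub]
    congr 1
    rw [C_sub]
    ring
  unfold om
  rw [ha, hb, cof_eq, DD_eq a b l, map_mul, map_mul, map_mul, hc]
  field_simp

lemma om_mem {a b : Fin g → F} (hab : Function.Injective (Sum.elim a b)) (l : Fin g) :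
    om (a l) (b l) ∈ HN a b 1 :=
  ⟨cof a b l, cof_isSec hab l, by rw [pow_one]; exact om_eq l⟩

/-- Two polynomials of degree less than `2g` which agree at the `2g` points are equal. -/
lemma eq_of_eval {a b : Fin g → F} (hab : Function.Injective (Sum.elim a b)) {P Q : F[X]}
    (hP : P.degree < ((2 * g : ℕ) : WithBot ℕ)) (hQ : Q.degree < ((2 * g : ℕ) : WithBot ℕ))
    (h1 : ∀ l, P.eval (a l) = Q.eval (a l)) (h2 : ∀ l, P.eval (b l) = Q.eval (b l)) : P = Q := by
  classical
  apply Polynomial.eq_of_degree_sub_lt_of_eval_finset_eq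
    (Finset.univ.image (Sum.elim a b))
  · rw [Finset.card_image_of_injective _ hab]
    refine (degree_sub_le P Q).trans_lt ?_
    rw [Finset.card_univ, Fintype.card_sum, Fintype.card_fin, ← two_mul]
    exact max_lt hP hQ
  · intro x hx
    obtain ⟨u, -, rfl⟩ := Finset.mem_image.mp hx
    rcases u with l | l
    · exact h1 l
    · exact h2 l

lemma degree_lt_of_isSec {P : F[X]}
    (hP : P.degree + ((2 * 1 : ℕ) : WithBot ℕ) ≤ ((2 * g * 1 : ℕ) : WithBot ℕ)) :
    P.degree < ((2 * g : ℕ) : WithBot ℕ) := by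
  by_cases h0 : P = 0
  · rw [h0, degree_zero]
    exact WithBot.bot_lt_coe _
  · rw [degree_eq_natDegree h0] at hP ⊢
    rw [← Nat.cast_add, Nat.cast_le] at hP
    rw [Nat.cast_lt]
    omega

/-- Partial fractions. -/
lemma sec_eq_sum {a b : Fin g → F} (hab : Function.Injective (Sum.elim a b)) {P : F[X]}
    (hP : IsSec a b 1 P) :
    P = ∑ l, C (P.eval (a l) / (derivative (DD a b)).eval (a l)) * cof a b l := by
  apply eq_of_eval hab (degree_lt_of_isSec hP.1)
  · refine (degree_sum_le _ _).trans_lt ?_
    rw [Finset.sup_lt_iff (WithBot.bot_lt_coe _)]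
    intro l _
    refine lt_of_le_of_lt ?_ (degree_lt_of_isSec (cof_isSec hab l).1)
    by_cases hc : (P.eval (a l) / (derivative (DD a b)).eval (a l)) = 0
    · rw [hc]
      simp
    · rw [degree_C_mul hc]
  · intro m
    rw [eval_finsetSum]
    simp only [eval_mul, eval_C, eval_cof_a]
    rw [Finset.sum_eq_single m]
    · rw [if_pos rfl, div_mul_cancel₀ _ (eval_der_ne_a hab m)]
    · intro l _ hl
      rw [if_neg (Ne.symm hl), mul_zero]
    · intro h
      exact absurd (Finset.mem_univ m) h
  · intro m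
    rw [eval_finsetSum]
    simp only [eval_mul, eval_C, eval_cof_b]
    rw [Finset.sum_eq_single m]
    · have h := hP.2 m
      rw [pow_one, pow_one, pow_one] at h
      rw [if_pos rfl, h]
      have := eval_der_ne_b hab m
      field_simp
    · intro l _ hl
      rw [if_neg (Ne.symm hl), mul_zero]
    · intro h
      exact absurd (Finset.mem_univ m) h

/-- The basis `dt/(t - a_l) - dt/(t - b_l)`. -/
noncomputable def basN (a b : Fin g → F) (hab : Function.Injective (Sum.elim a b)) :
    Module.Basis (Fin g) F (HN a b 1) :=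
  Module.Basis.mk (v := fun l => (⟨om (a l) (b l), om_mem hab l⟩ : HN a b 1))
    (by
      rw [Fintype.linearIndependent_iff]
      intro r hr m
      have h1 : ∑ l, RatFunc.C (r l) * om (a l) (b l) = 0 := by
        have := congrArg Subtype.val hr
        rw [AddSubmonoidClass.coe_finsetSum] at this
        simpa [RatFunc.smul_eq_C_mul] using this
      have h2 : algebraMap F[X] (RatFunc F) (∑ l, C (r l) * cof a b l) = 0 := by
        have hD0 : algebraMap F[X] (RatFunc F) (DD a b) ≠ 0 := by
          rw [Ne, map_eq_zero_iff _ (RatFunc.algebraMap_injective F)]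
          exact DD_ne_zero a b
        have : algebraMap F[X] (RatFunc F) (∑ l, C (r l) * cof a b l) /
            algebraMap F[X] (RatFunc F) (DD a b) = 0 := by
          rw [← h1, map_sum, Finset.sum_div]
          apply Finset.sum_congr rfl
          intro l _
          rw [om_eq, map_mul, mul_div_assoc, RatFunc.algebraMap_C]
        rcases div_eq_zero_iff.mp this with h | h
        · exact h
        · exact absurd h hD0
      rw [map_eq_zero_iff _ (RatFunc.algebraMap_injective F)] at h2
      have h3 := congrArg (Polynomial.eval (a m)) h2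
      rw [eval_finsetSum, eval_zero] at h3
      simp only [eval_mul, eval_C, eval_cof_a] at h3
      rw [Finset.sum_eq_single m] at h3
      · rw [if_pos rfl] at h3
        rcases mul_eq_zero.mp h3 with h | h
        · exact h
        · exact absurd h (eval_der_ne_a hab m)
      · intro l _ hl
        rw [if_neg (Ne.symm hl), mul_zero]
      · intro h
        exact absurd (Finset.mem_univ m) h)
    (by
      rintro ⟨φ, P, hP, rfl⟩ -
      have h1 : (⟨algebraMap F[X] (RatFunc F) P / algebraMap F[X] (RatFunc F) (DD a b) ^ 1,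
          ⟨P, hP, rfl⟩⟩ : HN a b 1) =
          ∑ l, (P.eval (a l) / (derivative (DD a b)).eval (a l)) •
            (⟨om (a l) (b l), om_mem hab l⟩ : HN a b 1) := by
        apply Subtype.ext
        rw [AddSubmonoidClass.coe_finsetSum]
        simp only [SetLike.val_smul]
        conv_lhs => rw [sec_eq_sum hab hP, map_sum, Finset.sum_div, pow_one]
        apply Finset.sum_congr rfl
        intro l _
        rw [om_eq, map_mul, mul_div_assoc, RatFunc.algebraMap_C, RatFunc.smul_eq_C_mul]
      rw [h1]
      apply Submodule.sum_mem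
      intro l _
      apply Submodule.smul_mem
      exact Submodule.subset_span ⟨l, rfl⟩)

lemma basN_apply (a b : Fin g → F) (hab : Function.Injective (Sum.elim a b)) (l : Fin g) :
    (basN a b hab l : RatFunc F) = om (a l) (b l) := by
  unfold basN
  rw [Module.Basis.mk_apply]

/-- `dim H⁰(C, ω_C) = g`. -/
theorem finrank_HN (a b : Fin g → F) (hab : Function.Injective (Sum.elim a b)) :
    Module.finrank F (HN a b 1) = g := by
  rw [Module.finrank_eq_card_basis (basN a b hab), Fintype.card_fin]

lemma one_mem_HN (a b : Fin g → F) : (1 : RatFunc F) ∈ HN a b 0 := by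
  refine ⟨1, ⟨by simp, by simp⟩, by simp⟩

/-- `H⁰(C, O_C) = F`. -/
lemma HN_zero {a b : Fin g → F} (u : HN a b 0) :
    ∃ c : F, u = c • (⟨1, one_mem_HN a b⟩ : HN a b 0) := by
  obtain ⟨φ, P, hP, hφ⟩ := u
  have h1 : P.degree ≤ 0 := by
    have := hP.1
    simpa using this
  obtain ⟨c, hc⟩ : ∃ c, P = C c := ⟨_, eq_C_of_degree_le_zero h1⟩
  refine ⟨c, Subtype.ext ?_⟩
  simp only [SetLike.val_smul]
  rw [hφ, hc, pow_zero, div_one, RatFunc.algebraMap_C, RatFunc.smul_eq_C_mul, mul_one]

end

end Pool.Agent.GrP
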