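import Mathlib
import Pool.Agent.GrC.Stmt

/-!
Specialisation of Koszul cycles.

`O` is a valuation ring of the field `E ⊇ K`, `φ : O → R` a homomorphism to a field which sends the elements of
`K ∩ O` to constants, and the `f_l ∈ O` reduce to `u ω_l`.  If every closed array of constants for
the `ω_l` is alternating, then so is every closed array for the `f_l`.
-/

set_option autoImplicit false

namespace Pool.Agent.GrP

open Finset

/-- Alternating in the arguments `1, 2, ...`. -/
def Halt {F : Type*} [Field F] {N g : ℕ} (e : (Fin (N + 2) → Fin g) → F) : Prop :=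
  ∀ i j : Fin (N + 2), i ≠ 0 → j ≠ 0 → i ≠ j → ∀ v,
    e (v ∘ Equiv.swap i j) = - e v ∧ (v i = v j → e v = 0)

/-- Alternating in the arguments `0, 1`. -/
def Alt01 {F : Type*} [Field F] {N g : ℕ} (e : (Fin (N + 2) → Fin g) → F) : Prop :=
  ∀ v, e (v ∘ Equiv.swap 0 1) = - e v ∧ (v 0 = v 1 → e v = 0)

section

variable {F : Type*} [Field F] {N g : ℕ}

/-- Alternating in all arguments. -/
lemma alt_all {e : (Fin (N + 2) → Fin g) → F} (h1 : Halt e) (h2 : Alt01 e)
    (π : Equiv.Perm (Fin (N + 2))) (v : Fin (N + 2) → Fin g) :
    e (v ∘ π) = ((Equiv.Perm.sign π : ℤˣ) : ℤ) * e v := by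
  have hsw : ∀ i j : Fin (N + 2), i ≠ j → ∀ v, e (v ∘ Equiv.swap i j) = - e v := by
    have h0 : ∀ j : Fin (N + 2), j ≠ 0 → ∀ v, e (v ∘ Equiv.swap 0 j) = - e v := by
      intro j hj v
      by_cases hj1 : j = 1
      · subst hj1
        exact (h2 v).1
      · have e1 : (Equiv.swap 0 j : Equiv.Perm (Fin (N + 2))) =
            Equiv.swap 1 j * Equiv.swap 0 1 * Equiv.swap 1 j := by
          ext x
          have h01 : (0 : Fin (N + 2)) ≠ 1 := by simp
          by_cases hx0 : x = 0
          · subst hx0
            simp [Equiv.swap_apply_of_ne_of_ne h01 (Ne.symm hj)]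
          · by_cases hx1 : x = 1
            · subst hx1
              simp [Equiv.swap_apply_of_ne_of_ne (Ne.symm h01) (Ne.symm hj1),
                Equiv.swap_apply_of_ne_of_ne hj hj1]
            · by_cases hxj : x = j
              · subst hxj
                simp [Equiv.swap_apply_of_ne_of_ne h01 (Ne.symm hj)]
              · simp [Equiv.swap_apply_of_ne_of_ne hx0 hxj, Equiv.swap_apply_of_ne_of_ne hx1 hxj,
                  Equiv.swap_apply_of_ne_of_ne hx0 hx1]
        have e2 : v ∘ (Equiv.swap 0 j : Equiv.Perm (Fin (N + 2))) =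
            ((v ∘ Equiv.swap 1 j) ∘ Equiv.swap 0 1) ∘ Equiv.swap 1 j := by
          rw [e1]
          rfl
        rw [e2, (h1 1 j (by simp) hj (Ne.symm hj1) _).1, (h2 _).1,
          (h1 1 j (by simp) hj (Ne.symm hj1) _).1]
        ring
    intro i j hij v
    by_cases hi : i = 0
    · subst hi
      exact h0 j (Ne.symm hij) v
    · by_cases hj : j = 0
      · subst hj
        rw [Equiv.swap_comm]
        exact h0 i hi v
      · exact (h1 i j hi hj hij v).1
  revert v
  refine Equiv.Perm.swap_induction_on π ?_ ?_
  · intro v
    simp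
  · intro f x y hxy ih v
    have e2 : v ∘ ((Equiv.swap x y * f : Equiv.Perm (Fin (N + 2)))) =
        (v ∘ Equiv.swap x y) ∘ f := rfl
    rw [e2, ih, hsw x y hxy, Equiv.Perm.sign_mul, Equiv.Perm.sign_swap hxy]
    simp

/-- An alternating array which vanishes on increasing tuples is zero. -/
lemma eq_zero_of_alt {e : (Fin (N + 2) → Fin g) → F} (h1 : Halt e) (h2 : Alt01 e)
    (h3 : ∀ v, StrictMono v → e v = 0) : e = 0 := by
  funext v
  change e v = 0
  by_cases hv : Function.Injective v
  · have hm : StrictMono (v ∘ Tuple.sort v) :=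
      (Tuple.monotone_sort v).strictMono_of_injective (hv.comp (Tuple.sort v).injective)
    have := alt_all h1 h2 (Tuple.sort v) v
    rw [h3 _ hm] at this
    rcases Int.units_eq_one_or (Equiv.Perm.sign (Tuple.sort v)) with hs | hs
    · rw [hs] at this
      simpa using this.symm
    · rw [hs] at this
      simpa using this.symm
  · unfold Function.Injective at hv
    push Not at hv
    obtain ⟨i, j, hij, hne⟩ := hv
    have h0 : ∀ j : Fin (N + 2), j ≠ 0 → v 0 = v j → e v = 0 := by
      intro j hj h
      by_cases hj1 : j = 1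
      · subst hj1
        exact (h2 v).2 h
      · have h4 := (h1 1 j (by simp) hj (Ne.symm hj1) v).1
        have h5 := (h2 (v ∘ Equiv.swap 1 j)).2 (by
          simp only [Function.comp_apply, Equiv.swap_apply_left]
          rw [Equiv.swap_apply_of_ne_of_ne (by simp) (Ne.symm hj)]
          exact h)
        rw [h5] at h4
        exact neg_eq_zero.mp h4.symm
    by_cases hi : i = 0
    · subst hi
      exact h0 j (Ne.symm hne) hij
    · by_cases hj : j = 0
      · subst hj
        exact h0 i hne hij.symm
      · exact (h1 i j hi hj hne v).2 hij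

/-- The alternating array with the same values on increasing tuples. -/
noncomputable def AltOf (e : (Fin (N + 2) → Fin g) → F) (v : Fin (N + 2) → Fin g) : F := by
  classical
  exact ∑ u ∈ (Finset.univ : Finset (Fin (N + 2) → Fin g)).filter StrictMono,
    e u * Matrix.det (fun i j => if v i = u j then (1 : F) else 0)

lemma AltOf_swap (e : (Fin (N + 2) → Fin g) → F) (v : Fin (N + 2) → Fin g)
    {i j : Fin (N + 2)} (hij : i ≠ j) : AltOf e (v ∘ Equiv.swap i j) = - AltOf e v := by
  classical
  unfold AltOf
  rw [← Finset.sum_neg_distrib]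
  apply Finset.sum_congr rfl
  intro u _
  have := Matrix.det_permute (Equiv.swap i j) (fun i j => if v i = u j then (1 : F) else 0)
  rw [Equiv.Perm.sign_swap hij] at this
  have e1 : Matrix.det (fun a b => if (v ∘ Equiv.swap i j) a = u b then (1 : F) else 0) =
      - Matrix.det (fun i j => if v i = u j then (1 : F) else 0) := by
    calc _ = Matrix.det (Matrix.submatrix (fun i j => if v i = u j then (1 : F) else 0)
          (Equiv.swap i j) id) := rfl
      _ = _ := by rw [this]; simp
  rw [e1]
  ring

lemma AltOf_eq (e : (Fin (N + 2) → Fin g) → F) (v : Fin (N + 2) → Fin g)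
    {i j : Fin (N + 2)} (hij : i ≠ j) (h : v i = v j) : AltOf e v = 0 := by
  classical
  unfold AltOf
  apply Finset.sum_eq_zero
  intro u _
  rw [Matrix.det_zero_of_row_eq hij, mul_zero]
  funext b
  simp [h]

lemma AltOf_mono (e : (Fin (N + 2) → Fin g) → F) (v : Fin (N + 2) → Fin g)
    (hv : StrictMono v) : AltOf e v = e v := by
  classical
  unfold AltOf
  rw [Finset.sum_eq_single v]
  · have : Matrix.det (fun i j => if v i = v j then (1 : F) else 0) = 1 := by
      rw [← Matrix.det_one (n := Fin (N + 2)) (R := F)]
      congr 1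
      ext i j
      simp [Matrix.one_apply, hv.injective.eq_iff]
    rw [this, mul_one]
  · intro u hu huv
    have hu' : StrictMono u := (Finset.mem_filter.mp hu).2
    -- the images differ, so some row vanishes
    have h1 : ∃ i, ∀ j, v i ≠ u j := by
      by_contra hcon
      push Not at hcon
      apply huv
      have hr : Set.range v ⊆ Set.range u := by
        rintro _ ⟨i, rfl⟩
        obtain ⟨j, hj⟩ := hcon i
        exact ⟨j, hj.symm⟩
      have hr' : Finset.univ.image v = Finset.univ.image u := by
        apply Finset.eq_of_subset_of_card_le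
        · intro x hx
          obtain ⟨i, _, rfl⟩ := Finset.mem_image.mp hx
          obtain ⟨j, hj⟩ := hr ⟨i, rfl⟩
          exact Finset.mem_image.mpr ⟨j, Finset.mem_univ _, hj⟩
        · rw [Finset.card_image_of_injective _ hu'.injective,
            Finset.card_image_of_injective _ hv.injective]
      have hr2 : Set.range u = Set.range v := by
        have := congrArg (fun s : Finset (Fin g) => (s : Set (Fin g))) hr'
        simpa using this.symm
      exact (StrictMono.range_inj hu' hv).mp hr2
    obtain ⟨i, hi⟩ := h1
    rw [Matrix.det_eq_zero_of_row_eq_zero i, mul_zero]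
    intro j
    simp [hi j]
  · intro h
    exact absurd (Finset.mem_filter.mpr ⟨Finset.mem_univ _, hv⟩) h

/-- A double sum which is antisymmetric vanishes. -/
lemma sum_anti {E : Type*} [AddCommGroup E] (a : Fin g → Fin g → E) (h1 : ∀ i j, a j i = - a i j)
    (h2 : ∀ i, a i i = 0) : ∑ i, ∑ j, a i j = 0 := by
  classical
  rw [← Finset.sum_product']
  refine Finset.sum_involution (fun x _ => (x.2, x.1)) ?_ ?_ ?_ ?_
  · rintro ⟨i, j⟩ _
    change a i j + a j i = 0
    rw [h1 i j, add_neg_cancel]
  · rintro ⟨i, j⟩ _ hne h
    apply hne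
    have : j = i := congrArg Prod.fst h
    subst this
    exact h2 _
  · rintro ⟨i, j⟩ _
    exact Finset.mem_univ _
  · rintro ⟨i, j⟩ _
    rfl

end

section

variable {K E F R : Type*} [Field K] [Field E] [Field F] [Field R] [Algebra K E] [Algebra F R]

/-- Scaling a family of elements of `K`. -/
lemma exists_scale {ι : Type*} [Finite ι] (O : ValuationSubring E) (a : ι → K)
    (ha : ∃ i, a i ≠ 0) :
    ∃ b : K, b ≠ 0 ∧ (∀ i, algebraMap K E (b * a i) ∈ O) ∧ ∃ i, b * a i = 1 := by
  obtain ⟨i0, hi0⟩ := ha
  haveI : Nonempty ι := ⟨i0⟩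
  obtain ⟨i, hi⟩ := Finite.exists_max (fun i => O.valuation (algebraMap K E (a i)))
  have hai : a i ≠ 0 := by
    intro h
    have h1 := hi i0
    rw [h, map_zero, map_zero] at h1
    have h2 := le_zero_iff.mp h1
    rw [map_eq_zero, map_eq_zero] at h2
    exact hi0 h2
  refine ⟨(a i)⁻¹, inv_ne_zero hai, ?_, i, inv_mul_cancel₀ hai⟩
  intro j
  rw [← ValuationSubring.valuation_le_one_iff, map_mul, map_mul, map_inv₀, map_inv₀]
  have h3 : O.valuation (algebraMap K E (a i)) ≠ 0 := by
    rw [Ne, map_eq_zero, map_eq_zero]
    exact hai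
  calc (O.valuation (algebraMap K E (a i)))⁻¹ * O.valuation (algebraMap K E (a j))
      ≤ (O.valuation (algebraMap K E (a i)))⁻¹ * O.valuation (algebraMap K E (a i)) :=
        mul_le_mul_right (hi j) _
    _ = 1 := inv_mul_cancel₀ h3

/-- The specialisation of closed arrays. -/
theorem spec_arr (N g : ℕ) (O : ValuationSubring E) (φ : O →+* R)
    (hφ : ∀ (c : K) (hc : algebraMap K E c ∈ O), ∃ c' : F, φ ⟨algebraMap K E c, hc⟩ =
      algebraMap F R c')
    (f : Fin g → E) (hfO : ∀ l, f l ∈ O) (ω : Fin g → R) (u : R) (hu : u ≠ 0)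
    (hf : ∀ l, φ ⟨f l, hfO l⟩ = u * ω l)
    (H : ∀ e : (Fin (N + 2) → Fin g) → F, Halt e →
      (∀ w : Fin (N + 2) → Fin g,
        ∑ i, ∑ j, algebraMap F R (e (Function.update (Function.update w 0 i) 1 j)) *
          (ω i * ω j) = 0) → Alt01 e)
    (e : (Fin (N + 2) → Fin g) → K) (he : Halt e)
    (hcl : ∀ w : Fin (N + 2) → Fin g,
      ∑ i, ∑ j, algebraMap K E (e (Function.update (Function.update w 0 i) 1 j)) *
        (f i * f j) = 0) : Alt01 e := by
  classical
  have h01 : (0 : Fin (N + 2)) ≠ 1 := by simp
  set A := AltOf e with hA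
  set e' : (Fin (N + 2) → Fin g) → K := fun v => e v - A v with he'
  have hsw : ∀ (w : Fin (N + 2) → Fin g) (i j : Fin g),
      Function.update (Function.update w 0 j) 1 i =
        (Function.update (Function.update w 0 i) 1 j) ∘ Equiv.swap 0 1 := by
    intro w i j
    funext l
    by_cases hl0 : l = 0
    · subst hl0
      simp [Function.update_of_ne h01]
    · by_cases hl1 : l = 1
      · subst hl1
        simp [Function.update_of_ne h01]
      · rw [Function.update_of_ne hl1, Function.update_of_ne hl0, Function.comp_apply,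
          Equiv.swap_apply_of_ne_of_ne hl0 hl1, Function.update_of_ne hl1,
          Function.update_of_ne hl0]
  have he'1 : Halt e' := by
    intro i j hi hj hij v
    refine ⟨?_, ?_⟩
    · simp only [he']
      rw [(he i j hi hj hij v).1, hA, AltOf_swap e v hij]
      ring
    · intro h
      simp only [he']
      rw [(he i j hi hj hij v).2 h, hA, AltOf_eq e v hij h, sub_zero]
  have he'2 : ∀ w : Fin (N + 2) → Fin g,
      ∑ i, ∑ j, algebraMap K E (e' (Function.update (Function.update w 0 i) 1 j)) *
        (f i * f j) = 0 := by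
    intro w
    have h1 : ∑ i, ∑ j, algebraMap K E (A (Function.update (Function.update w 0 i) 1 j)) *
        (f i * f j) = 0 := by
      apply sum_anti
      · intro i j
        rw [hsw w i j, hA, AltOf_swap e _ h01, map_neg]
        ring
      · intro i
        rw [hA, AltOf_eq e _ h01 (by simp [Function.update_of_ne h01]), map_zero, zero_mul]
    simp only [he', map_sub, sub_mul, Finset.sum_sub_distrib]
    rw [hcl w, h1, sub_zero]
  have he'0 : e' = 0 := by
    by_contra hne
    obtain ⟨v0, hv0⟩ := Function.ne_iff.mp hne
    obtain ⟨b, hb, hbO, v1, hv1⟩ := exists_scale (K := K) (E := E) O e' ⟨v0, hv0⟩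
    choose ē hē using fun v => hφ (b * e' v) (hbO v)
    have inj : Function.Injective (algebraMap F R) := (algebraMap F R).injective
    have hē1 : Halt ē := by
      intro i j hi hj hij v
      refine ⟨?_, ?_⟩
      · apply inj
        rw [map_neg, ← hē, ← hē, ← map_neg]
        congr 1
        apply Subtype.ext
        change algebraMap K E (b * e' (v ∘ Equiv.swap i j)) = - algebraMap K E (b * e' v)
        rw [(he'1 i j hi hj hij v).1, ← map_neg]
        congr 1
        ring
      · intro h
        apply inj
        rw [map_zero, ← hē, ← map_zero φ]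
        congr 1
        apply Subtype.ext
        change algebraMap K E (b * e' v) = 0
        rw [(he'1 i j hi hj hij v).2 h, mul_zero, map_zero]
    have hē2 : ∀ w : Fin (N + 2) → Fin g,
        ∑ i, ∑ j, algebraMap F R (ē (Function.update (Function.update w 0 i) 1 j)) *
          (ω i * ω j) = 0 := by
      intro w
      have h1 : ∑ i, ∑ j, (⟨algebraMap K E
          (b * e' (Function.update (Function.update w 0 i) 1 j)), hbO _⟩ : O) *
            (⟨f i, hfO i⟩ * ⟨f j, hfO j⟩) = 0 := by
        apply Subtype.ext
        have h2 : (((∑ i, ∑ j, (⟨algebraMap K E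
          (b * e' (Function.update (Function.update w 0 i) 1 j)), hbO _⟩ : O) *
            (⟨f i, hfO i⟩ * ⟨f j, hfO j⟩)) : O) : E) = ∑ i, ∑ j, algebraMap K E
          (b * e' (Function.update (Function.update w 0 i) 1 j)) * (f i * f j) := by
          rw [AddSubmonoidClass.coe_finsetSum]
          apply Finset.sum_congr rfl
          intro i _
          rw [AddSubmonoidClass.coe_finsetSum]
          rfl
        rw [h2]
        have h3 := he'2 w
        rw [ZeroMemClass.coe_zero, ← mul_zero (algebraMap K E b), ← h3, Finset.mul_sum]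
        apply Finset.sum_congr rfl
        intro i _
        rw [Finset.mul_sum]
        apply Finset.sum_congr rfl
        intro j _
        rw [map_mul]
        ring
      have h4 := congrArg φ h1
      rw [map_zero, map_sum] at h4
      have h5 : ∑ i, ∑ j, algebraMap F R (ē (Function.update (Function.update w 0 i) 1 j)) *
          (ω i * ω j) * u ^ 2 = 0 := by
        rw [← h4]
        apply Finset.sum_congr rfl
        intro i _
        rw [map_sum]
        apply Finset.sum_congr rfl
        intro j _
        rw [map_mul φ, map_mul φ, hf, hf, hē]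
        ring
      simp only [← Finset.sum_mul] at h5
      exact (mul_eq_zero.mp h5).resolve_right (pow_ne_zero 2 hu)
    have hē3 : ∀ v, StrictMono v → ē v = 0 := by
      intro v hv
      apply inj
      rw [map_zero, ← hē, ← map_zero φ]
      congr 1
      apply Subtype.ext
      change algebraMap K E (b * e' v) = 0
      have : e' v = 0 := by
        simp only [he']
        rw [hA, AltOf_mono e v hv, sub_self]
      rw [this, mul_zero, map_zero]
    have hē0 := eq_zero_of_alt hē1 (H ē hē1 hē2) hē3
    have h6 := hē v1
    rw [hē0] at h6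
    have h7 : (⟨algebraMap K E (b * e' v1), hbO v1⟩ : O) = 1 := by
      apply Subtype.ext
      change algebraMap K E (b * e' v1) = 1
      rw [hv1, map_one]
    rw [h7, map_one] at h6
    simp at h6
  have heA : e = A := by
    funext v
    have := congrFun he'0 v
    simp only [he', Pi.zero_apply] at this
    exact sub_eq_zero.mp this
  intro v
  rw [heA, hA]
  exact ⟨AltOf_swap e v h01, AltOf_eq e v h01⟩

end

end Pool.Agent.GrP
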