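import Mathlib
import Pool.Agent.GrC.Stmt
import Pool.Agent.GrP.Spec
import Pool.Agent.GrP.Nodal
import Pool.Agent.GrP.CurveBasis
import Pool.Agent.GrP.Bridge

/-!
Smooth curves which specialise to the nodal rational curve with the nodes `τ_l ~ ρ^(-1) τ_l`.
-/

set_option autoImplicit false

namespace Pool.Agent.GrP

open Polynomial Pool.Agent.GrS

section

variable {K E F : Type*} [Field K] [Field E] [Field F] [Algebra K E] [Algebra K[X] E]
  [Algebra (RatFunc K) E]

/-- The forms `om (a l) (b l)` are linearly independent over the constants. -/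
lemma om_indep {g : ℕ} (a b : Fin g → F) (hab : Function.Injective (Sum.elim a b))
    (c : Fin g → F) (h : ∑ l, RatFunc.C (c l) * om (a l) (b l) = 0) : c = 0 := by
  have h1 : ∑ l, c l • basN a b hab l = 0 := by
    apply Subtype.ext
    rw [AddSubmonoidClass.coe_finsetSum, ZeroMemClass.coe_zero, ← h]
    apply Finset.sum_congr rfl
    intro l _
    rw [SetLike.val_smul, basN_apply, RatFunc.smul_eq_C_mul]
  funext l
  exact Fintype.linearIndependent_iff.mp (basN a b hab).linearIndependent c h1 l

/-- `X` is a smooth curve over the algebraically closed field `K` with function field `E`; `O` is a valuation ring of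
`E`, `φ : O → R` a homomorphism to a field `R ⊇ F(z)` with `φ (K ∩ O) ⊆ F`, and the regular
differentials `f_l dt` specialise to `u ω_l`, where the `ω_l` are the differentials of the rational curve with the nodes
`τ_l ~ ρ^(-1) τ_l` over `F`.  Then `K_(m'+1,1)(X, ω_X) = 0` if `m ≤ m'`, `g ≤ m + m' + 3` and no binomial
coefficient `C(m, j)` vanishes in `F`. -/
theorem smooth_main {R : Type*} [Field R] (ψ : RatFunc F →+* R) (p : ℕ) [Fact p.Prime] [CharP F p]
    (m m' g : ℕ) (hg0 : 0 < g) (hmm : m ≤ m')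
    (hg : g ≤ m + m' + 3) (hbin : ∀ j ≤ m, (m.choose j : F) ≠ 0) (ρ : F) (hρ0 : ρ ≠ 0)
    (hρ : ∀ i j, i < j → j < g - m' → ρ ^ i ≠ ρ ^ j)
    (τ : Fin g → F) (hτ0 : ∀ l, τ l ≠ 0) (hτ : Function.Injective τ)
    (hτρ : ∀ l l', τ l ≠ ρ * τ l')
    (hgen : genus K E = g) (O : ValuationSubring E) (φ : O →+* R)
    (hφ : ∀ (c : K) (hc : algebraMap K E c ∈ O), ∃ c' : F, φ ⟨algebraMap K E c, hc⟩ =
      ψ (RatFunc.C c'))
    (f : Fin g → E) (hfK : ∀ l, f l ∈ HK K E 1) (hfO : ∀ l, f l ∈ O) (u : R) (hu : u ≠ 0)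
    (hf : ∀ l, φ ⟨f l, hfO l⟩ = u * ψ (om (τ l) (ρ⁻¹ * τ l))) :
    kDim K E m' 0 = 0 := by
  classical
  have hab : Function.Injective (Sum.elim τ (fun l => ρ⁻¹ * τ l)) := by
    rintro (l | l) (l' | l') h
    · exact congrArg _ (hτ h)
    · exfalso
      have h' : τ l = ρ⁻¹ * τ l' := h
      exact hτρ l' l (by rw [h', mul_inv_cancel_left₀ hρ0])
    · exfalso
      have h' : ρ⁻¹ * τ l = τ l' := h
      exact hτρ l l' (by rw [← h', mul_inv_cancel_left₀ hρ0])
    · have h' : ρ⁻¹ * τ l = ρ⁻¹ * τ l' := h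
      exact congrArg _ (hτ (mul_left_cancel₀ (inv_ne_zero hρ0) h'))
  -- the `f l` are independent
  have hli : LinearIndependent K (fun l => (⟨f l, hfK l⟩ : HK K E 1)) := by
    rw [Fintype.linearIndependent_iff]
    intro a ha
    by_contra hne
    push Not at hne
    obtain ⟨b, hb, hbO, l1, hl1⟩ := exists_scale (K := K) (E := E) O a hne
    choose c hc using fun l => hφ (b * a l) (hbO l)
    have h1 : ∑ l, (⟨algebraMap K E (b * a l), hbO l⟩ : O) * ⟨f l, hfO l⟩ = 0 := by
      apply Subtype.ext
      rw [AddSubmonoidClass.coe_finsetSum, ZeroMemClass.coe_zero]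
      have h2 := congrArg (fun z : HK K E 1 => algebraMap K E b * (z : E)) ha
      simp only [AddSubmonoidClass.coe_finsetSum, SetLike.val_smul, ZeroMemClass.coe_zero,
        mul_zero] at h2
      rw [← h2, Finset.mul_sum]
      apply Finset.sum_congr rfl
      intro l _
      change algebraMap K E (b * a l) * f l = _
      rw [Algebra.smul_def, map_mul]
      ring
    have h3 := congrArg φ h1
    rw [map_zero, map_sum] at h3
    have h4 : ∑ l, RatFunc.C (c l) * om (τ l) (ρ⁻¹ * τ l) = 0 := by
      have h5 : (∑ l, ψ (RatFunc.C (c l)) * ψ (om (τ l) (ρ⁻¹ * τ l))) * u = 0 := by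
        rw [← h3, Finset.sum_mul]
        apply Finset.sum_congr rfl
        intro l _
        rw [map_mul φ, hf, hc]
        ring
      have h6 := (mul_eq_zero.mp h5).resolve_right hu
      apply ψ.injective
      rw [map_zero, map_sum, ← h6]
      apply Finset.sum_congr rfl
      intro l _
      rw [map_mul]
    have h6 := om_indep τ (fun l => ρ⁻¹ * τ l) hab c h4
    have h7 := hc l1
    rw [h6] at h7
    have h8 : (⟨algebraMap K E (b * a l1), hbO l1⟩ : O) = 1 := by
      apply Subtype.ext
      change algebraMap K E (b * a l1) = 1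
      rw [hl1, map_one]
    rw [h8, map_one] at h7
    simp at h7
  haveI : Nonempty (Fin g) := ⟨⟨0, hg0⟩⟩
  have hcard : Fintype.card (Fin g) = Module.finrank K (HK K E 1) := by
    rw [Fintype.card_fin]
    exact hgen.symm
  let B : Module.Basis (Fin g) K (HK K E 1) :=
    basisOfLinearIndependentOfCardEqFinrank hli hcard
  have hB : ∀ l, B l = ⟨f l, hfK l⟩ := by
    intro l
    simp [B]
  have hone : (1 : E) ∈ HK K E 0 := by
    refine ⟨?_, ?_⟩
    · change (1 : E) ∈ Submodule.span K (omFin K E) ^ 0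
      rw [pow_zero]
      exact Submodule.one_le.mp le_rfl
    · change (1 : E) ∈ Submodule.span K (omInf K E) ^ 0
      rw [pow_zero]
      exact Submodule.one_le.mp le_rfl
  have hU : ∀ v : HK K E 0, ∃ a : K, v = a • (⟨1, hone⟩ : HK K E 0) := by
    rintro ⟨v, hv⟩
    have h1 : v ∈ (1 : Submodule K E) := by
      have := hv.1
      change v ∈ Submodule.span K (omFin K E) ^ 0 at this
      rwa [pow_zero] at this
    obtain ⟨a, rfl⟩ := Submodule.mem_one.mp h1
    refine ⟨a, Subtype.ext ?_⟩
    change algebraMap K E a = a • (1 : E)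
    rw [Algebra.algebraMap_eq_smul_one]
  letI : Algebra F R := (ψ.comp RatFunc.C).toAlgebra
  have hFR : ∀ c : F, algebraMap F R c = ψ (RatFunc.C c) := fun c => rfl
  unfold kDim
  refine bridge_main g m' B (⟨1, hone⟩ : HK K E 0) hU _ ?_ _ ?_ ?_
  · intro v
    exact Subtype.ext (mul_one v.1)
  · intro v w
    exact Subtype.ext (mul_comm v.1 w.1)
  · intro e halt hcl
    refine spec_arr (K := K) (E := E) (F := F) (R := R) m' g O φ ?_ f hfO
      (fun l => ψ (om (τ l) (ρ⁻¹ * τ l))) u hu hf ?_ e halt ?_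
    · intro c hc
      obtain ⟨c', hc'⟩ := hφ c hc
      exact ⟨c', by rw [hc', hFR]⟩
    · intro ē h1 h2
      refine nodal_gen p m m' g hmm hg hbin ρ hρ0 hρ τ hτ0 hτ hτρ ē h1 ?_
      intro w
      apply ψ.injective
      rw [map_zero, ← h2 w, map_sum]
      apply Finset.sum_congr rfl
      intro i _
      rw [map_sum]
      apply Finset.sum_congr rfl
      intro j _
      rw [map_mul, map_mul, hFR]
    · intro w
      have h := congrArg Subtype.val (hcl w)
      rw [AddSubmonoidClass.coe_finsetSum] at h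
      rw [ZeroMemClass.coe_zero] at h
      rw [← h]
      apply Finset.sum_congr rfl
      intro i _
      rw [AddSubmonoidClass.coe_finsetSum]
      apply Finset.sum_congr rfl
      intro j _
      rw [SetLike.val_smul, Algebra.smul_def]
      congr 1
      rw [mul_comm]
      change _ = (B j : E) * (B i : E)
      rw [hB, hB]

end

end Pool.Agent.GrP
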