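import Mathlib

/-!
The binomial coefficients `C(a p^s - 1, j)`, `1 ≤ a < p`, are not divisible by `p`.
-/

set_option autoImplicit false

namespace Pool.Agent.GrP

lemma binom_small (p : ℕ) (hp : p.Prime) (a j : ℕ) (ha : a < p) (hj : j ≤ a) :
    ¬ p ∣ a.choose j := by
  intro h
  have h1 : a.choose j ∣ a.factorial := by
    rw [← Nat.choose_mul_factorial_mul_factorial hj, mul_assoc]
    exact dvd_mul_right _ _
  have h2 := (hp.dvd_factorial).mp (h.trans h1)
  omega

theorem binom_not_dvd (p : ℕ) (hp : p.Prime) (a s : ℕ) (ha1 : 1 ≤ a) (ha : a < p) (j : ℕ)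
    (hj : j ≤ a * p ^ s - 1) : ¬ p ∣ (a * p ^ s - 1).choose j := by
  induction s generalizing j with
  | zero =>
    rw [pow_zero, mul_one] at hj ⊢
    exact binom_small p hp (a - 1) j (by omega) hj
  | succ s ih =>
    haveI : Fact p.Prime := ⟨hp⟩
    have hp0 : 0 < p := hp.pos
    have hps : 0 < a * p ^ s := Nat.mul_pos ha1 (pow_pos hp0 s)
    have hm : a * p ^ (s + 1) - 1 = (p - 1) + p * (a * p ^ s - 1) := by
      have h1 : a * p ^ (s + 1) = p * (a * p ^ s) := by ring
      rw [h1]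
      obtain ⟨u, hu⟩ : ∃ u, a * p ^ s = u + 1 := ⟨a * p ^ s - 1, by omega⟩
      rw [hu, Nat.add_sub_cancel, mul_add, mul_one]
      omega
    have h1 : (a * p ^ (s + 1) - 1) % p = p - 1 := by
      rw [hm, Nat.add_mul_mod_self_left, Nat.mod_eq_of_lt (by omega)]
    have h2 : (a * p ^ (s + 1) - 1) / p = a * p ^ s - 1 := by
      rw [hm, Nat.add_mul_div_left _ _ hp0, Nat.div_eq_of_lt (by omega), zero_add]
    have h3 := Choose.choose_modEq_choose_mod_mul_choose_div_nat (p := p)
      (n := a * p ^ (s + 1) - 1) (k := j)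
    rw [h1, h2] at h3
    intro h
    have h4 : p ∣ (p - 1).choose (j % p) * (a * p ^ s - 1).choose (j / p) :=
      (Nat.modEq_zero_iff_dvd.mp (h3.symm.trans (Nat.modEq_zero_iff_dvd.mpr h)))
    have h5 : j / p ≤ a * p ^ s - 1 := by
      rw [← h2]
      exact Nat.div_le_div_right hj
    have h6 : j % p ≤ p - 1 := by
      have := Nat.mod_lt j hp0
      omega
    rcases (hp.dvd_mul).mp h4 with h7 | h7
    · exact binom_small p hp (p - 1) (j % p) (by omega) h6 h7
    · exact ih (j / p) h5 h7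

theorem binom_ne_zero {F : Type*} [Field F] (p : ℕ) [Fact p.Prime] [CharP F p] (a s : ℕ)
    (ha1 : 1 ≤ a) (ha : a < p) (j : ℕ) (hj : j ≤ a * p ^ s - 1) :
    ((a * p ^ s - 1).choose j : F) ≠ 0 := by
  rw [Ne, CharP.cast_eq_zero_iff F p]
  exact binom_not_dvd p Fact.out a s ha1 ha j hj

end Pool.Agent.GrP
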