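import Mathlib
import Pool.Agent.GrC.Stmt
import Pool.Agent.GrP.CurveDef

/-!
The Koszul cohomology of a graded ring of sections, and `K_(i,q)(C, ω_C)` for the rational nodal curve
`C` in this form (short to print).
-/

set_option autoImplicit false

namespace Pool.Agent.GrP

open Polynomial Pool.Agent.GrS

section

variable {F A : Type*} [Field F] [CommRing A] [Algebra F A]

/-- Subspaces `S 0, S 1, …` of a ring with `S 1 * S q ⊆ S (q+1)`: the graded pieces of a ring of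
sections. -/
def IsGraded (S : ℕ → Submodule F A) : Prop :=
  ∀ q, ∀ f ∈ S 1, ∀ h ∈ S q, f * h ∈ S (q + 1)

/-- The multiplication `S 1 × S q → S (q+1)`. -/
noncomputable def gmul (S : ℕ → Submodule F A) (hS : IsGraded S) (q : ℕ) :
    S 1 →ₗ[F] S q →ₗ[F] S (q + 1) :=
  LinearMap.mk₂ F (fun f h => ⟨f.1 * h.1, hS q f.1 f.2 h.1 h.2⟩)
    (fun f f' h => Subtype.ext (add_mul f.1 f'.1 h.1))
    (fun c f h => Subtype.ext (smul_mul_assoc c f.1 h.1))
    (fun f h h' => Subtype.ext (mul_add f.1 h.1 h'.1))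
    (fun c f h => Subtype.ext (mul_smul_comm c f.1 h.1))

/-- The dimension of the homology in the middle of
`⋀^(i+1) S 1 ⊗ S q → ⋀^i S 1 ⊗ S (q+1) → ⋀^(i-1) S 1 ⊗ S (q+2)`, `i ≥ 1`. -/
noncomputable def kGr (S : ℕ → Submodule F A) (hS : IsGraded S) (i q : ℕ) : ℕ :=
  koszulDim (gmul S hS q) (gmul S hS (q + 1)) (i - 1)

end

section

variable {F : Type*} [Field F] {g : ℕ}

theorem isGraded_HN (a b : Fin g → F) : IsGraded (HN a b) := by
  intro q f hf h hh
  rw [add_comm]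
  exact HN_mul hf hh

/-- `dim K_(i,q+1)(C, ω_C)`, `i ≥ 1`, where `C` is the rational curve with the nodes `a_l ~ b_l`: the
dimension of the homology in the middle of
`⋀^(i+1) H⁰(ω) ⊗ H⁰(ω^q) → ⋀^i H⁰(ω) ⊗ H⁰(ω^(q+1)) → ⋀^(i-1) H⁰(ω) ⊗ H⁰(ω^(q+2))`. -/
noncomputable def kC (a b : Fin g → F) (i q : ℕ) : ℕ :=
  kGr (HN a b) (isGraded_HN a b) i q

theorem kC_eq (a b : Fin g → F) (i q : ℕ) : kC a b (i + 1) q = kNod a b i q := rfl

end

end Pool.Agent.GrP
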