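import Mathlib
import Pool.Agent.GrP.CurveBasis

/-!
Semicontinuity: the coordinate form of `K_(m'+1,1)(C, ω_C) = 0` at one nodal rational curve implies
the same for all nodal rational curves in a non-empty open set.

Proof.  Multiply the closedness relation by `D^2`: it becomes
`∑_(i,j) e(i,j,w) cof_i cof_j = 0` in `F[t]` (`om_eq`), whose coefficients are polynomials in the
`a_l, b_l`.  Let `A` be the space of arrays alternating in `v_1, ..., v_(m'+1)`, `B ≤ A` the subspace
of the arrays alternating in all entries (`e(v ∘ swap 0 1) = - e v` and `e v = 0` if `v 0 = v 1`); `B` is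
in the kernel for every `(a,b)`.  The induced map `T_(a,b)` on `A/B` (finite-dimensional) is injective
at `(a0,b0)`; with a left inverse `L` of `T_(a0,b0)` and a basis of `A/B` put
`Δ(a,b) = det (L ∘ T_(a,b))`, a polynomial in `(a,b)` with `Δ(a0,b0) = 1`.  If `Δ(a,b) ≠ 0` then
`T_(a,b)` is injective on `A/B`.
-/

set_option autoImplicit false

namespace Pool.Agent.GrP

section

/-- Injectivity of a matrix with polynomial entries is an open condition. -/
lemma genNod_mat {F : Type*} [Field F] {σ κ : Type*} [Fintype κ] [DecidableEq κ] {r : ℕ}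
    (P : Matrix κ (Fin r) (MvPolynomial σ F)) (x0 : σ → F)
    (hinj0 : ∀ y : Fin r → F, (P.map (MvPolynomial.eval x0)).mulVec y = 0 → y = 0) :
    ∃ Δ : MvPolynomial σ F, MvPolynomial.eval x0 Δ ≠ 0 ∧
      ∀ x : σ → F, MvPolynomial.eval x Δ ≠ 0 →
        ∀ y : Fin r → F, (P.map (MvPolynomial.eval x)).mulVec y = 0 → y = 0 := by
  obtain ⟨L, hL⟩ := LinearMap.exists_leftInverse_of_injective
    (Matrix.toLin' (P.map (MvPolynomial.eval x0))) (by
      rw [LinearMap.ker_eq_bot']
      intro y hy
      rw [Matrix.toLin'_apply] at hy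
      exact hinj0 y hy)
  have key : ∀ x : σ → F, MvPolynomial.eval x
      (((LinearMap.toMatrix' L).map (MvPolynomial.C : F → MvPolynomial σ F)) * P).det =
        ((LinearMap.toMatrix' L) * P.map (MvPolynomial.eval x)).det := by
    intro x
    rw [RingHom.map_det, RingHom.mapMatrix_apply, Matrix.map_mul]
    congr 2
    ext i j
    simp
  refine ⟨(((LinearMap.toMatrix' L).map (MvPolynomial.C : F → MvPolynomial σ F)) * P).det,
    ?_, ?_⟩
  · rw [key]
    have h2 : (LinearMap.toMatrix' L) * P.map (MvPolynomial.eval x0) = 1 := by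
      have h3 := congrArg LinearMap.toMatrix' hL
      rw [LinearMap.toMatrix'_comp, LinearMap.toMatrix'_toLin', LinearMap.toMatrix'_id] at h3
      exact h3
    rw [h2, Matrix.det_one]
    exact one_ne_zero
  · intro x hx y hy
    rw [key] at hx
    have h2 : ((LinearMap.toMatrix' L) * P.map (MvPolynomial.eval x)).mulVec y = 0 := by
      rw [← Matrix.mulVec_mulVec, hy, Matrix.mulVec_zero]
    by_contra hne
    exact hx (Matrix.exists_mulVec_eq_zero_iff.mp ⟨y, hne, h2⟩)

/-- A basis of a subspace of `F^ι`. -/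
lemma genNod_basis {F : Type*} [Field F] {ι : Type*} [Fintype ι] (C' : Submodule F (ι → F)) :
    ∃ (r : ℕ) (f : Fin r → ι → F), (∀ s, f s ∈ C') ∧
      (∀ y : Fin r → F, (∑ s, y s • f s) = 0 → y = 0) ∧
      ∀ d ∈ C', ∃ y : Fin r → F, d = ∑ s, y s • f s := by
  have hfree : Module.Free F C' := Module.Free.of_divisionRing F C'
  have c := Module.finBasis F C'
  refine ⟨_, fun s => (c s : ι → F), fun s => (c s).2, ?_, ?_⟩
  · intro y hy
    have h3 : (∑ s, y s • c s : C') = 0 := by
      apply Subtype.ext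
      rw [Submodule.coe_sum]
      exact hy
    have h4 := (Fintype.linearIndependent_iff.mp c.linearIndependent) y h3
    funext s
    exact h4 s
  · intro d hd
    refine ⟨fun s => c.repr ⟨d, hd⟩ s, ?_⟩
    have h := congrArg Subtype.val (c.sum_repr ⟨d, hd⟩)
    rw [Submodule.coe_sum] at h
    exact h.symm

/-- Openness of `{e ∈ A, all M-sums zero} ⊆ B`, the matrix `M` with polynomial entries. -/
lemma genNod_open {F : Type*} [Field F] {σ ι κ : Type*} [Fintype ι] [Fintype κ]
    (M : κ → ι → MvPolynomial σ F) (A B : Submodule F (ι → F))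
    (hB : ∀ x : σ → F, ∀ e ∈ A, e ∈ B → ∀ k, ∑ i, MvPolynomial.eval x (M k i) * e i = 0)
    (x0 : σ → F) (h0 : ∀ e ∈ A, (∀ k, ∑ i, MvPolynomial.eval x0 (M k i) * e i = 0) → e ∈ B) :
    ∃ Δ : MvPolynomial σ F, MvPolynomial.eval x0 Δ ≠ 0 ∧
      ∀ x : σ → F, MvPolynomial.eval x Δ ≠ 0 →
        ∀ e ∈ A, (∀ k, ∑ i, MvPolynomial.eval x (M k i) * e i = 0) → e ∈ B := by
  classical
  obtain ⟨Cc, hCc⟩ := exists_isCompl (A ⊓ B)
  obtain ⟨r, f, hfm, hfi, hfs⟩ := genNod_basis (Cc ⊓ A)
  obtain ⟨P, hP⟩ : ∃ P : Matrix κ (Fin r) (MvPolynomial σ F),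
      ∀ k s, P k s = ∑ i, M k i * MvPolynomial.C (f s i) := ⟨fun k s => _, fun k s => rfl⟩
  -- the evaluated matrix acts as the sums
  have hPx : ∀ (x : σ → F) (y : Fin r → F) (k : κ),
      ((P.map (MvPolynomial.eval x)).mulVec y) k =
        ∑ i, MvPolynomial.eval x (M k i) * (∑ s, y s • f s) i := by
    intro x y k
    have e1 : ∀ s, (P.map (MvPolynomial.eval x)) k s =
        ∑ i, MvPolynomial.eval x (M k i) * f s i := by
      intro s
      rw [Matrix.map_apply, hP, map_sum]
      refine Finset.sum_congr rfl fun i _ => ?_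
      rw [map_mul, MvPolynomial.eval_C]
    calc ((P.map (MvPolynomial.eval x)).mulVec y) k
        = ∑ s, (P.map (MvPolynomial.eval x)) k s * y s := rfl
      _ = ∑ s, ∑ i, MvPolynomial.eval x (M k i) * f s i * y s := by
          refine Finset.sum_congr rfl fun s _ => ?_
          rw [e1, Finset.sum_mul]
      _ = ∑ i, ∑ s, MvPolynomial.eval x (M k i) * f s i * y s := Finset.sum_comm
      _ = _ := by
          refine Finset.sum_congr rfl fun i _ => ?_
          rw [Finset.sum_apply, Finset.mul_sum]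
          refine Finset.sum_congr rfl fun s _ => ?_
          rw [Pi.smul_apply, smul_eq_mul]
          ring
  have hinj : ∀ x : σ → F, (∀ y : Fin r → F, (P.map (MvPolynomial.eval x)).mulVec y = 0 → y = 0) →
      ∀ e ∈ A, (∀ k, ∑ i, MvPolynomial.eval x (M k i) * e i = 0) → e ∈ B := by
    intro x hx e he hsum
    have heT : e ∈ (A ⊓ B) ⊔ Cc := by
      rw [hCc.sup_eq_top]
      exact Submodule.mem_top
    obtain ⟨b, hb, d, hd, hbd⟩ := Submodule.mem_sup.mp heT
    have hdA : d ∈ A := by
      have : d = e - b := by rw [← hbd]; abel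
      rw [this]
      exact A.sub_mem he hb.1
    obtain ⟨y, hy⟩ := hfs d ⟨hd, hdA⟩
    have h3 : (P.map (MvPolynomial.eval x)).mulVec y = 0 := by
      funext k
      rw [hPx x y k, ← hy]
      have h4 := hsum k
      have h5 := hB x b hb.1 hb.2 k
      rw [← hbd] at h4
      simp only [Pi.add_apply, mul_add, Finset.sum_add_distrib] at h4
      rw [h5, zero_add] at h4
      exact h4
    have h6 := hx _ h3
    have h7 : d = 0 := by
      rw [hy, h6]
      simp
    rw [← hbd, h7, add_zero]
    exact hb.2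
  obtain ⟨Δ, hΔ0, hΔ⟩ := genNod_mat P x0 (by
    intro y hy
    have hm : (∑ s, y s • f s) ∈ Cc ⊓ A :=
      Submodule.sum_mem _ fun s _ => Submodule.smul_mem _ _ (hfm s)
    have h1 : (∑ s, y s • f s) ∈ B := by
      apply h0 _ hm.2
      intro k
      rw [← hPx x0 y k, hy]
      rfl
    have h2 : (∑ s, y s • f s) ∈ (A ⊓ B) ⊓ Cc := ⟨⟨hm.2, h1⟩, hm.1⟩
    rw [hCc.inf_eq_bot] at h2
    exact hfi y ((Submodule.mem_bot F).mp h2))
  exact ⟨Δ, hΔ0, fun x hx => hinj x (hΔ x hx)⟩


variable {F : Type*} [Field F] {g : ℕ}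

open Polynomial in
/-- The closedness relation in terms of the coefficients of `∑ E_(ij) cof_i cof_j`. -/
lemma genNod_rel (a b : Fin g → F) (E : Fin g → Fin g → F) :
    (∑ i, ∑ j, RatFunc.C (E i j) * (om (a i) (b i) * om (a j) (b j)) = 0) ↔
      ∀ n, ∑ i, ∑ j, (cof a b i * cof a b j).coeff n * E i j = 0 := by
  have hinj := RatFunc.algebraMap_injective F
  have hD0 : algebraMap F[X] (RatFunc F) (DD a b) ≠ 0 := by
    rw [Ne, map_eq_zero_iff _ hinj]
    exact DD_ne_zero a b
  have h1 : (∑ i, ∑ j, RatFunc.C (E i j) * (om (a i) (b i) * om (a j) (b j))) =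
      algebraMap F[X] (RatFunc F) (∑ i, ∑ j, C (E i j) * (cof a b i * cof a b j)) /
        algebraMap F[X] (RatFunc F) (DD a b) ^ 2 := by
    rw [map_sum, Finset.sum_div]
    refine Finset.sum_congr rfl fun i _ => ?_
    rw [map_sum, Finset.sum_div]
    refine Finset.sum_congr rfl fun j _ => ?_
    rw [om_eq, om_eq, map_mul, map_mul, RatFunc.algebraMap_C]
    field_simp
  rw [h1, div_eq_zero_iff, map_eq_zero_iff _ hinj]
  have h2 : (algebraMap F[X] (RatFunc F) (DD a b) ^ 2 = 0) ↔ False := by
    simp [hD0]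
  rw [h2, or_false, Polynomial.ext_iff]
  refine forall_congr' fun n => ?_
  rw [Polynomial.finsetSum_coeff, Polynomial.coeff_zero]
  have h3 : (∑ i, (∑ j, C (E i j) * (cof a b i * cof a b j)).coeff n) =
      ∑ i, ∑ j, (cof a b i * cof a b j).coeff n * E i j := by
    refine Finset.sum_congr rfl fun i _ => ?_
    rw [Polynomial.finsetSum_coeff]
    refine Finset.sum_congr rfl fun j _ => ?_
    rw [Polynomial.coeff_C_mul, mul_comm]
  rw [h3]

open Polynomial in
/-- The universal `cof_l`. -/
noncomputable def cofU (F : Type*) [Field F] {g : ℕ} (l : Fin g) :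
    (MvPolynomial (Fin g ⊕ Fin g) F)[X] :=
  C (MvPolynomial.X (Sum.inl l) - MvPolynomial.X (Sum.inr l)) *
    ∏ l' ∈ Finset.univ.erase l,
      (X - C (MvPolynomial.X (Sum.inl l'))) * (X - C (MvPolynomial.X (Sum.inr l')))

lemma cofU_map (a b : Fin g → F) (l : Fin g) :
    (cofU F l).map (MvPolynomial.eval (Sum.elim a b)) = cof a b l := by
  unfold cofU cof
  rw [Polynomial.map_mul, Polynomial.map_prod]
  simp

lemma cofU_coeff (a b : Fin g → F) (i j : Fin g) (n : ℕ) :
    MvPolynomial.eval (Sum.elim a b) ((cofU F i * cofU F j).coeff n) =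
      (cof a b i * cof a b j).coeff n := by
  rw [← Polynomial.coeff_map, Polynomial.map_mul, cofU_map, cofU_map]

/-- A bound for the degrees of the `cof_i cof_j`. -/
noncomputable def degU (F : Type*) [Field F] (g : ℕ) : ℕ :=
  (∑ i : Fin g, ∑ j : Fin g, (cofU F i * cofU F j).natDegree) + 1

lemma cofU_coeff_zero (i j : Fin g) (n : ℕ) (hn : degU F g ≤ n) :
    (cofU F i * cofU F j).coeff n = 0 := by
  apply Polynomial.coeff_eq_zero_of_natDegree_lt
  refine lt_of_lt_of_le ?_ hn
  unfold degU
  have h1 : (cofU F i * cofU F j).natDegree ≤ ∑ j : Fin g, (cofU F i * cofU F j).natDegree :=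
    Finset.single_le_sum (f := fun j => (cofU F i * cofU F j).natDegree)
      (fun _ _ => Nat.zero_le _) (Finset.mem_univ j)
  have h2 : (∑ j : Fin g, (cofU F i * cofU F j).natDegree) ≤
      ∑ i : Fin g, ∑ j : Fin g, (cofU F i * cofU F j).natDegree :=
    Finset.single_le_sum (f := fun i => ∑ j : Fin g, (cofU F i * cofU F j).natDegree)
      (fun _ _ => Nat.zero_le _) (Finset.mem_univ i)
  omega

/-- The matrix of the closedness relations. -/
noncomputable def matU (F : Type*) [Field F] (g m' : ℕ)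
    (k : (Fin (m' + 2) → Fin g) × Fin (degU F g)) (v : Fin (m' + 2) → Fin g) :
    MvPolynomial (Fin g ⊕ Fin g) F :=
  ∑ i, ∑ j, if Function.update (Function.update k.1 0 i) 1 j = v then
    (cofU F i * cofU F j).coeff k.2 else 0

lemma matU_sum (m' : ℕ) (a b : Fin g → F) (e : (Fin (m' + 2) → Fin g) → F)
    (k : (Fin (m' + 2) → Fin g) × Fin (degU F g)) :
    ∑ v, MvPolynomial.eval (Sum.elim a b) (matU F g m' k v) * e v =
      ∑ i, ∑ j, (cof a b i * cof a b j).coeff k.2 *
        e (Function.update (Function.update k.1 0 i) 1 j) := by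
  have h1 : ∀ v, MvPolynomial.eval (Sum.elim a b) (matU F g m' k v) * e v =
      ∑ i, ∑ j, if Function.update (Function.update k.1 0 i) 1 j = v then
        (cof a b i * cof a b j).coeff k.2 * e v else 0 := by
    intro v
    unfold matU
    rw [map_sum, Finset.sum_mul]
    refine Finset.sum_congr rfl fun i _ => ?_
    rw [map_sum, Finset.sum_mul]
    refine Finset.sum_congr rfl fun j _ => ?_
    split_ifs with h
    · rw [cofU_coeff]
    · rw [map_zero, zero_mul]
  calc ∑ v, MvPolynomial.eval (Sum.elim a b) (matU F g m' k v) * e v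
      = ∑ v, ∑ i, ∑ j, (if Function.update (Function.update k.1 0 i) 1 j = v then
        (cof a b i * cof a b j).coeff k.2 * e v else 0) := Finset.sum_congr rfl fun v _ => h1 v
    _ = ∑ i, ∑ v, ∑ j, (if Function.update (Function.update k.1 0 i) 1 j = v then
        (cof a b i * cof a b j).coeff k.2 * e v else 0) := Finset.sum_comm
    _ = ∑ i, ∑ j, ∑ v, (if Function.update (Function.update k.1 0 i) 1 j = v then
        (cof a b i * cof a b j).coeff k.2 * e v else 0) :=
        Finset.sum_congr rfl fun i _ => Finset.sum_comm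
    _ = _ := by
        refine Finset.sum_congr rfl fun i _ => Finset.sum_congr rfl fun j _ => ?_
        rw [Finset.sum_ite_eq]
        simp

/-- All closedness relations, in terms of `matU`. -/
lemma matU_iff (m' : ℕ) (a b : Fin g → F) (e : (Fin (m' + 2) → Fin g) → F) :
    (∀ w : Fin (m' + 2) → Fin g,
      ∑ i, ∑ j, RatFunc.C (e (Function.update (Function.update w 0 i) 1 j)) *
        (om (a i) (b i) * om (a j) (b j)) = 0) ↔
      ∀ k, ∑ v, MvPolynomial.eval (Sum.elim a b) (matU F g m' k v) * e v = 0 := by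
  constructor
  · intro h k
    rw [matU_sum]
    exact (genNod_rel a b _).mp (h k.1) k.2
  · intro h w
    rw [genNod_rel]
    intro n
    by_cases hn : n < degU F g
    · have h1 := h (w, ⟨n, hn⟩)
      rw [matU_sum] at h1
      exact h1
    · apply Finset.sum_eq_zero
      intro i _
      apply Finset.sum_eq_zero
      intro j _
      rw [← cofU_coeff, cofU_coeff_zero i j n (by omega), map_zero, zero_mul]

/-- An array alternating in the first two entries is closed. -/
lemma genNod_alt (m' : ℕ) (a b : Fin g → F) (e : (Fin (m' + 2) → Fin g) → F)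
    (he : ∀ v, e (v ∘ Equiv.swap 0 1) = - e v ∧ (v 0 = v 1 → e v = 0)) 
    (w : Fin (m' + 2) → Fin g) (n : ℕ) :
    ∑ i, ∑ j, (cof a b i * cof a b j).coeff n *
        e (Function.update (Function.update w 0 i) 1 j) = 0 := by
  have h10 : (1 : Fin (m' + 2)) ≠ 0 := by
    intro h
    have := congrArg Fin.val h
    simp at this
  have hv0 : ∀ i j, Function.update (Function.update w 0 i) 1 j 0 = i := by
    intro i j
    rw [Function.update_of_ne h10.symm, Function.update_self]
  have hv1 : ∀ i j, Function.update (Function.update w 0 i) 1 j 1 = j := by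
    intro i j
    rw [Function.update_self]
  have hsw : ∀ i j, (Function.update (Function.update w 0 i) 1 j) ∘ Equiv.swap 0 1 =
      Function.update (Function.update w 0 j) 1 i := by
    intro i j
    funext x
    by_cases hx0 : x = 0
    · subst hx0
      rw [Function.comp_apply, Equiv.swap_apply_left, hv1, hv0]
    · by_cases hx1 : x = 1
      · subst hx1
        rw [Function.comp_apply, Equiv.swap_apply_right, hv0, hv1]
      · rw [Function.comp_apply, Equiv.swap_apply_of_ne_of_ne hx0 hx1,
          Function.update_of_ne hx1, Function.update_of_ne hx0,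
          Function.update_of_ne hx1, Function.update_of_ne hx0]
  rw [← Finset.sum_product']
  refine Finset.sum_involution (fun p _ => (p.2, p.1)) ?_ ?_ ?_ ?_
  · rintro ⟨i, j⟩ _
    simp only
    rw [← hsw i j, (he _).1, mul_comm (cof a b j) (cof a b i)]
    ring
  · rintro ⟨i, j⟩ _ hne heq
    apply hne
    have hij : i = j := (Prod.mk.inj heq).2
    simp only
    rw [(he _).2 (by rw [hv0, hv1, hij]), mul_zero]
  · rintro ⟨i, j⟩ _
    exact Finset.mem_product.mpr ⟨Finset.mem_univ _, Finset.mem_univ _⟩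
  · rintro ⟨i, j⟩ _
    rfl

/-- Arrays alternating in the entries `1, ..., m' + 1`. -/
def altA (F : Type*) [Field F] (g m' : ℕ) : Submodule F ((Fin (m' + 2) → Fin g) → F) where
  carrier := {e | ∀ i j : Fin (m' + 2), i ≠ 0 → j ≠ 0 → i ≠ j → ∀ v,
      e (v ∘ Equiv.swap i j) = - e v ∧ (v i = v j → e v = 0)}
  add_mem' := by
    intro e f he hf i j hi hj hij v
    refine ⟨?_, fun h => ?_⟩
    · rw [Pi.add_apply, Pi.add_apply, (he i j hi hj hij v).1, (hf i j hi hj hij v).1]
      ring
    · rw [Pi.add_apply, (he i j hi hj hij v).2 h, (hf i j hi hj hij v).2 h, add_zero]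
  zero_mem' := by
    intro i j _ _ _ v
    simp
  smul_mem' := by
    intro c e he i j hi hj hij v
    refine ⟨?_, fun h => ?_⟩
    · rw [Pi.smul_apply, Pi.smul_apply, (he i j hi hj hij v).1, smul_neg]
    · rw [Pi.smul_apply, (he i j hi hj hij v).2 h, smul_zero]

/-- Arrays alternating in the entries `0` and `1`. -/
def altB (F : Type*) [Field F] (g m' : ℕ) : Submodule F ((Fin (m' + 2) → Fin g) → F) where
  carrier := {e | ∀ v, e (v ∘ Equiv.swap 0 1) = - e v ∧ (v 0 = v 1 → e v = 0)}
  add_mem' := by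
    intro e f he hf v
    refine ⟨?_, fun h => ?_⟩
    · rw [Pi.add_apply, Pi.add_apply, (he v).1, (hf v).1]
      ring
    · rw [Pi.add_apply, (he v).2 h, (hf v).2 h, add_zero]
  zero_mem' := by
    intro v
    simp
  smul_mem' := by
    intro c e he v
    refine ⟨?_, fun h => ?_⟩
    · rw [Pi.smul_apply, Pi.smul_apply, (he v).1, smul_neg]
    · rw [Pi.smul_apply, (he v).2 h, smul_zero]

/-- The coordinate form of `K_(m'+1,1)(C, ω_C) = 0` for the nodal curve with the pairs `(a_l, b_l)`:
closed arrays are alternating. -/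
def CoordK (a b : Fin g → F) (m' : ℕ) : Prop :=
  ∀ e : (Fin (m' + 2) → Fin g) → F,
    (∀ i j : Fin (m' + 2), i ≠ 0 → j ≠ 0 → i ≠ j → ∀ v,
      e (v ∘ Equiv.swap i j) = - e v ∧ (v i = v j → e v = 0)) →
    (∀ w : Fin (m' + 2) → Fin g,
      ∑ i, ∑ j, RatFunc.C (e (Function.update (Function.update w 0 i) 1 j)) *
        (om (a i) (b i) * om (a j) (b j)) = 0) →
    ∀ v, e (v ∘ Equiv.swap 0 1) = - e v ∧ (v 0 = v 1 → e v = 0)

theorem gen_nod (m' : ℕ) (a0 b0 : Fin g → F) (h0 : CoordK a0 b0 m') :
    ∃ Δ : MvPolynomial (Fin g ⊕ Fin g) F, MvPolynomial.eval (Sum.elim a0 b0) Δ ≠ 0 ∧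
      ∀ a b : Fin g → F, MvPolynomial.eval (Sum.elim a b) Δ ≠ 0 → CoordK a b m' := by
  obtain ⟨Δ, hΔ0, hΔ⟩ := genNod_open (matU F g m') (altA F g m') (altB F g m')
    (by
      intro x e _ he k
      have hx : x = Sum.elim (fun l => x (Sum.inl l)) (fun l => x (Sum.inr l)) := by
        funext s
        rcases s with s | s <;> rfl
      rw [hx, matU_sum]
      exact genNod_alt m' _ _ e he k.1 k.2)
    (Sum.elim a0 b0) (by
      intro e he hs
      exact h0 e he ((matU_iff m' a0 b0 e).mpr hs))
  refine ⟨Δ, hΔ0, fun a b hab e he hcl => ?_⟩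
  exact hΔ (Sum.elim a b) hab e he ((matU_iff m' a b e).mp hcl)

end

end Pool.Agent.GrP
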