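import Mathlib
import Pool.Agent.GrP.CurveBasis
import Pool.Agent.GrP.GenNod
import Pool.Agent.GrP.Binom
import Pool.Agent.GrP.Bridge

/-!
`K_(k,1)(C, ω_C) = 0` for nodal rational curves: from coordinates to `kNod`, for the curves with the
nodes `τ_l ~ ρ^(-1) τ_l` (`k = m' + 1`, `m ≤ m'`, `g ≤ m + m' + 3`, no binomial coefficient `C(m, j)`
vanishes in `F`), and for the general nodal rational curve.
-/

set_option autoImplicit false

namespace Pool.Agent.GrP

open Polynomial Pool.Agent.GrS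

section

variable {F : Type*} [Field F]

lemma inj_elim {g : ℕ} (ρ : F) (hρ0 : ρ ≠ 0) (τ : Fin g → F) (hτ : Function.Injective τ)
    (hτρ : ∀ l l', τ l ≠ ρ * τ l') :
    Function.Injective (Sum.elim τ (fun l => ρ⁻¹ * τ l)) := by
  rintro (l | l) (l' | l') h
  · exact congrArg _ (hτ h)
  · exfalso
    have h' : τ l = ρ⁻¹ * τ l' := h
    exact hτρ l' l (by rw [h', mul_inv_cancel_left₀ hρ0])
  · exfalso
    have h' : ρ⁻¹ * τ l = τ l' := h
    exact hτρ l l' (by rw [← h', mul_inv_cancel_left₀ hρ0])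
  · have h' : ρ⁻¹ * τ l = ρ⁻¹ * τ l' := h
    exact congrArg _ (hτ (mul_left_cancel₀ (inv_ne_zero hρ0) h'))

/-- The coordinate form of `K_(m'+1,1)(C, ω_C) = 0` implies the vanishing. -/
theorem kNod_of_coord {g : ℕ} (m' : ℕ) (a b : Fin g → F)
    (hab : Function.Injective (Sum.elim a b)) (H : CoordK a b m') : kNod a b m' 0 = 0 := by
  unfold kNod
  refine bridge_main g m' (basN a b hab) (⟨1, one_mem_HN _ _⟩ : HN a b 0) HN_zero _ ?_ _ ?_ ?_
  · intro v
    exact Subtype.ext (mul_one v.1)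
  · intro v w
    exact Subtype.ext (mul_comm v.1 w.1)
  · intro e halt hcl
    refine H e halt ?_
    intro w
    have h := congrArg Subtype.val (hcl w)
    rw [AddSubmonoidClass.coe_finsetSum] at h
    rw [ZeroMemClass.coe_zero] at h
    rw [← h]
    apply Finset.sum_congr rfl
    intro i _
    rw [AddSubmonoidClass.coe_finsetSum]
    apply Finset.sum_congr rfl
    intro j _
    rw [SetLike.val_smul, RatFunc.smul_eq_C_mul]
    congr 1
    rw [mul_comm]
    change _ = (basN a b hab j : RatFunc F) * (basN a b hab i : RatFunc F)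
    rw [basN_apply, basN_apply]

theorem coordK_chord (p : ℕ) [Fact p.Prime] [CharP F p] (m m' g : ℕ) (hmm : m ≤ m')
    (hg : g ≤ m + m' + 3) (hbin : ∀ j ≤ m, (m.choose j : F) ≠ 0) (ρ : F) (hρ0 : ρ ≠ 0)
    (hρ : ∀ i j, i < j → j < g - m' → ρ ^ i ≠ ρ ^ j)
    (τ : Fin g → F) (hτ0 : ∀ l, τ l ≠ 0) (hτ : Function.Injective τ)
    (hτρ : ∀ l l', τ l ≠ ρ * τ l') :
    CoordK τ (fun l => ρ⁻¹ * τ l) m' := by
  intro e halt hcl
  exact nodal_gen p m m' g hmm hg hbin ρ hρ0 hρ τ hτ0 hτ hτρ e halt hcl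

/-- Points in general position: for an infinite field `F` and `ρ` with no `ρ^i = 1`, `0 < i < N`, `N ≥ 2`,
there are `g` distinct nonzero `τ_l` with `τ_l ≠ ρ τ_l'`. -/
lemma exists_tau [Infinite F] (g : ℕ) (ρ : F) (hρ1 : ρ ≠ 1) :
    ∃ τ : Fin g → F, (∀ l, τ l ≠ 0) ∧ Function.Injective τ ∧ ∀ l l', τ l ≠ ρ * τ l' := by
  classical
  induction g with
  | zero => exact ⟨fun l => l.elim0, fun l => l.elim0, fun l => l.elim0, fun l => l.elim0⟩
  | succ g ih =>
    obtain ⟨τ, h0, h1, h2⟩ := ih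
    have hfin : (({0} : Set F) ∪ Set.range τ ∪ (Set.range fun l => ρ * τ l) ∪
        (Set.range fun l => ρ⁻¹ * τ l)).Finite := by
      exact (((Set.finite_singleton _).union (Set.finite_range _)).union
        (Set.finite_range _)).union (Set.finite_range _)
    obtain ⟨t, ht⟩ := hfin.exists_notMem
    simp only [Set.mem_union, Set.mem_singleton_iff, Set.mem_range, not_or, not_exists] at ht
    obtain ⟨⟨⟨ht0, ht1⟩, ht2⟩, ht3⟩ := ht
    refine ⟨Fin.cons t τ, ?_, ?_, ?_⟩
    · intro l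
      refine Fin.cases ?_ (fun l => ?_) l
      · simpa using ht0
      · simpa using h0 l
    · intro l l' h
      revert h
      refine Fin.cases ?_ (fun l => ?_) l
      · refine Fin.cases ?_ (fun l' => ?_) l'
        · intro _
          rfl
        · intro h
          rw [Fin.cons_zero, Fin.cons_succ] at h
          exact absurd h.symm (ht1 l')
      · refine Fin.cases ?_ (fun l' => ?_) l'
        · intro h
          rw [Fin.cons_zero, Fin.cons_succ] at h
          exact absurd h (ht1 l)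
        · intro h
          rw [Fin.cons_succ, Fin.cons_succ] at h
          exact congrArg _ (h1 h)
    · intro l l'
      refine Fin.cases ?_ (fun l => ?_) l
      · refine Fin.cases ?_ (fun l' => ?_) l'
        · rw [Fin.cons_zero]
          intro h
          have h3 : t * (1 - ρ) = 0 := by
            rw [mul_sub, mul_one, mul_comm t ρ, ← h, sub_self]
          rcases mul_eq_zero.mp h3 with h4 | h4
          · exact ht0 h4
          · exact hρ1 (sub_eq_zero.mp h4).symm
        · rw [Fin.cons_zero, Fin.cons_succ]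
          intro h
          exact ht2 l' h.symm
      · refine Fin.cases ?_ (fun l' => ?_) l'
        · rw [Fin.cons_zero, Fin.cons_succ]
          intro h
          by_cases hρ0 : ρ = 0
          · rw [hρ0, zero_mul] at h
            exact h0 l h
          · exact ht3 l (by rw [h, inv_mul_cancel_left₀ hρ0])
        · rw [Fin.cons_succ, Fin.cons_succ]
          exact h2 l l'

/-- In an infinite field there is a `ρ` with `ρ^i ≠ ρ^j` for `i < j < N`. -/
lemma exists_rho [Infinite F] (N : ℕ) :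
    ∃ ρ : F, ρ ≠ 0 ∧ ρ ≠ 1 ∧ ∀ i j, i < j → j < N → ρ ^ i ≠ ρ ^ j := by
  classical
  have hfin : (({0, 1} : Set F) ∪ ⋃ n ∈ Finset.Icc 1 N,
      ((X ^ n - 1 : F[X]).rootSet F)).Finite := by
    refine ((Set.finite_singleton _).insert _).union ?_
    exact Set.Finite.biUnion (Finset.finite_toSet _) (fun n _ => Polynomial.rootSet_finite _ _)
  obtain ⟨ρ, hρ⟩ := hfin.exists_notMem
  simp only [Set.mem_union, Set.mem_insert_iff, Set.mem_singleton_iff, Set.mem_iUnion,
    not_or, not_exists] at hρ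
  obtain ⟨⟨h0, h1⟩, h2⟩ := hρ
  refine ⟨ρ, h0, h1, ?_⟩
  intro i j hij hjN h
  apply h2 (j - i) (Finset.mem_Icc.mpr ⟨by omega, by omega⟩)
  rw [Polynomial.mem_rootSet]
  have hne : (X ^ (j - i) - 1 : F[X]) ≠ 0 := by
    rw [← C_1]
    exact X_pow_sub_C_ne_zero (by omega) 1
  refine ⟨hne, ?_⟩
  have h3 : ρ ^ i * (ρ ^ (j - i) - 1) = 0 := by
    rw [mul_sub, mul_one, ← pow_add, Nat.add_sub_cancel' hij.le, h, sub_self]
  simpa using (mul_eq_zero.mp h3).resolve_left (pow_ne_zero _ h0)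

/-- The general rational curve with `g` nodes. -/
theorem general_nodal (p : ℕ) [Fact p.Prime] [CharP F p] [Infinite F] (m g : ℕ)
    (hbin : ∀ j ≤ m, (m.choose j : F) ≠ 0) :
    ∃ Δ : MvPolynomial (Fin g ⊕ Fin g) F, Δ ≠ 0 ∧ ∀ a b : Fin g → F,
      Function.Injective (Sum.elim a b) → MvPolynomial.eval (Sum.elim a b) Δ ≠ 0 →
        ∀ m', m ≤ m' → g ≤ m + m' + 3 → kNod a b m' 0 = 0 := by
  classical
  obtain ⟨ρ, hρ0, hρ1, hρ⟩ := exists_rho (F := F) (g + 1)
  obtain ⟨τ, hτ0, hτ, hτρ⟩ := exists_tau g ρ hρ1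
  have key : ∀ m', m ≤ m' → g ≤ m + m' + 3 → CoordK τ (fun l => ρ⁻¹ * τ l) m' := by
    intro m' h1 h2
    exact coordK_chord p m m' g h1 h2 hbin ρ hρ0 (fun i j hij hj => hρ i j hij (by omega))
      τ hτ0 hτ hτρ
  have key2 : ∀ m', ∃ Δ : MvPolynomial (Fin g ⊕ Fin g) F,
      MvPolynomial.eval (Sum.elim τ (fun l => ρ⁻¹ * τ l)) Δ ≠ 0 ∧
      ∀ a b : Fin g → F, MvPolynomial.eval (Sum.elim a b) Δ ≠ 0 →
        (m ≤ m' → g ≤ m + m' + 3 → CoordK a b m') := by
    intro m'
    by_cases h : m ≤ m' ∧ g ≤ m + m' + 3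
    · obtain ⟨Δ, h1, h2⟩ := gen_nod m' τ (fun l => ρ⁻¹ * τ l) (key m' h.1 h.2)
      exact ⟨Δ, h1, fun a b h3 _ _ => h2 a b h3⟩
    · exact ⟨1, by simp, fun a b _ h4 h5 => absurd ⟨h4, h5⟩ h⟩
  choose Δ hΔ1 hΔ2 using key2
  -- for `m' ≥ g` everything vanishes
  refine ⟨∏ m' ∈ Finset.range g, Δ m', ?_, ?_⟩
  · intro h
    have h1 : MvPolynomial.eval (Sum.elim τ (fun l => ρ⁻¹ * τ l))
        (∏ m' ∈ Finset.range g, Δ m') = 0 := by
      rw [h, map_zero]
    rw [map_prod] at h1
    obtain ⟨m', -, h2⟩ := Finset.prod_eq_zero_iff.mp h1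
    exact hΔ1 m' h2
  · intro a b hab hΔ m' h1 h2
    apply kNod_of_coord m' a b hab
    by_cases hm : m' < g
    · apply hΔ2 m' a b ?_ h1 h2
      intro h
      apply hΔ
      rw [map_prod]
      exact Finset.prod_eq_zero (Finset.mem_range.mpr hm) h
    · intro e halt _ v
      have hz : ∀ v : Fin (m' + 2) → Fin g, e v = 0 := by
        intro v
        -- two of the `m' + 1 ≥ g + 1` entries `v_1, ..., v_(m'+1)` agree
        have hcard : Fintype.card (Fin g) < Fintype.card (Fin (m' + 1)) := by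
          rw [Fintype.card_fin, Fintype.card_fin]
          omega
        obtain ⟨i, j, hij, h⟩ := Fintype.exists_ne_map_eq_of_card_lt
          (fun i : Fin (m' + 1) => v i.succ) hcard
        refine (halt i.succ j.succ (Fin.succ_ne_zero i) (Fin.succ_ne_zero j) ?_ v).2 h
        exact fun h => hij (Fin.succ_injective _ h)
      exact ⟨by rw [hz, hz, neg_zero], fun _ => hz v⟩

end

end Pool.Agent.GrP
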