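import Mathlib
import Pool.Agent.GrC.Stmt
import Pool.Agent.GrP.Bridge

/-!
Converse of `bridge_main`: a closed array which is alternating in the positions `≥ 1` but not in the
positions `0, 1` gives a nonzero class.

Proof.  Let `x = ∑_(s, i) e(i; s) • wt k (b ∘ s) (b i)` in `KC k V V (m+1)`, `s` over the increasing
`(m+1)`-tuples (`powersetCard.ofFinEmbEquiv.symm s`, as in `Bridge_surj`), `i : Fin g`.
(1) `Bridge_Psi b (m+1) v x = e v` for all `v`: for fixed `v 0` both sides are alternating in the other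
entries and agree on increasing tuples (`Bridge_Phi_basis`, `Bridge_alt_ext` for `Fin (m+1)`; for `m + 1 = 1`
there is nothing to do).
(2) `kos ν m x = 0`: by `Bridge_closed` and `hcl` all `Bridge_Theta b m w (kos ν m x) = 0`; and these
functionals (for `w` increasing) separate the points of `KC k V P m`, because
`⋀^m V ⊗ P` is the direct sum of copies of `P` over the basis `b.exteriorPower m`
(`TensorProduct.equivFinsuppOfBasisLeft` or similar, `Bridge_Phi_basis`).
(3) If `koszulDim μ ν m = 0`: the kernel of `kos ν m` is finite-dimensional (`V` is), so the quotient is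
trivial (`Module.finrank_zero_iff`) and `x = kos μ (m+1) y`.  Every element `y` of `⋀^(m+2) V ⊗ U` is `z ⊗ u0`
by `hU`, and `Bridge_Psi b (m+1) v (kos μ (m+1) y) = Bridge_Phi b (m+2) v z` (`Bridge_image`, both sides are
linear in `z`), which is alternating by `Bridge_alt_Phi`; contradiction to `hna`.
-/

set_option autoImplicit false

namespace Pool.Agent.GrP

open Pool.Agent.GrS Module Set

section NegB

variable {k V U P : Type*} [Field k] [AddCommGroup V] [Module k V] [AddCommGroup U]
    [Module k U] [AddCommGroup P] [Module k P]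

theorem NegB_alt_of_swap {g n : ℕ} {e : (Fin n → Fin g) → k}
    (h : ∀ i j : Fin n, i ≠ j → ∀ v, e (v ∘ Equiv.swap i j) = - e v ∧ (v i = v j → e v = 0)) :
    Bridge_Alt e := by
  refine ⟨fun v σ => ?_, fun v i j hij hv => (h i j hij v).2 hv⟩
  induction σ using Equiv.Perm.swap_induction_on generalizing v with
  | one =>
    simp
  | swap_mul f x y hxy ih =>
    have e1 : v ∘ (Equiv.swap x y * f : Equiv.Perm (Fin n)) = (v ∘ Equiv.swap x y) ∘ f := rfl
    rw [e1, ih, (h x y hxy v).1, Equiv.Perm.sign_mul, Equiv.Perm.sign_swap hxy]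
    simp

theorem NegB_cons_swap {g n : ℕ} (a : Fin g) (u : Fin n → Fin g) (i j : Fin n) :
    (Fin.cons a (u ∘ Equiv.swap i j) : Fin (n + 1) → Fin g) =
      (Fin.cons a u : Fin (n + 1) → Fin g) ∘ Equiv.swap i.succ j.succ := by
  funext l
  refine Fin.cases ?_ (fun l => ?_) l
  · rw [Function.comp_apply, Equiv.swap_apply_of_ne_of_ne (Fin.succ_ne_zero i).symm
      (Fin.succ_ne_zero j).symm, Fin.cons_zero, Fin.cons_zero]
  · rw [Fin.cons_succ, Function.comp_apply, Function.comp_apply]
    have h : Equiv.swap i.succ j.succ l.succ = (Equiv.swap i j l).succ := by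
      rw [Equiv.swap_apply_def, Equiv.swap_apply_def]
      by_cases h1 : l = i
      · rw [if_pos (by rw [h1]), if_pos h1]
      · rw [if_neg (fun h => h1 (Fin.succ_injective _ h)), if_neg h1]
        by_cases h2 : l = j
        · rw [if_pos (by rw [h2]), if_pos h2]
        · rw [if_neg (fun h => h2 (Fin.succ_injective _ h)), if_neg h2]
    rw [h, Fin.cons_succ]

theorem NegB_alt_cons {g m : ℕ} {e : (Fin (m + 2) → Fin g) → k}
    (halt : ∀ i j : Fin (m + 2), i ≠ 0 → j ≠ 0 → i ≠ j → ∀ v,
        e (v ∘ Equiv.swap i j) = - e v ∧ (v i = v j → e v = 0)) (a : Fin g) :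
    Bridge_Alt (fun u : Fin (m + 1) → Fin g => e (Fin.cons a u)) := by
  refine NegB_alt_of_swap (fun i j hij v => ?_)
  have h := halt i.succ j.succ (Fin.succ_ne_zero i) (Fin.succ_ne_zero j)
    (fun h => hij (Fin.succ_injective _ h)) (Fin.cons a v)
  rw [Fin.cons_succ, Fin.cons_succ] at h
  refine ⟨?_, h.2⟩
  show e (Fin.cons a (v ∘ Equiv.swap i j)) = _
  rw [NegB_cons_swap]
  exact h.1

theorem NegB_Phi_alt {g n : ℕ} (b : Module.Basis (Fin g) k V) (z : ↥(⋀[k]^n V)) :
    Bridge_Alt (fun v => Bridge_Phi b n v z) := by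
  refine NegB_alt_of_swap (fun i j hij v => ⟨?_, fun h => ?_⟩)
  · show Bridge_Phi b n (v ∘ Equiv.swap i j) z = - Bridge_Phi b n v z
    rw [Bridge_Phi_swap b v hij, LinearMap.neg_apply]
  · show Bridge_Phi b n v z = 0
    rw [Bridge_Phi_zero b v hij h, LinearMap.zero_apply]

/-- the element with the coefficient array `e` -/
noncomputable def NegB_x {g m : ℕ} (b : Module.Basis (Fin g) k V) (e : (Fin (m + 2) → Fin g) → k) :
    KC k V V (m + 1) :=
  ∑ i : Fin g, ∑ s : powersetCard (Fin g) (m + 1),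
    e (Fin.cons i (powersetCard.ofFinEmbEquiv.symm s)) •
      wt k (b ∘ (powersetCard.ofFinEmbEquiv.symm s)) (b i)

theorem NegB_Psi {g m : ℕ} (b : Module.Basis (Fin g) k V) (e : (Fin (m + 2) → Fin g) → k)
    (halt : ∀ i j : Fin (m + 2), i ≠ 0 → j ≠ 0 → i ≠ j → ∀ v,
        e (v ∘ Equiv.swap i j) = - e v ∧ (v i = v j → e v = 0)) (v : Fin (m + 2) → Fin g) :
    Bridge_Psi b (m + 1) v (NegB_x b e) = e v := by
  classical
  set z : ↥(⋀[k]^(m + 1) V) := ∑ s : powersetCard (Fin g) (m + 1),
    e (Fin.cons (v 0) (powersetCard.ofFinEmbEquiv.symm s)) •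
      exteriorPower.ιMulti k (m + 1) (b ∘ (powersetCard.ofFinEmbEquiv.symm s)) with hz
  have h1 : Bridge_Psi b (m + 1) v (NegB_x b e) = Bridge_Phi b (m + 1) (v ∘ Fin.succ) z := by
    rw [NegB_x, hz, map_sum, map_sum, Finset.sum_eq_single (v 0)]
    · rw [map_sum]
      refine Finset.sum_congr rfl fun s _ => ?_
      rw [map_smul, map_smul, Bridge_Psi_wt, Module.Basis.coord_apply, Module.Basis.repr_self,
        Finsupp.single_eq_same, mul_one]
    · intro i _ hi
      rw [map_sum]
      refine Finset.sum_eq_zero fun s _ => ?_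
      rw [map_smul, Bridge_Psi_wt, Module.Basis.coord_apply, Module.Basis.repr_self,
        Finsupp.single_eq_of_ne (Ne.symm hi), mul_zero, smul_zero]
    · intro h
      exact absurd (Finset.mem_univ _) h
  have h2 : (fun u => Bridge_Phi b (m + 1) u z) = (fun u : Fin (m + 1) → Fin g => e (Fin.cons (v 0) u)) := by
    refine Bridge_alt_ext (NegB_Phi_alt b z) (NegB_alt_cons halt (v 0)) (fun s => ?_)
    show Bridge_Phi b (m + 1) (powersetCard.ofFinEmbEquiv.symm s) z = _
    rw [Bridge_Phi_basis, hz, map_sum]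
    rw [Finset.sum_eq_single s]
    · rw [map_smul, Module.Basis.coord_apply]
      have h3 : exteriorPower.ιMulti k (m + 1) (b ∘ (powersetCard.ofFinEmbEquiv.symm s)) =
          exteriorPower.ιMulti_family k (m + 1) b s := rfl
      rw [h3, exteriorPower.basis_repr_self, smul_eq_mul, mul_one]
    · intro t _ hts
      rw [map_smul, Module.Basis.coord_apply]
      have h3 : exteriorPower.ιMulti k (m + 1) (b ∘ (powersetCard.ofFinEmbEquiv.symm t)) =
          exteriorPower.ιMulti_family k (m + 1) b t := rfl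
      rw [h3, exteriorPower.basis_repr_ne k (m + 1) b hts, smul_zero]
    · intro hs
      exact absurd (Finset.mem_univ s) hs
  rw [h1]
  refine (congrFun h2 (v ∘ Fin.succ)).trans ?_
  show e (Fin.cons (v 0) (v ∘ Fin.succ)) = e v
  congr 1
  exact Fin.cons_self_tail v

theorem NegB_sep' {g m : ℕ} (b : Module.Basis (Fin g) k V) (X : TensorProduct k ↥(⋀[k]^m V) P)
    (h : ∀ w, TensorProduct.lid k P (((b.exteriorPower m).coord w).rTensor P X) = 0) : X = 0 := by
  apply (TensorProduct.equivFinsuppOfBasisLeft (N := P) (b.exteriorPower m)).injective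
  rw [map_zero]
  ext s
  rw [TensorProduct.equivFinsuppOfBasisLeft_apply, Finsupp.zero_apply]
  exact h _

theorem NegB_sep {g m : ℕ} (b : Module.Basis (Fin g) k V) (X : KC k V P m)
    (h : ∀ w, Bridge_Theta b m w X = 0) : X = 0 := by
  refine NegB_sep' b X (fun s => ?_)
  have h1 := h (powersetCard.ofFinEmbEquiv.symm s)
  unfold Bridge_Theta at h1
  rw [Bridge_Phi_basis] at h1
  exact h1

theorem NegB_tens (u0 : U) (hU : ∀ u : U, ∃ a : k, u = a • u0) (n : ℕ) (y : KC k V U n) :
    ∃ z : ↥(⋀[k]^n V), y = (TensorProduct.mk k ↥(⋀[k]^n V) U).flip u0 z := by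
  refine TensorProduct.induction_on y ⟨0, by rw [map_zero]⟩ ?_ ?_
  · intro z u
    obtain ⟨a, rfl⟩ := hU u
    refine ⟨a • z, ?_⟩
    rw [LinearMap.flip_apply, TensorProduct.mk_apply, TensorProduct.smul_tmul]
  · rintro x y ⟨z, rfl⟩ ⟨z', rfl⟩
    exact ⟨z + z', by rw [map_add]⟩

theorem NegB_image {g m : ℕ} (b : Module.Basis (Fin g) k V) (μ : V →ₗ[k] U →ₗ[k] V) (u0 : U)
    (hμ : ∀ v, μ v u0 = v) (v : Fin (m + 2) → Fin g) (z : ↥(⋀[k]^(m + 2) V)) :
    Bridge_Psi b (m + 1) v (kos μ (m + 1) ((TensorProduct.mk k ↥(⋀[k]^(m + 2) V) U).flip u0 z)) =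
      Bridge_Phi b (m + 2) v z := by
  have key : ((Bridge_Psi b (m + 1) v).comp (kos μ (m + 1))).comp
      ((TensorProduct.mk k ↥(⋀[k]^(m + 2) V) U).flip u0) = Bridge_Phi b (m + 2) v := by
    apply exteriorPower.linearMap_ext
    ext c
    exact Bridge_image b μ u0 hμ v c
  exact LinearMap.congr_fun key z

end NegB

theorem bridge_conv {k V U P : Type*} [Field k] [AddCommGroup V] [Module k V] [AddCommGroup U]
    [Module k U] [AddCommGroup P] [Module k P] (g m : ℕ) (b : Module.Basis (Fin g) k V)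
    (u0 : U) (hU : ∀ u : U, ∃ a : k, u = a • u0) (μ : V →ₗ[k] U →ₗ[k] V) (hμ : ∀ v, μ v u0 = v)
    (ν : V →ₗ[k] V →ₗ[k] P) (e : (Fin (m + 2) → Fin g) → k)
    (halt : ∀ i j : Fin (m + 2), i ≠ 0 → j ≠ 0 → i ≠ j → ∀ v,
        e (v ∘ Equiv.swap i j) = - e v ∧ (v i = v j → e v = 0))
    (hcl : ∀ w : Fin (m + 2) → Fin g,
        ∑ i, ∑ j, e (Function.update (Function.update w 0 i) 1 j) • ν (b j) (b i) = 0)
    (hna : ∃ v, e (v ∘ Equiv.swap 0 1) ≠ - e v) :
    koszulDim μ ν m ≠ 0 := by
  intro h0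
  obtain ⟨v0, hv0⟩ := hna
  have : Module.Finite k V := Module.Finite.of_basis b
  have hx : kos ν m (NegB_x b e) = 0 := by
    refine NegB_sep b _ (fun w => ?_)
    rw [Bridge_closed b ν (NegB_x b e) w]
    rw [← hcl (Fin.cons (v0 0) (Fin.cons (v0 0) w))]
    refine Finset.sum_congr rfl fun i _ => Finset.sum_congr rfl fun j _ => ?_
    rw [NegB_Psi b e halt]
    congr 2
    funext l
    refine Fin.cases ?_ (fun l => Fin.cases ?_ (fun l => ?_) l) l
    · rw [Function.update_of_ne (by simp), Function.update_self]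
      simp
    · show (Fin.cons i (Fin.cons j w : Fin (m + 1) → Fin g) : Fin (m + 2) → Fin g) 1 = _
      rw [Fin.succ_zero_eq_one, Function.update_self]
      simp
    · rw [Function.update_of_ne (by
        intro h
        have := congrArg Fin.val h
        simp at this), Function.update_of_ne (by simp)]
      simp
  have hfin : Module.Finite k (KC k V V (m + 1)) :=
    inferInstanceAs (Module.Finite k (TensorProduct k ↥(⋀[k]^(m + 1) V) V))
  unfold koszulDim homDim at h0
  have hsub := Module.finrank_zero_iff.1 h0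
  rw [Submodule.Quotient.subsingleton_iff] at hsub
  have h1 : (⟨NegB_x b e, LinearMap.mem_ker.2 hx⟩ : ↥(LinearMap.ker (kos ν m))) ∈
      (LinearMap.range (kos μ (m + 1))).submoduleOf (LinearMap.ker (kos ν m)) := by
    rw [hsub]
    exact Submodule.mem_top
  obtain ⟨y, hy⟩ := h1
  obtain ⟨z, rfl⟩ := NegB_tens u0 hU (m + 2) y
  have h2 : ∀ v, e v = Bridge_Phi b (m + 2) v z := by
    intro v
    rw [← NegB_Psi b e halt v, ← NegB_image b μ u0 hμ v z, hy]
    rfl
  apply hv0
  have h3 := (Bridge_alt_Phi b m z).1 v0 (Equiv.swap 0 1)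
  simp only [← h2] at h3
  rw [h3, Equiv.Perm.sign_swap (by simp)]
  simp

end Pool.Agent.GrP
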