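import Mathlib
import Pool.Agent.GrP.Surf
import Pool.Agent.GrP.Nodal

/-!
Arrays on the nodal curve from the arrays of `neg_dual`: definition and closedness.

`N(z) = D(z) S(z)`, `D` the difference product of the `m + 2` variables, `S(z) = ∑_u σ(u) z^u` of degree
`≤ n - 1` in every variable, so `N` has degree `≤ m + 1 + n - 1 = g` in every variable.
`negE(v) = N(τ_v) / ∏_l (τ_(v_l) b_(v_l))`, `b_j = ∏_(j' ≠ j) (τ_j - τ_j')`.
-/

set_option autoImplicit false

namespace Pool.Agent.GrP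

open MvPolynomial

variable {F : Type*} [Field F]

/-- `S(z) = ∑_u σ(u) z^u` in an `F`-algebra. -/
noncomputable def negS {m n : ℕ} (A : Type*) [CommRing A] [Algebra F A]
    (σ : (Fin (m + 2) → Fin n) → F) (z : Fin (m + 2) → A) : A :=
  ∑ u : Fin (m + 2) → Fin n, algebraMap F A (σ u) * ∏ l, z l ^ (u l : ℕ)

/-- The coefficient array. -/
noncomputable def negE {m n g : ℕ} (τ : Fin g → F) (σ : (Fin (m + 2) → Fin n) → F)
    (v : Fin (m + 2) → Fin g) : F :=
  surfD (fun l => τ (v l)) * negS F σ (fun l => τ (v l)) /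
    ∏ l, (τ (v l) * ∏ j ∈ Finset.univ.erase (v l), (τ (v l) - τ j))

/-- Lagrange interpolation of the powers. -/
theorem negE_lag {g : ℕ} (τ : Fin g → F) (hτ : Function.Injective τ) (a : ℕ) (ha : a ≤ g) :
    ∑ i, Polynomial.C (τ i ^ a * (∏ j ∈ Finset.univ.erase i, (τ i - τ j))⁻¹) * nodal_b τ i =
      Polynomial.X ^ a - (if a = g then nodal_l τ else 0) := by
  classical
  have hb : ∀ i k : Fin g, (nodal_b τ i).eval (τ k) =
      if i = k then ∏ j ∈ Finset.univ.erase i, (τ i - τ j) else 0 := by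
    intro i k
    unfold nodal_b
    rw [Polynomial.eval_prod]
    split_ifs with h
    · subst h
      refine Finset.prod_congr rfl fun j _ => ?_
      simp
    · refine Finset.prod_eq_zero (i := k) ?_ (by simp)
      simp [Ne.symm h]
  have hl : ∀ k : Fin g, (nodal_l τ).eval (τ k) = 0 := by
    intro k
    unfold nodal_l
    rw [Polynomial.eval_prod]
    exact Finset.prod_eq_zero (Finset.mem_univ k) (by simp)
  have hne : ∀ i : Fin g, ∏ j ∈ Finset.univ.erase i, (τ i - τ j) ≠ 0 := by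
    intro i
    rw [Finset.prod_ne_zero_iff]
    intro j hj
    rw [sub_ne_zero]
    exact fun e => (Finset.mem_erase.mp hj).1 (hτ e).symm
  have hcard : (Finset.univ.image τ).card = g := by
    rw [Finset.card_image_of_injective _ hτ]; simp
  apply Polynomial.eq_of_degrees_lt_of_eval_finset_eq (Finset.univ.image τ)
  · rw [hcard]
    refine lt_of_le_of_lt (Polynomial.degree_sum_le _ _) ?_
    rw [Finset.sup_lt_iff (by exact WithBot.bot_lt_coe g)]
    intro i _
    refine lt_of_le_of_lt ((Polynomial.degree_mul_le _ _).trans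
      (add_le_add Polynomial.degree_C_le Polynomial.degree_le_natDegree)) ?_
    rw [nodal_b_natDegree, zero_add]
    have := i.pos
    exact_mod_cast (by omega : g - 1 < g)
  · rw [hcard]
    split_ifs with h
    · subst h
      rcases Nat.eq_zero_or_pos a with h0 | h0
      · subst h0
        have : nodal_l τ = 1 := by unfold nodal_l; simp
        rw [this]; simp
      · have e1 : (Polynomial.X ^ a : Polynomial F).degree = a := by simp
        have e2 : (nodal_l τ).degree = a := by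
          rw [Polynomial.degree_eq_natDegree (nodal_l_monic τ).ne_zero, nodal_l_natDegree]
        have := Polynomial.degree_sub_lt_left (p := (Polynomial.X ^ a : Polynomial F))
          (q := nodal_l τ) (by rw [e1, e2]) (by
            intro h; rw [h] at e1; simp at e1) (by
            rw [(nodal_l_monic τ).leadingCoeff]; simp)
        rwa [e1] at this
    · rw [sub_zero]
      simp only [Polynomial.degree_pow, Polynomial.degree_X, nsmul_eq_mul, mul_one]
      exact_mod_cast lt_of_le_of_ne ha h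
  · intro x hx
    obtain ⟨k, _, rfl⟩ := Finset.mem_image.mp hx
    rw [Polynomial.eval_finsetSum, Finset.sum_eq_single k]
    · rw [Polynomial.eval_mul, Polynomial.eval_C, hb, if_pos rfl, mul_assoc,
        inv_mul_cancel₀ (hne k), mul_one]
      split_ifs
      · rw [Polynomial.eval_sub, hl]; simp
      · simp
    · intro i _ hik
      rw [Polynomial.eval_mul, hb, if_neg hik, mul_zero]
    · intro h; exact absurd (Finset.mem_univ _) h


/-- difference product as a sum over permutations -/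
theorem negE_surfD {r : ℕ} {A : Type*} [CommRing A] (z : Fin r → A) :
    surfD z = ∑ π : Equiv.Perm (Fin r), ((Equiv.Perm.sign π : ℤ) : A) * ∏ l, z l ^ (π l : ℕ) := by
  unfold surfD
  rw [← Matrix.det_vandermonde, ← Matrix.det_transpose, Matrix.det_apply]
  refine Finset.sum_congr rfl fun π _ => ?_
  simp only [Matrix.transpose_apply, Matrix.vandermonde_apply]
  rw [Units.smul_def, zsmul_eq_mul]

/-- `N(z)` as a sum of monomials -/
theorem negE_expand {m n : ℕ} {A : Type*} [CommRing A] [Algebra F A]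
    (σ : (Fin (m + 2) → Fin n) → F) (z : Fin (m + 2) → A) :
    surfD z * negS A σ z = ∑ p : Equiv.Perm (Fin (m + 2)) × (Fin (m + 2) → Fin n),
      algebraMap F A (((Equiv.Perm.sign p.1 : ℤ) : F) * σ p.2) *
        ∏ l, z l ^ ((p.1 l : ℕ) + (p.2 l : ℕ)) := by
  rw [negE_surfD, negS, Finset.sum_mul_sum, Fintype.sum_prod_type]
  refine Finset.sum_congr rfl fun π _ => Finset.sum_congr rfl fun u _ => ?_
  simp only [pow_add, Finset.prod_mul_distrib, map_mul, map_intCast]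
  ring


/-- the point `(x, y, τ_(w 2), ..)` -/
noncomputable def negZ {m g : ℕ} (A : Type*) [CommRing A] [Algebra F A] (τ : Fin g → F)
    (w : Fin (m + 2) → Fin g) (x y : A) : Fin (m + 2) → A :=
  Function.update (Function.update (fun l => algebraMap F A (τ (w l))) 0 x) 1 y

theorem negZ_zero {m g : ℕ} (A : Type*) [CommRing A] [Algebra F A] (τ : Fin g → F)
    (w : Fin (m + 2) → Fin g) (x y : A) : negZ A τ w x y 0 = x := by
  unfold negZ
  rw [Function.update_of_ne (by simp), Function.update_self]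

theorem negZ_one {m g : ℕ} (A : Type*) [CommRing A] [Algebra F A] (τ : Fin g → F)
    (w : Fin (m + 2) → Fin g) (x y : A) : negZ A τ w x y 1 = y := by
  unfold negZ
  rw [Function.update_self]

theorem negZ_ss {m g : ℕ} (A : Type*) [CommRing A] [Algebra F A] (τ : Fin g → F)
    (w : Fin (m + 2) → Fin g) (x y : A) (l : Fin m) :
    negZ A τ w x y l.succ.succ = algebraMap F A (τ (w l.succ.succ)) := by
  unfold negZ
  rw [Function.update_of_ne (surf_ss1 l), Function.update_of_ne (surf_ss0 l)]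

theorem negZ_prod {m g : ℕ} (A : Type*) [CommRing A] [Algebra F A] (τ : Fin g → F)
    (w : Fin (m + 2) → Fin g) (x y : A) (e : Fin (m + 2) → ℕ) :
    ∏ l, negZ A τ w x y l ^ e l = x ^ e 0 * y ^ e 1 *
      algebraMap F A (∏ l : Fin m, τ (w l.succ.succ) ^ e l.succ.succ) := by
  rw [Fin.prod_univ_succ, Fin.prod_univ_succ, negZ_zero]
  have e1 : (Fin.succ 0 : Fin (m + 2)) = 1 := rfl
  rw [e1, negZ_one, map_prod, mul_assoc]
  congr 2
  refine Finset.prod_congr rfl fun l _ => ?_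
  rw [negZ_ss, map_pow]

/-- the coefficient -/
noncomputable def negC {m n g : ℕ} (τ : Fin g → F) (σ : (Fin (m + 2) → Fin n) → F)
    (w : Fin (m + 2) → Fin g) (p : Equiv.Perm (Fin (m + 2)) × (Fin (m + 2) → Fin n)) : F :=
  (((Equiv.Perm.sign p.1 : ℤ) : F) * σ p.2) *
    ∏ l : Fin m, τ (w l.succ.succ) ^ ((p.1 l.succ.succ : ℕ) + (p.2 l.succ.succ : ℕ))

theorem negN_eq {m n g : ℕ} (A : Type*) [CommRing A] [Algebra F A] (τ : Fin g → F)
    (σ : (Fin (m + 2) → Fin n) → F) (w : Fin (m + 2) → Fin g) (x y : A) :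
    surfD (negZ A τ w x y) * negS A σ (negZ A τ w x y) =
      ∑ p : Equiv.Perm (Fin (m + 2)) × (Fin (m + 2) → Fin n), algebraMap F A (negC τ σ w p) *
        (x ^ ((p.1 0 : ℕ) + (p.2 0 : ℕ)) * y ^ ((p.1 1 : ℕ) + (p.2 1 : ℕ))) := by
  rw [negE_expand]
  refine Finset.sum_congr rfl fun p _ => ?_
  rw [negZ_prod A τ w x y (fun l => (p.1 l : ℕ) + (p.2 l : ℕ)), negC, map_mul (algebraMap F A)
    (((Equiv.Perm.sign p.1 : ℤ) : F) * σ p.2)]
  ring

theorem negZ_swap {m g : ℕ} (A : Type*) [CommRing A] [Algebra F A] (τ : Fin g → F)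
    (w : Fin (m + 2) → Fin g) (x y : A) :
    negZ A τ w y x = negZ A τ w x y ∘ Equiv.swap 0 1 := by
  funext l
  rw [Function.comp_apply]
  by_cases h0 : l = 0
  · subst h0; rw [Equiv.swap_apply_left, negZ_zero, negZ_one]
  · by_cases h1 : l = 1
    · subst h1; rw [Equiv.swap_apply_right, negZ_zero, negZ_one]
    · rw [Equiv.swap_apply_of_ne_of_ne h0 h1]
      unfold negZ
      rw [Function.update_of_ne h1, Function.update_of_ne h0, Function.update_of_ne h1,
        Function.update_of_ne h0]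

theorem negZ_diag {m g : ℕ} (A : Type*) [CommRing A] [Algebra F A] (τ : Fin g → F)
    (w : Fin (m + 2) → Fin g) (x : A) : surfD (negZ A τ w x x) = 0 := by
  unfold surfD
  refine Finset.prod_eq_zero (Finset.mem_univ 0) (Finset.prod_eq_zero (i := 1) ?_ ?_)
  · rw [Finset.mem_Ioi]; simp
  · rw [negZ_zero, negZ_one, sub_self]

theorem negS_swap {m n g : ℕ} (A : Type*) [CommRing A] [Algebra F A] (τ : Fin g → F) (ρ : F)
    (σ : (Fin (m + 2) → Fin n) → F)
    (hch : ∀ (w : Fin (m + 2) → Fin n) (s : ℕ),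
      ∑ i : Fin n, ∑ j : Fin n, (if (i : ℕ) + (j : ℕ) = s then
        (ρ ^ (j : ℕ) - ρ ^ (i : ℕ)) * σ (Function.update (Function.update w 0 i) 1 j) else 0) = 0)
    (w : Fin (m + 2) → Fin g) (x : A) :
    negS A σ (negZ A τ w x (algebraMap F A ρ * x)) =
      negS A σ (negZ A τ w (algebraMap F A ρ * x) x) := by
  classical
  rw [← sub_eq_zero]
  unfold negS
  rw [← Finset.sum_sub_distrib]
  have e1 : ∀ u : Fin (m + 2) → Fin n, algebraMap F A (σ u) *
      ∏ l, negZ A τ w x (algebraMap F A ρ * x) l ^ (u l : ℕ) - algebraMap F A (σ u) *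
      ∏ l, negZ A τ w (algebraMap F A ρ * x) x l ^ (u l : ℕ) =
      algebraMap F A ((∏ l : Fin m, τ (w l.succ.succ) ^ (u l.succ.succ : ℕ)) *
        ((ρ ^ (u 1 : ℕ) - ρ ^ (u 0 : ℕ)) * σ u)) * x ^ ((u 0 : ℕ) + (u 1 : ℕ)) := by
    intro u
    rw [negZ_prod A τ w _ _ (fun l => (u l : ℕ)), negZ_prod A τ w _ _ (fun l => (u l : ℕ))]
    simp only [map_mul, map_sub, map_pow, mul_pow, pow_add]
    ring
  rw [Finset.sum_congr rfl fun u _ => e1 u]
  rw [← (Fin.consEquiv (fun _ : Fin (m + 2) => Fin n)).sum_comp, Fintype.sum_prod_type]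
  have e2 : ∀ i : Fin n, (∑ u : Fin (m + 1) → Fin n, (fun u : Fin (m + 2) → Fin n =>
      algebraMap F A ((∏ l : Fin m, τ (w l.succ.succ) ^ (u l.succ.succ : ℕ)) *
        ((ρ ^ (u 1 : ℕ) - ρ ^ (u 0 : ℕ)) * σ u)) * x ^ ((u 0 : ℕ) + (u 1 : ℕ)))
          (Fin.cons i u : Fin (m + 2) → Fin n)) =
      ∑ j : Fin n, ∑ r : Fin m → Fin n,
        algebraMap F A ((∏ l : Fin m, τ (w l.succ.succ) ^ (r l : ℕ)) *
        ((ρ ^ (j : ℕ) - ρ ^ (i : ℕ)) * σ (Fin.cons i (Fin.cons j r : Fin (m + 1) → Fin n)))) *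
          x ^ ((i : ℕ) + (j : ℕ)) := by
    intro i
    rw [← (Fin.consEquiv (fun _ : Fin (m + 1) => Fin n)).sum_comp, Fintype.sum_prod_type]
    rfl
  have e3 : ∀ i : Fin n, (∑ u : Fin (m + 1) → Fin n,
      algebraMap F A ((∏ l : Fin m, τ (w l.succ.succ) ^
        (((Fin.consEquiv (fun _ : Fin (m + 2) => Fin n)) (i, u)) l.succ.succ : ℕ)) *
        ((ρ ^ (((Fin.consEquiv (fun _ : Fin (m + 2) => Fin n)) (i, u)) 1 : ℕ) -
          ρ ^ (((Fin.consEquiv (fun _ : Fin (m + 2) => Fin n)) (i, u)) 0 : ℕ)) *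
            σ ((Fin.consEquiv (fun _ : Fin (m + 2) => Fin n)) (i, u)))) *
        x ^ ((((Fin.consEquiv (fun _ : Fin (m + 2) => Fin n)) (i, u)) 0 : ℕ) +
          (((Fin.consEquiv (fun _ : Fin (m + 2) => Fin n)) (i, u)) 1 : ℕ))) =
      ∑ j : Fin n, ∑ r : Fin m → Fin n,
        algebraMap F A ((∏ l : Fin m, τ (w l.succ.succ) ^ (r l : ℕ)) *
        ((ρ ^ (j : ℕ) - ρ ^ (i : ℕ)) * σ (Fin.cons i (Fin.cons j r : Fin (m + 1) → Fin n)))) *
          x ^ ((i : ℕ) + (j : ℕ)) := e2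
  rw [Finset.sum_congr rfl fun i _ => e3 i]
  have e4 : ∀ i : Fin n, (∑ j : Fin n, ∑ r : Fin m → Fin n,
        algebraMap F A ((∏ l : Fin m, τ (w l.succ.succ) ^ (r l : ℕ)) *
        ((ρ ^ (j : ℕ) - ρ ^ (i : ℕ)) * σ (Fin.cons i (Fin.cons j r : Fin (m + 1) → Fin n)))) *
          x ^ ((i : ℕ) + (j : ℕ))) = ∑ r : Fin m → Fin n, ∑ j : Fin n,
        algebraMap F A ((∏ l : Fin m, τ (w l.succ.succ) ^ (r l : ℕ)) *
        ((ρ ^ (j : ℕ) - ρ ^ (i : ℕ)) * σ (Fin.cons i (Fin.cons j r : Fin (m + 1) → Fin n)))) *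
          x ^ ((i : ℕ) + (j : ℕ)) := fun i => Finset.sum_comm
  rw [Finset.sum_congr rfl fun i _ => e4 i, Finset.sum_comm]
  refine Finset.sum_eq_zero fun r _ => ?_
  rcases Nat.eq_zero_or_pos n with hn | hn
  · subst hn; simp
  have e5 : ∀ i j : Fin n, algebraMap F A ((∏ l : Fin m, τ (w l.succ.succ) ^ (r l : ℕ)) *
        ((ρ ^ (j : ℕ) - ρ ^ (i : ℕ)) * σ (Fin.cons i (Fin.cons j r : Fin (m + 1) → Fin n)))) *
          x ^ ((i : ℕ) + (j : ℕ)) = ∑ s ∈ Finset.range (2 * n),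
      algebraMap F A ((∏ l : Fin m, τ (w l.succ.succ) ^ (r l : ℕ)) *
        (if (i : ℕ) + (j : ℕ) = s then (ρ ^ (j : ℕ) - ρ ^ (i : ℕ)) *
          σ (Fin.cons i (Fin.cons j r : Fin (m + 1) → Fin n)) else 0)) * x ^ s := by
    intro i j
    rw [Finset.sum_eq_single ((i : ℕ) + (j : ℕ))]
    · rw [if_pos rfl]
    · intro s _ hs
      rw [if_neg (Ne.symm hs)]; simp
    · intro h
      exfalso; apply h
      rw [Finset.mem_range]
      have := i.2; have := j.2; omega
  rw [Finset.sum_congr rfl fun i _ => Finset.sum_congr rfl fun j _ => e5 i j]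
  rw [Finset.sum_congr rfl fun i _ => Finset.sum_comm, Finset.sum_comm]
  refine Finset.sum_eq_zero fun s _ => ?_
  have e6 := hch (Fin.cons ⟨0, hn⟩ (Fin.cons ⟨0, hn⟩ r : Fin (m + 1) → Fin n)) s
  have e7 : ∀ i j : Fin n, Function.update (Function.update
      (Fin.cons ⟨0, hn⟩ (Fin.cons ⟨0, hn⟩ r : Fin (m + 1) → Fin n) : Fin (m + 2) → Fin n) 0 i) 1 j =
      Fin.cons i (Fin.cons j r : Fin (m + 1) → Fin n) := by
    intro i j
    rw [Fin.update_cons_zero]
    have : (1 : Fin (m + 2)) = Fin.succ 0 := rfl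
    rw [this, ← Fin.cons_update, Fin.update_cons_zero]
  simp only [e7] at e6
  have e8 : (∑ i : Fin n, ∑ j : Fin n, algebraMap F A ((∏ l : Fin m,
      τ (w l.succ.succ) ^ (r l : ℕ)) * (if (i : ℕ) + (j : ℕ) = s then
        (ρ ^ (j : ℕ) - ρ ^ (i : ℕ)) * σ (Fin.cons i (Fin.cons j r : Fin (m + 1) → Fin n))
          else 0)) * x ^ s) = algebraMap F A ((∏ l : Fin m, τ (w l.succ.succ) ^ (r l : ℕ)) *
      ∑ i : Fin n, ∑ j : Fin n, (if (i : ℕ) + (j : ℕ) = s then
        (ρ ^ (j : ℕ) - ρ ^ (i : ℕ)) * σ (Fin.cons i (Fin.cons j r : Fin (m + 1) → Fin n))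
          else 0)) * x ^ s := by
    simp only [map_mul, map_sum, Finset.mul_sum, Finset.sum_mul]
  rw [e8, e6, mul_zero, map_zero, zero_mul]


/-- the sums of the simple fractions -/
theorem negE_sum {g : ℕ} (τ : Fin g → F) (hτ : Function.Injective τ)
    (φ : Polynomial F →+* RatFunc F) (hφ : ∀ c, φ (Polynomial.C c) = RatFunc.C c)
    (hl : φ (nodal_l τ) ≠ 0) (a : ℕ) (ha : a ≤ g) :
    ∑ i, RatFunc.C (τ i ^ a * (∏ j ∈ Finset.univ.erase i, (τ i - τ j))⁻¹) *
      (φ (nodal_b τ i) / φ (nodal_l τ)) =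
    φ Polynomial.X ^ a / φ (nodal_l τ) - (if a = g then 1 else 0) := by
  have h2 := congrArg φ (negE_lag τ hτ a ha)
  rw [map_sum] at h2
  simp only [map_mul φ, map_sub φ, map_pow φ, hφ] at h2
  simp only [← mul_div_assoc, ← Finset.sum_div]
  rw [h2, sub_div]
  congr 1
  split_ifs
  · exact div_self hl
  · rw [map_zero, zero_div]

/-- The array is closed.

Proof.  Put `ℓ = ∏ (X - C τ_j)` in `F[X]`, `b_j = ∏_(j' ≠ j) (τ_j - τ_j')`,
`κ_j = (X - C τ_j)⁻¹ - (C ρ X - C τ_j)⁻¹` in `RatFunc F`; then `X * om τ_j (ρ⁻¹ τ_j) = C τ_j * κ_j`.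
(1) For `α ≤ g` and `t = X` or `t = C ρ X`:
`∑_j C (τ_j^α / b_j) (t - C τ_j)⁻¹ = t^α / ℓ(t) - δ`, `δ = 1` if `α = g` and `0` otherwise (Lagrange
interpolation of `X^α - δ ℓ`, of degree `< g`, at the `τ_j`).  So
`L_α := ∑_j C (τ_j^α / b_j) κ_j = X^α / ℓ(X) - (ρX)^α / ℓ(ρX)`.
(2) `N` is the polynomial `surfD X * ∑ ..` of degree `≤ g` in every variable (`surfD_degreeOf`), expand it
by `surf_expand` (with `g + 1`): `N = ∑_u a_u z^u`.  Multiply the claim by `X ^ 2` and by the constants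
of the positions `≥ 2`: it becomes `∑_u a_u (∏_(l ≥ 2) τ_(w_l)^(u_l)) L_(u_0) L_(u_1) = 0`, and the left
side is `N(X,X,..)/ℓ(X)^2 - N(X,ρX,..)/(ℓ(X) ℓ(ρX)) - N(ρX,X,..)/(ℓ(X) ℓ(ρX)) + N(ρX,ρX,..)/ℓ(ρX)^2`,
`..` the constants `C τ_(w_l)`, `N` evaluated in `RatFunc F`.
(3) `N(t,t,..) = 0` (difference product); `N(X,ρX,..) + N(ρX,X,..) = 0`: `surfD` changes sign
(`surfD_swap`) and `S(X,ρX,..) = S(ρX,X,..)`, because the coefficient of `X^s` of the difference
`S(X,ρX,..) - S(ρX,X,..)` is the left side of `hch` (times the constants). -/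
theorem negE_closed {m n g : ℕ} (hg : n + m = g) (ρ : F) (hρ0 : ρ ≠ 0)
    (τ : Fin g → F) (hτ0 : ∀ l, τ l ≠ 0) (hτ : Function.Injective τ)
    (σ : (Fin (m + 2) → Fin n) → F)
    (hch : ∀ (w : Fin (m + 2) → Fin n) (s : ℕ),
      ∑ i : Fin n, ∑ j : Fin n, (if (i : ℕ) + (j : ℕ) = s then
        (ρ ^ (j : ℕ) - ρ ^ (i : ℕ)) * σ (Function.update (Function.update w 0 i) 1 j) else 0) = 0)
    (w : Fin (m + 2) → Fin g) :
    ∑ i, ∑ j, RatFunc.C (negE τ σ (Function.update (Function.update w 0 i) 1 j)) *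
        (om (τ i) (ρ⁻¹ * τ i) * om (τ j) (ρ⁻¹ * τ j)) = 0 := by
  classical
  set φ : Polynomial F →+* RatFunc F := algebraMap (Polynomial F) (RatFunc F) with hφd
  set ψ : Polynomial F →+* RatFunc F :=
    φ.comp (Polynomial.compRingHom (Polynomial.C ρ * Polynomial.X)) with hψd
  have hψ : ∀ q, ψ q = φ (q.comp (Polynomial.C ρ * Polynomial.X)) := fun q => rfl
  have hφC : ∀ c, φ (Polynomial.C c) = RatFunc.C c := fun c => RatFunc.algebraMap_C c
  have hψC : ∀ c, ψ (Polynomial.C c) = RatFunc.C c := by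
    intro c; rw [hψ, Polynomial.C_comp, hφC]
  have hφX : φ Polynomial.X = RatFunc.X := RatFunc.algebraMap_X
  have hψX : ψ Polynomial.X = RatFunc.C ρ * RatFunc.X := by
    rw [hψ, Polynomial.X_comp, map_mul, hφC, hφX]
  have hφinj : Function.Injective φ := RatFunc.algebraMap_injective F
  have hφl : φ (nodal_l τ) ≠ 0 := by
    rw [Ne, ← map_zero φ, hφinj.eq_iff]
    exact (nodal_l_monic τ).ne_zero
  have hψl : ψ (nodal_l τ) ≠ 0 := by
    rw [hψ, Ne, ← map_zero φ, hφinj.eq_iff, nodal_l_comp, Finset.prod_eq_zero_iff]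
    rintro ⟨k, _, hk⟩
    have := congrArg (fun q => Polynomial.coeff q 1) hk
    simp [Polynomial.coeff_C] at this
    exact hρ0 this
  set β : Fin g → F := fun i => ∏ j ∈ Finset.univ.erase i, (τ i - τ j) with hβ
  have hβ0 : ∀ i, β i ≠ 0 := by
    intro i
    rw [hβ, Finset.prod_ne_zero_iff]
    intro j hj
    rw [sub_ne_zero]
    exact fun e => (Finset.mem_erase.mp hj).1 (hτ e).symm
  set κ : Fin g → RatFunc F := fun i => φ (nodal_b τ i) / φ (nodal_l τ) -
    ψ (nodal_b τ i) / ψ (nodal_l τ) with hκ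
  have hom : ∀ i, RatFunc.X * om (τ i) (ρ⁻¹ * τ i) = RatFunc.C (τ i) * κ i := by
    intro i
    have h := nodal_om τ ρ hρ0 i (om (τ i) (ρ⁻¹ * τ i)) rfl
    rw [← hφd] at h
    simp only [map_mul, map_sub, hφC, ← hψ] at h
    rw [hκ]
    generalize om (τ i) (ρ⁻¹ * τ i) = o at *
    field_simp
    linear_combination h
  have hsum : ∀ a ≤ g, ∑ i, RatFunc.C (τ i ^ a * (β i)⁻¹) * κ i =
      RatFunc.X ^ a / φ (nodal_l τ) - (RatFunc.C ρ * RatFunc.X) ^ a / ψ (nodal_l τ) := by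
    intro a ha
    have h1 := negE_sum τ hτ φ hφC hφl a ha
    have h2 := negE_sum τ hτ ψ hψC hψl a ha
    rw [hφX] at h1
    rw [hψX] at h2
    rw [hκ]
    simp only [mul_sub, Finset.sum_sub_distrib]
    linear_combination h1 - h2
  have hX : (RatFunc.X : RatFunc F) ≠ 0 := RatFunc.X_ne_zero
  -- the coefficients
  set Q : F := ∏ l : Fin m, (τ (w l.succ.succ) * β (w l.succ.succ)) with hQ
  have hz : ∀ i j : Fin g, (fun l => τ ((Function.update (Function.update w 0 i) 1 j :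
      Fin (m + 2) → Fin g) l)) = negZ F τ w (τ i) (τ j) := by
    intro i j
    funext l
    unfold negZ
    by_cases h1 : l = 1
    · subst h1; rw [Function.update_self, Function.update_self]
    · rw [Function.update_of_ne h1, Function.update_of_ne h1]
      by_cases h0 : l = 0
      · subst h0; rw [Function.update_self, Function.update_self]
      · rw [Function.update_of_ne h0, Function.update_of_ne h0]
        rfl
  have hE : ∀ i j : Fin g, negE τ σ (Function.update (Function.update w 0 i) 1 j) * τ i * τ j =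
      Q⁻¹ * ∑ p : Equiv.Perm (Fin (m + 2)) × (Fin (m + 2) → Fin n), negC τ σ w p *
        ((τ i ^ ((p.1 0 : ℕ) + (p.2 0 : ℕ)) * (β i)⁻¹) *
          (τ j ^ ((p.1 1 : ℕ) + (p.2 1 : ℕ)) * (β j)⁻¹)) := by
    intro i j
    have h1 := negN_eq F τ σ w (τ i) (τ j)
    have h2 : ∏ l, (τ ((Function.update (Function.update w 0 i) 1 j : Fin (m + 2) → Fin g) l) *
        β ((Function.update (Function.update w 0 i) 1 j : Fin (m + 2) → Fin g) l)) =
        τ i * β i * (τ j * β j) * Q := by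
      rw [Fin.prod_univ_succ, Fin.prod_univ_succ]
      have e1 : (Fin.succ 0 : Fin (m + 2)) = 1 := rfl
      rw [e1, Function.update_self, Function.update_of_ne (by simp), Function.update_self,
        ← mul_assoc, hQ]
      congr 1
    have h3 : negE τ σ (Function.update (Function.update w 0 i) 1 j) =
        surfD (negZ F τ w (τ i) (τ j)) * negS F σ (negZ F τ w (τ i) (τ j)) /
          (τ i * β i * (τ j * β j) * Q) := by
      rw [← h2, ← hz]
      rfl
    have hS : (∑ p : Equiv.Perm (Fin (m + 2)) × (Fin (m + 2) → Fin n), negC τ σ w p *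
        ((τ i ^ ((p.1 0 : ℕ) + (p.2 0 : ℕ)) * (β i)⁻¹) *
          (τ j ^ ((p.1 1 : ℕ) + (p.2 1 : ℕ)) * (β j)⁻¹))) =
        (β i)⁻¹ * (β j)⁻¹ * (surfD (negZ F τ w (τ i) (τ j)) *
          negS F σ (negZ F τ w (τ i) (τ j))) := by
      rw [h1, Finset.mul_sum]
      refine Finset.sum_congr rfl fun p _ => ?_
      rw [Algebra.algebraMap_self_apply]
      ring
    have hQ0 : Q ≠ 0 := by
      rw [hQ, Finset.prod_ne_zero_iff]
      intro l _
      exact mul_ne_zero (hτ0 _) (hβ0 _)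
    rw [hS, h3]
    have := hτ0 i
    have := hτ0 j
    have := hβ0 i
    have := hβ0 j
    field_simp
  -- multiply by `X ^ 2`
  have hkey : RatFunc.X ^ 2 * (∑ i, ∑ j, RatFunc.C (negE τ σ (Function.update
      (Function.update w 0 i) 1 j)) * (om (τ i) (ρ⁻¹ * τ i) * om (τ j) (ρ⁻¹ * τ j))) =
      RatFunc.C Q⁻¹ * ∑ p : Equiv.Perm (Fin (m + 2)) × (Fin (m + 2) → Fin n),
        RatFunc.C (negC τ σ w p) *
        ((∑ i, RatFunc.C (τ i ^ ((p.1 0 : ℕ) + (p.2 0 : ℕ)) * (β i)⁻¹) * κ i) *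
          (∑ j, RatFunc.C (τ j ^ ((p.1 1 : ℕ) + (p.2 1 : ℕ)) * (β j)⁻¹) * κ j)) := by
    have h1 : ∀ i j : Fin g, RatFunc.X ^ 2 * (RatFunc.C (negE τ σ (Function.update
        (Function.update w 0 i) 1 j)) * (om (τ i) (ρ⁻¹ * τ i) * om (τ j) (ρ⁻¹ * τ j))) =
        RatFunc.C Q⁻¹ * ∑ p : Equiv.Perm (Fin (m + 2)) × (Fin (m + 2) → Fin n),
          RatFunc.C (negC τ σ w p) *
          ((RatFunc.C (τ i ^ ((p.1 0 : ℕ) + (p.2 0 : ℕ)) * (β i)⁻¹) * κ i) *
          (RatFunc.C (τ j ^ ((p.1 1 : ℕ) + (p.2 1 : ℕ)) * (β j)⁻¹) * κ j)) := by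
      intro i j
      have e1 : RatFunc.X ^ 2 * (RatFunc.C (negE τ σ (Function.update
        (Function.update w 0 i) 1 j)) * (om (τ i) (ρ⁻¹ * τ i) * om (τ j) (ρ⁻¹ * τ j))) =
        RatFunc.C (negE τ σ (Function.update (Function.update w 0 i) 1 j) * τ i * τ j) *
          (κ i * κ j) := by
        simp only [map_mul]
        linear_combination (RatFunc.C (negE τ σ (Function.update
          (Function.update w 0 i) 1 j)) * (RatFunc.X * om (τ j) (ρ⁻¹ * τ j))) * hom i +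
          (RatFunc.C (negE τ σ (Function.update
          (Function.update w 0 i) 1 j)) * (RatFunc.C (τ i) * κ i)) * hom j
      rw [e1, hE, map_mul RatFunc.C Q⁻¹, map_sum, mul_assoc, Finset.sum_mul]
      congr 1
      refine Finset.sum_congr rfl fun p _ => ?_
      simp only [map_mul]
      ring
    rw [Finset.mul_sum]
    rw [Finset.sum_congr rfl fun i _ => Finset.mul_sum _ _ _]
    rw [Finset.sum_congr rfl fun i _ => Finset.sum_congr rfl fun j _ => h1 i j]
    rw [Finset.sum_congr rfl fun i _ => (Finset.mul_sum _ _ _).symm, ← Finset.mul_sum]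
    congr 1
    rw [Finset.sum_congr rfl fun i _ => Finset.sum_comm, Finset.sum_comm]
    refine Finset.sum_congr rfl fun p _ => ?_
    rw [Finset.sum_mul_sum, Finset.mul_sum]
    exact Finset.sum_congr rfl fun i _ => (Finset.mul_sum _ _ _).symm
  have hexp : ∀ (p : Equiv.Perm (Fin (m + 2)) × (Fin (m + 2) → Fin n)) (l : Fin (m + 2)),
      (p.1 l : ℕ) + (p.2 l : ℕ) ≤ g := by
    intro p l
    have h1 := (p.1 l).2
    have h2 := (p.2 l).2
    omega
  have hN := fun x y : RatFunc F => negN_eq (RatFunc F) τ σ w x y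
  have h0 : RatFunc.X ^ 2 * (∑ i, ∑ j, RatFunc.C (negE τ σ (Function.update
      (Function.update w 0 i) 1 j)) * (om (τ i) (ρ⁻¹ * τ i) * om (τ j) (ρ⁻¹ * τ j))) = 0 := by
    rw [hkey]
    have h1 : ∀ p : Equiv.Perm (Fin (m + 2)) × (Fin (m + 2) → Fin n),
        RatFunc.C (negC τ σ w p) *
        ((∑ i, RatFunc.C (τ i ^ ((p.1 0 : ℕ) + (p.2 0 : ℕ)) * (β i)⁻¹) * κ i) *
          (∑ j, RatFunc.C (τ j ^ ((p.1 1 : ℕ) + (p.2 1 : ℕ)) * (β j)⁻¹) * κ j)) =
        (φ (nodal_l τ))⁻¹ ^ 2 * (algebraMap F (RatFunc F) (negC τ σ w p) *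
          (RatFunc.X ^ ((p.1 0 : ℕ) + (p.2 0 : ℕ)) * RatFunc.X ^ ((p.1 1 : ℕ) + (p.2 1 : ℕ)))) -
        (φ (nodal_l τ))⁻¹ * (ψ (nodal_l τ))⁻¹ * (algebraMap F (RatFunc F) (negC τ σ w p) *
          (RatFunc.X ^ ((p.1 0 : ℕ) + (p.2 0 : ℕ)) *
            (algebraMap F (RatFunc F) ρ * RatFunc.X) ^ ((p.1 1 : ℕ) + (p.2 1 : ℕ)))) -
        (φ (nodal_l τ))⁻¹ * (ψ (nodal_l τ))⁻¹ * (algebraMap F (RatFunc F) (negC τ σ w p) *
          ((algebraMap F (RatFunc F) ρ * RatFunc.X) ^ ((p.1 0 : ℕ) + (p.2 0 : ℕ)) *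
            RatFunc.X ^ ((p.1 1 : ℕ) + (p.2 1 : ℕ)))) +
        (ψ (nodal_l τ))⁻¹ ^ 2 * (algebraMap F (RatFunc F) (negC τ σ w p) *
          ((algebraMap F (RatFunc F) ρ * RatFunc.X) ^ ((p.1 0 : ℕ) + (p.2 0 : ℕ)) *
            (algebraMap F (RatFunc F) ρ * RatFunc.X) ^ ((p.1 1 : ℕ) + (p.2 1 : ℕ)))) := by
      intro p
      rw [hsum _ (hexp p 0), hsum _ (hexp p 1), RatFunc.algebraMap_eq_C]
      simp only [div_eq_mul_inv]
      ring
    rw [Finset.sum_congr rfl fun p _ => h1 p]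
    rw [Finset.sum_add_distrib, Finset.sum_sub_distrib, Finset.sum_sub_distrib,
      ← Finset.mul_sum, ← Finset.mul_sum, ← Finset.mul_sum, ← Finset.mul_sum,
      ← hN, ← hN, ← hN, ← hN, negZ_diag, negZ_diag,
      negZ_swap (RatFunc F) τ w RatFunc.X (algebraMap F (RatFunc F) ρ * RatFunc.X),
      surfD_swap _ _ _ (by simp),
      ← negZ_swap (RatFunc F) τ w RatFunc.X (algebraMap F (RatFunc F) ρ * RatFunc.X),
      negS_swap (RatFunc F) τ ρ σ hch w RatFunc.X]
    ring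
  rcases mul_eq_zero.mp h0 with h | h
  · exact absurd h (pow_ne_zero 2 hX)
  · exact h

end Pool.Agent.GrP
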