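import Mathlib
import Pool.Agent.GrP.NegE

/-!
The array `negE` is alternating in the positions `≥ 1` and not alternating in the positions `0, 1`.
-/

set_option autoImplicit false

namespace Pool.Agent.GrP

open MvPolynomial

variable {F : Type*} [Field F]

private theorem negN_comp {m n : ℕ} (σ : (Fin (m + 2) → Fin n) → F) (π : Equiv.Perm (Fin (m + 2)))
    (z : Fin (m + 2) → F) : negS F σ (z ∘ π) = negS F (fun u => σ (u ∘ π)) z := by
  unfold negS
  refine Fintype.sum_equiv (Equiv.arrowCongr π (Equiv.refl (Fin n))) _ _ fun u => ?_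
  have e : (Equiv.arrowCongr π (Equiv.refl (Fin n))) u = u ∘ π.symm := by
    funext i; simp [Equiv.arrowCongr]
  have e1 : (u ∘ π.symm) ∘ π = u := by
    funext i; simp
  rw [e]
  show _ = algebraMap F F (σ ((u ∘ π.symm) ∘ π)) * _
  rw [e1]
  congr 1
  rw [← Equiv.prod_comp π (fun l => z l ^ (((u ∘ π.symm) l : Fin n) : ℕ))]
  refine Finset.prod_congr rfl fun l _ => ?_
  simp

private theorem negN_sub {m n : ℕ} (σ σ' : (Fin (m + 2) → Fin n) → F) (z : Fin (m + 2) → F) :
    negS F (fun u => σ u - σ' u) z = negS F σ z - negS F σ' z := by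
  unfold negS
  rw [← Finset.sum_sub_distrib]
  refine Finset.sum_congr rfl fun u _ => ?_
  rw [map_sub, sub_mul]

/-- the denominator -/
private noncomputable def negN_Q {m g : ℕ} (τ : Fin g → F) (v : Fin (m + 2) → Fin g) : F :=
  ∏ l, (τ (v l) * ∏ j ∈ Finset.univ.erase (v l), (τ (v l) - τ j))

private theorem negN_Q_comp {m g : ℕ} (τ : Fin g → F) (v : Fin (m + 2) → Fin g)
    (π : Equiv.Perm (Fin (m + 2))) : negN_Q τ (v ∘ π) = negN_Q τ v := by
  unfold negN_Q
  exact Equiv.prod_comp π (fun l => (τ (v l) * ∏ j ∈ Finset.univ.erase (v l), (τ (v l) - τ j)))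

private theorem negN_Q_ne {m g : ℕ} (τ : Fin g → F) (hτ0 : ∀ l, τ l ≠ 0)
    (hτ : Function.Injective τ) (v : Fin (m + 2) → Fin g) : negN_Q τ v ≠ 0 := by
  unfold negN_Q
  rw [Finset.prod_ne_zero_iff]
  intro l _
  refine mul_ne_zero (hτ0 _) ?_
  rw [Finset.prod_ne_zero_iff]
  intro j hj
  rw [sub_ne_zero]
  intro e
  exact (Finset.mem_erase.mp hj).1 (hτ e).symm

private theorem negN_def {m n g : ℕ} (τ : Fin g → F) (σ : (Fin (m + 2) → Fin n) → F)
    (v : Fin (m + 2) → Fin g) :
    negE τ σ v = surfD (τ ∘ v) * negS F σ (τ ∘ v) / negN_Q τ v := rfl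

/-- Positions `≥ 1`: `surfD` changes sign (`surfD_swap`), `negS` and the denominator do not change
(reindex the sum over `u` by the swap and use `hsym`); if `v i = v j` the difference product is zero. -/
theorem negE_alt {m n g : ℕ} (τ : Fin g → F) (σ : (Fin (m + 2) → Fin n) → F)
    (hsym : ∀ π : Equiv.Perm (Fin (m + 2)), π 0 = 0 → ∀ v, σ (v ∘ π) = σ v) :
    ∀ i j : Fin (m + 2), i ≠ 0 → j ≠ 0 → i ≠ j → ∀ v : Fin (m + 2) → Fin g,
      negE τ σ (v ∘ Equiv.swap i j) = - negE τ σ v ∧ (v i = v j → negE τ σ v = 0) := by
  intro i j hi hj hij v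
  constructor
  · rw [negN_def, negN_def, negN_Q_comp]
    have e1 : τ ∘ v ∘ Equiv.swap i j = (τ ∘ v) ∘ Equiv.swap i j := rfl
    rw [e1, surfD_swap _ _ _ hij, negN_comp]
    have e2 : (fun u => σ (u ∘ Equiv.swap i j)) = σ := by
      funext u
      exact hsym _ (Equiv.swap_apply_of_ne_of_ne hi.symm hj.symm) u
    rw [e2]
    ring
  · intro hv
    rw [negN_def]
    have h1 : surfD (τ ∘ v) = 0 := by
      unfold surfD
      rw [← Matrix.det_vandermonde, Matrix.det_vandermonde_eq_zero_iff]
      exact ⟨i, j, by simp [hv], hij⟩
    rw [h1, zero_mul, zero_div]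

/-- a polynomial of degree `< n` in one variable with `n` zeros -/
private theorem negN_vanish {m n : ℕ} (σ : (Fin (m + 2) → Fin n) → F) (z : Fin (m + 2) → F)
    (l : Fin (m + 2)) (s : Finset F) (hs : n ≤ s.card)
    (h : ∀ x ∈ s, negS F σ (Function.update z l x) = 0) (x : F) :
    negS F σ (Function.update z l x) = 0 := by
  set p : Polynomial F := ∑ u : Fin (m + 2) → Fin n,
    Polynomial.C (σ u * ∏ j ∈ Finset.univ.erase l, z j ^ (u j : ℕ)) *
      Polynomial.X ^ (u l : ℕ) with hp
  have heval : ∀ y, p.eval y = negS F σ (Function.update z l y) := by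
    intro y
    rw [hp, Polynomial.eval_finsetSum]
    unfold negS
    refine Finset.sum_congr rfl fun u _ => ?_
    rw [Polynomial.eval_mul, Polynomial.eval_C, Polynomial.eval_pow, Polynomial.eval_X,
      ← Finset.mul_prod_erase Finset.univ (fun j => Function.update z l y j ^ (u j : ℕ))
        (Finset.mem_univ l), Function.update_self]
    have e : ∏ j ∈ Finset.univ.erase l, Function.update z l y j ^ (u j : ℕ) =
        ∏ j ∈ Finset.univ.erase l, z j ^ (u j : ℕ) :=
      Finset.prod_congr rfl fun j hj => by
        rw [Function.update_of_ne (Finset.mem_erase.mp hj).1]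
    rw [e]
    show _ = σ u * _
    ring
  have hdeg : p.degree < s.card := by
    have h1 : p ∈ Polynomial.degreeLT F n := by
      rw [hp]
      refine Submodule.sum_mem _ fun u _ => ?_
      rw [Polynomial.mem_degreeLT]
      refine lt_of_le_of_lt (Polynomial.degree_C_mul_X_pow_le _ _) ?_
      exact_mod_cast (u l).2
    rw [Polynomial.mem_degreeLT] at h1
    exact lt_of_lt_of_le h1 (by exact_mod_cast hs)
  have h0 : p = 0 := Polynomial.eq_zero_of_degree_lt_of_eval_finset_eq_zero s hdeg
    fun y hy => by rw [heval]; exact h y hy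
  rw [← heval, h0, Polynomial.eval_zero]

/-- a form of degree `< n` in every variable which vanishes everywhere -/
private theorem negN_zero {m n g : ℕ} (hng : n ≤ g) (τ : Fin g → F) (hτ : Function.Injective τ)
    (σ : (Fin (m + 2) → Fin n) → F) (h : ∀ z, negS F σ z = 0) (u : Fin (m + 2) → Fin n) :
    σ u = 0 := by
  classical
  have hn : 0 < n := lt_of_le_of_lt (Nat.zero_le _) (u 0).2
  set Q : MvPolynomial (Fin (m + 2)) F := ∑ v : Fin (m + 2) → Fin n, monomial (surfF v) (σ v)
    with hQ
  have hcoeff : ∀ e, coeff e Q = ∑ v : Fin (m + 2) → Fin n, if surfF v = e then σ v else 0 := by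
    intro e
    rw [hQ, coeff_sum]
    refine Finset.sum_congr rfl fun v _ => ?_
    rw [coeff_monomial]
  have hQ0 : Q = 0 := by
    refine eq_zero_of_eval_zero_at_prod_finset Q (fun _ => Finset.univ.image τ) ?_ ?_
    · intro i
      rw [Finset.card_image_of_injective _ hτ, Finset.card_univ, Fintype.card_fin]
      refine lt_of_lt_of_le ?_ hng
      rw [degreeOf_lt_iff hn]
      intro e he
      rw [mem_support_iff, hcoeff] at he
      obtain ⟨v, _, hv⟩ := Finset.exists_ne_zero_of_sum_ne_zero he
      have hv2 : surfF v = e := by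
        by_contra hne
        exact hv (if_neg hne)
      rw [← hv2, surfF_apply]
      exact (v i).2
    · intro x _
      have e1 : eval x Q = negS F σ x := by
        rw [hQ, map_sum]
        unfold negS
        refine Finset.sum_congr rfl fun v _ => ?_
        rw [eval_monomial, Finsupp.prod_fintype _ _ (fun i => pow_zero _)]
        rfl
      rw [e1, h x]
  have h1 := hcoeff (surfF u)
  rw [hQ0, coeff_zero, Finset.sum_eq_single u, if_pos rfl] at h1
  · exact h1.symm
  · intro v _ hv
    rw [if_neg]
    exact fun e => hv (surfF_injective e)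
  · intro h'
    exact absurd (Finset.mem_univ _) h'

/-- Not alternating.

Proof.  Suppose `negE (v ∘ swap 0 1) = - negE v` for all `v`.  For injective `v` the difference product
`surfD (τ ∘ v)` is not zero and changes sign, the denominators are equal and not zero, so
`S(τ_(v ∘ swap 0 1)) = S(τ_v)`.  Put `D(z) = S(z ∘ swap 0 1) - S(z)` (a polynomial of degree `< n` in every
variable, antisymmetric in `z_0, z_1`).  Claim for `l = 0, .., m + 2`: `D(z) = 0` for all `z : Fin (m+2) → F`
for which there is an injective family `v_j` (`j ≥ l`) of indices with `z_j = τ_(v_j)` for `j ≥ l`.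
`l = 0` is known.  Step `l → l + 1`: fix all variables except `z_l`; the polynomial in `z_l` of degree
`< n` vanishes at the `g - (m + 1 - l)` points `τ_a`, `a` not among the `v_j`, `j > l`, which are `≥ n` points
if `l ≥ 1` (`g = n + m`); if `l = 0` these are `n - 1` points and `z_0 = z_1 = τ_(v_1)` is one more zero.
For `l = m + 2`: `D(z) = 0` for all `z`, in particular on a grid of `n` points (the `τ_a`, `n ≤ g`), so all
coefficients of `D` vanish (`MvPolynomial.eq_zero_of_eval_zero_at_prod_finset`), that is
`σ (u ∘ swap 0 1) = σ u` for all `u`, against `hns`. -/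
theorem negE_not_alt {m n g : ℕ} (hg : n + m = g)
    (τ : Fin g → F) (hτ0 : ∀ l, τ l ≠ 0) (hτ : Function.Injective τ)
    (σ : (Fin (m + 2) → Fin n) → F) (hns : ∃ v, σ (v ∘ Equiv.swap 0 1) ≠ σ v) :
    ∃ v : Fin (m + 2) → Fin g, negE τ σ (v ∘ Equiv.swap 0 1) ≠ - negE τ σ v := by
  classical
  by_contra hcon
  push Not at hcon
  obtain ⟨u0, hu0⟩ := hns
  have hn : 0 < n := lt_of_le_of_lt (Nat.zero_le _) (u0 0).2
  have h01 : (0 : Fin (m + 2)) ≠ 1 := by simp
  set σ' : (Fin (m + 2) → Fin n) → F := fun u => σ (u ∘ Equiv.swap 0 1) - σ u with hσ'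
  have hD : ∀ z, negS F σ' z = negS F σ (z ∘ Equiv.swap 0 1) - negS F σ z := by
    intro z
    rw [hσ', negN_sub, negN_comp]
  have hanti : ∀ z : Fin (m + 2) → F, z 0 = z 1 → negS F σ' z = 0 := by
    intro z hz
    rw [hD]
    have e : z ∘ Equiv.swap 0 1 = z := by
      funext i
      rw [Function.comp_apply]
      rcases eq_or_ne i 0 with h | h
      · rw [h, Equiv.swap_apply_left, hz]
      · rcases eq_or_ne i 1 with h' | h'
        · rw [h', Equiv.swap_apply_right, hz]
        · rw [Equiv.swap_apply_of_ne_of_ne h h']
    rw [e, sub_self]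
  have claim : ∀ l : ℕ, l ≤ m + 2 → ∀ (z : Fin (m + 2) → F) (v : Fin (m + 2) → Fin g),
      (∀ i j : Fin (m + 2), l ≤ i.val → l ≤ j.val → v i = v j → i = j) →
      (∀ j : Fin (m + 2), l ≤ j.val → z j = τ (v j)) → negS F σ' z = 0 := by
    intro l
    induction l with
    | zero =>
      intro _ z v hv hz
      have hz' : z = τ ∘ v := funext fun j => hz j (Nat.zero_le _)
      have hvi : Function.Injective v := fun i j hij => hv i j (Nat.zero_le _) (Nat.zero_le _) hij
      have h1 := hcon v
      rw [negN_def, negN_def, negN_Q_comp] at h1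
      have e1 : τ ∘ v ∘ Equiv.swap 0 1 = (τ ∘ v) ∘ Equiv.swap 0 1 := rfl
      rw [e1, surfD_swap _ _ _ h01] at h1
      have hV : surfD (τ ∘ v) ≠ 0 := surfD_ne_zero _ (hτ.comp hvi)
      have hQ := negN_Q_ne τ hτ0 hτ v
      rw [← neg_div, div_left_inj' hQ, neg_mul, neg_inj] at h1
      have h2 := mul_left_cancel₀ hV h1
      rw [hD, hz', h2, sub_self]
    | succ l ih =>
      intro hl z v hv hz
      set L : Fin (m + 2) := ⟨l, by omega⟩ with hL
      have ih' := ih (by omega)
      set I : Finset (Fin g) := (Finset.Ioi L).image v with hI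
      have hIc : I.card ≤ m + 1 - l := by
        refine Finset.card_image_le.trans ?_
        rw [Fin.card_Ioi]
        simp only [hL]
        omega
      have key : ∀ a : Fin g, a ∉ I → negS F σ' (Function.update z L (τ a)) = 0 := by
        intro a ha
        refine ih' (Function.update z L (τ a)) (Function.update v L a) ?_ ?_
        · intro i j hi hj hij
          by_cases h1 : i = L
          · by_cases h2 : j = L
            · rw [h1, h2]
            · exfalso
              rw [h1, Function.update_self, Function.update_of_ne h2] at hij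
              apply ha
              rw [hI, Finset.mem_image]
              refine ⟨j, ?_, hij.symm⟩
              rw [Finset.mem_Ioi, Fin.lt_def]
              have : j.val ≠ l := fun e => h2 (Fin.ext e)
              simp only [hL]
              omega
          · by_cases h2 : j = L
            · exfalso
              rw [h2, Function.update_self, Function.update_of_ne h1] at hij
              apply ha
              rw [hI, Finset.mem_image]
              refine ⟨i, ?_, hij⟩
              rw [Finset.mem_Ioi, Fin.lt_def]
              have : i.val ≠ l := fun e => h1 (Fin.ext e)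
              simp only [hL]
              omega
            · rw [Function.update_of_ne h1, Function.update_of_ne h2] at hij
              have g1 : i.val ≠ l := fun e => h1 (Fin.ext e)
              have g2 : j.val ≠ l := fun e => h2 (Fin.ext e)
              exact hv i j (by omega) (by omega) hij
        · intro j hj
          by_cases h1 : j = L
          · rw [h1, Function.update_self, Function.update_self]
          · rw [Function.update_of_ne h1, Function.update_of_ne h1]
            have g1 : j.val ≠ l := fun e => h1 (Fin.ext e)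
            exact hz j (by omega)
      have hcard : n + l - 1 ≤ ((Finset.univ \ I).image τ).card := by
        rw [Finset.card_image_of_injective _ hτ, Finset.card_sdiff_of_subset (Finset.subset_univ _),
          Finset.card_univ, Fintype.card_fin]
        omega
      have hzL : Function.update z L (z L) = z := Function.update_eq_self L z
      rw [← hzL]
      rcases Nat.eq_zero_or_pos l with hl0 | hl0
      · -- one more zero
        have hL0 : L = 0 := Fin.ext hl0
        refine negN_vanish σ' z L (insert (z 1) ((Finset.univ \ I).image τ)) ?_ ?_ (z L)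
        · rw [Finset.card_insert_of_notMem]
          · omega
          · rw [Finset.mem_image]
            rintro ⟨a, ha, hat⟩
            have h1 : (1 : Fin (m + 2)).val = 1 := rfl
            rw [hz 1 (by rw [h1]; omega)] at hat
            have h2 := hτ hat
            rw [Finset.mem_sdiff] at ha
            apply ha.2
            rw [h2, hI, Finset.mem_image]
            refine ⟨1, ?_, rfl⟩
            rw [Finset.mem_Ioi, hL0]
            exact Fin.zero_lt_one
        · intro x hx
          rw [Finset.mem_insert] at hx
          rcases hx with hx | hx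
          · apply hanti
            rw [hx, hL0, Function.update_self, Function.update_of_ne h01.symm]
          · obtain ⟨a, ha, rfl⟩ := Finset.mem_image.mp hx
            exact key a (Finset.mem_sdiff.mp ha).2
      · refine negN_vanish σ' z L ((Finset.univ \ I).image τ) (by omega) ?_ (z L)
        intro x hx
        obtain ⟨a, ha, rfl⟩ := Finset.mem_image.mp hx
        exact key a (Finset.mem_sdiff.mp ha).2
  have hng : n ≤ g := by omega
  have hall : ∀ z, negS F σ' z = 0 := by
    intro z
    refine claim (m + 2) le_rfl z (fun _ => ⟨0, by omega⟩) ?_ ?_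
    · intro i _ hi
      exact absurd i.2 (by omega)
    · intro j hj
      exact absurd j.2 (by omega)
  have h1 := negN_zero hng τ hτ σ' hall u0
  exact hu0 (sub_eq_zero.mp h1)

end Pool.Agent.GrP
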