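import Mathlib
import Pool.Agent.GrP.Defs
import Pool.Agent.GrP.Reg

/-!
First syzygies of the forms `h_s` on all Schubert rings `P / II n a b`.
-/

set_option autoImplicit false

namespace Pool.Agent.GrP

open MvPolynomial

variable {F : Type*} [Field F]

theorem neg_syz (n a b : ℕ) (hab : a < b) (hb : b < n) (c : ℕ → ℕ → F)
    (hc : ∀ i j, i < j → j < n → c i j ≠ 0) (r : ℕ → MvPolynomial (ℕ × ℕ) F)
    (hr : ∑ s ∈ Finset.Icc (a + b) (2 * n - 3), r s * hh F n c s ∈ II F n a b) :
    r (a + b) ∈ II F n a b ⊔ Ideal.span (Set.range fun t => hh F n c t) := by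
  have h1 := reg_syz n a b hab hb c hc r hr
  have h2 : II F n a b ⊔ Ideal.span (hh F n c '' Set.Ioi (a + b)) ≤
      II F n a b ⊔ Ideal.span (Set.range fun t => hh F n c t) := by
    apply sup_le le_sup_left
    exact (Ideal.span_mono (Set.image_subset_range _ _)).trans le_sup_right
  exact h2 h1

end Pool.Agent.GrP
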