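import Mathlib
import Pool.Agent.GrP.Defs
import Pool.Agent.GrP.Basic
import Pool.Agent.GrP.NegR

/-!
The power `T_(a,n-1) ^ (n-1-b)` is not in the ideal of the `h_s` on the Schubert ring of `(a,b)`,
`a + 2 ≤ b`.

Exchange: modulo the `h_s`, `s > a + b'`, and the Schubert ideal of `(a,b')`, `b' = b + 1`, one has
`T_(a,n-1) ^ j = κ T_(a,b') T_(a+1,n-1) ^ (j-1) + μ T_(a,b') T_(a,n-1)`, `κ ≠ 0`, `j = n - b'` (`NegV_ex`).
The first syzygies of the regular sequences on the Schubert rings of `(a,b+1)` and `(a+1,b)` reduce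
`(a,b)` to `(a+1,b+1)`.
-/

set_option autoImplicit false

namespace Pool.Agent.GrP

open MvPolynomial

variable {F : Type*} [Field F]

private lemma NegV_exch {n a k l : ℕ} (hak : a < k) (hkl : k < l) (hln : l < n - 1) :
    (X (a, n - 1) * X (k, l) - X (a, l) * X (k, n - 1) + X (a, k) * X (l, n - 1) :
      MvPolynomial (ℕ × ℕ) F) ∈ II F n 0 0 := by
  rw [mem_II]
  simp only [map_add, map_sub, map_mul, phi_X]
  rw [if_pos ⟨by omega, by omega⟩, if_pos ⟨by omega, by omega⟩, if_pos ⟨by omega, by omega⟩,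
    if_pos ⟨by omega, by omega⟩, if_pos ⟨by omega, by omega⟩, if_pos ⟨by omega, by omega⟩]
  unfold minor
  ring

/-- a form `h_s` modulo the Schubert ideal -/
private lemma NegV_hh {n a b l : ℕ} (hab : a < b) (hal : a < l) (hln : l < n) (c : ℕ → ℕ → F) :
    hh F n c (a + l) - C (c a l) * X (a, l) -
      ∑ u ∈ (Finset.range n ×ˢ Finset.range n).filter
        (fun u => a < u.1 ∧ u.1 < u.2 ∧ u.1 + u.2 = a + l), C (c u.1 u.2) * X u ∈ II F n a b := by
  classical
  unfold hh
  have h1 : (Finset.range n ×ˢ Finset.range n).filter (fun u => u.1 < u.2 ∧ u.1 + u.2 = a + l) =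
      insert (a, l) ((Finset.range n ×ˢ Finset.range n).filter
        (fun u => a < u.1 ∧ u.1 < u.2 ∧ u.1 + u.2 = a + l) ∪
        (Finset.range n ×ˢ Finset.range n).filter
        (fun u => u.1 < a ∧ u.1 < u.2 ∧ u.1 + u.2 = a + l)) := by
    ext ⟨i, j⟩
    simp only [Finset.mem_filter, Finset.mem_product, Finset.mem_range, Finset.mem_insert,
      Finset.mem_union, Prod.mk.injEq]
    omega
  rw [h1, Finset.sum_insert, Finset.sum_union]
  · have h2 : ∑ u ∈ (Finset.range n ×ˢ Finset.range n).filter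
        (fun u => u.1 < a ∧ u.1 < u.2 ∧ u.1 + u.2 = a + l), C (c u.1 u.2) * X u ∈ II F n a b := by
      apply Ideal.sum_mem
      intro u hu
      rw [Finset.mem_filter] at hu
      apply Ideal.mul_mem_left
      apply X_mem_II hab
      omega
    convert h2 using 1
    ring
  · rw [Finset.disjoint_left]
    intro u hu hu'
    rw [Finset.mem_filter] at hu hu'
    omega
  · simp only [Finset.mem_filter, Finset.mem_product, Finset.mem_range, 
      Finset.mem_union]
    omega

/-- the ideal of the errors -/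
private noncomputable def NegV_L (F : Type*) [Field F] (n a b : ℕ) (c : ℕ → ℕ → F) :
    Ideal (MvPolynomial (ℕ × ℕ) F) :=
  II F n a b ⊔ Ideal.span (hh F n c '' Set.Ioi (a + b)) ⊔ Ideal.span {X (a, b) * X (a, n - 1)}

private lemma NegV_ex (n : ℕ) (c : ℕ → ℕ → F) (hc : ∀ i j, i < j → j < n → c i j ≠ 0)
    {a b : ℕ} (hab : a + 2 ≤ b) (t : ℕ) : ∀ l, a < l → l < n →
      (l < b + t → X (a, n - 1) ^ t * X (a, l) ∈ NegV_L F n a b c) ∧
      (l = b + t → ∃ κ : F, κ ≠ 0 ∧ X (a, n - 1) ^ t * X (a, l) -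
        C κ * (X (a, b) * X (a + 1, n - 1) ^ t) ∈ NegV_L F n a b c) := by
  have hI : II F n a b ≤ NegV_L F n a b c := le_sup_left.trans le_sup_left
  have hH : ∀ s, a + b < s → hh F n c s ∈ NegV_L F n a b c := fun s hs =>
    (le_sup_right.trans le_sup_left : Ideal.span (hh F n c '' Set.Ioi (a + b)) ≤ _)
      (Ideal.subset_span ⟨s, hs, rfl⟩)
  have hV : X (a, b) * X (a, n - 1) ∈ NegV_L F n a b c :=
    (le_sup_right : Ideal.span {X (a, b) * X (a, n - 1)} ≤ _) (Ideal.subset_span rfl)
  have hI0 : II F n 0 0 ≤ NegV_L F n a b c := (II_mono (Nat.zero_le _) (Nat.zero_le _)).trans hI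
  have hlow : ∀ l, l < b → (X (a, l) : MvPolynomial (ℕ × ℕ) F) ∈ NegV_L F n a b c := by
    intro l hl
    apply hI
    apply X_mem_II (by omega)
    simp only
    omega
  induction t with
  | zero =>
    intro l hal hln
    refine ⟨fun hl => ?_, fun hl => ⟨1, one_ne_zero, ?_⟩⟩
    · rw [pow_zero, one_mul]
      exact hlow l (by omega)
    · subst hl
      simp
  | succ t ih =>
    intro l hal hln
    -- the basic computation
    have key : b < l → l ≤ b + t + 1 → C (c a l) * (X (a, n - 1) ^ (t + 1) * X (a, l)) +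
        (if l = b + t + 1 then C (c (a + 1) (l - 1)) *
          (X (a, n - 1) ^ t * X (a, l - 1) * X (a + 1, n - 1)) else 0) ∈ NegV_L F n a b c := by
      intro hbl hlt
      have h1 := hI (NegV_hh (n := n) (b := b) (by omega : a < b) hal hln c)
      have h2 := hH (a + l) (by omega)
      have h3 := Ideal.sub_mem _ h2 h1
      have h4 := Ideal.mul_mem_left _ (X (a, n - 1) ^ (t + 1)) h3
      have h5 : (X (a, n - 1) ^ (t + 1) * ∑ u ∈ (Finset.range n ×ˢ Finset.range n).filter
          (fun u => a < u.1 ∧ u.1 < u.2 ∧ u.1 + u.2 = a + l), C (c u.1 u.2) * X u) -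
          (if l = b + t + 1 then C (c (a + 1) (l - 1)) *
          (X (a, n - 1) ^ t * X (a, l - 1) * X (a + 1, n - 1)) else 0) ∈ NegV_L F n a b c := by
        have h7 : (if l = b + t + 1 then C (c (a + 1) (l - 1)) *
            (X (a, n - 1) ^ t * X (a, l - 1) * X (a + 1, n - 1)) else 0 : MvPolynomial (ℕ × ℕ) F) =
            ∑ u ∈ (Finset.range n ×ˢ Finset.range n).filter
              (fun u => a < u.1 ∧ u.1 < u.2 ∧ u.1 + u.2 = a + l),
              (if u = (a + 1, l - 1) then (if l = b + t + 1 then C (c u.1 u.2) *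
                (X (a, n - 1) ^ t * X (a, u.2) * X (u.1, n - 1)) else 0) else 0) := by
          have h8 : (a + 1, l - 1) ∈ (Finset.range n ×ˢ Finset.range n).filter
              (fun u => a < u.1 ∧ u.1 < u.2 ∧ u.1 + u.2 = a + l) := by
            simp only [Finset.mem_filter, Finset.mem_product, Finset.mem_range]
            omega
          rw [Finset.sum_ite_eq' _ (a + 1, l - 1), if_pos h8]
        rw [h7, Finset.mul_sum, ← Finset.sum_sub_distrib]
        apply Ideal.sum_mem
        rintro ⟨k, l'⟩ hu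
        simp only [Finset.mem_filter, Finset.mem_product, Finset.mem_range] at hu
        obtain ⟨-, hak, hkl, hsum⟩ := hu
        have e1 := Ideal.mul_mem_left _ (C (c k l') * X (a, n - 1) ^ t)
          (hI0 (NegV_exch (F := F) (n := n) hak hkl (by omega : l' < n - 1)))
        have e2 := Ideal.mul_mem_left _ (C (c k l') * X (l', n - 1))
          ((ih k hak (by omega)).1 (by omega))
        have e3 : C (c k l') * X (k, n - 1) * (X (a, n - 1) ^ t * X (a, l')) -
            (if ((k, l') : ℕ × ℕ) = (a + 1, l - 1) then (if l = b + t + 1 then C (c k l') *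
                (X (a, n - 1) ^ t * X (a, l') * X (k, n - 1)) else 0) else 0) ∈
              NegV_L F n a b c := by
          by_cases hk : ((k, l') : ℕ × ℕ) = (a + 1, l - 1) ∧ l = b + t + 1
          · rw [if_pos hk.1, if_pos hk.2]
            convert Ideal.zero_mem (NegV_L F n a b c) using 1
            ring
          · have e4 : (if ((k, l') : ℕ × ℕ) = (a + 1, l - 1) then (if l = b + t + 1 then C (c k l') *
                (X (a, n - 1) ^ t * X (a, l') * X (k, n - 1)) else 0) else 0 :
                MvPolynomial (ℕ × ℕ) F) = 0 := by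
              by_cases h8 : ((k, l') : ℕ × ℕ) = (a + 1, l - 1)
              · rw [if_pos h8, if_neg (fun h9 => hk ⟨h8, h9⟩)]
              · rw [if_neg h8]
            rw [e4, sub_zero]
            apply Ideal.mul_mem_left
            apply (ih l' (by omega) (by omega)).1
            rw [Prod.mk.injEq] at hk
            omega
        have e5 := Ideal.add_mem _ (Ideal.sub_mem _ e1 e2) e3
        convert e5 using 1
        simp only
        ring
      have h6 := Ideal.sub_mem _ h4 h5
      convert h6 using 1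
      ring
    have hV' : X (a, n - 1) ^ (t + 1) * X (a, b) ∈ NegV_L F n a b c := by
      convert Ideal.mul_mem_left _ (X (a, n - 1) ^ t) hV using 1
      ring
    have hunit : ∀ (κ : F) (f : MvPolynomial (ℕ × ℕ) F), κ ≠ 0 → C κ * f ∈ NegV_L F n a b c →
        f ∈ NegV_L F n a b c := by
      intro κ f hκ hf
      have h1 := Ideal.mul_mem_left _ (C κ⁻¹) hf
      rwa [← mul_assoc, ← C_mul, inv_mul_cancel₀ hκ, C_1, one_mul] at h1
    refine ⟨fun hl => ?_, fun hl => ?_⟩
    · rcases lt_trichotomy l b with h | h | h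
      · exact Ideal.mul_mem_left _ _ (hlow l h)
      · rw [h]
        exact hV'
      · apply hunit (c a l) _ (hc a l hal hln)
        have h1 := key h (by omega)
        rwa [if_neg (by omega), add_zero] at h1
    · obtain ⟨κ, hκ, h1⟩ := (ih (l - 1) (by omega) (by omega)).2 (by omega)
      have h2 := key (by omega) (by omega)
      rw [if_pos (by omega)] at h2
      have hc1 := hc a l hal hln
      have hc2 := hc (a + 1) (l - 1) (by omega) (by omega)
      refine ⟨-(c (a + 1) (l - 1) * κ / c a l), neg_ne_zero.mpr (div_ne_zero (mul_ne_zero hc2 hκ) hc1), ?_⟩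
      apply hunit (c a l) _ hc1
      have h3 := Ideal.mul_mem_left _ (C (c (a + 1) (l - 1)) * X (a + 1, n - 1)) h1
      have h4 := Ideal.sub_mem _ h2 h3
      convert h4 using 1
      have h5 : (C (c a l) * C (-(c (a + 1) (l - 1) * κ / c a l)) : MvPolynomial (ℕ × ℕ) F) =
          - (C (c (a + 1) (l - 1)) * C κ) := by
        rw [← C_mul, ← C_mul, ← C_neg]
        congr 1
        field_simp
      linear_combination (- (X (a, b) * X (a + 1, n - 1) ^ (t + 1))) * h5

private lemma NegV_hh_mem {n a b s : ℕ} (hab : a < b) (c : ℕ → ℕ → F)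
    (hs : s ∉ Finset.Icc (a + b) (2 * n - 3)) : hh F n c s ∈ II F n a b := by
  unfold hh
  apply Ideal.sum_mem
  intro u hu
  simp only [Finset.mem_filter, Finset.mem_product, Finset.mem_range] at hu
  rw [Finset.mem_Icc] at hs
  apply Ideal.mul_mem_left
  apply X_mem_II hab
  omega

private lemma NegV_dec (I : Ideal (MvPolynomial (ℕ × ℕ) F)) (g : ℕ → MvPolynomial (ℕ × ℕ) F)
    (T : Set ℕ) (S : Finset ℕ) (hT : ∀ t ∈ T, t ∉ S → g t ∈ I) (f : MvPolynomial (ℕ × ℕ) F)
    (hf : f ∈ I ⊔ Ideal.span (g '' T)) :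
    ∃ r : ℕ → MvPolynomial (ℕ × ℕ) F, f - ∑ s ∈ S, r s * g s ∈ I := by
  have h1 : I ⊔ Ideal.span (g '' T) ≤ I ⊔ Ideal.span (g '' (S : Set ℕ)) := by
    apply sup_le le_sup_left
    rw [Ideal.span_le]
    rintro _ ⟨t, ht, rfl⟩
    by_cases hs : t ∈ S
    · exact (le_sup_right : Ideal.span (g '' (S : Set ℕ)) ≤ _) (Ideal.subset_span ⟨t, hs, rfl⟩)
    · exact (le_sup_left : I ≤ _) (hT t ht hs)
  obtain ⟨u, hu, v, hv, huv⟩ := Submodule.mem_sup.mp (h1 hf)
  obtain ⟨r, hr⟩ := (Submodule.mem_span_image_finset_iff_exists_fun' _).mp hv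
  refine ⟨r, ?_⟩
  have h2 : ∑ s ∈ S, r s * g s = v := hr
  rw [h2, ← huv, add_sub_cancel_right]
  exact hu

private lemma NegV_const {n a b : ℕ} {f : MvPolynomial (ℕ × ℕ) F} (hf : f ∈ II F n a b) :
    constantCoeff f = 0 := by
  rw [mem_II] at hf
  have h1 : (constantCoeff : MvPolynomial (ℕ ⊕ ℕ) F →+* F).comp
      (phi F n a b : MvPolynomial (ℕ × ℕ) F →+* MvPolynomial (ℕ ⊕ ℕ) F) = constantCoeff := by
    apply MvPolynomial.ringHom_ext
    · intro r
      simp [phi]
    · intro u
      rw [RingHom.comp_apply]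
      change constantCoeff (phi F n a b (X u)) = _
      rw [phi_X]
      split_ifs
      · unfold minor xx yy
        split_ifs <;> simp
      · simp
  rw [← h1, RingHom.comp_apply]
  change constantCoeff (phi F n a b f) = 0
  rw [hf, map_zero]

theorem pow_not_mem (n : ℕ) (c : ℕ → ℕ → F) (hc : ∀ i j, i < j → j < n → c i j ≠ 0) :
    ∀ j a b : ℕ, a + 2 ≤ b → b + j + 1 = n →
      (X (a, n - 1) : MvPolynomial (ℕ × ℕ) F) ^ j ∉
        II F n a b ⊔ Ideal.span (Set.range fun t => hh F n c t) := by
  intro j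
  induction j with
  | zero =>
    intro a b hab hbn h
    rw [← Set.image_univ] at h
    obtain ⟨r, hr⟩ := NegV_dec (II F n a b) (hh F n c) Set.univ
      (Finset.Icc (a + b) (2 * n - 3))
      (fun t _ ht => NegV_hh_mem (by omega) c ht) _ h
    have h1 := NegV_const hr
    rw [map_sub, map_sum, Finset.sum_eq_zero, pow_zero, map_one, sub_zero] at h1
    · exact one_ne_zero h1
    · intro s _
      rw [map_mul]
      have h2 : constantCoeff (hh F n c s) = 0 := by
        unfold hh
        rw [map_sum]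
        apply Finset.sum_eq_zero
        intro u _
        simp
      rw [h2, mul_zero]
  | succ j ih =>
    intro a b hab hbn h
    have h' := h
    rw [← Set.image_univ] at h'
    obtain ⟨r, hr⟩ := NegV_dec (II F n a b) (hh F n c) Set.univ
      (Finset.Icc (a + b) (2 * n - 3))
      (fun t _ ht => NegV_hh_mem (by omega) c ht) _ h'
    -- split off the first form
    have hsplit : ∑ s ∈ Finset.Icc (a + b) (2 * n - 3), r s * hh F n c s =
        r (a + b) * hh F n c (a + b) +
          ∑ s ∈ Finset.Icc (a + b + 1) (2 * n - 3), r s * hh F n c s := by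
      rw [← Finset.insert_Icc_add_one_left_eq_Icc (by omega : a + b ≤ 2 * n - 3),
        Finset.sum_insert (by simp)]
    rw [hsplit] at hr
    -- the projection to `(a, b + 1)`
    have hr1 : X (a, n - 1) ^ (j + 1) -
        ∑ s ∈ Finset.Icc (a + (b + 1)) (2 * n - 3), r s * hh F n c s ∈ II F n a (b + 1) := by
      have h1 := II_mono (F := F) (n := n) (le_refl a) (Nat.le_succ b) hr
      have h2 : hh F n c (a + b) ∈ II F n a (b + 1) :=
        NegV_hh_mem (by omega) c (by rw [Finset.mem_Icc]; omega)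
      convert Ideal.add_mem _ h1 (Ideal.mul_mem_left _ (r (a + b)) h2) using 1
      rw [show a + (b + 1) = a + b + 1 by ring]
      ring
    -- the projection to `(a + 1, b)`
    have hr2 : ∑ s ∈ Finset.Icc (a + 1 + b) (2 * n - 3), r s * hh F n c s ∈
        II F n (a + 1) b := by
      have h1 := II_mono (F := F) (n := n) (Nat.le_succ a) (le_refl b) hr
      have h2 : hh F n c (a + b) ∈ II F n (a + 1) b :=
        NegV_hh_mem (by omega) c (by rw [Finset.mem_Icc]; omega)
      have h3 : (X (a, n - 1) : MvPolynomial (ℕ × ℕ) F) ∈ II F n (a + 1) b := by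
        apply X_mem_II (by omega)
        simp only
        omega
      have h4 := Ideal.sub_mem _ (Ideal.mul_mem_left _ (X (a, n - 1) ^ j) h3)
        (Ideal.add_mem _ h1 (Ideal.mul_mem_left _ (r (a + b)) h2))
      convert h4 using 1
      rw [show a + 1 + b = a + b + 1 by ring]
      ring
    have hs2 := neg_syz n (a + 1) b (by omega) (by omega) c hc r hr2
    -- the exchange identity
    obtain ⟨κ, hκ, hE⟩ := (NegV_ex n c hc (by omega : a + 2 ≤ b + 1) j (n - 1) (by omega)
      (by omega)).2 (by omega)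
    obtain ⟨u, hu, v, hv, huv⟩ := Submodule.mem_sup.mp hE
    obtain ⟨ε, hε⟩ := NegV_dec (II F n a (b + 1)) (hh F n c) (Set.Ioi (a + (b + 1)))
      (Finset.Icc (a + (b + 1) + 1) (2 * n - 3)) (fun t ht hts => NegV_hh_mem (by omega) c (by
        rw [Finset.mem_Icc] at hts ⊢
        rw [Set.mem_Ioi] at ht
        omega)) u hu
    obtain ⟨μ, hμ⟩ := Ideal.mem_span_singleton'.mp hv
    have hX : hh F n c (a + (b + 1)) - C (c a (b + 1)) * X (a, b + 1) ∈ II F n a (b + 1) := by
      have h1 := NegV_hh (n := n) (b := b + 1) (by omega : a < b + 1) (by omega : a < b + 1)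
        (by omega) c
      have h2 : ∑ u ∈ (Finset.range n ×ˢ Finset.range n).filter
          (fun u => a < u.1 ∧ u.1 < u.2 ∧ u.1 + u.2 = a + (b + 1)), C (c u.1 u.2) * X u ∈
            II F n a (b + 1) := by
        apply Ideal.sum_mem
        intro u hu
        simp only [Finset.mem_filter, Finset.mem_product, Finset.mem_range] at hu
        apply Ideal.mul_mem_left
        apply X_mem_II (by omega)
        omega
      convert Ideal.add_mem _ h1 h2 using 1
      ring
    have hc0 : c a (b + 1) ≠ 0 := hc a (b + 1) (by omega) (by omega)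
    let r' : ℕ → MvPolynomial (ℕ × ℕ) F := fun s =>
      if s = a + (b + 1) then C (κ / c a (b + 1)) * X (a + 1, n - 1) ^ j +
        C (c a (b + 1))⁻¹ * (μ * X (a, n - 1)) - r s else ε s - r s
    have hr'0 : r' (a + (b + 1)) = C (κ / c a (b + 1)) * X (a + 1, n - 1) ^ j +
        C (c a (b + 1))⁻¹ * (μ * X (a, n - 1)) - r (a + (b + 1)) := if_pos rfl
    have hsplit1 : ∀ f : ℕ → MvPolynomial (ℕ × ℕ) F,
        ∑ s ∈ Finset.Icc (a + (b + 1)) (2 * n - 3), f s = f (a + (b + 1)) +
          ∑ s ∈ Finset.Icc (a + (b + 1) + 1) (2 * n - 3), f s := by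
      intro f
      rw [← Finset.insert_Icc_add_one_left_eq_Icc (by omega : a + (b + 1) ≤ 2 * n - 3),
        Finset.sum_insert (by simp)]
    have hr' : ∑ s ∈ Finset.Icc (a + (b + 1)) (2 * n - 3), r' s * hh F n c s ∈
        II F n a (b + 1) := by
      rw [hsplit1, hr'0]
      have h1 : ∑ s ∈ Finset.Icc (a + (b + 1) + 1) (2 * n - 3), r' s * hh F n c s =
          ∑ s ∈ Finset.Icc (a + (b + 1) + 1) (2 * n - 3), ε s * hh F n c s -
            ∑ s ∈ Finset.Icc (a + (b + 1) + 1) (2 * n - 3), r s * hh F n c s := by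
        rw [← Finset.sum_sub_distrib]
        apply Finset.sum_congr rfl
        intro s hs
        rw [Finset.mem_Icc] at hs
        have h2 : r' s = ε s - r s := if_neg (by omega)
        rw [h2]
        ring
      rw [h1]
      rw [hsplit1] at hr1
      have h3 := Ideal.mul_mem_left _ (C (κ / c a (b + 1)) * X (a + 1, n - 1) ^ j +
        C (c a (b + 1))⁻¹ * (μ * X (a, n - 1))) hX
      have h4 := Ideal.add_mem _ (Ideal.sub_mem _ h3 hε) hr1
      convert h4 using 1
      have h5 : (C (c a (b + 1))⁻¹ * C (c a (b + 1)) : MvPolynomial (ℕ × ℕ) F) = 1 := by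
        rw [← C_mul, inv_mul_cancel₀ hc0, C_1]
      have h6 : (C (κ / c a (b + 1)) * C (c a (b + 1)) : MvPolynomial (ℕ × ℕ) F) = C κ := by
        rw [← C_mul, div_mul_cancel₀ _ hc0]
      rw [← hμ] at huv
      linear_combination huv + (X (a, b + 1) * X (a + 1, n - 1) ^ j) * h6 +
        (X (a, b + 1) * (μ * X (a, n - 1))) * h5
    have hs1 := neg_syz n a (b + 1) (by omega) (by omega) c hc r' hr'
    rw [hr'0] at hs1
    have hJ1 : II F n a (b + 1) ⊔ Ideal.span (Set.range fun t => hh F n c t) ≤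
        II F n (a + 1) (b + 1) ⊔ Ideal.span (Set.range fun t => hh F n c t) :=
      sup_le_sup_right (II_mono (Nat.le_succ a) le_rfl) _
    have hJ2 : II F n (a + 1) b ⊔ Ideal.span (Set.range fun t => hh F n c t) ≤
        II F n (a + 1) (b + 1) ⊔ Ideal.span (Set.range fun t => hh F n c t) :=
      sup_le_sup_right (II_mono le_rfl (Nat.le_succ b)) _
    have h1 := hJ1 hs1
    have h2 := hJ2 hs2
    rw [show a + 1 + b = a + (b + 1) by ring] at h2
    have h3 : (X (a, n - 1) : MvPolynomial (ℕ × ℕ) F) ∈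
        II F n (a + 1) (b + 1) ⊔ Ideal.span (Set.range fun t => hh F n c t) := by
      apply (le_sup_left : II F n (a + 1) (b + 1) ≤ _)
      apply X_mem_II (by omega)
      simp only
      omega
    have h4 := Ideal.sub_mem _ (Ideal.add_mem _ h1 h2)
      (Ideal.mul_mem_left _ (C (c a (b + 1))⁻¹ * μ) h3)
    apply ih (a + 1) (b + 1) (by omega) (by omega)
    have h5 := Ideal.mul_mem_left _ (C (κ / c a (b + 1))⁻¹) h4
    convert h5 using 1
    have h6 : (C (κ / c a (b + 1))⁻¹ * C (κ / c a (b + 1)) : MvPolynomial (ℕ × ℕ) F) = 1 := by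
      rw [← C_mul, inv_mul_cancel₀ (div_ne_zero hκ hc0), C_1]
    linear_combination (- X (a + 1, n - 1) ^ j) * h6

end Pool.Agent.GrP
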