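import Mathlib
import Pool.Agent.GrP.Defs
import Pool.Agent.GrP.Std
import Pool.Agent.GrP.Iota
import Pool.Agent.GrP.IotaS
import Pool.Agent.GrP.NegV

/-!
A form of bidegree `(m+1,1)` which is not in the span of the `f_s(x) h_s(x,y)`.

`P = x_0^i x_(n-1)^(m-i) p_(0,n-1)`.  Suppose `P = ∑ f_s h_s`.  Substitute `x ↦ p_1 + T p_0`, `y ↦ p_0`
(`p_0 = x_0 y - y_0 x`, `p_1 = x_1 y - y_1 x`) and take the coefficient of `T^(m-i)`:
`(-p_01)^i p_(0,n-1)^(m-i+1) = ∑ G_s h_s`.  Because `x_0 p_1 = - p_01 x + x_1 p_0` and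
`C(b, m-i) = 0` in `F` for `m - i < b ≤ m`, `x_0^i G_s = (-p_01)^i E_s`, so `G_s = (-p_01)^i E'_s` with `E'_s`
in the Pluecker ring, and `p_(0,n-1)^(m-i+1) = ∑ E'_s h_s`, against `pow_not_mem`.
-/

set_option autoImplicit false

namespace Pool.Agent.GrP

open MvPolynomial

section

variable {F : Type*} [Field F] {A : Type*} [CommRing A] [Algebra F A] {n : ℕ}

private theorem NegP_lin_deg (u v : A) :
    (Polynomial.C u + Polynomial.C v * Polynomial.X).natDegree ≤ 1 := by
  rw [add_comm]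
  exact Polynomial.natDegree_linear_le

private theorem NegP_lin_pow_deg (u v : A) (k : ℕ) :
    ((Polynomial.C u + Polynomial.C v * Polynomial.X) ^ k).natDegree ≤ k := by
  refine le_trans Polynomial.natDegree_pow_le ?_
  have := NegP_lin_deg u v
  nlinarith

private theorem NegP_prod_deg (μ : Fin n → ℕ) (x y : Fin n → A) (s : Finset (Fin n)) :
    (∏ i ∈ s, (Polynomial.C (x i) + Polynomial.C (y i) * Polynomial.X) ^ μ i).natDegree ≤
      ∑ i ∈ s, μ i :=
  le_trans (Polynomial.natDegree_prod_le _ _) (Finset.sum_le_sum fun _ _ => NegP_lin_pow_deg _ _ _)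

private theorem NegP_coeff_lin (u v a : A) (k : ℕ) :
    (Polynomial.C (a * u) + Polynomial.C v * Polynomial.X).coeff k =
      a ^ (1 - k) * (Polynomial.C u + Polynomial.C v * Polynomial.X).coeff k := by
  rcases k with _ | _ | k
  · simp
  · simp
  · simp

private theorem NegP_scale_mul {N M : ℕ} {a : A} {f g f' g' : Polynomial A}
    (hg : g.natDegree ≤ N) (hg' : g'.natDegree ≤ M)
    (h : ∀ k, f.coeff k = a ^ (N - k) * g.coeff k)
    (h' : ∀ k, f'.coeff k = a ^ (M - k) * g'.coeff k) (k : ℕ) :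
    (f * f').coeff k = a ^ (N + M - k) * (g * g').coeff k := by
  rw [Polynomial.coeff_mul, Polynomial.coeff_mul, Finset.mul_sum]
  refine Finset.sum_congr rfl fun t ht => ?_
  have ht : t.1 + t.2 = k := Finset.HasAntidiagonal.mem_antidiagonal.1 ht
  rw [h, h']
  by_cases h1 : t.1 ≤ N
  · by_cases h2 : t.2 ≤ M
    · have e : N + M - k = (N - t.1) + (M - t.2) := by omega
      rw [e, pow_add]; ring
    · rw [Polynomial.coeff_eq_zero_of_natDegree_lt (n := t.2) (p := g') (by omega)]; ring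
  · rw [Polynomial.coeff_eq_zero_of_natDegree_lt (n := t.1) (p := g) (by omega)]; ring

private theorem NegP_coeff_pow (u v a : A) (N : ℕ) : ∀ k,
    ((Polynomial.C (a * u) + Polynomial.C v * Polynomial.X) ^ N).coeff k =
      a ^ (N - k) * ((Polynomial.C u + Polynomial.C v * Polynomial.X) ^ N).coeff k := by
  induction N with
  | zero =>
    intro k
    rcases k with _ | k
    · simp
    · simp [Polynomial.coeff_one]
  | succ N ih =>
    intro k
    rw [pow_succ, pow_succ]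
    exact NegP_scale_mul (NegP_lin_pow_deg u v N) (NegP_lin_deg u v) ih
      (NegP_coeff_lin u v a) k

private theorem NegP_coeff_prod (μ : Fin n → ℕ) (x y : Fin n → A) (a : A) (s : Finset (Fin n)) :
    ∀ k, (∏ i ∈ s, (Polynomial.C (a * x i) + Polynomial.C (y i) * Polynomial.X) ^
        μ i).coeff k = a ^ (∑ i ∈ s, μ i - k) *
      (∏ i ∈ s, (Polynomial.C (x i) + Polynomial.C (y i) * Polynomial.X) ^ μ i).coeff k := by
  classical
  induction s using Finset.induction_on with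
  | empty =>
    intro k
    rcases k with _ | k
    · simp
    · simp [Polynomial.coeff_one]
  | insert i s hi ih =>
    intro k
    rw [Finset.prod_insert hi, Finset.prod_insert hi, Finset.sum_insert hi]
    exact NegP_scale_mul (NegP_lin_pow_deg _ _ _) (NegP_prod_deg _ _ _ _)
      (NegP_coeff_pow _ _ _ _) ih k

private theorem NegP_fX_sum (f : MvPolynomial (Fin n) F) (x y : Fin n → A) :
    fX f x y = ∑ d ∈ f.support, Polynomial.C (algebraMap F A (coeff d f)) *
      ∏ i, (Polynomial.C (x i) + Polynomial.C (y i) * Polynomial.X) ^ d i := by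
  unfold fX
  rw [MvPolynomial.aeval_def, MvPolynomial.eval₂_eq']
  rfl

private theorem NegP_supp {m : ℕ} {f : MvPolynomial (Fin n) F} (hf : f.IsHomogeneous m)
    {e : Fin n →₀ ℕ} (he : e ∈ f.support) : ∑ i, e i = m := by
  have := hf (MvPolynomial.mem_support_iff.1 he)
  rw [Finsupp.weight_apply, Finsupp.sum_fintype _ _ (fun i => by simp)] at this
  simpa using this

private theorem NegP_fX_scale (m : ℕ) (f : MvPolynomial (Fin n) F) (hf : f.IsHomogeneous m)
    (x y : Fin n → A) (a : A) (k : ℕ) :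
    (fX f (fun i => a * x i) y).coeff k = a ^ (m - k) * (fX f x y).coeff k := by
  rw [NegP_fX_sum, NegP_fX_sum, Polynomial.finsetSum_coeff, Polynomial.finsetSum_coeff,
    Finset.mul_sum]
  refine Finset.sum_congr rfl fun e he => ?_
  rw [Polynomial.coeff_C_mul, Polynomial.coeff_C_mul, NegP_coeff_prod, NegP_supp hf he]
  ring

private theorem NegP_fX_deg (m : ℕ) (f : MvPolynomial (Fin n) F) (hf : f.IsHomogeneous m)
    (x y : Fin n → A) : (fX f x y).natDegree ≤ m := by
  rw [NegP_fX_sum]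
  refine Polynomial.natDegree_sum_le_of_forall_le _ _ fun d hd => ?_
  refine le_trans (Polynomial.natDegree_C_mul_le _ _) ?_
  rw [← NegP_supp hf hd]
  exact NegP_prod_deg _ _ _ _

private theorem NegP_fX_taylor (f : MvPolynomial (Fin n) F) (x y : Fin n → A) (ν : A) :
    fX f (fun i => x i + ν * y i) y = Polynomial.taylor ν (fX f x y) := by
  have h : Polynomial.taylor ν (fX f x y) = Polynomial.taylorAlgHom ν (fX f x y) := rfl
  rw [h]
  unfold fX
  have h2 : (Polynomial.taylorAlgHom ν : Polynomial A →ₐ[A] Polynomial A)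
      (aeval (fun i => Polynomial.C (x i) + Polynomial.C (y i) * Polynomial.X) f) =
      ((Polynomial.taylorAlgHom ν : Polynomial A →ₐ[A] Polynomial A).restrictScalars F)
      (aeval (fun i => Polynomial.C (x i) + Polynomial.C (y i) * Polynomial.X) f) := rfl
  rw [h2, ← AlgHom.comp_apply, MvPolynomial.comp_aeval]
  congr 2
  funext i
  change _ = Polynomial.taylor ν _
  rw [(Polynomial.taylor ν).map_add, Polynomial.taylor_mul, Polynomial.taylor_C,
    Polynomial.taylor_C, Polynomial.taylor_X, Polynomial.C_add, Polynomial.C_mul]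
  ring

private theorem NegP_coeff_taylor (P : Polynomial A) (m : ℕ) (hP : P.natDegree ≤ m) (ν : A)
    (k : ℕ) (hk : k ≤ m) (hbin : ∀ b, k < b → b ≤ m → ((b.choose k : ℕ) : A) = 0) :
    (Polynomial.taylor ν P).coeff k = P.coeff k := by
  rw [Polynomial.taylor_coeff]
  have h1 : Polynomial.hasseDeriv k P = ∑ b ∈ Finset.range (m + 1),
      Polynomial.monomial (b - k) (((b.choose k : ℕ) : A) * P.coeff b) := by
    rw [Polynomial.hasseDeriv_apply]
    exact Polynomial.sum_over_range' P (by simp) (m + 1) (by omega)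
  rw [h1, Polynomial.eval_finsetSum, Finset.sum_eq_single k]
  · simp
  · intro b hb hbk
    rw [Finset.mem_range] at hb
    rcases lt_or_gt_of_ne hbk with h | h
    · rw [Nat.choose_eq_zero_of_lt h]
      simp
    · rw [hbin b h (by omega)]
      simp
  · intro h
    exact absurd (Finset.mem_range.mpr (by omega)) h

private theorem NegP_map_fX {B : Type*} [CommRing B] [Algebra F B] (ψ : A →ₐ[F] B)
    (f : MvPolynomial (Fin n) F) (x y : Fin n → A) :
    (fX f x y).map (ψ : A →+* B) = fX f (fun i => ψ (x i)) (fun i => ψ (y i)) := by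
  rw [NegP_fX_sum, NegP_fX_sum, Polynomial.map_sum]
  refine Finset.sum_congr rfl fun d _ => ?_
  rw [Polynomial.map_mul, Polynomial.map_prod, Polynomial.map_C]
  simp

end

section

variable {F : Type*} [Field F]

/-- `x_0 y_l - x_l y_0` -/
private noncomputable def NegP_P0 (F : Type*) [Field F] (l : ℕ) : MvPolynomial (ℕ ⊕ ℕ) F :=
  X (Sum.inl 0) * X (Sum.inr l) - X (Sum.inl l) * X (Sum.inr 0)

/-- `x_1 y_l - x_l y_1` -/
private noncomputable def NegP_P1 (F : Type*) [Field F] (l : ℕ) : MvPolynomial (ℕ ⊕ ℕ) F :=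
  X (Sum.inl 1) * X (Sum.inr l) - X (Sum.inl l) * X (Sum.inr 1)

/-- The substitution `x ↦ p_1 + T p_0`, `y ↦ p_0`. -/
private noncomputable def NegP_sub (F : Type*) [Field F] :
    MvPolynomial (ℕ ⊕ ℕ) F →ₐ[F] Polynomial (MvPolynomial (ℕ ⊕ ℕ) F) :=
  aeval (Sum.elim (fun i => Polynomial.C (NegP_P1 F i) +
    Polynomial.C (NegP_P0 F i) * Polynomial.X) (fun i => Polynomial.C (NegP_P0 F i)))

private lemma NegP_sub_minor (i j : ℕ) :
    NegP_sub F (minor F 0 0 (i, j)) = Polynomial.C (- NegP_P0 F 1 * minor F 0 0 (i, j)) := by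
  simp only [minor, xx, yy, Nat.zero_le, if_true, NegP_sub, map_sub, map_mul, aeval_X,
    Sum.elim_inl, Sum.elim_inr]
  have h : - NegP_P0 F 1 * (X (Sum.inl i) * X (Sum.inr j) - X (Sum.inl j) * X (Sum.inr i)) =
      NegP_P1 F i * NegP_P0 F j - NegP_P1 F j * NegP_P0 F i := by
    unfold NegP_P1 NegP_P0
    ring
  have h2 := congrArg (Polynomial.C : MvPolynomial (ℕ ⊕ ℕ) F → _) h
  simp only [map_sub, map_mul, map_neg] at h2 ⊢
  rw [h2]
  ring

private lemma NegP_sub_hh (n : ℕ) (c : ℕ → ℕ → F) (s : ℕ) :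
    NegP_sub F (phi F n 0 0 (hh F n c s)) =
      Polynomial.C (- NegP_P0 F 1 * phi F n 0 0 (hh F n c s)) := by
  unfold hh
  rw [map_sum, map_sum, Finset.mul_sum, map_sum]
  apply Finset.sum_congr rfl
  rintro ⟨i, j⟩ hu
  simp only [Finset.mem_filter, Finset.mem_product, Finset.mem_range] at hu
  rw [map_mul, phi_X, if_pos ⟨hu.2.1, hu.1.2⟩, map_mul, NegP_sub_minor]
  simp only [← algebraMap_eq, AlgHom.commutes]
  rw [IsScalarTower.algebraMap_apply F (MvPolynomial (ℕ ⊕ ℕ) F)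
    (Polynomial (MvPolynomial (ℕ ⊕ ℕ) F))]
  rw [Polynomial.algebraMap_eq, ← map_mul]
  congr 1
  ring

private lemma NegP_sub_rename (n : ℕ) (f : MvPolynomial (Fin n) F) :
    NegP_sub F (rename (fun i : Fin n => (Sum.inl (i : ℕ) : ℕ ⊕ ℕ)) f) =
      fX f (fun i : Fin n => NegP_P1 F i) (fun i : Fin n => NegP_P0 F i) := by
  unfold NegP_sub fX
  rw [aeval_rename]
  rfl

private lemma NegP_choose (p : ℕ) [Fact p.Prime] [CharP F p] {m i e b : ℕ} (him : i ≤ m)
    (hie : i < p ^ e) (hdvd : p ^ e ∣ m + 1 - i) (hb : m - i < b) (hbm : b ≤ m) :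
    ((b.choose (m - i) : ℕ) : F) = 0 := by
  have hp : p.Prime := Fact.out
  rw [CharP.cast_eq_zero_iff F p]
  have h1 := Nat.choose_succ_right_eq b (m - i)
  have h2 : p ^ e ∣ b.choose (m - i) * (b - (m - i)) := by
    rw [← h1, show m - i + 1 = m + 1 - i by omega]
    exact Dvd.dvd.mul_left hdvd _
  by_contra hcon
  have h3 : Nat.Coprime (p ^ e) (b.choose (m - i)) :=
    Nat.Coprime.pow_left _ ((Nat.Prime.coprime_iff_not_dvd hp).mpr hcon)
  have h4 := h3.dvd_of_dvd_mul_left h2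
  have h5 := Nat.le_of_dvd (by omega) h4
  omega

private lemma NegP_P0_one : NegP_P0 F 1 = minor F 0 0 (0, 1) := by
  simp [NegP_P0, minor, xx, yy]

private lemma NegP_P0_ne : NegP_P0 F 1 ≠ 0 := by
  intro h0
  have h1 := congrArg (aeval (Sum.elim (fun i : ℕ => if i = 0 then (1 : F) else 0)
    (fun i : ℕ => if i = 1 then (1 : F) else 0))) h0
  simp [NegP_P0] at h1

private lemma NegP_not_dvd (k : ℕ) : ¬ (X (Sum.inl 0) : MvPolynomial (ℕ ⊕ ℕ) F) ∣
    (- NegP_P0 F 1) ^ k := by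
  intro h
  have h1 := (X_prime (R := F) (i := (Sum.inl 0 : ℕ ⊕ ℕ))).dvd_of_dvd_pow h
  obtain ⟨u, hu⟩ := h1
  have h2 := congrArg (aeval (Sum.elim (fun i : ℕ => if i = 0 then (0 : F) else 1)
    (fun _ : ℕ => (1 : F)))) hu
  simp [NegP_P0] at h2

/-- the coefficient is divisible by the power of `p_01`, and the quotient is in the ring -/
private lemma NegP_quot (p : ℕ) [Fact p.Prime] [CharP F p] {m n i e : ℕ} (hn2 : 2 ≤ n)
    (him : i ≤ m) (hie : i < p ^ e) (hdvd : p ^ e ∣ m + 1 - i) (f : MvPolynomial (Fin n) F)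
    (hf : f.IsHomogeneous m) :
    ∃ g : MvPolynomial (ℕ × ℕ) F,
      (fX f (fun l : Fin n => NegP_P1 F l) (fun l : Fin n => NegP_P0 F l)).coeff (m - i) =
        (- NegP_P0 F 1) ^ i * phi F n 0 0 g := by
  set G := (fX f (fun l : Fin n => NegP_P1 F l) (fun l : Fin n => NegP_P0 F l)).coeff (m - i)
    with hG
  set E := (fX f (fun l : Fin n => (X (Sum.inl (l : ℕ)) : MvPolynomial (ℕ ⊕ ℕ) F))
    (fun l : Fin n => NegP_P0 F l)).coeff (m - i) with hE
  have h1 : X (Sum.inl 0) ^ i * G = (- NegP_P0 F 1) ^ i * E := by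
    have e1 := NegP_fX_scale m f hf (fun l : Fin n => NegP_P1 F l) (fun l : Fin n => NegP_P0 F l)
      (X (Sum.inl 0)) (m - i)
    have e2 := NegP_fX_scale m f hf (fun l : Fin n => (X (Sum.inl (l : ℕ)) :
      MvPolynomial (ℕ ⊕ ℕ) F)) (fun l : Fin n => NegP_P0 F l) (- NegP_P0 F 1) (m - i)
    rw [show m - (m - i) = i by omega] at e1 e2
    rw [hG, hE, ← e1, ← e2]
    have e3 : (fun l : Fin n => X (Sum.inl 0) * NegP_P1 F l) = (fun l : Fin n =>
        (- NegP_P0 F 1 * X (Sum.inl (l : ℕ))) + X (Sum.inl 1) * NegP_P0 F l) := by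
      funext l
      unfold NegP_P1 NegP_P0
      ring
    rw [e3, NegP_fX_taylor f (fun l : Fin n => - NegP_P0 F 1 * X (Sum.inl (l : ℕ)))
      (fun l : Fin n => NegP_P0 F l) (X (Sum.inl 1))]
    apply NegP_coeff_taylor _ m (NegP_fX_deg m f hf _ _) _ _ (by omega)
    intro b hb hbm
    have h2 := NegP_choose (F := F) p him hie hdvd hb hbm
    rw [← map_natCast (algebraMap F (MvPolynomial (ℕ ⊕ ℕ) F)), h2, map_zero]
  have h2 : (X (Sum.inl 0) : MvPolynomial (ℕ ⊕ ℕ) F) ^ i ∣ E := by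
    apply X_prime.pow_dvd_of_dvd_mul_left i (NegP_not_dvd i)
    exact ⟨G, h1.symm⟩
  obtain ⟨E', hE'⟩ := h2
  have h3 : G = (- NegP_P0 F 1) ^ i * E' := by
    apply mul_left_cancel₀ (pow_ne_zero i (X_ne_zero (R := F) (Sum.inl 0 : ℕ ⊕ ℕ)))
    rw [h1, hE']
    ring
  have hA : ∀ l : Fin n, ∃ z, phi F n 0 0 z = NegP_P1 F l := by
    intro l
    unfold NegP_P1
    rcases lt_trichotomy (l : ℕ) 1 with h | h | h
    · have h0 : (l : ℕ) = 0 := by omega
      refine ⟨-X (0, 1), ?_⟩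
      rw [map_neg, iotaS_phi_minor (by omega) (by omega), h0]
      ring
    · refine ⟨0, ?_⟩
      rw [map_zero, h]
      ring
    · refine ⟨X (1, (l : ℕ)), ?_⟩
      rw [iotaS_phi_minor h l.2]
  have hB : ∀ l : Fin n, ∃ z, phi F n 0 0 z = NegP_P0 F l := by
    intro l
    unfold NegP_P0
    rcases Nat.eq_zero_or_pos (l : ℕ) with h | h
    · refine ⟨0, ?_⟩
      rw [map_zero, h]
      ring
    · refine ⟨X (0, (l : ℕ)), ?_⟩
      rw [iotaS_phi_minor h l.2]
  choose a ha using hA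
  choose b hb using hB
  have h4 : G = phi F n 0 0 ((fX f a b).coeff (m - i)) := by
    have h5 := NegP_map_fX (phi F n 0 0) f a b
    simp only [ha, hb] at h5
    rw [hG, ← h5, Polynomial.coeff_map]
    rfl
  have h5 : E' ∈ (phi F n 0 0).range := by
    apply iotaS_cancel hn2 i
    refine ⟨(-1) ^ i * (fX f a b).coeff (m - i), ?_⟩
    change phi F n 0 0 _ = _
    rw [map_mul, ← h4, h3, ← NegP_P0_one, map_pow, map_neg, map_one]
    rw [← mul_assoc, ← mul_pow]
    congr 2
    ring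
  obtain ⟨g, hg⟩ := h5
  refine ⟨g, ?_⟩
  rw [h3]
  congr 1
  exact hg.symm

theorem neg_alg (p : ℕ) [Fact p.Prime] [CharP F p] (m n i e : ℕ) (him : i ≤ m)
    (hie : i < p ^ e) (hdvd : p ^ e ∣ m + 1 - i) (hn : m + 4 ≤ n + i) (c : ℕ → ℕ → F)
    (hc : ∀ i j, i < j → j < n → c i j ≠ 0) (f : ℕ → MvPolynomial (Fin n) F)
    (hf : ∀ s, (f s).IsHomogeneous m) :
    X (Sum.inl 0) ^ i * X (Sum.inl (n - 1)) ^ (m - i) * minor F 0 0 (0, n - 1) ≠
      ∑ s ∈ Finset.Icc 1 (2 * n - 3),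
        rename (fun l : Fin n => (Sum.inl (l : ℕ) : ℕ ⊕ ℕ)) (f s) *
          phi F n 0 0 (hh F n c s) := by
  intro hP
  have hn4 : 4 ≤ n := by omega
  have h1 := congrArg (NegP_sub F) hP
  rw [map_sum, map_mul, map_mul, map_pow, map_pow, NegP_sub_minor] at h1
  have hX0 : NegP_sub F (X (Sum.inl 0)) = Polynomial.C (- NegP_P0 F 1) := by
    unfold NegP_sub
    rw [aeval_X, Sum.elim_inl]
    have e1 : NegP_P0 F 0 = 0 := by
      unfold NegP_P0
      ring
    have e2 : NegP_P1 F 0 = - NegP_P0 F 1 := by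
      unfold NegP_P0 NegP_P1
      ring
    rw [e1, e2, Polynomial.C_0, zero_mul, add_zero]
  have hXN : NegP_sub F (X (Sum.inl (n - 1))) = Polynomial.C (NegP_P1 F (n - 1)) +
      Polynomial.C (NegP_P0 F (n - 1)) * Polynomial.X := by
    unfold NegP_sub
    rw [aeval_X, Sum.elim_inl]
  rw [hX0, hXN] at h1
  have h2 := congrArg (fun P => Polynomial.coeff P (m - i)) h1
  rw [Polynomial.finsetSum_coeff, Polynomial.coeff_mul_C, ← map_pow, Polynomial.coeff_C_mul] at h2
  have h3 : ((Polynomial.C (NegP_P1 F (n - 1)) +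
      Polynomial.C (NegP_P0 F (n - 1)) * Polynomial.X) ^ (m - i)).coeff (m - i) =
      NegP_P0 F (n - 1) ^ (m - i) := by
    have h4 := Polynomial.coeff_pow_of_natDegree_le (m := m - i)
      (NegP_lin_deg (NegP_P1 F (n - 1)) (NegP_P0 F (n - 1)))
    rw [mul_one] at h4
    rw [h4]
    congr 1
    simp
  rw [h3] at h2
  choose g hg using fun s => NegP_quot p (by omega : 2 ≤ n) him hie hdvd (f s) (hf s)
  have h4 : ∀ s, (NegP_sub F (rename (fun l : Fin n => (Sum.inl (l : ℕ) : ℕ ⊕ ℕ)) (f s) *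
      phi F n 0 0 (hh F n c s))).coeff (m - i) =
      (- NegP_P0 F 1) ^ i * phi F n 0 0 (g s) * (- NegP_P0 F 1 * phi F n 0 0 (hh F n c s)) := by
    intro s
    rw [map_mul, NegP_sub_rename, NegP_sub_hh, Polynomial.coeff_mul_C, hg s]
  simp only [h4] at h2
  have hv : minor F 0 0 (0, n - 1) = NegP_P0 F (n - 1) := by
    simp [NegP_P0, minor, xx, yy]
  have hv2 : phi F n 0 0 (X (0, n - 1)) = NegP_P0 F (n - 1) := by
    rw [phi_X, if_pos ⟨by omega, by omega⟩, hv]
  have h5 : NegP_P0 F (n - 1) ^ (m - i + 1) =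
      ∑ s ∈ Finset.Icc 1 (2 * n - 3), phi F n 0 0 (g s) * phi F n 0 0 (hh F n c s) := by
    have h6 : (- NegP_P0 F 1) ^ (i + 1) ≠ 0 := pow_ne_zero _ (neg_ne_zero.mpr NegP_P0_ne)
    apply mul_left_cancel₀ h6
    rw [Finset.mul_sum]
    have h7 : (- NegP_P0 F 1) ^ (i + 1) * NegP_P0 F (n - 1) ^ (m - i + 1) =
        (-NegP_P0 F 1) ^ i * NegP_P0 F (n - 1) ^ (m - i) * (-NegP_P0 F 1 *
          minor F 0 0 (0, n - 1)) := by
      rw [hv]
      ring
    rw [h7, h2]
    apply Finset.sum_congr rfl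
    intro s _
    ring
  have h6 : (X (0, n - 1) : MvPolynomial (ℕ × ℕ) F) ^ (m - i + 1) -
      ∑ s ∈ Finset.Icc 1 (2 * n - 3), g s * hh F n c s ∈ II F n 0 2 := by
    apply II_mono (le_refl 0) (Nat.zero_le 2)
    rw [mem_II, map_sub, map_pow, hv2, h5, map_sum, sub_eq_zero]
    apply Finset.sum_congr rfl
    intro s _
    rw [map_mul]
  have h7 : (X (0, n - 1) : MvPolynomial (ℕ × ℕ) F) ^ (m - i + 1) ∈
      II F n 0 2 ⊔ Ideal.span (Set.range fun t => hh F n c t) := by
    have h8 : ∑ s ∈ Finset.Icc 1 (2 * n - 3), g s * hh F n c s ∈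
        Ideal.span (Set.range fun t => hh F n c t) := by
      apply Ideal.sum_mem
      intro s _
      exact Ideal.mul_mem_left _ _ (Ideal.subset_span ⟨s, rfl⟩)
    have h9 := Ideal.add_mem _ ((le_sup_left : II F n 0 2 ≤ II F n 0 2 ⊔
      Ideal.span (Set.range fun t => hh F n c t)) h6) ((le_sup_right :
      Ideal.span (Set.range fun t => hh F n c t) ≤ II F n 0 2 ⊔
      Ideal.span (Set.range fun t => hh F n c t)) h8)
    rwa [sub_add_cancel] at h9
  apply pow_not_mem n c hc (n - 3) 0 2 (by omega) (by omega)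
  rw [show n - 3 = (n - 3 - (m - i + 1)) + (m - i + 1) by omega, pow_add]
  exact Ideal.mul_mem_left _ _ h7

end

end Pool.Agent.GrP
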