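import Mathlib
import Pool.Agent.GrP.Defs
import Pool.Agent.GrP.NegP

/-!
The dual form of `neg_alg`: an array `σ` with the symmetries of `dual_gen` which is not symmetric.

Proof.  Let `W` be the `F`-subspace of `F[x,y]` spanned by all
`rename inl (monomial d 1) * phi F n 0 0 (hh F n c s)`, `d : Fin n →₀ ℕ` of degree `m`, `s ∈ Icc 1 (2n-3)`
(or: the set of all sums in `neg_alg`, which is a subspace).  By `neg_alg` the form
`P = x_0^i x_(n-1)^(m-i) (x_0 y_(n-1) - x_(n-1) y_0)` is not in `W`; let `L` be a linear functional with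
`L = 0` on `W` and `L P ≠ 0` (`Submodule.exists_le_ker_of_notMem` or similar).  Put
`σ v = L ((∏ j : Fin (m+1), X (inl (v j.succ))) * X (inr (v 0)))`.
* `hsym`: `σ v` depends only on `v 0` and the product over `j`; a permutation fixing `0` permutes the
  factors.
* `hch`: for fixed `w` and `s` the sum is `L` of
  `(∏ l : Fin m, X (inl (w l.succ.succ))) * ∑_(i,j : Fin n, i+j=s) c i j * x_j * y_i`
  (`i` stands in position `0`, so it is the index of `y`), and
  `∑_(i,j, i+j=s) c i j x_j y_i = - ∑_(i<j, i+j=s) c i j (x_i y_j - x_j y_i) = - phi (hh s)` by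
  `c j i = - c i j`, `c i i = 0`.  For `s = 0` and `s > 2n-3` the sum is zero (only diagonal pairs or
  none).
* not symmetric: for `v = (n-1; 0, .., 0 (i+1 times), n-1, .., n-1 (m-i times))` one has
  `σ v - σ (v ∘ swap 0 1) = L P` (position `1` has the value `0`).
-/

set_option autoImplicit false

namespace Pool.Agent.GrP

open MvPolynomial

variable {F : Type*} [Field F]

/-- The span of the `f_s(x) h_s(x,y)`. -/
private noncomputable def NegS_W (F : Type*) [Field F] (m n : ℕ) (c : ℕ → ℕ → F) :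
    Submodule F (MvPolynomial (ℕ ⊕ ℕ) F) where
  carrier := {q | ∃ f : ℕ → MvPolynomial (Fin n) F, (∀ s, (f s).IsHomogeneous m) ∧
    q = ∑ s ∈ Finset.Icc 1 (2 * n - 3),
        rename (fun l : Fin n => (Sum.inl (l : ℕ) : ℕ ⊕ ℕ)) (f s) *
          phi F n 0 0 (hh F n c s)}
  add_mem' := by
    rintro a b ⟨f, hf, rfl⟩ ⟨g, hg, rfl⟩
    refine ⟨fun s => f s + g s, fun s => (hf s).add (hg s), ?_⟩
    rw [← Finset.sum_add_distrib]
    exact Finset.sum_congr rfl fun s _ => by rw [map_add, add_mul]
  zero_mem' := ⟨fun _ => 0, fun _ => isHomogeneous_zero _ _ _, by simp⟩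
  smul_mem' := by
    rintro r a ⟨f, hf, rfl⟩
    refine ⟨fun s => r • f s, fun s => ?_, ?_⟩
    · exact (homogeneousSubmodule (Fin n) F m).smul_mem r (hf s)
    · rw [Finset.smul_sum]
      exact Finset.sum_congr rfl fun s _ => by rw [map_smul, smul_mul_assoc]

private theorem NegS_phi (n : ℕ) (c : ℕ → ℕ → F) (hanti : ∀ i j, c j i = - c i j)
    (hdiag : ∀ i, c i i = 0) (s : ℕ) :
    ∑ i : Fin n, ∑ j : Fin n, (if (i : ℕ) + (j : ℕ) = s then
      C (c i j) * (X (Sum.inl (j : ℕ)) * X (Sum.inr (i : ℕ)) : MvPolynomial (ℕ ⊕ ℕ) F) else 0) =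
      - phi F n 0 0 (hh F n c s) := by
  have e1 : phi F n 0 0 (hh F n c s) =
      ∑ i ∈ Finset.range n, ∑ j ∈ Finset.range n, (if i < j ∧ i + j = s then
        C (c i j) * (X (Sum.inl i) * X (Sum.inr j) - X (Sum.inl j) * X (Sum.inr i) :
          MvPolynomial (ℕ ⊕ ℕ) F) else 0) := by
    rw [hh, map_sum, Finset.sum_filter, Finset.sum_product]
    refine Finset.sum_congr rfl fun i hi => Finset.sum_congr rfl fun j hj => ?_
    by_cases h : i < j ∧ i + j = s
    · rw [if_pos h, if_pos h, map_mul]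
      simp only [phi, aeval_X, aeval_C, algebraMap_eq]
      rw [if_pos ⟨h.1, Finset.mem_range.1 hj⟩]
      simp [minor, xx, yy]
    · rw [if_neg h, if_neg h]
  have e2 : ∑ i : Fin n, ∑ j : Fin n, (if (i : ℕ) + (j : ℕ) = s then
      C (c i j) * (X (Sum.inl (j : ℕ)) * X (Sum.inr (i : ℕ)) : MvPolynomial (ℕ ⊕ ℕ) F) else 0) =
      ∑ i ∈ Finset.range n, ∑ j ∈ Finset.range n, (if i + j = s then
      C (c i j) * (X (Sum.inl j) * X (Sum.inr i) : MvPolynomial (ℕ ⊕ ℕ) F) else 0) := by
    rw [Finset.sum_range]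
    refine Finset.sum_congr rfl fun i _ => ?_
    rw [Finset.sum_range]
  rw [e2, e1]
  have e3 : ∀ i j : ℕ, (if i + j = s then
      C (c i j) * (X (Sum.inl j) * X (Sum.inr i) : MvPolynomial (ℕ ⊕ ℕ) F) else 0) =
      (if i < j ∧ i + j = s then
        C (c i j) * (X (Sum.inl j) * X (Sum.inr i) : MvPolynomial (ℕ ⊕ ℕ) F) else 0) +
      (if j < i ∧ j + i = s then
        C (c i j) * (X (Sum.inl j) * X (Sum.inr i) : MvPolynomial (ℕ ⊕ ℕ) F) else 0) := by
    intro i j
    rcases lt_trichotomy i j with h | h | h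
    · simp [h, h.not_gt]
    · subst h
      simp [hdiag]
    · simp [h, h.not_gt, add_comm]
  simp_rw [e3]
  simp_rw [Finset.sum_add_distrib]
  have e4 : ∑ i ∈ Finset.range n, ∑ j ∈ Finset.range n, (if j < i ∧ j + i = s then
        C (c i j) * (X (Sum.inl j) * X (Sum.inr i) : MvPolynomial (ℕ ⊕ ℕ) F) else 0) =
      ∑ i ∈ Finset.range n, ∑ j ∈ Finset.range n, (if i < j ∧ i + j = s then
        C (c j i) * (X (Sum.inl i) * X (Sum.inr j) : MvPolynomial (ℕ ⊕ ℕ) F) else 0) :=
    Finset.sum_comm
  rw [e4, ← Finset.sum_add_distrib, ← Finset.sum_neg_distrib]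
  refine Finset.sum_congr rfl fun i _ => ?_
  rw [← Finset.sum_add_distrib, ← Finset.sum_neg_distrib]
  refine Finset.sum_congr rfl fun j _ => ?_
  by_cases h : i < j ∧ i + j = s
  · rw [if_pos h, if_pos h, if_pos h, hanti i j, C_neg]
    ring
  · rw [if_neg h, if_neg h, if_neg h]
    simp

private theorem NegS_mem (m n : ℕ) (c : ℕ → ℕ → F) (w : Fin m → Fin n) (s : ℕ) :
    (∏ l : Fin m, X (Sum.inl ((w l : Fin n) : ℕ))) * phi F n 0 0 (hh F n c s) ∈
      NegS_W F m n c := by
  classical
  by_cases hs : s ∈ Finset.Icc 1 (2 * n - 3)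
  · refine ⟨fun t => if t = s then ∏ l : Fin m, X (w l) else 0, fun t => ?_, ?_⟩
    · by_cases h : t = s
      · simp only [if_pos h]
        have := IsHomogeneous.prod (Finset.univ : Finset (Fin m))
          (fun l => (X (w l) : MvPolynomial (Fin n) F)) (fun _ => 1)
          (fun l _ => isHomogeneous_X F (w l))
        simpa using this
      · simp only [if_neg h]
        exact isHomogeneous_zero _ _ _
    · rw [Finset.sum_eq_single s]
      · simp
      · intro b _ hb
        simp [hb]
      · intro h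
        exact absurd hs h
  · have : phi F n 0 0 (hh F n c s) = 0 := by
      rw [hh, map_sum]
      refine Finset.sum_eq_zero fun u hu => ?_
      exfalso
      rw [Finset.mem_filter, Finset.mem_product, Finset.mem_range, Finset.mem_range] at hu
      apply hs
      rw [Finset.mem_Icc]
      omega
    rw [this, mul_zero]
    exact Submodule.zero_mem _

theorem neg_dual (p : ℕ) [Fact p.Prime] [CharP F p] (m n i e : ℕ) (him : i ≤ m)
    (hie : i < p ^ e) (hdvd : p ^ e ∣ m + 1 - i) (hn : m + 4 ≤ n + i) (c : ℕ → ℕ → F)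
    (hanti : ∀ i j, c j i = - c i j) (hdiag : ∀ i, c i i = 0)
    (hc : ∀ i j, i < j → j < n → c i j ≠ 0) :
    ∃ σ : (Fin (m + 2) → Fin n) → F,
      (∀ π : Equiv.Perm (Fin (m + 2)), π 0 = 0 → ∀ v, σ (v ∘ π) = σ v) ∧
      (∀ (w : Fin (m + 2) → Fin n) (s : ℕ),
        ∑ i : Fin n, ∑ j : Fin n, (if (i : ℕ) + (j : ℕ) = s then
          c i j * σ (Function.update (Function.update w 0 i) 1 j) else 0) = 0) ∧
      ∃ v, σ (v ∘ Equiv.swap 0 1) ≠ σ v := by
  classical
  set P : MvPolynomial (ℕ ⊕ ℕ) F :=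
    X (Sum.inl 0) ^ i * X (Sum.inl (n - 1)) ^ (m - i) * minor F 0 0 (0, n - 1) with hP
  have hPW : P ∉ NegS_W F m n c := by
    rintro ⟨f, hf, h⟩
    exact neg_alg p m n i e him hie hdvd hn c hc f hf h
  obtain ⟨L, hLP, hLW⟩ : ∃ L : MvPolynomial (ℕ ⊕ ℕ) F →ₗ[F] F, L P ≠ 0 ∧
      ∀ q ∈ NegS_W F m n c, L q = 0 := by
    obtain ⟨L, h1, h2⟩ := Submodule.exists_le_ker_of_notMem hPW
    exact ⟨L, h1, fun q hq => LinearMap.mem_ker.1 (h2 hq)⟩
  let x : ℕ → MvPolynomial (ℕ ⊕ ℕ) F := fun l => X (Sum.inl l)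
  let y : ℕ → MvPolynomial (ℕ ⊕ ℕ) F := fun l => X (Sum.inr l)
  let σ : (Fin (m + 2) → Fin n) → F := fun v =>
    L ((∏ j : Fin (m + 1), x (v j.succ)) * y (v 0))
  refine ⟨σ, ?_, ?_, ?_⟩
  · intro π hπ v
    have key : (∏ j : Fin (m + 1), x (v (π j.succ))) = ∏ j : Fin (m + 1), x (v j.succ) := by
      have h1 : x (v (π 0)) * (∏ j : Fin (m + 1), x (v (π j.succ))) =
          x (v 0) * ∏ j : Fin (m + 1), x (v j.succ) := by
        rw [← Fin.prod_univ_succ (fun k => x (v (π k))), ← Fin.prod_univ_succ (fun k => x (v k))]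
        exact Equiv.prod_comp π (fun k => x (v k))
      rw [hπ] at h1
      exact mul_left_cancel₀ (X_ne_zero _) h1
    show L ((∏ j : Fin (m + 1), x (v (π j.succ))) * y (v (π 0))) = _
    rw [key, hπ]
  · intro w s
    have hσ : ∀ i j : Fin n, σ (Function.update (Function.update w 0 i) 1 j) =
        L ((∏ l : Fin m, x (w l.succ.succ)) * (x j * y i)) := by
      intro i j
      show L ((∏ l : Fin (m + 1), x (Function.update (Function.update w 0 i) 1 j l.succ)) *
        y (Function.update (Function.update w 0 i) 1 j 0)) = _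
      rw [Fin.prod_univ_succ]
      have h0 : Function.update (Function.update w 0 i) 1 j 0 = i := by
        rw [Function.update_of_ne (by simp), Function.update_self]
      have h1 : Function.update (Function.update w 0 i) 1 j (Fin.succ (0 : Fin (m + 1))) = j := by
        rw [Fin.succ_zero_eq_one, Function.update_self]
      have h2 : ∀ l : Fin m, Function.update (Function.update w 0 i) 1 j l.succ.succ =
          w l.succ.succ := by
        intro l
        rw [Function.update_of_ne, Function.update_of_ne]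
        · exact Fin.succ_ne_zero _
        · intro h
          have := Fin.succ_injective _ (h.trans (Fin.succ_zero_eq_one).symm)
          exact Fin.succ_ne_zero _ this
      rw [h0, h1]
      simp_rw [h2]
      congr 1
      ring
    have h3 : ∀ i j : Fin n, (if (i : ℕ) + (j : ℕ) = s then
          c i j * σ (Function.update (Function.update w 0 i) 1 j) else 0) =
        L ((∏ l : Fin m, x (w l.succ.succ)) * (if (i : ℕ) + (j : ℕ) = s then
          C (c i j) * (X (Sum.inl (j : ℕ)) * X (Sum.inr (i : ℕ))) else 0)) := by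
      intro i j
      by_cases h : (i : ℕ) + (j : ℕ) = s
      · rw [if_pos h, if_pos h, hσ i j, ← smul_eq_mul, ← map_smul]
        congr 1
        rw [C_mul', mul_smul_comm]
      · rw [if_neg h, if_neg h, mul_zero, map_zero]
    simp_rw [h3]
    simp_rw [← map_sum, ← Finset.mul_sum]
    rw [NegS_phi n c hanti hdiag s, mul_neg, map_neg,
      hLW _ (NegS_mem m n c (fun l => w l.succ.succ) s), neg_zero]
  · have hn4 : 4 ≤ n := by omega
    let v : Fin (m + 2) → Fin n := fun k =>
      if (k : ℕ) = 0 then ⟨n - 1, by omega⟩ else if (k : ℕ) ≤ i + 1 then ⟨0, by omega⟩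
        else ⟨n - 1, by omega⟩
    refine ⟨v, ?_⟩
    intro hcon
    have hprod : (∏ l : Fin m, x (v l.succ.succ)) = x 0 ^ i * x (n - 1) ^ (m - i) := by
      have h1 : ∀ l : Fin m, x (v l.succ.succ) = if (l : ℕ) < i then x 0 else x (n - 1) := by
        intro l
        by_cases h : (l : ℕ) < i
        · rw [if_pos h]
          simp only [v, Fin.val_succ]
          rw [if_neg (by omega), if_pos (by omega)]
        · rw [if_neg h]
          simp only [v, Fin.val_succ]
          rw [if_neg (by omega), if_neg (by omega)]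
      rw [Finset.prod_congr rfl fun l _ => h1 l, Finset.prod_ite, Finset.prod_const,
        Finset.prod_const]
      have h2 : (Finset.univ.filter fun l : Fin m => (l : ℕ) < i).card = i := by
        rw [Fin.card_filter_val_lt]
        omega
      have h3 : (Finset.univ.filter fun l : Fin m => ¬ (l : ℕ) < i).card = m - i := by
        have := Finset.card_filter_add_card_filter_not (s := (Finset.univ : Finset (Fin m)))
          (fun l : Fin m => (l : ℕ) < i)
        rw [h2, Finset.card_univ, Fintype.card_fin] at this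
        omega
      rw [h2, h3]
    have hv0 : ((v 0 : Fin n) : ℕ) = n - 1 := by simp [v]
    have hv1 : ((v 1 : Fin n) : ℕ) = 0 := by simp [v]
    have a1 : σ v = L (x 0 * (x 0 ^ i * x (n - 1) ^ (m - i)) * y (n - 1)) := by
      show L ((∏ j : Fin (m + 1), x (v j.succ)) * y (v 0)) = _
      rw [Fin.prod_univ_succ, hprod, hv0]
      rw [show (Fin.succ (0 : Fin (m + 1))) = (1 : Fin (m + 2)) from rfl, hv1]
    have a2 : σ (v ∘ Equiv.swap 0 1) = L (x (n - 1) * (x 0 ^ i * x (n - 1) ^ (m - i)) * y 0) := by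
      show L ((∏ j : Fin (m + 1), x (v (Equiv.swap 0 1 j.succ))) * y (v (Equiv.swap 0 1 0))) = _
      rw [Fin.prod_univ_succ]
      have b1 : ∀ l : Fin m, Equiv.swap (0 : Fin (m + 2)) 1 l.succ.succ = l.succ.succ := by
        intro l
        refine Equiv.swap_apply_of_ne_of_ne (Fin.succ_ne_zero _) ?_
        intro h
        have := Fin.succ_injective _ (h.trans (Fin.succ_zero_eq_one).symm)
        exact Fin.succ_ne_zero _ this
      simp_rw [b1]
      rw [hprod, show (Fin.succ (0 : Fin (m + 1))) = (1 : Fin (m + 2)) from rfl,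
        Equiv.swap_apply_right, Equiv.swap_apply_left, hv0, hv1]
    rw [a1, a2] at hcon
    apply hLP
    have : P = x 0 * (x 0 ^ i * x (n - 1) ^ (m - i)) * y (n - 1) -
        x (n - 1) * (x 0 ^ i * x (n - 1) ^ (m - i)) * y 0 := by
      rw [hP]
      simp only [minor, xx, yy, Nat.zero_le, if_true, x, y]
      ring
    rw [this, map_sub, hcon, sub_self]

end Pool.Agent.GrP
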