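import Mathlib
import Pool.Agent.GrP.Final
import Pool.Agent.GrP.NegS
import Pool.Agent.GrP.NegE
import Pool.Agent.GrP.NegN
import Pool.Agent.GrP.NegB

/-!
`K_(m+1,1)(C, ω_C) ≠ 0` for the rational curve with the `g` nodes `τ_l ~ ρ^(-1) τ_l`, if
`i < p^e`, `p^e ∣ m + 1 - i` and `2m + 4 ≤ g + i` for some `i ≤ m`.
-/

set_option autoImplicit false

namespace Pool.Agent.GrP

open Polynomial Pool.Agent.GrS

section

variable {F : Type*} [Field F]

theorem kNod_ne (p : ℕ) [Fact p.Prime] [CharP F p] (m g i e : ℕ) (him : i ≤ m)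
    (hie : i < p ^ e) (hdvd : p ^ e ∣ m + 1 - i) (hg : 2 * m + 4 ≤ g + i)
    (ρ : F) (hρ0 : ρ ≠ 0) (hρ : ∀ i j, i < j → j < g - m → ρ ^ i ≠ ρ ^ j)
    (τ : Fin g → F) (hτ0 : ∀ l, τ l ≠ 0) (hτ : Function.Injective τ)
    (hτρ : ∀ l l', τ l ≠ ρ * τ l') :
    kNod τ (fun l => ρ⁻¹ * τ l) m 0 ≠ 0 := by
  have hab := inj_elim ρ hρ0 τ hτ hτρ
  have hgn : (g - m) + m = g := by omega
  obtain ⟨σ, hsym, hch, hns⟩ := neg_dual p m (g - m) i e him hie hdvd (by omega)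
    (fun i j => ρ ^ j - ρ ^ i) (fun i j => by ring) (fun i => sub_self _)
    (fun i j hij hj => sub_ne_zero.mpr (hρ i j hij hj).symm)
  unfold kNod
  refine bridge_conv g m (basN τ (fun l => ρ⁻¹ * τ l) hab)
    (⟨1, one_mem_HN _ _⟩ : HN τ (fun l => ρ⁻¹ * τ l) 0) HN_zero _ ?_ _ (negE τ σ)
    (negE_alt τ σ hsym) ?_ (negE_not_alt hgn τ hτ0 hτ σ hns)
  · intro v
    exact Subtype.ext (mul_one v.1)
  · intro w
    have h := negE_closed hgn ρ hρ0 τ hτ0 hτ σ hch w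
    apply Subtype.ext
    rw [AddSubmonoidClass.coe_finsetSum, ZeroMemClass.coe_zero, ← h]
    apply Finset.sum_congr rfl
    intro i _
    rw [AddSubmonoidClass.coe_finsetSum]
    apply Finset.sum_congr rfl
    intro j _
    rw [SetLike.val_smul, RatFunc.smul_eq_C_mul]
    congr 1
    rw [mul_comm (om (τ i) (ρ⁻¹ * τ i))]
    change (basN τ (fun l => ρ⁻¹ * τ l) hab j : RatFunc F) *
      (basN τ (fun l => ρ⁻¹ * τ l) hab i : RatFunc F) = _
    rw [basN_apply, basN_apply]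

end

end Pool.Agent.GrP
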