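import Mathlib
import Pool.Agent.GrP.NegF

/-!
The exact length of the linear strand of the rational curves `C` with the `g` nodes
`τ_l ~ ρ^(-1) τ_l` in characteristic `p`: `K_(i,1)(C, ω_C) = 0` iff the interval `[g - 1 - i, i]`
contains a number `a p^s` with `1 ≤ a < p`.  In particular
`K_(⌊g/2⌋,1)(C, ω_C) = 0` iff `g ∈ {2ap^s, 2ap^s + 1, 2ap^s + 2}` for some `1 ≤ a < p`, `s ≥ 0`.
-/

set_option autoImplicit false

namespace Pool.Agent.GrP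

open Polynomial Pool.Agent.GrS

section

variable {F : Type*} [Field F]

/-- vanishing -/
theorem kNod_gen (p : ℕ) [Fact p.Prime] [CharP F p] (m m' g : ℕ) (hmm : m ≤ m')
    (hg : g ≤ m + m' + 3) (hbin : ∀ j ≤ m, (m.choose j : F) ≠ 0) (ρ : F) (hρ0 : ρ ≠ 0)
    (hρ : ∀ i j, i < j → j < g - m' → ρ ^ i ≠ ρ ^ j)
    (τ : Fin g → F) (hτ0 : ∀ l, τ l ≠ 0) (hτ : Function.Injective τ)
    (hτρ : ∀ l l', τ l ≠ ρ * τ l') :
    kNod τ (fun l => ρ⁻¹ * τ l) m' 0 = 0 := by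
  have hab := inj_elim ρ hρ0 τ hτ hτρ
  unfold kNod
  refine bridge_main g m' (basN τ (fun l => ρ⁻¹ * τ l) hab)
    (⟨1, one_mem_HN _ _⟩ : HN τ (fun l => ρ⁻¹ * τ l) 0) HN_zero _ ?_ _ ?_ ?_
  · intro v
    exact Subtype.ext (mul_one v.1)
  · intro v w
    exact Subtype.ext (mul_comm v.1 w.1)
  · intro e halt hcl
    refine nodal_gen p m m' g hmm hg hbin ρ hρ0 hρ τ hτ0 hτ hτρ e halt ?_
    intro w
    have h := congrArg Subtype.val (hcl w)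
    rw [AddSubmonoidClass.coe_finsetSum] at h
    rw [ZeroMemClass.coe_zero] at h
    rw [← h]
    apply Finset.sum_congr rfl
    intro i _
    rw [AddSubmonoidClass.coe_finsetSum]
    apply Finset.sum_congr rfl
    intro j _
    rw [SetLike.val_smul, RatFunc.smul_eq_C_mul]
    congr 1
    rw [mul_comm]
    change _ = (basN τ (fun l => ρ⁻¹ * τ l) hab j : RatFunc F) *
      (basN τ (fun l => ρ⁻¹ * τ l) hab i : RatFunc F)
    rw [basN_apply, basN_apply]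

/-- `M = a p^s + i` with `1 ≤ a < p`, `i < p^s` -/
theorem NegI_top (p : ℕ) (hp : p.Prime) (M : ℕ) (hM : 1 ≤ M) :
    ∃ a s i, 0 < a ∧ a < p ∧ i < p ^ s ∧ M = a * p ^ s + i := by
  have hps : 0 < p ^ Nat.log p M := pow_pos hp.pos _
  refine ⟨M / p ^ Nat.log p M, Nat.log p M, M % p ^ Nat.log p M, ?_, ?_, Nat.mod_lt _ hps, ?_⟩
  · exact Nat.div_pos (Nat.pow_log_le_self p (by omega)) hps
  · rw [Nat.div_lt_iff_lt_mul hps, mul_comm, ← pow_succ]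
    exact Nat.lt_pow_succ_log_self hp.one_lt M
  · exact (Nat.div_add_mod' M _).symm

/-- `K_(m+1,1)(C, ω_C) = 0` iff some `a p^s`, `1 ≤ a < p`, is in the interval `[g - 2 - m, m + 1]`. -/
theorem kNod_iff_gen (p : ℕ) [Fact p.Prime] [CharP F p] (g m : ℕ)
    (ρ : F) (hρ0 : ρ ≠ 0) (hρ : ∀ j, 0 < j → j < g - m → ρ ^ j ≠ 1)
    (τ : Fin g → F) (hτ0 : ∀ l, τ l ≠ 0) (hτ : Function.Injective τ)
    (hτρ : ∀ l l', τ l ≠ ρ * τ l') :
    kNod τ (fun l => ρ⁻¹ * τ l) m 0 = 0 ↔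
      ∃ a s, 0 < a ∧ a < p ∧ a * p ^ s ≤ m + 1 ∧ g ≤ m + 2 + a * p ^ s := by
  have hp : p.Prime := Fact.out
  have hρ' : ∀ i j, i < j → j < g - m → ρ ^ i ≠ ρ ^ j := by
    intro i j hij hj h
    refine hρ (j - i) (by omega) (by omega) ?_
    have h1 : ρ ^ i * ρ ^ (j - i) = ρ ^ i * 1 := by
      rw [← pow_add, mul_one, show i + (j - i) = j by omega, h]
    exact mul_left_cancel₀ (pow_ne_zero _ hρ0) h1
  constructor
  · intro h0
    by_contra hcon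
    obtain ⟨a, s, i, ha, hap, hi, hM⟩ := NegI_top p hp (m + 1) (by omega)
    have h1 : ¬ g ≤ m + 2 + a * p ^ s := fun h => hcon ⟨a, s, ha, hap, by omega, h⟩
    have h2 : 0 < a * p ^ s := Nat.mul_pos ha (pow_pos hp.pos s)
    refine kNod_ne p m g i s (by omega) hi ?_ (by omega) ρ hρ0 hρ' τ hτ0 hτ hτρ h0
    rw [show m + 1 - i = a * p ^ s by omega]
    exact dvd_mul_left _ _
  · rintro ⟨a, s, ha, hap, h1, h2⟩
    have hps : 0 < a * p ^ s := Nat.mul_pos ha (pow_pos hp.pos s)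
    have hbin : ∀ j ≤ a * p ^ s - 1, ((a * p ^ s - 1).choose j : F) ≠ 0 :=
      fun j hj => binom_ne_zero p a s ha hap j hj
    exact kNod_gen p (a * p ^ s - 1) m g (by omega) (by omega) hbin ρ hρ0 hρ' τ hτ0 hτ hτρ

/-- The exact set: `dim K_(g/2,1)(C, ω_C) = 0` iff `g` is `2ap^s`, `2ap^s + 1` or `2ap^s + 2`. -/
theorem kNod_iff (p : ℕ) [Fact p.Prime] [CharP F p] (g : ℕ) (hg3 : 3 ≤ g)
    (ρ : F) (hρ0 : ρ ≠ 0) (hρ : ∀ j, 0 < j → j < g - (g / 2 - 1) → ρ ^ j ≠ 1)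
    (τ : Fin g → F) (hτ0 : ∀ l, τ l ≠ 0) (hτ : Function.Injective τ)
    (hτρ : ∀ l l', τ l ≠ ρ * τ l') :
    kNod τ (fun l => ρ⁻¹ * τ l) (g / 2 - 1) 0 = 0 ↔
      ∃ a s, 0 < a ∧ a < p ∧
        (g = 2 * (a * p ^ s) ∨ g = 2 * (a * p ^ s) + 1 ∨ g = 2 * (a * p ^ s) + 2) := by
  rw [kNod_iff_gen p g (g / 2 - 1) ρ hρ0 hρ τ hτ0 hτ hτρ]
  constructor
  · rintro ⟨a, s, ha, hap, h1, h2⟩
    exact ⟨a, s, ha, hap, by omega⟩
  · rintro ⟨a, s, ha, hap, h⟩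
    have hps : 0 < a * p ^ s := Nat.mul_pos ha (pow_pos (Fact.out : p.Prime).pos s)
    exact ⟨a, s, ha, hap, by omega, by omega⟩

end

end Pool.Agent.GrP
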